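import Mathlib

/-!
Abstract drawings of graphs on a cylinder: vertices have directions `u i` (unit vectors in the
plane) and heights `z i`; an edge `e = (j, k)` goes from west (`j`) to east (`k`) over an angle
less than `π`; its height over a direction `p` is the linear function `H u z e p`.
-/

namespace Pool.Agent.R157.Sph

/-- Cross product in the plane. -/
def cr (p q : ℝ × ℝ) : ℝ := p.1 * q.2 - p.2 * q.1

/-- Inner product in the plane. -/
def ip (p q : ℝ × ℝ) : ℝ := p.1 * q.1 + p.2 * q.2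

lemma cr_self (p : ℝ × ℝ) : cr p p = 0 := by unfold cr; ring

lemma cr_comm (p q : ℝ × ℝ) : cr p q = - cr q p := by unfold cr; ring

lemma plucker (a b c d : ℝ × ℝ) :
    cr a b * cr c d - cr a c * cr b d + cr a d * cr b c = 0 := by
  unfold cr; ring

lemma T4 {a b c d : ℝ × ℝ} (hab : 0 < cr a b) (hbc : 0 < cr b c) (hac : 0 < cr a c)
    (hcd : 0 < cr c d) (had : 0 < cr a d) : 0 < cr b d := by
  have h := plucker a b c d
  have h1 : 0 < cr a b * cr c d := mul_pos hab hcd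
  have h2 : 0 < cr a d * cr b c := mul_pos had hbc
  have h3 : 0 < cr a c * cr b d := by linarith
  exact (pos_iff_pos_of_mul_pos h3).1 hac

lemma T4' {a b c d : ℝ × ℝ} (hab : 0 < cr a b) (hbc : 0 < cr b c) (hbd : 0 < cr b d)
    (hcd : 0 < cr c d) (had : 0 < cr a d) : 0 < cr a c := by
  have h := plucker a b c d
  have h1 : 0 < cr a b * cr c d := mul_pos hab hcd
  have h2 : 0 < cr a d * cr b c := mul_pos had hbc
  have h3 : 0 < cr a c * cr b d := by linarith
  exact (pos_iff_pos_of_mul_pos h3).2 hbd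

variable {n : ℕ}

/-- Height over the direction `p` of the great circle through the points with directions
`u e.1, u e.2` and heights `z e.1, z e.2`. -/
noncomputable def H (u : Fin n → ℝ × ℝ) (z : Fin n → ℝ) (e : Fin n × Fin n) (p : ℝ × ℝ) : ℝ :=
  (z e.1 * cr p (u e.2) + z e.2 * cr (u e.1) p) / cr (u e.1) (u e.2)

/-- The direction `p` lies in the open cone between the two ends of the edge. -/
def Ov (u : Fin n → ℝ × ℝ) (e : Fin n × Fin n) (p : ℝ × ℝ) : Prop :=
  0 < cr (u e.1) p ∧ 0 < cr p (u e.2)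

/-- The direction `p` lies in the closed cone. -/
def CC (u : Fin n → ℝ × ℝ) (e : Fin n × Fin n) (p : ℝ × ℝ) : Prop :=
  0 ≤ cr (u e.1) p ∧ 0 ≤ cr p (u e.2)

lemma Ov.cc {u : Fin n → ℝ × ℝ} {e : Fin n × Fin n} {p : ℝ × ℝ} (h : Ov u e p) : CC u e p :=
  ⟨h.1.le, h.2.le⟩

/-- Slope at `x` of the edge from `x` to `k`. -/
noncomputable def sl (u : Fin n → ℝ × ℝ) (z : Fin n → ℝ) (x k : Fin n) : ℝ :=
  (z k - z x * ip (u x) (u k)) / cr (u x) (u k)

/-- A drawing without crossings. -/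
structure Good (u : Fin n → ℝ × ℝ) (z : Fin n → ℝ) (E : Finset (Fin n × Fin n)) : Prop where
  unit : ∀ i, ip (u i) (u i) = 1
  gen : ∀ i j, i ≠ j → cr (u i) (u j) ≠ 0
  pos : ∀ e ∈ E, 0 < cr (u e.1) (u e.2)
  P1 : ∀ e ∈ E, ∀ v, Ov u e (u v) → H u z e (u v) ≠ z v
  P2 : ∀ e ∈ E, ∀ f ∈ E, e ≠ f → ∀ p, Ov u e p → Ov u f p → H u z e p ≠ H u z f p

lemma H_fst (u : Fin n → ℝ × ℝ) (z : Fin n → ℝ) (e : Fin n × Fin n)
    (h : cr (u e.1) (u e.2) ≠ 0) : H u z e (u e.1) = z e.1 := by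
  unfold H; rw [cr_self]; field_simp; ring

lemma H_snd (u : Fin n → ℝ × ℝ) (z : Fin n → ℝ) (e : Fin n × Fin n)
    (h : cr (u e.1) (u e.2) ≠ 0) : H u z e (u e.2) = z e.2 := by
  unfold H; rw [cr_self]; field_simp; ring

lemma H_lin (u : Fin n → ℝ × ℝ) (z : Fin n → ℝ) (e : Fin n × Fin n) (a b : ℝ) (p q : ℝ × ℝ) :
    H u z e (a • p + b • q) = a * H u z e p + b * H u z e q := by
  unfold H cr; simp only [Prod.fst_add, Prod.snd_add, Prod.smul_fst, Prod.smul_snd, smul_eq_mul]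
  ring

lemma H_neg (u : Fin n → ℝ × ℝ) (z : Fin n → ℝ) (e : Fin n × Fin n) (p : ℝ × ℝ) :
    H u (-z) e p = - H u z e p := by
  unfold H; simp only [Pi.neg_apply]; ring

lemma H_addsmul (u : Fin n → ℝ × ℝ) (z z' : Fin n → ℝ) (t : ℝ) (e : Fin n × Fin n) (p : ℝ × ℝ) :
    H u (z + t • z') e p = H u z e p + t * H u z' e p := by
  unfold H; simp only [Pi.add_apply, Pi.smul_apply, smul_eq_mul]; ring

lemma H_swap (u : Fin n → ℝ × ℝ) (z : Fin n → ℝ) (j k : Fin n) (p : ℝ × ℝ) :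
    H u z (j, k) p = H u z (k, j) p := by
  unfold H; simp only
  rw [cr_comm (u k) p, cr_comm (u k) (u j), cr_comm p (u j)]
  rw [div_neg, ← neg_div]; congr 1; ring

/-- Expansion at the west end. -/
lemma H_sl (u : Fin n → ℝ × ℝ) (z : Fin n → ℝ) (x k : Fin n) (hx : ip (u x) (u x) = 1)
    (h : cr (u x) (u k) ≠ 0) (p : ℝ × ℝ) :
    H u z (x, k) p = z x * ip (u x) p + sl u z x k * cr (u x) p := by
  unfold H sl; simp only
  field_simp
  have : cr p (u k) = ip (u x) p * cr (u x) (u k) - ip (u x) (u k) * cr (u x) p := by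
    have e1 : cr p (u k) = cr p (u k) * ip (u x) (u x) := by rw [hx]; ring
    rw [e1]; unfold cr ip; ring
  rw [this]; ring

/-- Two edges cannot cross. -/
lemma Good.CL {u : Fin n → ℝ × ℝ} {z : Fin n → ℝ} {E : Finset (Fin n × Fin n)}
    (G : Good u z E) {e f : Fin n × Fin n} (he : e ∈ E) (hf : f ∈ E) (hef : e ≠ f)
    {p q : ℝ × ℝ} (hpq : 0 < cr p q) (ep : CC u e p) (eq : CC u e q) (fp : CC u f p)
    (fq : CC u f q) (h1 : H u z e p < H u z f p) (h2 : H u z f q < H u z e q) : False := by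
  set a : ℝ := H u z e q - H u z f q with ha
  set b : ℝ := H u z f p - H u z e p with hb
  have ha0 : 0 < a := by rw [ha]; linarith
  have hb0 : 0 < b := by rw [hb]; linarith
  have key : ∀ w : ℝ × ℝ, ip w w = 1 → 0 ≤ cr w p → 0 ≤ cr w q → 0 < cr w (a • p + b • q) := by
    intro w hw h3 h4
    have e1 : cr w (a • p + b • q) = a * cr w p + b * cr w q := by
      unfold cr; simp only [Prod.fst_add, Prod.snd_add, Prod.smul_fst, Prod.smul_snd, smul_eq_mul]
      ring
    rw [e1]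
    rcases h3.lt_or_eq with h5 | h5
    · have := mul_pos ha0 h5
      have := mul_nonneg hb0.le h4
      linarith
    rcases h4.lt_or_eq with h6 | h6
    · have := mul_pos hb0 h6
      have := mul_nonneg ha0.le h3
      linarith
    exfalso
    have e2 : cr p q = ip w p * cr w q - ip w q * cr w p := by
      have : cr p q = cr p q * ip w w := by rw [hw]; ring
      rw [this]; unfold cr ip; ring
    rw [← h5, ← h6] at e2
    simp at e2
    linarith
  have key' : ∀ w : ℝ × ℝ, ip w w = 1 → 0 ≤ cr p w → 0 ≤ cr q w → 0 < cr (a • p + b • q) w := by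
    intro w hw h3 h4
    have e1 : cr (a • p + b • q) w = a * cr p w + b * cr q w := by
      unfold cr; simp only [Prod.fst_add, Prod.snd_add, Prod.smul_fst, Prod.smul_snd, smul_eq_mul]
      ring
    rw [e1]
    rcases h3.lt_or_eq with h5 | h5
    · have := mul_pos ha0 h5
      have := mul_nonneg hb0.le h4
      linarith
    rcases h4.lt_or_eq with h6 | h6
    · have := mul_pos hb0 h6
      have := mul_nonneg ha0.le h3
      linarith
    exfalso
    have e2 : cr p q = ip w q * cr p w - ip w p * cr q w := by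
      have : cr p q = cr p q * ip w w := by rw [hw]; ring
      rw [this]; unfold cr ip; ring
    rw [← h5, ← h6] at e2
    simp at e2
    linarith
  refine G.P2 e he f hf hef (a • p + b • q) ⟨key _ (G.unit _) ep.1 eq.1, key' _ (G.unit _) ep.2 eq.2⟩
    ⟨key _ (G.unit _) fp.1 fq.1, key' _ (G.unit _) fp.2 fq.2⟩ ?_
  rw [H_lin, H_lin, ha, hb]; ring

lemma Good.neg {u : Fin n → ℝ × ℝ} {z : Fin n → ℝ} {E : Finset (Fin n × Fin n)}
    (G : Good u z E) : Good u (-z) E where
  unit := G.unit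
  gen := G.gen
  pos := G.pos
  P1 := fun e he v hv h => G.P1 e he v hv (by
    rw [H_neg, Pi.neg_apply] at h; linarith)
  P2 := fun e he f hf hef p hp hq h => G.P2 e he f hf hef p hp hq (by
    rw [H_neg, H_neg] at h; linarith)

lemma Good.lt_of_not {u : Fin n → ℝ × ℝ} {z : Fin n → ℝ} {E : Finset (Fin n × Fin n)}
    (G : Good u z E) {i j : Fin n} (hij : i ≠ j) (h : ¬ 0 < cr (u i) (u j)) :
    0 < cr (u j) (u i) := by
  have := G.gen i j hij
  rw [cr_comm]
  have h2 : cr (u i) (u j) ≤ 0 := not_lt.1 h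
  have h3 : cr (u i) (u j) < 0 := lt_of_le_of_ne h2 this
  linarith

lemma ne_of_cr {u : Fin n → ℝ × ℝ} {i j : Fin n} (h : 0 < cr (u i) (u j)) : i ≠ j := by
  rintro rfl
  rw [cr_self] at h
  exact lt_irrefl _ h

lemma cr_asymm {p q : ℝ × ℝ} (h : 0 < cr p q) : ¬ 0 < cr q p := by
  rw [cr_comm]; linarith

/-- The edges out of `x` (to the east) have distinct slopes. -/
lemma Good.sl_inj {u : Fin n → ℝ × ℝ} {z : Fin n → ℝ} {E : Finset (Fin n × Fin n)}
    (G : Good u z E) {x k k' : Fin n} (h : (x, k) ∈ E) (h' : (x, k') ∈ E)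
    (hs : sl u z x k = sl u z x k') : k = k' := by
  by_contra hk
  have p1 := G.pos _ h
  have p2 := G.pos _ h'
  simp only at p1 p2
  -- a direction strictly between
  rcases lt_or_gt_of_ne (G.gen k k' hk) with h3 | h3
  · -- k' is closer
    refine G.P1 _ h k' ⟨p2, by rw [cr_comm]; linarith⟩ ?_
    rw [H_sl u z x k (G.unit x) p1.ne', hs, ← H_sl u z x k' (G.unit x) p2.ne']
    exact H_snd u z (x, k') p2.ne'
  · refine G.P1 _ h' k ⟨p1, h3⟩ ?_
    rw [H_sl u z x k' (G.unit x) p2.ne', ← hs, ← H_sl u z x k (G.unit x) p1.ne']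
    exact H_snd u z (x, k) p1.ne'

/-- `e` is the first edge above the vertex `v`. -/
def UpE (u : Fin n → ℝ × ℝ) (z : Fin n → ℝ) (E : Finset (Fin n × Fin n)) (v : Fin n)
    (e : Fin n × Fin n) : Prop :=
  e ∈ E ∧ Ov u e (u v) ∧ z v < H u z e (u v) ∧
    ∀ f ∈ E, Ov u f (u v) → z v < H u z f (u v) → H u z e (u v) ≤ H u z f (u v)

/-- Nothing lies above `v`. -/
def NoUp (u : Fin n → ℝ × ℝ) (z : Fin n → ℝ) (E : Finset (Fin n × Fin n)) (v : Fin n) : Prop :=
  ∀ e ∈ E, Ov u e (u v) → H u z e (u v) ≤ z v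

lemma Good.UpE_unique {u : Fin n → ℝ × ℝ} {z : Fin n → ℝ} {E : Finset (Fin n × Fin n)}
    (G : Good u z E) {v : Fin n} {e f : Fin n × Fin n} (he : UpE u z E v e) (hf : UpE u z E v f) :
    e = f := by
  by_contra hef
  exact G.P2 e he.1 f hf.1 hef (u v) he.2.1 hf.2.1
    (le_antisymm (he.2.2.2 f hf.1 hf.2.1 hf.2.2.1) (hf.2.2.2 e he.1 he.2.1 he.2.2.1))

lemma exists_UpE {u : Fin n → ℝ × ℝ} {z : Fin n → ℝ} {E : Finset (Fin n × Fin n)} {v : Fin n}
    {e : Fin n × Fin n} (he : e ∈ E) (ho : Ov u e (u v)) (h : z v < H u z e (u v)) :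
    ∃ f, UpE u z E v f := by
  classical
  obtain ⟨f, hf, hm⟩ := Finset.exists_min_image
    (E.filter (fun f => Ov u f (u v) ∧ z v < H u z f (u v))) (fun f => H u z f (u v))
    ⟨e, by simp only [Finset.mem_filter]; exact ⟨he, ho, h⟩⟩
  simp only [Finset.mem_filter] at hf hm
  exact ⟨f, hf.1, hf.2.1, hf.2.2, fun g hg h1 h2 => hm g ⟨hg, h1, h2⟩⟩

lemma noUp_iff {u : Fin n → ℝ × ℝ} {z : Fin n → ℝ} {E : Finset (Fin n × Fin n)} {v : Fin n} :
    NoUp u z E v ↔ ¬ ∃ e, UpE u z E v e := by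
  constructor
  · rintro h ⟨e, he⟩
    exact absurd he.2.2.1 (not_lt.2 (h e he.1 he.2.1))
  · intro h e he ho
    by_contra hlt
    exact h (exists_UpE he ho (not_le.1 hlt))

end Pool.Agent.R157.Sph
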