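import Pool.Agent.R157.Sph.Cover

/-!
Sinking a triangulation that has a great circle crossed by no edge (abstract version).
-/

namespace Pool.Agent.R157.Sph

open Classical

variable {n : ℕ} {u : Fin n → ℝ × ℝ} {z : Fin n → ℝ} {E : Finset (Fin n × Fin n)}

/-- The three top vertices are pairwise adjacent. -/
lemma Str.tri (S : Str u z E) : ∃ a b c, (a, b) ∈ E ∧ (b, c) ∈ E ∧ (c, a) ∈ E ∧
    ∀ v, v ∉ hasUp u z E ↔ v = a ∨ v = b ∨ v = c := by
  choose t ht using S.e1.top_ex
  have hE : ∀ x, (x, t x) ∈ E := fun x => (Finset.mem_filter.1 (ht x)).1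
  have hc : ∀ x, 0 < cr (u x) (u (t x)) := fun x => S.G.pos _ (hE x)
  have henv : ∀ x, x ∉ hasUp u z E → t x ∉ hasUp u z E := by
    intro x hx
    rw [mem_hasUp, ← noUp_iff] at hx ⊢
    exact (S.G.env S.west hx (ht x)).1
  have hcard := S.e1.cardN
  have hne : ((hasUp u z E)ᶜ).Nonempty := by
    rw [← Finset.card_pos, hcard]; norm_num
  obtain ⟨a, ha⟩ := hne
  rw [Finset.mem_compl] at ha
  have hb := henv a ha
  have hcc := henv _ hb
  have hd := henv _ hcc
  set b := t a with hbdef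
  set c := t b with hcdef
  have hab : 0 < cr (u a) (u b) := hc a
  have hbc : 0 < cr (u b) (u c) := hc b
  have hcd : 0 < cr (u c) (u (t c)) := hc c
  have h1 : a ≠ b := ne_of_cr hab
  have h2 : b ≠ c := ne_of_cr hbc
  have h3 : a ≠ c := by
    intro h
    rw [← h] at hbc
    exact cr_asymm hab hbc
  have hset : ({a, b, c} : Finset (Fin n)) = (hasUp u z E)ᶜ := by
    apply Finset.eq_of_subset_of_card_le
    · intro w hw
      simp only [Finset.mem_insert, Finset.mem_singleton] at hw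
      rw [Finset.mem_compl]
      rcases hw with rfl | rfl | rfl
      · exact ha
      · exact hb
      · exact hcc
    · rw [hcard, Finset.card_insert_of_notMem, Finset.card_insert_of_notMem,
        Finset.card_singleton]
      · simpa using h2
      · simp [h1, h3]
  have hda : t c = a := by
    have : t c ∈ ({a, b, c} : Finset (Fin n)) := by rw [hset, Finset.mem_compl]; exact hd
    simp only [Finset.mem_insert, Finset.mem_singleton] at this
    rcases this with h | h | h
    · exact h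
    · rw [h] at hcd; exact absurd hbc (cr_asymm hcd)
    · rw [h, cr_self] at hcd; exact absurd hcd (lt_irrefl _)
  refine ⟨a, b, c, hE a, hE b, ?_, fun v => ?_⟩
  · have := hE c
    rwa [hda] at this
  · rw [← Finset.mem_compl, ← hset]
    simp only [Finset.mem_insert, Finset.mem_singleton]

/-- The M-matrix argument, with a supersolution that may vanish somewhere. -/
lemma mmat' {N : Finset (Fin n)} {Y : Fin n → ℝ} (hY : ∀ v, 0 ≤ Y v) (U : Fin n → Fin n × Fin n)
    (hU : ∀ v ∈ N, Ov u (U v) (u v)) (hpos : ∀ v ∈ N, 0 < cr (u (U v).1) (u (U v).2))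
    (hneg : ∀ v ∈ N, g u Y (U v) v < 0) (α : Fin n → ℝ)
    (hα : ∀ x ∈ N, ∑ v ∈ N, α v * g u (Pi.single x 1) (U v) v ≤ 0) : ∀ v ∈ N, 0 ≤ α v := by
  by_contra hc
  push Not at hc
  obtain ⟨v0, hv0, hneg0⟩ := hc
  -- test vector
  set T : Fin n → ℝ := fun x => if x ∈ N ∧ α x < 0 then Y x else 0 with hT
  have hT0 : ∀ x, 0 ≤ T x := by
    intro x; simp only [hT]; split_ifs
    · exact hY x
    · exact le_rfl
  have hTY : ∀ x, T x ≤ Y x := by
    intro x; simp only [hT]; split_ifs
    · exact le_rfl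
    · exact hY x
  have hlin : ∀ (e : Fin n × Fin n) (v : Fin n),
      g u T e v = ∑ x, T x * g u (Pi.single x 1) e v := by
    intro e v
    unfold g H
    have hs : ∀ w : Fin n, T w = ∑ x, T x * (Pi.single x (1:ℝ) : Fin n → ℝ) w := by
      intro w
      rw [Finset.sum_eq_single w]
      · simp
      · intro b _ hb
        rw [Pi.single_eq_of_ne (Ne.symm hb)]; ring
      · intro h; exact absurd (Finset.mem_univ w) h
    conv_lhs => rw [hs e.1, hs e.2, hs v]
    rw [Finset.sum_mul, Finset.sum_mul, ← Finset.sum_add_distrib, Finset.sum_div,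
      ← Finset.sum_sub_distrib]
    refine Finset.sum_congr rfl fun x _ => ?_
    ring
  have hsum : ∑ v ∈ N, α v * g u T (U v) v ≤ 0 := by
    have : ∑ v ∈ N, α v * g u T (U v) v =
        ∑ x, T x * ∑ v ∈ N, α v * g u (Pi.single x 1) (U v) v := by
      simp_rw [hlin, Finset.mul_sum]
      rw [Finset.sum_comm]
      refine Finset.sum_congr rfl fun x _ => Finset.sum_congr rfl fun v _ => ?_
      ring
    rw [this]
    apply Finset.sum_nonpos
    intro x _
    by_cases hx : x ∈ N
    · exact mul_nonpos_of_nonneg_of_nonpos (hT0 x) (hα x hx)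
    · have : T x = 0 := by simp only [hT]; rw [if_neg]; tauto
      rw [this]; simp
  have hterm : ∀ v ∈ N, 0 ≤ α v * g u T (U v) v ∧ (α v < 0 → 0 < α v * g u T (U v) v) := by
    intro v hv
    have o := hU v hv
    have pp := hpos v hv
    by_cases hneg1 : α v < 0
    · have hTv : T v = Y v := by simp only [hT]; rw [if_pos ⟨hv, hneg1⟩]
      have h1 : g u T (U v) v < 0 := by
        have h2 := hneg v hv
        unfold g at h2 ⊢
        have h3 : H u T (U v) (u v) ≤ H u Y (U v) (u v) := by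
          unfold H
          apply div_le_div_of_nonneg_right _ pp.le
          have := mul_le_mul_of_nonneg_right (hTY (U v).1) o.2.le
          have := mul_le_mul_of_nonneg_right (hTY (U v).2) o.1.le
          linarith
        rw [hTv]; linarith
      have := mul_pos_of_neg_of_neg hneg1 h1
      exact ⟨this.le, fun _ => this⟩
    · refine ⟨mul_nonneg (not_lt.1 hneg1) ?_, fun h => absurd h hneg1⟩
      have hTv : T v = 0 := by simp only [hT]; rw [if_neg]; tauto
      unfold g
      rw [hTv, sub_zero]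
      unfold H
      exact div_nonneg (add_nonneg (mul_nonneg (hT0 _) o.2.le) (mul_nonneg (hT0 _) o.1.le)) pp.le
  have : 0 < ∑ v ∈ N, α v * g u T (U v) v :=
    Finset.sum_pos' (fun v hv => (hterm v hv).1) ⟨v0, hv0, (hterm v0 hv0).2 hneg0⟩
  linarith

/-- No edge crosses the level `0` of `q`. -/
def Uncr (E : Finset (Fin n × Fin n)) (q : Fin n → ℝ) : Prop :=
  ∀ e ∈ E, ¬ (q e.1 < 0 ∧ 0 < q e.2) ∧ ¬ (0 < q e.1 ∧ q e.2 < 0)

/-- The circle data: `q = c z + linear`, `c > 0`, not crossed. -/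
structure CD (u : Fin n → ℝ × ℝ) (z : Fin n → ℝ) (E : Finset (Fin n × Fin n)) (c : ℝ)
    (q : Fin n → ℝ) : Prop where
  S : Str u z E
  c0 : 0 < c
  uncr : Uncr E q
  hg : ∀ e ∈ E, ∀ v, g u q e v = c * g u z e v
  posq : ∃ v, 0 < q v
  negq : ∃ v, q v < 0

/-- The part of `q` below the level `0`. -/
noncomputable def mq (q : Fin n → ℝ) : Fin n → ℝ := fun v => min 0 (q v)

lemma g_eq_of {y y' : Fin n → ℝ} {e : Fin n × Fin n} {v : Fin n} (h1 : y e.1 = y' e.1)
    (h2 : y e.2 = y' e.2) (h3 : y v = y' v) : g u y e v = g u y' e v := by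
  unfold g H; rw [h1, h2, h3]

lemma g_zero_of {y : Fin n → ℝ} {e : Fin n × Fin n} {v : Fin n} (h1 : y e.1 = 0)
    (h2 : y e.2 = 0) (h3 : y v = 0) : g u y e v = 0 := by
  unfold g H; rw [h1, h2, h3]; simp

section CDsec

variable {c : ℝ} {q : Fin n → ℝ}

/-- Neighbours through the faces. -/
lemma Str.nb (S : Str u z E) {v : Fin n} {e : Fin n × Fin n} (h : UpE u z E v e) :
    (e.1, v) ∈ E ∧ (v, e.2) ∈ E :=
  ⟨S.e1.up_fst v e h, (Finset.mem_filter.1 (S.te h)).1⟩

lemma CD.nb_nonpos (D : CD u z E c q) {v : Fin n} {e : Fin n × Fin n}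
    (h1 : (e.1, v) ∈ E) (h2 : (v, e.2) ∈ E) (hv : q v < 0) : q e.1 ≤ 0 ∧ q e.2 ≤ 0 := by
  constructor
  · by_contra hc
    exact (D.uncr _ h1).2 ⟨not_le.1 hc, hv⟩
  · by_contra hc
    exact (D.uncr _ h2).1 ⟨hv, not_le.1 hc⟩

lemma CD.nb_nonneg (D : CD u z E c q) {v : Fin n} {e : Fin n × Fin n}
    (h1 : (e.1, v) ∈ E) (h2 : (v, e.2) ∈ E) (hv : 0 < q v) : 0 ≤ q e.1 ∧ 0 ≤ q e.2 := by
  constructor
  · by_contra hc
    exact (D.uncr _ h1).1 ⟨not_le.1 hc, hv⟩
  · by_contra hc
    exact (D.uncr _ h2).2 ⟨hv, not_le.1 hc⟩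

lemma CD.up_nonneg (D : CD u z E c q) {v : Fin n} {e : Fin n × Fin n} (h : UpE u z E v e)
    (hv : 0 ≤ q v) : 0 ≤ q e.1 ∧ 0 ≤ q e.2 := by
  have hg := D.hg e h.1 v
  have hz : 0 < g u z e v := by unfold g; linarith [h.2.2.1]
  have hq : 0 < g u q e v := by rw [hg]; exact mul_pos D.c0 hz
  have hH : 0 < H u q e (u v) := by unfold g at hq; linarith
  have pe := D.S.G.pos _ h.1
  have hnum : 0 < q e.1 * cr (u v) (u e.2) + q e.2 * cr (u e.1) (u v) := by
    unfold H at hH
    exact (div_pos_iff_of_pos_right pe).1 hH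
  have hor : 0 < q e.1 ∨ 0 < q e.2 := by
    by_contra hc
    push Not at hc
    have a1 := mul_nonpos_of_nonpos_of_nonneg hc.1 h.2.1.2.le
    have a2 := mul_nonpos_of_nonpos_of_nonneg hc.2 h.2.1.1.le
    linarith
  rcases hor with h1 | h1
  · refine ⟨h1.le, ?_⟩
    by_contra hc
    exact (D.uncr _ h.1).2 ⟨h1, not_le.1 hc⟩
  · refine ⟨?_, h1.le⟩
    by_contra hc
    exact (D.uncr _ h.1).1 ⟨not_le.1 hc, h1⟩

lemma CD.dn_nonpos (D : CD u z E c q) {v : Fin n} {e : Fin n × Fin n} (h : UpE u (-z) E v e)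
    (hv : q v ≤ 0) : q e.1 ≤ 0 ∧ q e.2 ≤ 0 := by
  have hg := D.hg e h.1 v
  have hz : g u z e v < 0 := by
    have := h.2.2.1
    rw [H_neg, Pi.neg_apply] at this
    unfold g; linarith
  have hq : g u q e v < 0 := by rw [hg]; exact mul_neg_of_pos_of_neg D.c0 hz
  have hH : H u q e (u v) < 0 := by unfold g at hq; linarith
  have pe := D.S.G.pos _ h.1
  have hnum : q e.1 * cr (u v) (u e.2) + q e.2 * cr (u e.1) (u v) < 0 := by
    unfold H at hH
    by_contra hc
    have := div_nonneg (not_lt.1 hc) pe.le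
    linarith
  have hor : q e.1 < 0 ∨ q e.2 < 0 := by
    by_contra hc
    push Not at hc
    have a1 := mul_nonneg hc.1 h.2.1.2.le
    have a2 := mul_nonneg hc.2 h.2.1.1.le
    linarith
  rcases hor with h1 | h1
  · refine ⟨h1.le, ?_⟩
    by_contra hc
    exact (D.uncr _ h.1).1 ⟨h1, not_le.1 hc⟩
  · refine ⟨?_, h1.le⟩
    by_contra hc
    exact (D.uncr _ h.1).2 ⟨not_le.1 hc, h1⟩

lemma mq_of_nonpos {v : Fin n} (h : q v ≤ 0) : mq q v = q v := min_eq_right h

lemma mq_of_nonneg {v : Fin n} (h : 0 ≤ q v) : mq q v = 0 := min_eq_left h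

lemma CD.mq_up_pos (D : CD u z E c q) {v : Fin n} {e : Fin n × Fin n} (h : UpE u z E v e)
    (hv : q v < 0) : 0 < g u (mq q) e v := by
  have hn := D.S.nb h
  have h2 := D.nb_nonpos hn.1 hn.2 hv
  rw [g_eq_of (mq_of_nonpos h2.1) (mq_of_nonpos h2.2) (mq_of_nonpos hv.le), D.hg e h.1 v]
  exact mul_pos D.c0 (by unfold g; linarith [h.2.2.1])

lemma CD.mq_up_zero (D : CD u z E c q) {v : Fin n} {e : Fin n × Fin n} (h : UpE u z E v e)
    (hv : 0 ≤ q v) : g u (mq q) e v = 0 := by
  have h2 := D.up_nonneg h hv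
  exact g_zero_of (mq_of_nonneg h2.1) (mq_of_nonneg h2.2) (mq_of_nonneg hv)

lemma CD.mq_dn_neg (D : CD u z E c q) {v : Fin n} {e : Fin n × Fin n} (h : UpE u (-z) E v e)
    (hv : q v ≤ 0) : g u (mq q) e v < 0 := by
  have h2 := D.dn_nonpos h hv
  rw [g_eq_of (mq_of_nonpos h2.1) (mq_of_nonpos h2.2) (mq_of_nonpos hv), D.hg e h.1 v]
  apply mul_neg_of_pos_of_neg D.c0
  have := h.2.2.1
  rw [H_neg, Pi.neg_apply] at this
  unfold g; linarith

lemma CD.mq_dn_zero (D : CD u z E c q) {v : Fin n} {e : Fin n × Fin n} (h : UpE u (-z) E v e)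
    (hv : 0 < q v) : g u (mq q) e v = 0 := by
  have hn := D.S.neg.nb h
  have h2 := D.nb_nonneg hn.1 hn.2 hv
  exact g_zero_of (mq_of_nonneg h2.1) (mq_of_nonneg h2.2) (mq_of_nonneg hv.le)

/-- Adding a large multiple of `mq`. -/
lemma CD.large (D : CD u z E c q) {y : Fin n → ℝ}
    (h1 : ∀ v ∈ hasUp u z E, 0 ≤ q v → 0 ≤ g u y (upe u z E v) v)
    (h2 : ∀ v ∈ hasUp u (-z) E, 0 < q v → g u y (upe u (-z) E v) v ≤ 0) :
    ∃ M : ℝ, 0 ≤ M ∧ WComp u z E (y + M • mq q) := by
  obtain ⟨M1, hM1⟩ := (Set.finite_range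
    (fun v => - g u y (upe u z E v) v / g u (mq q) (upe u z E v) v)).bddAbove
  obtain ⟨M2, hM2⟩ := (Set.finite_range
    (fun v => - g u y (upe u (-z) E v) v / g u (mq q) (upe u (-z) E v) v)).bddAbove
  refine ⟨max (max M1 M2) 0, le_max_right _ _, D.S.G.nearest ?_ ?_⟩
  · intro v e he
    have hv : v ∈ hasUp u z E := mem_hasUp.2 ⟨e, he⟩
    have hee := D.S.G.upe_eq he
    rw [g_addsmul]
    rcases lt_or_ge (q v) 0 with hq | hq
    · have p := D.mq_up_pos he hq
      have b : - g u y e v / g u (mq q) e v ≤ M1 := by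
        have := hM1 ⟨v, rfl⟩
        simp only [hee] at this
        exact this
      have b2 : - g u y e v / g u (mq q) e v ≤ max (max M1 M2) 0 :=
        b.trans ((le_max_left _ _).trans (le_max_left _ _))
      rw [div_le_iff₀ p] at b2
      linarith
    · rw [D.mq_up_zero he hq, ← hee]
      have := h1 v hv hq
      linarith
  · intro v e he
    have hv : v ∈ hasUp u (-z) E := mem_hasUp.2 ⟨e, he⟩
    have hee := D.S.G.neg.upe_eq he
    rw [g_addsmul]
    rcases lt_or_ge 0 (q v) with hq | hq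
    · rw [D.mq_dn_zero he hq, ← hee]
      have := h2 v hv hq
      linarith
    · have p := D.mq_dn_neg he hq
      have b : - g u y e v / g u (mq q) e v ≤ M2 := by
        have := hM2 ⟨v, rfl⟩
        simp only [hee] at this
        exact this
      have b2 : - g u y e v / g u (mq q) e v ≤ max (max M1 M2) 0 :=
        b.trans ((le_max_right _ _).trans (le_max_left _ _))
      rw [div_le_iff_of_neg p] at b2
      linarith

/-- Mirrored version of `Str.nonneg`. -/
lemma Str.nonpos (S : Str u z E) {y : Fin n → ℝ} (W : WComp u z E y)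
    (h0 : ∀ v, v ∉ hasUp u z E → y v ≤ 0) (v : Fin n) : y v ≤ 0 := by
  have W' : WComp u (-z) E (-y) := by
    intro e he v hv
    rw [g_neg, g_neg]
    have := W e he v hv
    linarith
  have := S.neg.nonneg W' (fun v hv => by
    rw [neg_neg] at hv
    simp only [Pi.neg_apply]; linarith [h0 v hv]) v
  simp only [Pi.neg_apply] at this
  linarith

/-- Mirrored version of `Str.positive`. -/
lemma Str.negative (S : Str u z E) {y : Fin n → ℝ} (W : WComp u z E y)
    (h0 : ∀ v, v ∉ hasUp u z E → y v < 0) (v : Fin n) : y v < 0 := by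
  have W' : WComp u (-z) E (-y) := by
    intro e he v hv
    rw [g_neg, g_neg]
    have := W e he v hv
    linarith
  have := S.neg.positive W' (fun v hv => by
    rw [neg_neg] at hv
    simp only [Pi.neg_apply]; linarith [h0 v hv]) v
  simp only [Pi.neg_apply] at this
  linarith

/-- The top vertices are not below the circle. -/
lemma CD.top_nonneg (D : CD u z E c q) {v : Fin n} (hv : v ∉ hasUp u z E) : 0 ≤ q v := by
  by_contra hneg
  rw [not_le] at hneg
  obtain ⟨a, b, d, hab, hbd, hda, hN⟩ := D.S.tri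
  have hW : WComp u z E q := by
    intro e he w hw
    rw [D.hg e he w]
    have := mul_self_nonneg (g u z e w)
    have := mul_nonneg D.c0.le this
    linarith
  have hall : ∀ w, w ∉ hasUp u z E → q w ≤ 0 := by
    intro w hw
    rw [hN] at hv hw
    by_contra hc
    rw [not_le] at hc
    have h1 := D.uncr _ hab
    have h2 := D.uncr _ hbd
    have h3 := D.uncr _ hda
    simp only at h1 h2 h3
    rcases hv with rfl | rfl | rfl <;> rcases hw with rfl | rfl | rfl
    · linarith
    · exact h1.1 ⟨hneg, hc⟩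
    · exact h3.2 ⟨hc, hneg⟩
    · exact h1.2 ⟨hc, hneg⟩
    · linarith
    · exact h2.1 ⟨hneg, hc⟩
    · exact h3.1 ⟨hneg, hc⟩
    · exact h2.2 ⟨hc, hneg⟩
    · linarith
  obtain ⟨w, hw⟩ := D.posq
  linarith [D.S.nonpos hW hall w]

/-- The bottom vertices are not above the circle. -/
lemma CD.bot_nonpos (D : CD u z E c q) {v : Fin n} (hv : v ∉ hasUp u (-z) E) : q v ≤ 0 := by
  by_contra hneg
  rw [not_le] at hneg
  obtain ⟨a, b, d, hab, hbd, hda, hN⟩ := D.S.neg.tri
  have hW : WComp u z E q := by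
    intro e he w hw
    rw [D.hg e he w]
    have := mul_self_nonneg (g u z e w)
    have := mul_nonneg D.c0.le this
    linarith
  have hall : ∀ w, w ∉ hasUp u (-z) E → 0 ≤ q w := by
    intro w hw
    rw [hN] at hv hw
    by_contra hc
    rw [not_le] at hc
    have h1 := D.uncr _ hab
    have h2 := D.uncr _ hbd
    have h3 := D.uncr _ hda
    simp only at h1 h2 h3
    rcases hv with rfl | rfl | rfl <;> rcases hw with rfl | rfl | rfl
    · linarith
    · exact h1.2 ⟨hneg, hc⟩
    · exact h3.1 ⟨hc, hneg⟩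
    · exact h1.1 ⟨hc, hneg⟩
    · linarith
    · exact h2.2 ⟨hneg, hc⟩
    · exact h3.2 ⟨hneg, hc⟩
    · exact h2.1 ⟨hc, hneg⟩
    · linarith
  obtain ⟨w, hw⟩ := D.negq
  linarith [D.S.nonneg hW hall w]

end CDsec

end Pool.Agent.R157.Sph
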