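import Pool.Agent.R157.Sph.Circ

namespace Pool.Agent.R157.Sph

open Classical

variable {n : ℕ} {u : Fin n → ℝ × ℝ} {z : Fin n → ℝ} {E : Finset (Fin n × Fin n)}
  {c : ℝ} {q : Fin n → ℝ}

/-- The square system: gaps to the first edges above for the vertices on or above the circle,
heights for the others. -/
noncomputable def Psi (u : Fin n → ℝ × ℝ) (z : Fin n → ℝ) (E : Finset (Fin n × Fin n))
    (q : Fin n → ℝ) : (Fin n → ℝ) →ₗ[ℝ] (Fin n → ℝ) where
  toFun y v := if v ∈ hasUp u z E ∧ 0 ≤ q v then g u y (upe u z E v) v else y v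
  map_add' a b := by
    funext v; simp only [Pi.add_apply]; split_ifs
    · exact g_add _ _ _ _
    · rfl
  map_smul' c a := by
    funext v; simp only [Pi.smul_apply, smul_eq_mul, RingHom.id_apply]; split_ifs
    · exact g_smul _ _ _ _
    · rfl

lemma Psi_up {y : Fin n → ℝ} {v : Fin n} (hv : v ∈ hasUp u z E ∧ 0 ≤ q v) :
    Psi u z E q y v = g u y (upe u z E v) v := by
  show (if v ∈ hasUp u z E ∧ 0 ≤ q v then g u y (upe u z E v) v else y v) = _
  rw [if_pos hv]

lemma Psi_no {y : Fin n → ℝ} {v : Fin n} (hv : ¬ (v ∈ hasUp u z E ∧ 0 ≤ q v)) :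
    Psi u z E q y v = y v := by
  show (if v ∈ hasUp u z E ∧ 0 ≤ q v then g u y (upe u z E v) v else y v) = _
  rw [if_neg hv]

lemma g_single_zero {x : Fin n} {e : Fin n × Fin n} {v : Fin n} (h1 : e.1 ≠ x) (h2 : e.2 ≠ x)
    (h3 : v ≠ x) : g u (Pi.single x 1) e v = 0 :=
  g_zero_of (Pi.single_eq_of_ne h1 _) (Pi.single_eq_of_ne h2 _) (Pi.single_eq_of_ne h3 _)

/-- The key computation. -/
theorem CD.exists_h (D : CD u z E c q) : ∃ h : Fin n → ℝ,
    (∀ v ∈ hasUp u z E, 0 ≤ q v → g u h (upe u z E v) v = 0) ∧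
    (∀ v, v ∉ hasUp u z E → h v = -1) ∧
    (∀ v, v ∈ hasUp u z E → q v < 0 → h v = 0) ∧
    (∀ v ∈ hasUp u (-z) E, 0 < q v → g u h (upe u (-z) E v) v ≤ 0) := by
  have S := D.S
  choose te hte using S.e1.top_ex
  choose be hbe using S.e2.top_ex
  choose tw htw using S.e3.top_ex
  choose bw hbw using S.e4.top_ex
  have hid := S.ident hte hbe htw hbw
  -- neighbours of top vertices
  have hteN : ∀ x, x ∉ hasUp u z E → te x ∉ hasUp u z E := by
    intro x hx
    rw [mem_hasUp, ← noUp_iff] at hx ⊢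
    exact (S.G.env S.west hx (hte x)).1
  have htwN : ∀ x, x ∉ hasUp u z E → tw x ∉ hasUp u z E := by
    intro x hx
    rw [← hasUp_rf] at hx ⊢
    rw [mem_hasUp, ← noUp_iff] at hx ⊢
    exact (S.refl.G.env S.refl.west hx (htw x)).1
  have hte0 : ∀ x, 0 < cr (u x) (u (te x)) := fun x => S.G.pos _ (Finset.mem_filter.1 (hte x)).1
  have htw0 : ∀ x, 0 < cr (u (tw x)) (u x) := fun x => by
    have h := (Finset.mem_filter.1 (htw x)).1
    rw [mem_rE] at h
    exact S.G.pos _ h
  have hwt : ∀ v ∈ hasUp u (-z) E, 0 < wt u (upe u (-z) E v) v := fun v hv => by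
    have hs := upe_spec hv
    exact div_pos (S.G.pos _ hs.1) (mul_pos hs.2.1.1 hs.2.1.2)
  -- the set of vertices above the circle
  set A : Finset (Fin n) := Finset.univ.filter (fun v => 0 < q v) with hA
  have memA : ∀ v, v ∈ A ↔ 0 < q v := fun v => by rw [hA]; simp
  have hAdn : ∀ v ∈ A, v ∈ hasUp u (-z) E := by
    intro v hv
    by_contra hc
    have := D.bot_nonpos hc
    rw [memA] at hv
    linarith
  -- M-matrix property
  have hM := mmat' (u := u) (N := A) (Y := fun v => max 0 (q v)) (fun v => le_max_left _ _)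
    (upe u (-z) E) (fun v hv => (upe_spec (hAdn v hv)).2.1)
    (fun v hv => S.G.pos _ (upe_spec (hAdn v hv)).1)
    (fun v hv => by
      have hs := upe_spec (hAdn v hv)
      have hq := (memA v).1 hv
      have hn := S.neg.nb hs
      have h2 := D.nb_nonneg hn.1 hn.2 hq
      have e1 : g u (fun v => max 0 (q v)) (upe u (-z) E v) v = g u q (upe u (-z) E v) v :=
        g_eq_of (max_eq_right h2.1) (max_eq_right h2.2) (max_eq_right hq.le)
      rw [e1, D.hg _ hs.1 v]
      apply mul_neg_of_pos_of_neg D.c0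
      have := hs.2.2.1
      rw [H_neg, Pi.neg_apply] at this
      unfold g; linarith)
  -- evaluation of the identity
  have hev : ∀ (h : Fin n → ℝ), (∀ v ∈ hasUp u z E, 0 ≤ q v → g u h (upe u z E v) v = 0) →
      ∀ x ∈ A, ∑ v ∈ A, (wt u (upe u (-z) E v) v * g u h (upe u (-z) E v) v) *
        g u (Pi.single x 1) (upe u (-z) E v) v =
        - ∑ w ∈ (hasUp u z E)ᶜ, ((Pi.single x (1:ℝ) : Fin n → ℝ) w) *
          (sl u h w (te w) - sl u h w (tw w)) := by
    intro h hh x hx
    have hqx := (memA x).1 hx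
    have h0 := hid h (Pi.single x 1)
    have z1 : ∑ v ∈ hasUp u z E, wt u (upe u z E v) v * g u h (upe u z E v) v *
        g u (Pi.single x 1) (upe u z E v) v = 0 := by
      apply Finset.sum_eq_zero
      intro v hv
      rcases lt_or_ge (q v) 0 with hq | hq
      · have hn := S.nb (upe_spec hv)
        have h2 := D.nb_nonpos hn.1 hn.2 hq
        rw [g_single_zero (by rintro h; rw [h] at h2; linarith [h2.1])
          (by rintro h; rw [h] at h2; linarith [h2.2]) (by rintro h; rw [h] at hq; linarith)]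
        ring
      · rw [hh v hv hq]; ring
    have z2 : ∑ w ∈ (hasUp u (-z) E)ᶜ, ((Pi.single x (1:ℝ) : Fin n → ℝ) w * sl u h w (be w) -
        (Pi.single x (1:ℝ) : Fin n → ℝ) w * sl u h w (bw w)) = 0 := by
      apply Finset.sum_eq_zero
      intro w hw
      rw [Finset.mem_compl] at hw
      have : w ≠ x := by rintro rfl; exact hw (hAdn _ hx)
      rw [Pi.single_eq_of_ne this]; ring
    have z3 : ∑ v ∈ hasUp u (-z) E, wt u (upe u (-z) E v) v * g u h (upe u (-z) E v) v *
        g u (Pi.single x 1) (upe u (-z) E v) v =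
        ∑ v ∈ A, (wt u (upe u (-z) E v) v * g u h (upe u (-z) E v) v) *
        g u (Pi.single x 1) (upe u (-z) E v) v := by
      symm
      apply Finset.sum_subset hAdn
      intro v hv hvA
      rw [memA, not_lt] at hvA
      have h2 := D.dn_nonpos (upe_spec hv) hvA
      rw [g_single_zero (by rintro h; rw [h] at h2; linarith [h2.1])
        (by rintro h; rw [h] at h2; linarith [h2.2]) (by rintro h; rw [h] at hvA; linarith)]
      ring
    rw [z1, z2, z3] at h0
    have z4 : ∑ w ∈ (hasUp u z E)ᶜ, ((Pi.single x (1:ℝ) : Fin n → ℝ) w) *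
          (sl u h w (te w) - sl u h w (tw w)) = ∑ w ∈ (hasUp u z E)ᶜ,
          ((Pi.single x (1:ℝ) : Fin n → ℝ) w * sl u h w (te w) -
          (Pi.single x (1:ℝ) : Fin n → ℝ) w * sl u h w (tw w)) :=
      Finset.sum_congr rfl fun w _ => by ring
    rw [z4]
    linarith
  -- injectivity
  have hinj : Function.Injective (Psi u z E q) := by
    rw [injective_iff_map_eq_zero]
    intro y hy
    have y1 : ∀ v ∈ hasUp u z E, 0 ≤ q v → g u y (upe u z E v) v = 0 := fun v hv hq => by
      rw [← Psi_up (q := q) ⟨hv, hq⟩, hy]; rfl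
    have y2 : ∀ v, ¬ (v ∈ hasUp u z E ∧ 0 ≤ q v) → y v = 0 := fun v hv => by
      rw [← Psi_no (q := q) hv (y := y), hy]; rfl
    have y3 : ∀ v, v ∉ hasUp u z E → y v = 0 := fun v hv => y2 v (fun h => hv h.1)
    have hz : ∀ x ∈ A, ∑ v ∈ A,
        (wt u (upe u (-z) E v) v * g u y (upe u (-z) E v) v) *
        g u (Pi.single x 1) (upe u (-z) E v) v = 0 := by
      intro x hx
      rw [hev y y1 x hx, neg_eq_zero]
      apply Finset.sum_eq_zero
      intro w hw
      rw [Finset.mem_compl] at hw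
      unfold sl
      rw [y3 w hw, y3 _ (hteN w hw), y3 _ (htwN w hw)]
      simp
    have a1 := hM (fun v => wt u (upe u (-z) E v) v * g u y (upe u (-z) E v) v)
      (fun x hx => (hz x hx).le)
    have a2 := hM (fun v => - (wt u (upe u (-z) E v) v * g u y (upe u (-z) E v) v))
      (fun x hx => by
        have := hz x hx
        simp only [neg_mul, Finset.sum_neg_distrib] at this ⊢
        rw [this]; simp)
    have a3 : ∀ v ∈ A, g u y (upe u (-z) E v) v = 0 := by
      intro v hv
      have b1 := a1 v hv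
      have b2 := a2 v hv
      have b3 : wt u (upe u (-z) E v) v * g u y (upe u (-z) E v) v = 0 := by linarith
      rcases mul_eq_zero.1 b3 with h | h
      · exact absurd h (hwt v (hAdn v hv)).ne'
      · exact h
    obtain ⟨M1, -, w1⟩ := D.large (y := y) (fun v hv hq => (y1 v hv hq).ge)
      (fun v hv hq => (a3 v ((memA v).2 hq)).le)
    obtain ⟨M2, -, w2⟩ := D.large (y := -y) (fun v hv hq => by rw [g_neg, y1 v hv hq]; simp)
      (fun v hv hq => by rw [g_neg, a3 v ((memA v).2 hq)]; simp)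
    have n1 := S.nonpos w1 (fun v hv => by
      simp only [Pi.add_apply, Pi.smul_apply, smul_eq_mul]
      rw [y3 v hv, mq_of_nonneg (D.top_nonneg hv)]; simp)
    have n2 := S.nonpos w2 (fun v hv => by
      simp only [Pi.add_apply, Pi.smul_apply, smul_eq_mul, Pi.neg_apply]
      rw [y3 v hv, mq_of_nonneg (D.top_nonneg hv)]; simp)
    funext v
    simp only [Pi.zero_apply]
    rcases lt_or_ge (q v) 0 with hq | hq
    · exact y2 v (fun h => absurd h.2 (not_le.2 hq))
    · have m1 := n1 v
      have m2 := n2 v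
      simp only [Pi.add_apply, Pi.smul_apply, smul_eq_mul, Pi.neg_apply, mq_of_nonneg hq,
        mul_zero, add_zero] at m1 m2
      linarith
  have hsurj : Function.Surjective (Psi u z E q) := LinearMap.injective_iff_surjective.1 hinj
  obtain ⟨h, hh⟩ := hsurj (fun v => if v ∈ hasUp u z E then 0 else -1)
  have h1 : ∀ v ∈ hasUp u z E, 0 ≤ q v → g u h (upe u z E v) v = 0 := fun v hv hq => by
    rw [← Psi_up (q := q) ⟨hv, hq⟩, hh]; simp only; rw [if_pos hv]
  have h2 : ∀ v, v ∉ hasUp u z E → h v = -1 := fun v hv => by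
    rw [← Psi_no (q := q) (z := z) (E := E) (u := u) (y := h) (fun h => hv h.1), hh]
    simp only; rw [if_neg hv]
  have h3 : ∀ v, v ∈ hasUp u z E → q v < 0 → h v = 0 := fun v hv hq => by
    rw [← Psi_no (q := q) (z := z) (E := E) (u := u) (y := h)
      (fun h => absurd h.2 (not_le.2 hq)), hh]
    simp only; rw [if_pos hv]
  have ip_le : ∀ i j, ip (u i) (u j) ≤ 1 := by
    intro i j
    have e1 := S.G.unit i
    have e2 := S.G.unit j
    unfold ip at *
    nlinarith [sq_nonneg ((u i).1 - (u j).1), sq_nonneg ((u i).2 - (u j).2)]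
  have hz : ∀ x ∈ A, ∑ v ∈ A,
      (- (wt u (upe u (-z) E v) v * g u h (upe u (-z) E v) v)) *
      g u (Pi.single x 1) (upe u (-z) E v) v ≤ 0 := by
    intro x hx
    simp only [neg_mul, Finset.sum_neg_distrib]
    have := hev h h1 x hx
    rw [this, neg_neg]
    apply Finset.sum_nonpos
    intro w hw
    rw [Finset.mem_compl] at hw
    have s1 : sl u h w (te w) ≤ 0 := by
      unfold sl
      rw [h2 w hw, h2 _ (hteN w hw)]
      apply div_nonpos_of_nonpos_of_nonneg _ (hte0 w).le
      linarith [ip_le w (te w)]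
    have s2 : 0 ≤ sl u h w (tw w) := by
      unfold sl
      rw [h2 w hw, h2 _ (htwN w hw), cr_comm, div_neg, ← neg_div]
      apply div_nonneg _ (htw0 w).le
      linarith [ip_le w (tw w)]
    have s3 : (0:ℝ) ≤ (Pi.single x (1:ℝ) : Fin n → ℝ) w := by
      by_cases hxw : w = x
      · subst hxw; simp
      · rw [Pi.single_eq_of_ne hxw]
    exact mul_nonpos_of_nonneg_of_nonpos s3 (by linarith)
  have a1 := hM (fun v => - (wt u (upe u (-z) E v) v * g u h (upe u (-z) E v) v)) hz
  refine ⟨h, h1, h2, h3, fun v hv hq => ?_⟩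
  have b1 := a1 v ((memA v).2 hq)
  by_contra hc
  rw [not_le] at hc
  have := mul_pos (hwt v hv) hc
  linarith

/-- A drawing with an uncrossed circle (in general position) can be sunk. -/
theorem CD.sink (D : CD u z E c q) : ∃ zm : Fin n → ℝ, Comp u z E zm ∧ ∀ v, zm v < 0 := by
  obtain ⟨h, h1, h2, h3, h4⟩ := D.exists_h
  obtain ⟨M, hM0, hW⟩ := D.large (y := h) (fun v hv hq => (h1 v hv hq).ge) h4
  have hneg := D.S.negative hW (fun v hv => by
    simp only [Pi.add_apply, Pi.smul_apply, smul_eq_mul]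
    rw [h2 v hv, mq_of_nonneg (D.top_nonneg hv)]; simp)
  set Z := h + M • mq q with hZ
  obtain ⟨K, hK⟩ := (Set.finite_range (fun v => z v / (- Z v))).bddAbove
  refine ⟨z + (max K 0 + 1) • Z, D.S.G.comp_add hW (by positivity), fun v => ?_⟩
  have m1 : z v / (- Z v) ≤ K := hK ⟨v, rfl⟩
  have m2 : z v / (- Z v) < max K 0 + 1 := by
    have := le_max_left K 0
    linarith
  rw [div_lt_iff₀ (by linarith [hneg v])] at m2
  simp only [Pi.add_apply, Pi.smul_apply, smul_eq_mul]
  linarith

end Pool.Agent.R157.Sph
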