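import Pool.Agent.R157.Sph.Circ2

namespace Pool.Agent.R157.Sph

open Classical

variable {n : ℕ} {u : Fin n → ℝ × ℝ} {z : Fin n → ℝ} {E : Finset (Fin n × Fin n)}
  {c : ℝ} {q : Fin n → ℝ}

/-- Strict compatibility is an open condition. -/
lemma Comp.shift {z' : Fin n → ℝ} (C : Comp u z E z') (y : Fin n → ℝ) :
    ∃ t : ℝ, 0 < t ∧ Comp u z E (z' + t • y) := by
  obtain ⟨K, hK⟩ := (Set.finite_range (fun p : (Fin n × Fin n) × Fin n =>
    |g u y p.1 p.2| / |g u z' p.1 p.2|)).bddAbove
  set K' := max K 0 + 1 with hK'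
  have hK0 : 0 < K' := by positivity
  refine ⟨1 / K', by positivity, fun e he v hv => ?_⟩
  have h := C e he v hv
  have hne : g u z' e v ≠ 0 := by rintro h0; rw [h0] at h; simp at h
  have habs : 0 < |g u z' e v| := abs_pos.2 hne
  have h1 : |g u y e v| / |g u z' e v| ≤ K := hK ⟨(e, v), rfl⟩
  have h2 : |g u y e v| / |g u z' e v| < K' := by
    have := le_max_left K 0
    linarith
  rw [div_lt_iff₀ habs] at h2
  have h3 : |1 / K' * g u y e v| < |g u z' e v| := by
    rw [abs_mul, abs_of_pos (by positivity : (0:ℝ) < 1 / K')]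
    rw [one_div, inv_mul_lt_iff₀ hK0]
    exact h2
  rw [g_addsmul]
  have h4 : 0 < g u z' e v * (g u z' e v + 1 / K' * g u y e v) := by
    rcases lt_or_gt_of_ne hne with h5 | h5
    · apply mul_pos_of_neg_of_neg h5
      rw [abs_of_neg h5] at h3
      have := (abs_lt.1 h3).2
      linarith
    · apply mul_pos h5
      rw [abs_of_pos h5] at h3
      have := (abs_lt.1 h3).1
      linarith
  have h5 : 0 < (g u z e v / g u z' e v) := by
    rcases pos_and_pos_or_neg_and_neg_of_mul_pos h with ⟨a, b⟩ | ⟨a, b⟩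
    · exact div_pos a b
    · exact div_pos_of_neg_of_neg a b
  have h6 : g u z e v * (g u z' e v + 1 / K' * g u y e v) =
      (g u z e v / g u z' e v) * (g u z' e v * (g u z' e v + 1 / K' * g u y e v)) := by
    field_simp
  rw [h6]
  exact mul_pos h5 h4

/-- In a half plane one can sink. -/
lemma Good.half_sink (G : Good u z E) {w : ℝ × ℝ} (hw : ∀ i, 0 < ip w (u i)) :
    ∃ zm : Fin n → ℝ, Comp u z E zm ∧ ∀ v, zm v < 0 := by
  obtain ⟨M, hM⟩ := (Set.finite_range (fun v => z v / ip w (u v))).bddAbove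
  have hl : (fun i => ip (-w.1, -w.2) (u i)) = fun i => - ip w (u i) := by
    funext i; unfold ip; ring
  have W : WComp u z E (fun i => ip (-w.1, -w.2) (u i)) := by
    intro e he v hv
    rw [g_ip _ (G.pos e he).ne']; simp
  refine ⟨z + (max M 0 + 1) • (fun i => ip (-w.1, -w.2) (u i)),
    G.comp_add W (by positivity), fun v => ?_⟩
  have m1 : z v / ip w (u v) ≤ M := hM ⟨v, rfl⟩
  have m2 : z v / ip w (u v) < max M 0 + 1 := by
    have := le_max_left M 0
    linarith
  rw [div_lt_iff₀ (hw v)] at m2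
  simp only [Pi.add_apply, Pi.smul_apply, smul_eq_mul]
  have := congrFun hl v
  rw [this]
  linarith

lemma g_q {w : ℝ × ℝ} {c : ℝ} {e : Fin n × Fin n} (he : cr (u e.1) (u e.2) ≠ 0) (v : Fin n) :
    g u (fun i => ip w (u i) + c * z i) e v = c * g u z e v := by
  have h := g_ip w he v
  have h2 : g u (fun i => ip w (u i) + c * z i) e v =
      g u (fun i => ip w (u i)) e v + c * g u z e v := by
    unfold g H; ring
  rw [h2, h, zero_add]

/-- A drawing in general position with an uncrossed circle can be sunk. -/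
theorem Good.circle_sink (G : Good u z E) (hn : 0 < n) (hE : E.card + 6 = 3 * n) (w : ℝ × ℝ)
    (c : ℝ) (hw : ¬ (w = 0 ∧ c = 0)) (hu : Uncr E (fun i => ip w (u i) + c * z i)) :
    ∃ zm : Fin n → ℝ, Comp u z E zm ∧ ∀ v, zm v < 0 := by
  by_cases hh : ∃ w : ℝ × ℝ, ∀ i, 0 < ip w (u i)
  · obtain ⟨w, hw⟩ := hh
    exact G.half_sink hw
  have S := G.str hn hE hh
  wlog hc : 0 ≤ c generalizing w c
  · refine this (-w) (-c) (by
      rintro ⟨a, b⟩; exact hw ⟨by simpa using a, by linarith⟩) ?_ (by linarith [not_le.1 hc])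
    have hneg : (fun i => ip (-w) (u i) + -c * z i) = fun i => - (ip w (u i) + c * z i) := by
      funext i; unfold ip; simp only [Prod.fst_neg, Prod.snd_neg]; ring
    rw [hneg]
    intro e he
    have := hu e he
    simp only [Left.neg_neg_iff, Left.neg_pos_iff] at this ⊢
    exact ⟨fun h => this.2 h, fun h => this.1 h⟩
  rcases hc.eq_or_lt with hc | hc
  · -- circle through the poles: impossible
    exfalso
    rw [← hc] at hu hw
    simp only [zero_mul, add_zero, and_true] at hu hw
    obtain ⟨a, b, d, hab, hbd, hda, -⟩ := S.tri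
    have pab := G.pos _ hab
    have pbd := G.pos _ hbd
    have pda := G.pos _ hda
    simp only at pab pbd pda
    have key : ip w (u a) * cr (u b) (u d) + ip w (u b) * cr (u d) (u a) +
        ip w (u d) * cr (u a) (u b) = 0 := by unfold ip cr; ring
    have c1 := hu _ hab
    have c2 := hu _ hbd
    have c3 := hu _ hda
    simp only at c1 c2 c3
    have nn : ∀ {x y : ℝ}, ¬ (x < 0 ∧ 0 < y) ∧ ¬ (0 < x ∧ y < 0) → (0 < x → 0 ≤ y) ∧
        (0 < y → 0 ≤ x) ∧ (x < 0 → y ≤ 0) ∧ (y < 0 → x ≤ 0) := by
      rintro x y ⟨h1, h2⟩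
      refine ⟨fun h => ?_, fun h => ?_, fun h => ?_, fun h => ?_⟩
      · by_contra hh; exact h2 ⟨h, not_le.1 hh⟩
      · by_contra hh; exact h1 ⟨not_le.1 hh, h⟩
      · by_contra hh; exact h1 ⟨h, not_le.1 hh⟩
      · by_contra hh; exact h2 ⟨not_le.1 hh, h⟩
    have n1 := nn c1
    have n2 := nn c2
    have n3 := nn c3
    have zeroa : ip w (u a) = 0 := by
      rcases lt_trichotomy (ip w (u a)) 0 with h | h | h
      · exfalso
        have m1 := mul_neg_of_neg_of_pos h pbd
        have m2 := mul_nonpos_of_nonpos_of_nonneg (n1.2.2.1 h) pda.le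
        have m3 := mul_nonpos_of_nonpos_of_nonneg (n3.2.2.2 h) pab.le
        linarith
      · exact h
      · exfalso
        have m1 := mul_pos h pbd
        have m2 := mul_nonneg (n1.1 h) pda.le
        have m3 := mul_nonneg (n3.2.1 h) pab.le
        linarith
    have zerob : ip w (u b) = 0 := by
      rcases lt_trichotomy (ip w (u b)) 0 with h | h | h
      · exfalso
        have m1 := mul_neg_of_neg_of_pos h pda
        have m3 := mul_nonpos_of_nonpos_of_nonneg (n2.2.2.1 h) pab.le
        rw [zeroa] at key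
        linarith
      · exact h
      · exfalso
        have m1 := mul_pos h pda
        have m3 := mul_nonneg (n2.1 h) pab.le
        rw [zeroa] at key
        linarith
    apply hw
    have e1 : w.1 * cr (u a) (u b) = ip w (u a) * (u b).2 - ip w (u b) * (u a).2 := by
      unfold ip cr; ring
    have e2 : w.2 * cr (u a) (u b) = ip w (u b) * (u a).1 - ip w (u a) * (u b).1 := by
      unfold ip cr; ring
    rw [zeroa, zerob] at e1 e2
    simp only [zero_mul, sub_zero, mul_eq_zero] at e1 e2
    ext
    · rcases e1 with h | h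
      · exact h
      · exact absurd h pab.ne'
    · rcases e2 with h | h
      · exact h
      · exact absurd h pab.ne'
  · set q : Fin n → ℝ := fun i => ip w (u i) + c * z i with hq
    have hg : ∀ e ∈ E, ∀ v, g u q e v = c * g u z e v := fun e he v => g_q (G.pos e he).ne' v
    have hCq : Comp u z E q := by
      intro e he v hv
      rw [hg e he v]
      have h3 : 0 < g u z e v * g u z e v := mul_self_pos.2 (G.g_ne he hv)
      have := mul_pos hc h3
      linarith
    by_cases hpos : ∃ v, 0 < q v
    · by_cases hneg : ∃ v, q v < 0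
      · exact (CD.mk S hc hu hg hpos hneg).sink
      · push Not at hneg
        obtain ⟨t, ht, hC⟩ := hCq.shift (fun _ => 1)
        refine (G.abs_iff hn hE).2 ⟨_, hC, fun v => ?_⟩
        simp only [Pi.add_apply, Pi.smul_apply, smul_eq_mul, mul_one]
        linarith [hneg v]
    · push Not at hpos
      obtain ⟨t, ht, hC⟩ := hCq.shift (fun _ => -1)
      refine ⟨_, hC, fun v => ?_⟩
      simp only [Pi.add_apply, Pi.smul_apply, smul_eq_mul]
      linarith [hpos v]

end Pool.Agent.R157.Sph
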