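import Pool.Agent.R157.Sph.Wedge

namespace Pool.Agent.R157.Sph

open Classical

variable {n : ℕ} {u : Fin n → ℝ × ℝ} {z : Fin n → ℝ} {E : Finset (Fin n × Fin n)}

/-- Edges that are not the top edge at their west end. -/
noncomputable def NT (u : Fin n → ℝ × ℝ) (z : Fin n → ℝ) (E : Finset (Fin n × Fin n)) :
    Finset (Fin n × Fin n) :=
  E.filter (fun e => ∃ q, (e.1, q) ∈ E ∧ sl u z e.1 e.2 < sl u z e.1 q)

/-- Edges that are the top edge at their west end. -/
noncomputable def TP (u : Fin n → ℝ × ℝ) (z : Fin n → ℝ) (E : Finset (Fin n × Fin n)) :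
    Finset (Fin n × Fin n) :=
  E.filter (fun e => ∀ q, (e.1, q) ∈ E → sl u z e.1 q ≤ sl u z e.1 e.2)

/-- Vertices that have an edge above them. -/
noncomputable def hasUp (u : Fin n → ℝ × ℝ) (z : Fin n → ℝ) (E : Finset (Fin n × Fin n)) :
    Finset (Fin n) :=
  Finset.univ.filter (fun v => ∃ e, UpE u z E v e)

/-- The first edge above `v`. -/
noncomputable def upe (u : Fin n → ℝ × ℝ) (z : Fin n → ℝ) (E : Finset (Fin n × Fin n))
    (v : Fin n) : Fin n × Fin n :=
  if h : ∃ e, UpE u z E v e then h.choose else (v, v)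

lemma upe_spec {v : Fin n} (h : v ∈ hasUp u z E) : UpE u z E v (upe u z E v) := by
  unfold hasUp at h
  simp only [Finset.mem_filter, Finset.mem_univ, true_and] at h
  unfold upe
  rw [dif_pos h]
  exact h.choose_spec

lemma mem_hasUp {v : Fin n} : v ∈ hasUp u z E ↔ ∃ e, UpE u z E v e := by
  unfold hasUp; simp

lemma Good.upe_eq (G : Good u z E) {v : Fin n} {e : Fin n × Fin n} (h : UpE u z E v e) :
    upe u z E v = e :=
  G.UpE_unique (upe_spec (mem_hasUp.2 ⟨e, h⟩)) h

lemma NT_TP_card : (NT u z E).card + (TP u z E).card = E.card := by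
  have h : TP u z E = E.filter (fun e => ¬ ∃ q, (e.1, q) ∈ E ∧ sl u z e.1 e.2 < sl u z e.1 q) := by
    unfold TP
    apply Finset.filter_congr
    intro e _
    push Not
    rfl
  rw [h]
  exact Finset.card_filter_add_card_filter_not _

lemma NT_TP_sum (f : Fin n × Fin n → ℝ) :
    ∑ e ∈ NT u z E, f e + ∑ e ∈ TP u z E, f e = ∑ e ∈ E, f e := by
  have h : TP u z E = E.filter (fun e => ¬ ∃ q, (e.1, q) ∈ E ∧ sl u z e.1 e.2 < sl u z e.1 q) := by
    unfold TP
    apply Finset.filter_congr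
    intro e _
    push Not
    rfl
  rw [h]
  exact Finset.sum_filter_add_sum_filter_not E _ f

lemma Good.TP_inj (G : Good u z E) : Set.InjOn Prod.fst (TP u z E : Set (Fin n × Fin n)) := by
  rintro ⟨x, k⟩ h ⟨x', k'⟩ h' hx
  simp only at hx
  subst hx
  unfold TP at h h'
  simp only [Finset.coe_filter, Set.mem_ofPred_eq] at h h'
  have := G.sl_inj h.1 h'.1 (le_antisymm (h'.2 k h.1) (h.2 k' h'.1))
  rw [this]

lemma Good.TP_card_le (G : Good u z E) : (TP u z E).card ≤ n := by
  have h := Finset.card_le_card_of_injOn (s := TP u z E) (t := Finset.univ) Prod.fst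
    (fun _ _ => Finset.mem_univ _) G.TP_inj
  simpa using h

/-- The relation between an edge that is not the top one at its west end, and the vertex ending the
wedge above the edge. -/
def Rel (u : Fin n → ℝ × ℝ) (z : Fin n → ℝ) (E : Finset (Fin n × Fin n))
    (e : Fin n × Fin n) : Fin n ⊕ Fin n → Prop
  | Sum.inl v => ∃ k', (e.1, k') ∈ E ∧ sl u z e.1 e.2 < sl u z e.1 k' ∧
      (∀ q, (e.1, q) ∈ E → sl u z e.1 e.2 < sl u z e.1 q → sl u z e.1 k' ≤ sl u z e.1 q) ∧
      UpE u z E v (e.1, k') ∧ (v ≠ e.2 → UpE u (-z) E v e) ∧ v ≠ k'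
  | Sum.inr v => (e.1, v) ∈ E ∧ sl u z e.1 e.2 < sl u z e.1 v ∧ UpE u (-z) E v e

lemma Good.exists_rel (G : Good u z E) {e : Fin n × Fin n} (he : e ∈ NT u z E) :
    ∃ s ∈ (hasUp u z E).disjSum (hasUp u (-z) E), Rel u z E e s := by
  unfold NT at he
  simp only [Finset.mem_filter] at he
  obtain ⟨heE, q, hq, hlt⟩ := he
  obtain ⟨x, k⟩ := e
  simp only at hq hlt
  obtain ⟨k', hk', hmin⟩ := Finset.exists_min_image
    (Finset.univ.filter (fun q => (x, q) ∈ E ∧ sl u z x k < sl u z x q)) (fun q => sl u z x q)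
    ⟨q, by simp [hq, hlt]⟩
  simp only [Finset.mem_filter, Finset.mem_univ, true_and] at hk' hmin
  obtain ⟨v, hv1, hv2⟩ := G.wedge heE hk'.1 hk'.2 (fun q hq hlt => hmin q ⟨hq, hlt⟩)
  by_cases hvk : v = k'
  · subst hvk
    have hvk2 : v ≠ k := by rintro rfl; exact lt_irrefl _ hk'.2
    exact ⟨Sum.inr v, by simp only [Finset.inr_mem_disjSum]; exact mem_hasUp.2 ⟨_, hv2 hvk2⟩,
      hk'.1, hk'.2, hv2 hvk2⟩
  · exact ⟨Sum.inl v, by simp only [Finset.inl_mem_disjSum]; exact mem_hasUp.2 ⟨_, hv1 hvk⟩,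
      k', hk'.1, hk'.2, fun q hq hlt => hmin q ⟨hq, hlt⟩, hv1 hvk, hv2, hvk⟩

lemma Good.rel_inj (G : Good u z E) {e f : Fin n × Fin n} (he : e ∈ E) (hf : f ∈ E)
    {s : Fin n ⊕ Fin n} (h1 : Rel u z E e s) (h2 : Rel u z E f s) : e = f := by
  rcases s with v | v
  · obtain ⟨k1, a1, b1, c1, d1, -, -⟩ := h1
    obtain ⟨k2, a2, b2, c2, d2, -, -⟩ := h2
    have h := G.UpE_unique d1 d2
    obtain ⟨x, k⟩ := e
    obtain ⟨x', k'⟩ := f
    simp only [Prod.mk.injEq] at h
    obtain ⟨hx, hk⟩ := h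
    subst hx hk
    simp only at b1 b2 c1 c2 a1 a2
    have : k = k' := by
      rcases lt_trichotomy (sl u z x k) (sl u z x k') with h | h | h
      · exact absurd (c1 k' hf h) (not_le.2 b2)
      · exact G.sl_inj he hf h
      · exact absurd (c2 k he h) (not_le.2 b1)
    rw [this]
  · exact G.neg.UpE_unique h1.2.2 h2.2.2

/-- Structure of a drawing with the maximal number of edges, seen from west to east. -/
structure East (u : Fin n → ℝ × ℝ) (z : Fin n → ℝ) (E : Finset (Fin n × Fin n)) : Prop where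
  top_ex : ∀ x, ∃ k, (x, k) ∈ TP u z E
  cardN : ((hasUp u z E)ᶜ).card = 3
  cardS : ((hasUp u (-z) E)ᶜ).card = 3
  up_fst : ∀ v e, UpE u z E v e → (e.1, v) ∈ E
  dn_fst : ∀ v e, UpE u (-z) E v e → (e.1, v) ∈ E
  nodown : ∀ v e, UpE u z E v e → ∀ w, ¬ UpE u (-z) E w (e.1, v)
  nt : ∀ e ∈ NT u z E, (∃ w, UpE u (-z) E w e) ∨ (∃ k', UpE u z E e.2 (e.1, k'))
  sumf : ∀ f : Fin n × Fin n → ℝ, ∑ e ∈ NT u z E, f e =
    ∑ v ∈ hasUp u z E, f ((upe u z E v).1, v) + ∑ v ∈ hasUp u (-z) E, f (upe u (-z) E v)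

lemma Good.east (G : Good u z E) (hn : 0 < n) (hcov : ∀ x, ∃ e ∈ E, e.1 = x ∨ Ov u e (u x)) :
    E.card + 6 ≤ 3 * n ∧ (E.card + 6 = 3 * n → East u z E) := by
  have hN : 3 ≤ ((hasUp u z E)ᶜ).card := G.three_le hn hcov _ (fun v hv => by
    rw [Finset.mem_compl, mem_hasUp]; exact noUp_iff.1 hv)
  have hS : 3 ≤ ((hasUp u (-z) E)ᶜ).card := G.neg.three_le hn hcov _ (fun v hv => by
    rw [Finset.mem_compl, mem_hasUp]; exact noUp_iff.1 hv)
  have hNc := Finset.card_compl (hasUp u z E)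
  have hSc := Finset.card_compl (hasUp u (-z) E)
  have hNl := Finset.card_le_univ (hasUp u z E)
  have hSl := Finset.card_le_univ (hasUp u (-z) E)
  rw [Fintype.card_fin] at hNc hSc hNl hSl
  have hsel : ∀ e : Fin n × Fin n, ∃ s : Fin n ⊕ Fin n, e ∈ NT u z E →
      s ∈ (hasUp u z E).disjSum (hasUp u (-z) E) ∧ Rel u z E e s := by
    intro e
    by_cases he : e ∈ NT u z E
    · obtain ⟨s, hs⟩ := G.exists_rel he
      exact ⟨s, fun _ => hs⟩
    · exact ⟨Sum.inl e.1, fun h => absurd h he⟩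
  choose F hF using hsel
  have hNTE : ∀ e ∈ NT u z E, e ∈ E := fun e he => (Finset.mem_filter.1 he).1
  have hmaps : ∀ e ∈ NT u z E, F e ∈ (hasUp u z E).disjSum (hasUp u (-z) E) :=
    fun e he => (hF e he).1
  have hinj : Set.InjOn F (NT u z E : Set (Fin n × Fin n)) := by
    intro e he f hf hef
    refine G.rel_inj (hNTE e he) (hNTE f hf) (hF e he).2 ?_
    rw [hef]; exact (hF f hf).2
  have hcard1 := Finset.card_le_card_of_injOn F hmaps hinj
  rw [Finset.card_disjSum] at hcard1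
  have hcard2 := NT_TP_card (u := u) (z := z) (E := E)
  have hcard3 := G.TP_card_le
  refine ⟨by omega, fun hE => ?_⟩
  have hTPc : (TP u z E).card = n := by omega
  have hNTc : (NT u z E).card = ((hasUp u z E).disjSum (hasUp u (-z) E)).card := by
    rw [Finset.card_disjSum]; omega
  have hcN : ((hasUp u z E)ᶜ).card = 3 := by omega
  have hcS : ((hasUp u (-z) E)ᶜ).card = 3 := by omega
  -- surjectivity
  have hsurj : ∀ s ∈ (hasUp u z E).disjSum (hasUp u (-z) E), ∃ e ∈ NT u z E, F e = s := by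
    intro s hs
    have himg : (NT u z E).image F = (hasUp u z E).disjSum (hasUp u (-z) E) := by
      apply Finset.eq_of_subset_of_card_le
      · intro s hs
        obtain ⟨e, he, rfl⟩ := Finset.mem_image.1 hs
        exact hmaps e he
      · rw [Finset.card_image_of_injOn hinj, hNTc]
    rw [← himg] at hs
    exact Finset.mem_image.1 hs
  have hdn : ∀ v e, UpE u (-z) E v e → e ∈ NT u z E ∧ F e = Sum.inr v ∧ (e.1, v) ∈ E := by
    intro v e hve
    obtain ⟨f, hf, hFf⟩ := hsurj (Sum.inr v) (by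
      rw [Finset.inr_mem_disjSum]; exact mem_hasUp.2 ⟨e, hve⟩)
    have hr := (hF f hf).2
    rw [hFf] at hr
    have hfe : f = e := G.neg.UpE_unique hr.2.2 hve
    subst hfe
    exact ⟨hf, hFf, hr.1⟩
  have hup : ∀ v e, UpE u z E v e → (e.1, v) ∈ NT u z E ∧ F (e.1, v) = Sum.inl v := by
    intro v e hve
    obtain ⟨f, hf, hFf⟩ := hsurj (Sum.inl v) (by
      rw [Finset.inl_mem_disjSum]; exact mem_hasUp.2 ⟨e, hve⟩)
    have hr := (hF f hf).2
    rw [hFf] at hr
    obtain ⟨k', h1, h2, h3, h4, h5, h6⟩ := hr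
    have hek : (f.1, k') = e := G.UpE_unique h4 hve
    have hvf : v = f.2 := by
      by_contra hne
      have := (hdn v f (h5 hne)).2.1
      rw [hFf] at this
      simp at this
    have : (e.1, v) = f := by
      rw [← hek, hvf]
    rw [this]
    exact ⟨hf, hFf⟩
  refine ⟨?_, hcN, hcS, fun v e h => hNTE _ (hup v e h).1, fun v e h => (hdn v e h).2.2, ?_, ?_, ?_⟩
  · -- top edges
    intro x
    have himg : (TP u z E).image Prod.fst = Finset.univ := by
      apply Finset.eq_of_subset_of_card_le (Finset.subset_univ _)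
      rw [Finset.card_image_of_injOn G.TP_inj, hTPc]; simp
    have hx : x ∈ (TP u z E).image Prod.fst := by rw [himg]; exact Finset.mem_univ _
    obtain ⟨e, he, rfl⟩ := Finset.mem_image.1 hx
    exact ⟨e.2, he⟩
  · intro v e hve w hw
    have h1 := (hup v e hve).2
    have h2 := (hdn w _ hw).2.1
    rw [h1] at h2
    simp at h2
  · intro e he
    have hr := (hF e he).2
    rcases hFe : F e with v | v
    · right
      rw [hFe] at hr
      obtain ⟨k', h1, h2, h3, h4, h5, h6⟩ := hr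
      have hvf : v = e.2 := by
        by_contra hne
        have := (hdn v e (h5 hne)).2.1
        rw [hFe] at this
        simp at this
      exact ⟨k', by rw [← hvf]; exact h4⟩
    · left
      rw [hFe] at hr
      exact ⟨v, hr.2.2⟩
  · intro f
    have key : ∑ e ∈ NT u z E, f e = ∑ s ∈ (hasUp u z E).disjSum (hasUp u (-z) E),
        (Sum.elim (fun v => f ((upe u z E v).1, v)) (fun v => f (upe u (-z) E v)) s) := by
      refine Finset.sum_nbij F hmaps hinj ?_ ?_
      · intro s hs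
        obtain ⟨e, he, hes⟩ := hsurj s hs
        exact ⟨e, he, hes⟩
      · intro e he
        have hr := (hF e he).2
        rcases hFe : F e with v | v
        · rw [hFe] at hr
          obtain ⟨k', h1, h2, h3, h4, h5, h6⟩ := hr
          have hvf : v = e.2 := by
            by_contra hne
            have := (hdn v e (h5 hne)).2.1
            rw [hFe] at this
            simp at this
          simp only [Sum.elim_inl]
          rw [G.upe_eq h4]
          simp only
          rw [hvf]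
        · rw [hFe] at hr
          simp only [Sum.elim_inr]
          rw [G.neg.upe_eq hr.2.2]
    rw [key, Finset.sum_disjSum]
    simp

end Pool.Agent.R157.Sph
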