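import Pool.Agent.R157.Sph.Main2

namespace Pool.Agent.R157.Sph

open Classical

variable {n : ℕ} {u : Fin n → ℝ × ℝ} {z : Fin n → ℝ} {E : Finset (Fin n × Fin n)}

lemma ip_ge (hu : ∀ i, ip (u i) (u i) = 1) (i j : Fin n) : -1 ≤ ip (u i) (u j) := by
  have e1 := hu i
  have e2 := hu j
  unfold ip at *
  nlinarith [sq_nonneg ((u i).1 + (u j).1), sq_nonneg ((u i).2 + (u j).2)]

/-- If no vertex is east of `x`, all vertices are in an open half plane. -/
lemma Good.half (G : Good u z E) {x : Fin n} (hx : ∀ v, ¬ 0 < cr (u x) (u v)) :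
    ∃ w : ℝ × ℝ, ∀ i, 0 < ip w (u i) := by
  obtain ⟨M, hM⟩ := (Set.finite_range (fun v => 1 / cr (u v) (u x))).bddAbove
  set M' := max M 0 + 1 with hM'
  have hM0 : 0 < M' := by positivity
  refine ⟨((u x).2 + (1 / M') * (u x).1, -(u x).1 + (1 / M') * (u x).2), fun v => ?_⟩
  have e1 : ip ((u x).2 + (1 / M') * (u x).1, -(u x).1 + (1 / M') * (u x).2) (u v) =
      cr (u v) (u x) + (1 / M') * ip (u x) (u v) := by
    unfold ip cr; ring
  rw [e1]
  by_cases hvx : v = x
  · subst hvx
    rw [cr_self, G.unit]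
    positivity
  · have h1 := G.lt_of_not (Ne.symm hvx) (hx v)
    have h2 : 1 / cr (u v) (u x) ≤ M := hM ⟨v, rfl⟩
    have h3 : 1 / cr (u v) (u x) < M' := by
      have := le_max_left M 0
      linarith
    have h4 : 1 / M' < cr (u v) (u x) := by
      rw [div_lt_iff₀ h1] at h3
      rw [div_lt_iff₀ hM0]
      linarith
    have h5 := ip_ge G.unit x v
    have h6 : 0 < 1 / M' := by positivity
    nlinarith

/-- Adding an edge between consecutive vertices over an uncovered interval. -/
lemma Good.insert (G : Good u z E) {x : Fin n} (hcov : ¬ ∃ e ∈ E, e.1 = x ∨ Ov u e (u x))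
    (hx : ∃ v, 0 < cr (u x) (u v)) : ∃ y, (x, y) ∉ E ∧ Good u z (insert (x, y) E) := by
  obtain ⟨y, hy, hfirst⟩ := exists_first G.unit G.gen x {v | 0 < cr (u x) (u v)} hx
    (fun v hv => hv)
  have hy' : 0 < cr (u x) (u y) := hy
  have hnov : ∀ v, ¬ Ov u (x, y) (u v) := by
    rintro v ⟨h1, h2⟩
    have h1' : 0 < cr (u x) (u v) := h1
    have h2' : 0 < cr (u v) (u y) := h2
    exact cr_asymm h2' (hfirst v h1' (ne_of_cr h2'))
  have hnoe : ∀ f ∈ E, ∀ p, Ov u (x, y) p → ¬ Ov u f p := by
    intro f hf p hp hfp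
    obtain ⟨a, b⟩ := f
    have hap : 0 < cr (u a) p := hfp.1
    have hpb : 0 < cr p (u b) := hfp.2
    have hxp : 0 < cr (u x) p := hp.1
    have hpy : 0 < cr p (u y) := hp.2
    have hab : 0 < cr (u a) (u b) := G.pos _ hf
    apply hcov
    refine ⟨(a, b), hf, ?_⟩
    by_cases hax : a = x
    · exact Or.inl hax
    · right
      by_cases hxa : 0 < cr (u x) (u a)
      · exfalso
        have hay : a ≠ y := by
          rintro rfl
          exact cr_asymm hap hpy
        have hya : 0 < cr (u y) (u a) := hfirst a hxa hay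
        have pl := plucker (u x) (u y) (u a) p
        have m1 := mul_pos hy' hap
        have m2 := mul_pos hxp hya
        have m3 : 0 < cr (u x) (u a) * cr (u y) p := by linarith
        have m4 : 0 < cr (u y) p := (pos_iff_pos_of_mul_pos m3).1 hxa
        exact cr_asymm m4 hpy
      · have hax' := G.lt_of_not (Ne.symm hax) hxa
        exact ⟨hax', T4 hax' hxp hap hpb hab⟩
  refine ⟨y, ?_, ?_⟩
  · intro h
    exact hcov ⟨_, h, Or.inl rfl⟩
  · refine ⟨G.unit, G.gen, ?_, ?_, ?_⟩
    · intro e he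
      rcases Finset.mem_insert.1 he with rfl | he
      · exact hy'
      · exact G.pos e he
    · intro e he v hv
      rcases Finset.mem_insert.1 he with rfl | he
      · exact absurd hv (hnov v)
      · exact G.P1 e he v hv
    · intro e he f hf hef p hp hq
      rcases Finset.mem_insert.1 he with he1 | he1
      · rcases Finset.mem_insert.1 hf with hf1 | hf1
        · exact absurd (he1.trans hf1.symm) hef
        · rw [he1] at hp
          exact absurd hq (hnoe f hf1 p hp)
      · rcases Finset.mem_insert.1 hf with hf1 | hf1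
        · rw [hf1] at hq
          exact absurd hp (hnoe e he1 p hq)
        · exact G.P2 e he1 f hf1 hef p hp hq

/-- A drawing with the maximal number of edges covers all directions, or lies in a half plane. -/
lemma Good.cover (G : Good u z E) (hn : 0 < n) (hE : E.card + 6 = 3 * n)
    (hh : ¬ ∃ w : ℝ × ℝ, ∀ i, 0 < ip w (u i)) : ∀ x, ∃ e ∈ E, e.1 = x ∨ Ov u e (u x) := by
  obtain ⟨E', hE', hmax⟩ := Finset.exists_max_image
    (Finset.univ.filter (fun E' : Finset (Fin n × Fin n) => Good u z E' ∧ E ⊆ E'))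
    (fun E' => E'.card) ⟨E, by simp [G]⟩
  simp only [Finset.mem_filter, Finset.mem_univ, true_and] at hE' hmax
  obtain ⟨G', hsub⟩ := hE'
  have hcov : ∀ x, ∃ e ∈ E', e.1 = x ∨ Ov u e (u x) := by
    intro x
    by_contra hx
    by_cases hv : ∃ v, 0 < cr (u x) (u v)
    · obtain ⟨y, hy, G''⟩ := G'.insert hx hv
      have := hmax _ ⟨G'', hsub.trans (Finset.subset_insert _ _)⟩
      rw [Finset.card_insert_of_notMem hy] at this
      omega
    · exact hh (G'.half (fun v h => hv ⟨v, h⟩))
  have h1 := (G'.east hn hcov).1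
  have h2 : E = E' := Finset.eq_of_subset_of_card_le hsub (by omega)
  rw [h2]; exact hcov

lemma card_rE (E : Finset (Fin n × Fin n)) : (rE E).card = E.card := by
  unfold rE
  exact Finset.card_image_of_injective _ Prod.swap_injective

lemma Good.str (G : Good u z E) (hn : 0 < n) (hE : E.card + 6 = 3 * n)
    (hh : ¬ ∃ w : ℝ × ℝ, ∀ i, 0 < ip w (u i)) : Str u z E := by
  have hh' : ¬ ∃ w : ℝ × ℝ, ∀ i, 0 < ip w (ru u i) := by
    rintro ⟨w, hw⟩
    refine hh ⟨rf w, fun i => ?_⟩
    have := hw i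
    unfold ru at this
    rw [← ip_rf, rf_rf] at this
    exact this
  have c1 := G.cover hn hE hh
  have c2 := G.refl.cover hn (by rw [card_rE]; exact hE) hh'
  refine ⟨G, (G.east hn c1).2 hE, (G.neg.east hn c1).2 hE, (G.refl.east hn c2).2 ?_,
    (G.neg.refl.east hn c2).2 ?_⟩
  · rw [card_rE]; exact hE
  · rw [card_rE]; exact hE

lemma g_ip (w : ℝ × ℝ) {e : Fin n × Fin n} (he : cr (u e.1) (u e.2) ≠ 0) (v : Fin n) :
    g u (fun i => ip w (u i)) e v = 0 := by
  unfold g H
  have : ip w (u e.1) * cr (u v) (u e.2) + ip w (u e.2) * cr (u e.1) (u v) =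
      ip w (u v) * cr (u e.1) (u e.2) := by
    unfold ip cr; ring
  simp only
  rw [this]
  field_simp
  ring

/-- One direction of the abstract theorem. -/
theorem Good.abs_main (G : Good u z E) (hn : 0 < n) (hE : E.card + 6 = 3 * n)
    {zm : Fin n → ℝ} (Cm : Comp u z E zm) (hzm : ∀ v, zm v < 0) :
    ∃ zp : Fin n → ℝ, Comp u z E zp ∧ ∀ v, 0 < zp v := by
  by_cases hh : ∃ w : ℝ × ℝ, ∀ i, 0 < ip w (u i)
  · obtain ⟨w, hw⟩ := hh
    obtain ⟨M, hM⟩ := (Set.finite_range (fun v => - z v / ip w (u v))).bddAbove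
    have W : WComp u z E (fun i => ip w (u i)) := by
      intro e he v hv
      rw [g_ip w (G.pos e he).ne']; simp
    refine ⟨z + (max M 0 + 1) • (fun i => ip w (u i)), G.comp_add W (by positivity), fun v => ?_⟩
    have m1 : - z v / ip w (u v) ≤ M := hM ⟨v, rfl⟩
    have m2 : - z v / ip w (u v) < max M 0 + 1 := by
      have := le_max_left M 0
      linarith
    rw [div_lt_iff₀ (hw v)] at m2
    simp only [Pi.add_apply, Pi.smul_apply, smul_eq_mul]
    linarith
  · exact (G.str hn hE hh).main Cm hzm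

lemma Comp.neg {z' : Fin n → ℝ} (C : Comp u z E z') : Comp u (-z) E (-z') := by
  intro e he v hv
  rw [g_neg, g_neg]
  have := C e he v hv
  linarith

/-- The abstract theorem: the drawing can be pushed below the equator iff it can be pushed above
the equator. -/
theorem Good.abs_iff (G : Good u z E) (hn : 0 < n) (hE : E.card + 6 = 3 * n) :
    (∃ zm : Fin n → ℝ, Comp u z E zm ∧ ∀ v, zm v < 0) ↔
      (∃ zp : Fin n → ℝ, Comp u z E zp ∧ ∀ v, 0 < zp v) := by
  constructor
  · rintro ⟨zm, h1, h2⟩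
    exact G.abs_main hn hE h1 h2
  · rintro ⟨zp, h1, h2⟩
    obtain ⟨y, h3, h4⟩ := G.neg.abs_main hn hE h1.neg (fun v => by
      simp only [Pi.neg_apply]; linarith [h2 v])
    refine ⟨-y, ?_, fun v => by simp only [Pi.neg_apply]; linarith [h4 v]⟩
    have := h3.neg
    rwa [neg_neg] at this

end Pool.Agent.R157.Sph
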