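import Mathlib

/-!
Definitions for MP_731b42_co: shortest-path triangulations of the unit sphere, longitudinal morphs,
sinkable and floatable triangulations.
-/

namespace Pool.Agent.R157.Sph

open Set

/-- The unit sphere `S²` in `ℝ³ = (Fin 3 → ℝ)` (the coordinates `0, 1, 2` are `x, y, z`; the poles are
`(0,0,1)` and `(0,0,-1)`). -/
def S2 : Set (Fin 3 → ℝ) := {x | x 0 ^ 2 + x 1 ^ 2 + x 2 ^ 2 = 1}

/-- The (closed) shorter great-circle arc between two non-antipodal points `p`, `q` of the sphere:
all points of the sphere that are nonnegative combinations of `p` and `q`. -/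
def arc (p q : Fin 3 → ℝ) : Set (Fin 3 → ℝ) :=
  {x | x ∈ S2 ∧ ∃ a b : ℝ, 0 ≤ a ∧ 0 ≤ b ∧ x = a • p + b • q}

/-- `v` (the positions of the vertices `0, …, n-1`) is a shortest-path triangulation of the sphere
with underlying graph `G`: `n ≥ 4`, the vertices are distinct points of the sphere, adjacent
vertices are not antipodal, every edge is drawn as the shorter great-circle arc between its ends
(length `< π`), distinct edges meet only at common ends, no vertex lies on an edge that does not end
there (so this is an embedding of `G`), and `G` is maximal planar (a planar graph with `n ≥ 4`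
vertices is maximal planar iff it has `3n - 6` edges). -/
structure IsSPT {n : ℕ} (G : SimpleGraph (Fin n)) (v : Fin n → Fin 3 → ℝ) : Prop where
  four_le : 4 ≤ n
  mem_sphere : ∀ i, v i ∈ S2
  injective : Function.Injective v
  not_antipodal : ∀ i j, G.Adj i j → v i ≠ - v j
  edges_meet : ∀ i j k l, G.Adj i j → G.Adj k l → s(i, j) ≠ s(k, l) →
    ∀ x, x ∈ arc (v i) (v j) → x ∈ arc (v k) (v l) →
      ∃ m, m ∈ s(i, j) ∧ m ∈ s(k, l) ∧ x = v m
  vertex_edge : ∀ i j m, G.Adj i j → v m ∈ arc (v i) (v j) → m = i ∨ m = j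
  maximal : Nat.card G.edgeSet = 3 * n - 6

/-- The genericity condition on longitudes: no great circle through the poles contains more than one
vertex (the great circles through the poles are the intersections of the sphere with the planes
`w 0 * x + w 1 * y = 0`). In particular no vertex is at a pole and distinct vertices lie on distinct
longitudes. -/
def PoleGeneric {n : ℕ} (v : Fin n → Fin 3 → ℝ) : Prop :=
  ∀ w0 w1 : ℝ, ¬ (w0 = 0 ∧ w1 = 0) → {i | w0 * v i 0 + w1 * v i 1 = 0}.ncard ≤ 1

/-- The longitude of a point `p` different from the poles: the open half great circle through `p`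
joining the poles. -/
def longitude (p : Fin 3 → ℝ) : Set (Fin 3 → ℝ) :=
  {q | q ∈ S2 ∧ ∃ c : ℝ, 0 < c ∧ q 0 = c * p 0 ∧ q 1 = c * p 1}

/-- A longitudinal morph: a continuous family `γ t`, `t ∈ [0,1]`, of shortest-path triangulations
with the same underlying graph, during which every vertex stays on its own longitude. -/
structure IsLongitudinalMorph {n : ℕ} (G : SimpleGraph (Fin n)) (γ : ℝ → Fin n → Fin 3 → ℝ) :
    Prop where
  cont : ∀ i, ContinuousOn (fun t => γ t i) (Icc 0 1)
  spt : ∀ t ∈ Icc (0 : ℝ) 1, IsSPT G (γ t)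
  stays : ∀ t ∈ Icc (0 : ℝ) 1, ∀ i, γ t i ∈ longitude (γ 0 i)

/-- Some longitudinal morph carries `v` to a triangulation in the open southern hemisphere. -/
def Sinkable {n : ℕ} (G : SimpleGraph (Fin n)) (v : Fin n → Fin 3 → ℝ) : Prop :=
  ∃ γ : ℝ → Fin n → Fin 3 → ℝ, IsLongitudinalMorph G γ ∧ γ 0 = v ∧ ∀ i, γ 1 i 2 < 0

/-- Some longitudinal morph carries `v` to a triangulation in the open northern hemisphere. -/
def Floatable {n : ℕ} (G : SimpleGraph (Fin n)) (v : Fin n → Fin 3 → ℝ) : Prop :=
  ∃ γ : ℝ → Fin n → Fin 3 → ℝ, IsLongitudinalMorph G γ ∧ γ 0 = v ∧ ∀ i, 0 < γ 1 i 2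

end Pool.Agent.R157.Sph
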