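import Pool.Agent.R157.Sph.Defs

/-!
Definitions for MP_e680c3_co in arbitrary position (the sphere `S2`, the arcs `arc` and the
longitudes `longitude` are those of `Defs`).
-/

namespace Pool.Agent.R157.Sph

open Set

/-- `v` (the positions of the vertices `0, …, n-1`) is a shortest-path triangulation of the sphere
with underlying graph `G`: `n ≥ 3`, the vertices are distinct points of the sphere, adjacent
vertices are not antipodal, every edge is drawn as the shorter great-circle arc between its ends,
distinct edges meet only at common ends, no vertex lies on an edge that does not end there (so this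
is an embedding of `G`), and `G` is maximal planar (a planar graph with `n ≥ 3` vertices is maximal
planar iff it has `3n - 6` edges). -/
structure IsSPT3 {n : ℕ} (G : SimpleGraph (Fin n)) (v : Fin n → Fin 3 → ℝ) : Prop where
  three_le : 3 ≤ n
  mem_sphere : ∀ i, v i ∈ S2
  injective : Function.Injective v
  not_antipodal : ∀ i j, G.Adj i j → v i ≠ - v j
  edges_meet : ∀ i j k l, G.Adj i j → G.Adj k l → s(i, j) ≠ s(k, l) →
    ∀ x, x ∈ arc (v i) (v j) → x ∈ arc (v k) (v l) →
      ∃ m, m ∈ s(i, j) ∧ m ∈ s(k, l) ∧ x = v m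
  vertex_edge : ∀ i j m, G.Adj i j → v m ∈ arc (v i) (v j) → m = i ∨ m = j
  maximal : Nat.card G.edgeSet = 3 * n - 6

/-- The north pole. -/
def northP : Fin 3 → ℝ := ![0, 0, 1]

/-- The south pole. -/
def southP : Fin 3 → ℝ := ![0, 0, -1]

/-- Neither pole is a vertex or lies on an edge. -/
structure PolesFree {n : ℕ} (G : SimpleGraph (Fin n)) (v : Fin n → Fin 3 → ℝ) : Prop where
  vertex : ∀ i, v i ≠ northP ∧ v i ≠ southP
  edge : ∀ i j, G.Adj i j → northP ∉ arc (v i) (v j) ∧ southP ∉ arc (v i) (v j)

/-- A longitudinal morph: a continuous family `γ t`, `t ∈ [0,1]`, of shortest-path triangulations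
with the same underlying graph, during which every vertex stays on its own longitude (the open half
great circle through the vertex joining the poles). -/
structure IsLongitudinalMorph3 {n : ℕ} (G : SimpleGraph (Fin n)) (γ : ℝ → Fin n → Fin 3 → ℝ) :
    Prop where
  cont : ∀ i, ContinuousOn (fun t => γ t i) (Icc 0 1)
  spt : ∀ t ∈ Icc (0 : ℝ) 1, IsSPT3 G (γ t)
  stays : ∀ t ∈ Icc (0 : ℝ) 1, ∀ i, γ t i ∈ longitude (γ 0 i)

/-- Some longitudinal morph carries `v` to a triangulation in the open southern hemisphere. -/
def Sinkable3 {n : ℕ} (G : SimpleGraph (Fin n)) (v : Fin n → Fin 3 → ℝ) : Prop :=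
  ∃ γ : ℝ → Fin n → Fin 3 → ℝ, IsLongitudinalMorph3 G γ ∧ γ 0 = v ∧ ∀ i, γ 1 i 2 < 0

end Pool.Agent.R157.Sph
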