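import Pool.Agent.R157.Sph.Sphere

namespace Pool.Agent.R157.Sph

open Classical Set

variable {n : ℕ}

lemma pole_gen {v : Fin n → Fin 3 → ℝ} (hv : PoleGeneric v) {i j : Fin n} (hij : i ≠ j) :
    v i 0 * v j 1 - v i 1 * v j 0 ≠ 0 := by
  intro h
  have key : ∀ w0 w1 : ℝ, ¬ (w0 = 0 ∧ w1 = 0) → w0 * v i 0 + w1 * v i 1 = 0 →
      w0 * v j 0 + w1 * v j 1 = 0 → False := by
    intro w0 w1 hw hi hj
    have h1 := hv w0 w1 hw
    have h2 : ({i, j} : Set (Fin n)) ⊆ {i | w0 * v i 0 + w1 * v i 1 = 0} := by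
      intro k hk
      rcases hk with rfl | hk
      · exact hi
      · rw [mem_singleton_iff] at hk; rw [hk]; exact hj
    have h3 := Set.ncard_le_ncard h2 (Set.toFinite _)
    rw [Set.ncard_pair hij] at h3
    omega
  by_cases h1 : v i 0 = 0 ∧ v i 1 = 0
  · by_cases h2 : v j 0 = 0 ∧ v j 1 = 0
    · exact key 1 0 (by simp) (by rw [h1.1]; simp) (by rw [h2.1]; simp)
    · exact key (-v j 1) (v j 0) (by
        rintro ⟨a, b⟩; exact h2 ⟨b, by linarith⟩) (by rw [h1.1, h1.2]; simp) (by ring)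
  · exact key (-v i 1) (v i 0) (by
        rintro ⟨a, b⟩; exact h1 ⟨b, by linarith⟩) (by ring) (by linarith)

lemma pole_rr {v : Fin n → Fin 3 → ℝ} (hv : PoleGeneric v) (hn : 4 ≤ n) (i : Fin n) :
    0 < rr (v i) := by
  apply rr_pos_of
  rintro ⟨h0, h1⟩
  obtain ⟨j, hj⟩ : ∃ j : Fin n, i ≠ j := by
    by_cases h : i.val = 0
    · exact ⟨⟨1, by omega⟩, fun h' => by rw [h'] at h; simp at h⟩
    · exact ⟨⟨0, by omega⟩, fun h' => h (by rw [h'])⟩
  apply pole_gen hv hj
  rw [h0, h1]; ring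

lemma cr_dir {p q : Fin 3 → ℝ} (hp : 0 < rr p) (hq : 0 < rr q) :
    cr (dir p) (dir q) = (p 0 * q 1 - p 1 * q 0) / (rr p * rr q) := by
  unfold cr dir
  simp only
  field_simp

lemma rr_longitude {p q : Fin 3 → ℝ} {c : ℝ} (hc : 0 < c) (h0 : q 0 = c * p 0)
    (h1 : q 1 = c * p 1) : rr q = c * rr p := by
  unfold rr
  rw [h0, h1, show (c * p 0) ^ 2 + (c * p 1) ^ 2 = c ^ 2 * (p 0 ^ 2 + p 1 ^ 2) by ring,
    Real.sqrt_mul (by positivity), Real.sqrt_sq hc.le]

lemma dir_longitude {p q : Fin 3 → ℝ} (hp : 0 < rr p) (h : q ∈ longitude p) :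
    0 < rr q ∧ dir q = dir p := by
  obtain ⟨-, c, hc, h0, h1⟩ := h
  have h2 := rr_longitude hc h0 h1
  refine ⟨by rw [h2]; positivity, ?_⟩
  unfold dir
  rw [h2, h0, h1]
  rw [mul_div_mul_left _ _ hc.ne', mul_div_mul_left _ _ hc.ne']

/-- A longitudinal morph keeps the above/below relations. -/
lemma morph_comp {G : SimpleGraph (Fin n)} {γ : ℝ → Fin n → Fin 3 → ℝ}
    (hγ : IsLongitudinalMorph G γ) (hv : PoleGeneric (γ 0)) :
    Comp (fun i => dir (γ 0 i)) (fun i => ht (γ 0 i)) (dE G (fun i => dir (γ 0 i)))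
      (fun i => ht (γ 1 i)) := by
  have hn : 4 ≤ n := (hγ.spt 0 (by simp)).four_le
  set u : Fin n → ℝ × ℝ := fun i => dir (γ 0 i) with hu
  have hr0 : ∀ i, 0 < rr (γ 0 i) := pole_rr hv hn
  have hdir : ∀ t ∈ Icc (0:ℝ) 1, ∀ i, 0 < rr (γ t i) ∧ dir (γ t i) = u i := fun t ht i =>
    dir_longitude (hr0 i) (hγ.stays t ht i)
  have hunit : ∀ i, ip (u i) (u i) = 1 := fun i => dir_unit (hr0 i)
  have hgen : ∀ i j, i ≠ j → cr (u i) (u j) ≠ 0 := by
    intro i j hij
    rw [hu]; simp only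
    rw [cr_dir (hr0 i) (hr0 j)]
    exact div_ne_zero (pole_gen hv hij) (mul_pos (hr0 i) (hr0 j)).ne'
  have hgood : ∀ t ∈ Icc (0:ℝ) 1, Good u (fun i => ht (γ t i)) (dE G u) := by
    intro t ht'
    have hS := hγ.spt t ht'
    have : γ t = fun i => pt (u i) (ht (γ t i)) := by
      funext i
      rw [← (hdir t ht' i).2]
      exact (pt_dir (hS.mem_sphere i) (hdir t ht' i).1).symm
    rw [this] at hS
    exact hS.good hunit hgen
  have hcont : ∀ i, ContinuousOn (fun t => ht (γ t i)) (Icc 0 1) := by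
    intro i
    have hc := hγ.cont i
    have hc' : ∀ k : Fin 3, ContinuousOn (fun t => γ t i k) (Icc 0 1) := fun k =>
      (continuous_apply k).comp_continuousOn hc
    unfold ht rr
    apply ContinuousOn.div (hc' 2)
    · exact ((hc' 0).pow 2 |>.add ((hc' 1).pow 2)).sqrt
    · intro t ht'
      exact (hdir t ht' i).1.ne'
  intro e he w hw
  have hg : ContinuousOn (fun t => g u (fun i => ht (γ t i)) e w) (Icc 0 1) := by
    unfold g H
    apply ContinuousOn.sub
    · apply ContinuousOn.div_const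
      exact ((hcont _).mul continuousOn_const).add ((hcont _).mul continuousOn_const)
    · exact hcont w
  have hne : ∀ t ∈ Icc (0:ℝ) 1, g u (fun i => ht (γ t i)) e w ≠ 0 := fun t ht' =>
    (hgood t ht').g_ne he hw
  by_contra hle
  rw [not_lt] at hle
  have h0 := hne 0 (by simp)
  have h1 := hne 1 (by simp)
  have hlt : g u (fun i => ht (γ 0 i)) e w * g u (fun i => ht (γ 1 i)) e w < 0 :=
    lt_of_le_of_ne hle (mul_ne_zero h0 h1)
  have h01 : (0:ℝ) ≤ 1 := zero_le_one
  rcases mul_neg_iff.1 hlt with ⟨a, b⟩ | ⟨a, b⟩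
  · have := intermediate_value_Icc' h01 hg
    obtain ⟨t, ht', h⟩ := this ⟨b.le, a.le⟩
    exact hne t ht' h
  · have := intermediate_value_Icc h01 hg
    obtain ⟨t, ht', h⟩ := this ⟨a.le, b.le⟩
    exact hne t ht' h

/-- Compatible heights can be reached by a longitudinal morph. -/
lemma morph_of_comp {G : SimpleGraph (Fin n)} {v : Fin n → Fin 3 → ℝ} (hS : IsSPT G v)
    (hv : PoleGeneric v) {z' : Fin n → ℝ}
    (C : Comp (fun i => dir (v i)) (fun i => ht (v i)) (dE G (fun i => dir (v i))) z') :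
    ∃ γ : ℝ → Fin n → Fin 3 → ℝ, IsLongitudinalMorph G γ ∧ γ 0 = v ∧
      ∀ i, γ 1 i = pt (dir (v i)) (z' i) := by
  set u : Fin n → ℝ × ℝ := fun i => dir (v i) with hu
  set z : Fin n → ℝ := fun i => ht (v i) with hz
  have hr0 : ∀ i, 0 < rr (v i) := pole_rr hv hS.four_le
  have hunit : ∀ i, ip (u i) (u i) = 1 := fun i => dir_unit (hr0 i)
  have hgen : ∀ i j, i ≠ j → cr (u i) (u j) ≠ 0 := by
    intro i j hij
    rw [hu]; simp only
    rw [cr_dir (hr0 i) (hr0 j)]
    exact div_ne_zero (pole_gen hv hij) (mul_pos (hr0 i) (hr0 j)).ne'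
  have hv0 : v = fun i => pt (u i) (z i) := by
    funext i; exact (pt_dir (hS.mem_sphere i) (hr0 i)).symm
  have hgood : Good u z (dE G u) := by
    have hS' := hS
    rw [hv0] at hS'
    exact hS'.good hunit hgen
  have hgt : ∀ t ∈ Icc (0:ℝ) 1, Good u (fun i => (1 - t) * z i + t * z' i) (dE G u) := by
    intro t ht'
    apply hgood.of_comp
    intro e he w hw
    have h1 : g u (fun i => (1 - t) * z i + t * z' i) e w =
        (1 - t) * g u z e w + t * g u z' e w := by
      unfold g H; ring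
    rw [h1]
    have h2 := C e he w hw
    have h3 : 0 < g u z e w * g u z e w := mul_self_pos.2 (hgood.g_ne he hw)
    rcases ht'.1.eq_or_lt with h4 | h4
    · rw [← h4]; linarith
    · have h5 := mul_pos h4 h2
      have h6 := mul_nonneg (sub_nonneg.2 ht'.2) h3.le
      nlinarith
  refine ⟨fun t i => pt (u i) ((1 - t) * z i + t * z' i), ⟨?_, ?_, ?_⟩, ?_, ?_⟩
  · intro i
    apply Continuous.continuousOn
    unfold pt
    apply continuous_pi
    intro k
    have hc : Continuous (fun t : ℝ => Real.sqrt (1 + ((1 - t) * z i + t * z' i) ^ 2)) := by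
      fun_prop
    have hne : ∀ t : ℝ, Real.sqrt (1 + ((1 - t) * z i + t * z' i) ^ 2) ≠ 0 := fun t =>
      (sq1_pos _).ne'
    fin_cases k
    · exact continuous_const.div hc hne
    · exact continuous_const.div hc hne
    · exact Continuous.div (by fun_prop) hc hne
  · intro t ht'
    exact (hgt t ht').isSPT hS.four_le hS.maximal
  · intro t ht' i
    refine ⟨pt_mem _ (hunit i) _, ?_⟩
    have s1 := sq1_pos ((1 - t) * z i + t * z' i)
    have s2 := sq1_pos ((1 - 0) * z i + 0 * z' i)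
    refine ⟨Real.sqrt (1 + ((1 - 0) * z i + 0 * z' i) ^ 2) /
      Real.sqrt (1 + ((1 - t) * z i + t * z' i) ^ 2), div_pos s2 s1, ?_, ?_⟩
    · simp only [pt, Matrix.cons_val_zero]
      field_simp
    · simp only [pt, Matrix.cons_val_one, Matrix.cons_val_zero]
      field_simp
  · funext i
    simp only [sub_zero, one_mul, zero_mul, add_zero]
    rw [hv0]
  · intro i
    simp only [sub_self, zero_mul, one_mul, zero_add]
    rfl

lemma sinkable_iff {G : SimpleGraph (Fin n)} {v : Fin n → Fin 3 → ℝ} (hS : IsSPT G v)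
    (hv : PoleGeneric v) : Sinkable G v ↔
      ∃ z' : Fin n → ℝ, Comp (fun i => dir (v i)) (fun i => ht (v i))
        (dE G (fun i => dir (v i))) z' ∧ ∀ i, z' i < 0 := by
  constructor
  · rintro ⟨γ, hγ, h0, h1⟩
    subst h0
    refine ⟨fun i => ht (γ 1 i), morph_comp hγ hv, fun i => ?_⟩
    have := (dir_longitude (pole_rr hv hS.four_le i) (hγ.stays 1 (by simp) i)).1
    exact div_neg_of_neg_of_pos (h1 i) this
  · rintro ⟨z', C, hz⟩
    obtain ⟨γ, h1, h2, h3⟩ := morph_of_comp hS hv C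
    refine ⟨γ, h1, h2, fun i => ?_⟩
    rw [h3 i]
    simp only [pt, Matrix.cons_val]
    exact div_neg_of_neg_of_pos (hz i) (sq1_pos _)

lemma floatable_iff {G : SimpleGraph (Fin n)} {v : Fin n → Fin 3 → ℝ} (hS : IsSPT G v)
    (hv : PoleGeneric v) : Floatable G v ↔
      ∃ z' : Fin n → ℝ, Comp (fun i => dir (v i)) (fun i => ht (v i))
        (dE G (fun i => dir (v i))) z' ∧ ∀ i, 0 < z' i := by
  constructor
  · rintro ⟨γ, hγ, h0, h1⟩
    subst h0
    refine ⟨fun i => ht (γ 1 i), morph_comp hγ hv, fun i => ?_⟩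
    have := (dir_longitude (pole_rr hv hS.four_le i) (hγ.stays 1 (by simp) i)).1
    exact div_pos (h1 i) this
  · rintro ⟨z', C, hz⟩
    obtain ⟨γ, h1, h2, h3⟩ := morph_of_comp hS hv C
    refine ⟨γ, h1, h2, fun i => ?_⟩
    rw [h3 i]
    simp only [pt, Matrix.cons_val]
    exact div_pos (hz i) (sq1_pos _)

/-- A shortest-path triangulation of the sphere is sinkable iff it is floatable. -/
theorem sinkable_iff_floatable {G : SimpleGraph (Fin n)} {v : Fin n → Fin 3 → ℝ}
    (hS : IsSPT G v) (hv : PoleGeneric v) : Sinkable G v ↔ Floatable G v := by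
  rw [sinkable_iff hS hv, floatable_iff hS hv]
  have hr0 : ∀ i, 0 < rr (v i) := pole_rr hv hS.four_le
  have hunit : ∀ i, ip (dir (v i)) (dir (v i)) = 1 := fun i => dir_unit (hr0 i)
  have hgen : ∀ i j, i ≠ j → cr (dir (v i)) (dir (v j)) ≠ 0 := by
    intro i j hij
    rw [cr_dir (hr0 i) (hr0 j)]
    exact div_ne_zero (pole_gen hv hij) (mul_pos (hr0 i) (hr0 j)).ne'
  have hv0 : v = fun i => pt (dir (v i)) (ht (v i)) := by
    funext i; exact (pt_dir (hS.mem_sphere i) (hr0 i)).symm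
  have hgood : Good (fun i => dir (v i)) (fun i => ht (v i)) (dE G (fun i => dir (v i))) := by
    have hS' := hS
    rw [hv0] at hS'
    exact hS'.good hunit hgen
  have hn := hS.four_le
  refine hgood.abs_iff (by omega) ?_
  rw [card_dE G _ hgen, hS.maximal]
  omega

end Pool.Agent.R157.Sph
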