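import Pool.Agent.R157.Sph.Circ3
import Pool.Agent.R157.Sph.Final

namespace Pool.Agent.R157.Sph

open Classical Set

variable {n : ℕ}

/-- The value at the point `x` of the linear form with coefficients `w`; the great circles are the
sets of the points `x` of the sphere with `dot w x = 0`, where `w ≠ 0`. -/
def dot (w x : Fin 3 → ℝ) : ℝ := w 0 * x 0 + w 1 * x 1 + w 2 * x 2

/-- The arc from `p` to `q` crosses the great circle `{x | dot w x = 0}`: it has points in both open
hemispheres bounded by the circle. -/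
def Crosses (w p q : Fin 3 → ℝ) : Prop :=
  (∃ x ∈ arc p q, 0 < dot w x) ∧ (∃ y ∈ arc p q, dot w y < 0)

lemma left_mem_arc {p q : Fin 3 → ℝ} (hp : p ∈ S2) : p ∈ arc p q :=
  ⟨hp, 1, 0, zero_le_one, le_rfl, by simp⟩

lemma right_mem_arc {p q : Fin 3 → ℝ} (hq : q ∈ S2) : q ∈ arc p q :=
  ⟨hq, 0, 1, le_rfl, zero_le_one, by simp⟩

/-- A triangulation in general position with a great circle crossed by no edge is sinkable. -/
theorem sinkable_of_circle {G : SimpleGraph (Fin n)} {v : Fin n → Fin 3 → ℝ}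
    (hS : IsSPT G v) (hv : PoleGeneric v) (w : Fin 3 → ℝ) (hw : w ≠ 0)
    (hc : ∀ i j, G.Adj i j → ¬ Crosses w (v i) (v j)) : Sinkable G v := by
  rw [sinkable_iff hS hv]
  have hr0 : ∀ i, 0 < rr (v i) := pole_rr hv hS.four_le
  have hunit : ∀ i, ip (dir (v i)) (dir (v i)) = 1 := fun i => dir_unit (hr0 i)
  have hgen : ∀ i j, i ≠ j → cr (dir (v i)) (dir (v j)) ≠ 0 := by
    intro i j hij
    rw [cr_dir (hr0 i) (hr0 j)]
    exact div_ne_zero (pole_gen hv hij) (mul_pos (hr0 i) (hr0 j)).ne'
  have hv0 : v = fun i => pt (dir (v i)) (ht (v i)) := by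
    funext i; exact (pt_dir (hS.mem_sphere i) (hr0 i)).symm
  have hgood : Good (fun i => dir (v i)) (fun i => ht (v i)) (dE G (fun i => dir (v i))) := by
    have hS' := hS
    rw [hv0] at hS'
    exact hS'.good hunit hgen
  have hn := hS.four_le
  refine hgood.circle_sink (by omega) ?_ (w 0, w 1) (w 2) ?_ ?_
  · rw [card_dE G _ hgen, hS.maximal]
    omega
  · rintro ⟨h1, h2⟩
    apply hw
    rw [Prod.mk_eq_zero] at h1
    ext i
    fin_cases i
    · exact h1.1
    · exact h1.2
    · exact h2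
  · intro e he
    have hadj := (mem_dE.1 he).1
    have hq : ∀ i, ip (w 0, w 1) (dir (v i)) + w 2 * ht (v i) = dot w (v i) / rr (v i) := by
      intro i
      unfold ip dir ht dot
      simp only
      field_simp
    simp only [hq]
    have hl := left_mem_arc (p := v e.1) (q := v e.2) (hS.mem_sphere _)
    have hr := right_mem_arc (p := v e.1) (q := v e.2) (hS.mem_sphere _)
    constructor
    · rintro ⟨h1, h2⟩
      refine hc _ _ hadj ⟨⟨_, hr, ?_⟩, ⟨_, hl, ?_⟩⟩
      · exact (div_pos_iff_of_pos_right (hr0 _)).1 h2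
      · by_contra hcon
        have := div_nonneg (not_lt.1 hcon) (hr0 e.1).le
        linarith
    · rintro ⟨h1, h2⟩
      refine hc _ _ hadj ⟨⟨_, hl, ?_⟩, ⟨_, hr, ?_⟩⟩
      · exact (div_pos_iff_of_pos_right (hr0 _)).1 h1
      · by_contra hcon
        have := div_nonneg (not_lt.1 hcon) (hr0 e.2).le
        linarith

end Pool.Agent.R157.Sph
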