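import Pool.Agent.R157.Sph.Ng8
import Pool.Agent.R157.Sph.Defs3
import Pool.Agent.R157.Sph.Final2

namespace Pool.Agent.R157.Sph

open Classical Set

variable {n : ℕ} {G : SimpleGraph (Fin n)} {u : Fin n → ℝ × ℝ} {z : Fin n → ℝ}

/-- Scaling factor of the sphere point. -/
noncomputable def kp (z : Fin n → ℝ) (i : Fin n) : ℝ := 1 / Real.sqrt (1 + z i ^ 2)

lemma kp_pos (z : Fin n → ℝ) (i : Fin n) : 0 < kp z i := by
  unfold kp; have := sq1_pos (z i); positivity

lemma pt_PP (u : Fin n → ℝ × ℝ) (z : Fin n → ℝ) (i : Fin n) :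
    pt (u i) (z i) = kp z i • PP u z i := pt_eq _ _

lemma arc_iff (u : Fin n → ℝ × ℝ) (z : Fin n → ℝ) (i j : Fin n) (x : Fin 3 → ℝ) :
    x ∈ arc (pt (u i) (z i)) (pt (u j) (z j)) ↔
      x ∈ S2 ∧ ∃ a b : ℝ, 0 ≤ a ∧ 0 ≤ b ∧ x = a • PP u z i + b • PP u z j := by
  have hi := kp_pos z i
  have hj := kp_pos z j
  constructor
  · rintro ⟨h, a, b, ha, hb, hx⟩
    refine ⟨h, a * kp z i, b * kp z j, by positivity, by positivity, ?_⟩
    rw [hx, pt_PP, pt_PP, smul_smul, smul_smul]
  · rintro ⟨h, a, b, ha, hb, hx⟩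
    refine ⟨h, a / kp z i, b / kp z j, by positivity, by positivity, ?_⟩
    rw [hx, pt_PP, pt_PP, smul_smul, smul_smul, div_mul_cancel₀ _ hi.ne',
      div_mul_cancel₀ _ hj.ne']

/-- Radial projection of a nonzero vector. -/
lemma exists_S2 {y : Fin 3 → ℝ} (hy : y ≠ 0) : ∃ L : ℝ, 0 < L ∧ L • y ∈ S2 := by
  have h0 : 0 < y 0 ^ 2 + y 1 ^ 2 + y 2 ^ 2 := by
    by_contra hc
    apply hy
    have h0 : y 0 = 0 := by nlinarith [sq_nonneg (y 0), sq_nonneg (y 1), sq_nonneg (y 2)]
    have h1 : y 1 = 0 := by nlinarith [sq_nonneg (y 0), sq_nonneg (y 1), sq_nonneg (y 2)]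
    have h2 : y 2 = 0 := by nlinarith [sq_nonneg (y 0), sq_nonneg (y 1), sq_nonneg (y 2)]
    ext i; fin_cases i
    · exact h0
    · exact h1
    · exact h2
  set L := Real.sqrt (y 0 ^ 2 + y 1 ^ 2 + y 2 ^ 2) with hL
  have hL0 : 0 < L := Real.sqrt_pos.2 h0
  have hL2 : L ^ 2 = y 0 ^ 2 + y 1 ^ 2 + y 2 ^ 2 := Real.sq_sqrt h0.le
  refine ⟨1 / L, by positivity, ?_⟩
  unfold S2
  simp only [mem_ofPred_eq, Pi.smul_apply, smul_eq_mul]
  have : (1 / L * y 0) ^ 2 + (1 / L * y 1) ^ 2 + (1 / L * y 2) ^ 2 =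
      (y 0 ^ 2 + y 1 ^ 2 + y 2 ^ 2) / L ^ 2 := by field_simp
  rw [this, hL2, div_self h0.ne']

lemma zero_not_S2' : (0 : Fin 3 → ℝ) ∉ S2 := by unfold S2; simp

/-- A triangulation with free poles is a drawing without crossings. -/
lemma IsSPT3.emb (hS : IsSPT3 G (fun i => pt (u i) (z i)))
    (hP : PolesFree G (fun i => pt (u i) (z i))) (hu : ∀ i, ip (u i) (u i) = 1) : Emb G u z := by
  have nopp : ∀ i j, G.Adj i j → -1 < ip (u i) (u j) := by
    intro i j hij
    by_contra hc
    have h1 : ip (u i) (u j) = -1 := le_antisymm (not_lt.1 hc) (ip_ge hu i j)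
    have h2 := opp_of_ip (hu i) (hu j) h1
    have hsum : PP u z i + PP u z j = up3 0 (z i + z j) := by
      unfold PP; rw [up3_add, h2]; congr 1; simp
    by_cases hz : z i + z j = 0
    · have h3 : PP u z i = - PP u z j := by
        rw [eq_neg_iff_add_eq_zero, hsum, hz, up3_zero]
      apply hS.not_antipodal i j hij
      rw [pt_PP, pt_PP, h3]
      have h4 : kp z i = kp z j := by
        unfold kp
        have : z i = - z j := by linarith
        rw [this]; congr 2; ring
      rw [h4, smul_neg]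
    · have habs : 0 < |z i + z j| := abs_pos.2 hz
      have hx : (1 / |z i + z j|) • (PP u z i + PP u z j) =
          up3 0 ((1 / |z i + z j|) * (z i + z j)) := by
        rw [hsum, up3_smul, smul_zero]
      have hmem : ∀ y : Fin 3 → ℝ, y ∈ S2 → y = (1 / |z i + z j|) • (PP u z i + PP u z j) →
          y ∈ arc (pt (u i) (z i)) (pt (u j) (z j)) := by
        intro y hy hy2
        rw [arc_iff]
        refine ⟨hy, 1 / |z i + z j|, 1 / |z i + z j|, by positivity, by positivity, ?_⟩
        rw [hy2, smul_add]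
      rcases lt_or_gt_of_ne hz with h | h
      · refine (hP.edge i j hij).2 (hmem southP ?_ ?_)
        · unfold S2 southP; simp
        · rw [hx, abs_of_neg h]
          have : 1 / -(z i + z j) * (z i + z j) = -1 := by
            field_simp
          rw [this]
          unfold southP up3; ext k; fin_cases k <;> simp
      · refine (hP.edge i j hij).1 (hmem northP ?_ ?_)
        · unfold S2 northP; simp
        · rw [hx, abs_of_pos h]
          have : 1 / (z i + z j) * (z i + z j) = 1 := by
            field_simp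
          rw [this]
          unfold northP up3; ext k; fin_cases k <;> simp
  refine ⟨hu, nopp, ?_, ?_, ?_⟩
  · intro i j hij huu hz
    apply hij
    apply hS.injective
    simp only
    rw [huu, hz]
  · intro i j m hij hi hj a b ha hb h
    have hmem : pt (u m) (z m) ∈ arc (pt (u i) (z i)) (pt (u j) (z j)) := by
      rw [arc_iff]
      have hk := kp_pos z m
      refine ⟨hS.mem_sphere m, kp z m * a, kp z m * b, by positivity, by positivity, ?_⟩
      rw [pt_PP, ← h, smul_add, smul_smul, smul_smul]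
    rcases hS.vertex_edge i j m hij hmem with h | h
    · exact hi h
    · exact hj h
  · intro i j k l hij hkl d1 d2 d3 d4 a b c d ha hb hc hd h
    have zero1 : ∀ {k l : Fin n} {c d : ℝ}, G.Adj k l → 0 ≤ c → 0 ≤ d →
        c • PP u z k + d • PP u z l = 0 → c = 0 ∧ d = 0 := by
      intro k l c d hkl hc hd h0
      rw [PP_comb, ← up3_zero, up3_inj] at h0
      exact dir_zero (hu k) (hu l) (nopp k l hkl) hc hd h0.1
    by_cases hy : a • PP u z i + b • PP u z j = 0
    · obtain ⟨q1, q2⟩ := zero1 hij ha hb hy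
      obtain ⟨q3, q4⟩ := zero1 hkl hc hd (h ▸ hy)
      exact ⟨q1, q2, q3, q4⟩
    · exfalso
      obtain ⟨L, hL, hLS⟩ := exists_S2 hy
      have m1 : L • (a • PP u z i + b • PP u z j) ∈ arc (pt (u i) (z i)) (pt (u j) (z j)) := by
        rw [arc_iff]
        refine ⟨hLS, L * a, L * b, by positivity, by positivity, ?_⟩
        rw [smul_add, smul_smul, smul_smul]
      have m2 : L • (a • PP u z i + b • PP u z j) ∈ arc (pt (u k) (z k)) (pt (u l) (z l)) := by
        rw [arc_iff]
        refine ⟨hLS, L * c, L * d, by positivity, by positivity, ?_⟩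
        rw [h, smul_add, smul_smul, smul_smul]
      obtain ⟨m, h1, h2, -⟩ := hS.edges_meet i j k l hij hkl (by
        intro h
        rw [Sym2.eq_iff] at h
        rcases h with ⟨h1, -⟩ | ⟨h1, -⟩
        · exact d1 h1
        · exact d2 h1) _ m1 m2
      rw [Sym2.mem_iff] at h1 h2
      rcases h1 with h1 | h1 <;> rcases h2 with h2 | h2
      · exact d1 (h1.symm.trans h2)
      · exact d2 (h1.symm.trans h2)
      · exact d3 (h1.symm.trans h2)
      · exact d4 (h1.symm.trans h2)

/-- A drawing without crossings is a triangulation. -/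
lemma Emb.isSPT3 (hE : Emb G u z) (hn : 3 ≤ n) (hm : Nat.card G.edgeSet = 3 * n - 6) :
    IsSPT3 G (fun i => pt (u i) (z i)) := by
  have hptS : ∀ i, pt (u i) (z i) ∈ S2 := fun i => pt_mem _ (hE.unit i) _
  have inj : ∀ (i j : Fin n) (a b : ℝ), 0 < a → 0 ≤ b → a • PP u z i = b • PP u z j → i = j := by
    intro i j a b ha hb h
    unfold PP at h
    rw [up3_smul, up3_smul, up3_inj] at h
    have h1 := unit_smul (hE.unit i) (hE.unit j) ha.le hb h.1
    have h2 := unit_smul' (hE.unit i) (hE.unit j) ha hb h.1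
    by_contra hij
    apply hE.inj i j hij h2
    rw [← h1] at h
    exact mul_left_cancel₀ ha.ne' h.2
  have vertex : ∀ i j m, G.Adj i j → ∀ a b c : ℝ, 0 ≤ a → 0 ≤ b → 0 < c →
      a • PP u z i + b • PP u z j = c • PP u z m → m = i ∨ m = j := by
    intro i j m hij a b c ha hb hc h
    by_contra hcon
    push Not at hcon
    refine hE.V i j m hij hcon.1 hcon.2 (c⁻¹ * a) (c⁻¹ * b) (by positivity) (by positivity) ?_
    have : c⁻¹ • (a • PP u z i + b • PP u z j) = c⁻¹ • (c • PP u z m) := by rw [h]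
    rw [smul_add, smul_smul, smul_smul, smul_smul, inv_mul_cancel₀ hc.ne', one_smul] at this
    exact this
  have share : ∀ m x y, G.Adj m x → G.Adj m y → x ≠ y → ∀ s t s' t' : ℝ, 0 ≤ s → 0 ≤ t →
      0 ≤ s' → 0 ≤ t' → s • PP u z m + t • PP u z x = s' • PP u z m + t' • PP u z y →
      t = 0 ∨ t' = 0 := by
    intro m x y hx hy hxy s t s' t' hs ht hs' ht' h
    by_contra hcon
    push Not at hcon
    have ht0 : 0 < t := lt_of_le_of_ne ht (Ne.symm hcon.1)
    have ht0' : 0 < t' := lt_of_le_of_ne ht' (Ne.symm hcon.2)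
    rcases le_total s' s with hle | hle
    · have h2 : (s - s') • PP u z m + t • PP u z x = t' • PP u z y := by
        rw [sub_smul]
        have : t' • PP u z y = s • PP u z m + t • PP u z x - s' • PP u z m := by rw [h]; abel
        rw [this]; abel
      rcases vertex m x y hx _ _ _ (sub_nonneg.2 hle) ht ht0' h2 with h3 | h3
      · exact hy.ne h3.symm
      · exact hxy h3.symm
    · have h2 : (s' - s) • PP u z m + t' • PP u z y = t • PP u z x := by
        rw [sub_smul]
        have : t • PP u z x = s' • PP u z m + t' • PP u z y - s • PP u z m := by rw [← h]; abel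
        rw [this]; abel
      rcases vertex m y x hy _ _ _ (sub_nonneg.2 hle) ht' ht0 h2 with h3 | h3
      · exact hx.ne h3.symm
      · exact hxy h3
  refine ⟨hn, hptS, ?_, ?_, ?_, ?_, hm⟩
  · intro i j h
    simp only at h
    rw [pt_PP, pt_PP] at h
    exact inj i j _ _ (kp_pos z i) (kp_pos z j).le h
  · intro i j hij h
    rw [pt_PP, pt_PP, eq_neg_iff_add_eq_zero] at h
    have := hE.comb_zero hij (kp_pos z i).le (kp_pos z j).le h
    exact (kp_pos z i).ne' this.1
  · intro i j k l hij hkl hne x h1 h2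
    rw [arc_iff] at h1 h2
    obtain ⟨hxS, a, b, ha, hb, hx⟩ := h1
    obtain ⟨-, c, d, hc, hd, hy⟩ := h2
    have hxy := hx.symm.trans hy
    -- a common vertex: the point is a multiple of it
    have fin1 : ∀ (m : Fin n) (r : ℝ), 0 ≤ r → x = r • PP u z m → x = pt (u m) (z m) := by
      intro m r hr hxm
      have hk := kp_pos z m
      refine eq_of_smul (c := r / kp z m) hxS (hptS m) (by positivity) ?_
      rw [hxm, pt_PP, smul_smul, div_mul_cancel₀ _ hk.ne']
    have common : ∀ (m x' y' : Fin n) (s t s' t' : ℝ), G.Adj m x' → G.Adj m y' → x' ≠ y' →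
        0 ≤ s → 0 ≤ t → 0 ≤ s' → 0 ≤ t' → x = s • PP u z m + t • PP u z x' →
        x = s' • PP u z m + t' • PP u z y' → x = pt (u m) (z m) := by
      intro m x' y' s t s' t' hx' hy' hne hs ht hs' ht' e1 e2
      rcases share m x' y' hx' hy' hne s t s' t' hs ht hs' ht' (e1.symm.trans e2) with h | h
      · rw [h, zero_smul, add_zero] at e1
        exact fin1 m s hs e1
      · rw [h, zero_smul, add_zero] at e2
        exact fin1 m s' hs' e2
    by_cases c1 : i = k
    · subst c1
      refine ⟨i, by simp, by simp, common i j l a b c d hij hkl ?_ ha hb hc hd hx hy⟩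
      rintro rfl; exact hne rfl
    by_cases c2 : i = l
    · subst c2
      refine ⟨i, by simp, by simp, common i j k a b d c hij hkl.symm ?_ ha hb hd hc hx
        (by rw [hy]; abel)⟩
      rintro rfl; exact hne Sym2.eq_swap
    by_cases c3 : j = k
    · subst c3
      refine ⟨j, by simp, by simp, common j i l b a c d hij.symm hkl ?_ hb ha hc hd
        (by rw [hx]; abel) hy⟩
      exact c2
    by_cases c4 : j = l
    · subst c4
      refine ⟨j, by simp, by simp, common j i k b a d c hij.symm hkl.symm ?_ hb ha hd hc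
        (by rw [hx]; abel) (by rw [hy]; abel)⟩
      exact c1
    exfalso
    obtain ⟨q1, q2, -, -⟩ := hE.X i j k l hij hkl c1 c2 c3 c4 a b c d ha hb hc hd hxy
    rw [q1, q2, zero_smul, zero_smul, add_zero] at hx
    rw [hx] at hxS
    exact zero_not_S2' hxS
  · intro i j m hij h
    rw [arc_iff] at h
    obtain ⟨-, a, b, ha, hb, hx⟩ := h
    rw [pt_PP] at hx
    exact vertex i j m hij a b _ ha hb (kp_pos z m) hx.symm

lemma nonpolar {p : Fin 3 → ℝ} (hp : p ∈ S2) (h1 : p ≠ northP) (h2 : p ≠ southP) : 0 < rr p := by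
  apply rr_pos_of
  rintro ⟨h0, h3⟩
  unfold S2 at hp
  simp only [mem_ofPred_eq] at hp
  rw [h0, h3] at hp
  have h4 : (p 2 - 1) * (p 2 + 1) = 0 := by linarith
  rcases mul_eq_zero.1 h4 with h | h
  · apply h1
    unfold northP
    ext i; fin_cases i
    · simpa using h0
    · simpa using h3
    · simp only [Fin.reduceFinMk, Matrix.cons_val]; linarith
  · apply h2
    unfold southP
    ext i; fin_cases i
    · simpa using h0
    · simpa using h3
    · simp only [Fin.reduceFinMk, Matrix.cons_val]; linarith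

/-- A shortest-path triangulation with a great circle crossed by no edge is sinkable. -/
theorem sinkable3_of_circle {v : Fin n → Fin 3 → ℝ} (hS : IsSPT3 G v) (hP : PolesFree G v)
    (w : Fin 3 → ℝ) (hw : w ≠ 0) (hc : ∀ i j, G.Adj i j → ¬ Crosses w (v i) (v j)) :
    Sinkable3 G v := by
  have hr0 : ∀ i, 0 < rr (v i) := fun i =>
    nonpolar (hS.mem_sphere i) (hP.vertex i).1 (hP.vertex i).2
  set u : Fin n → ℝ × ℝ := fun i => dir (v i) with hu
  set z : Fin n → ℝ := fun i => ht (v i) with hz
  have hunit : ∀ i, ip (u i) (u i) = 1 := fun i => dir_unit (hr0 i)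
  have hv0 : v = fun i => pt (u i) (z i) := by
    funext i; exact (pt_dir (hS.mem_sphere i) (hr0 i)).symm
  have hE : Emb G u z := by
    have hS' := hS
    have hP' := hP
    rw [hv0] at hS' hP'
    exact hS'.emb hP' hunit
  have hn := hS.three_le
  obtain ⟨Z, hZ, hneg⟩ := hE.circle hn hS.maximal (w 0, w 1) (w 2) (by
    rintro ⟨h1, h2⟩
    apply hw
    rw [Prod.mk_eq_zero] at h1
    ext i
    fin_cases i
    · exact h1.1
    · exact h1.2
    · exact h2) (by
    intro i j hij
    have hq : ∀ i, ip (w 0, w 1) (u i) + w 2 * z i = dot w (v i) / rr (v i) := by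
      intro i
      rw [hu, hz]
      unfold ip dir ht dot
      simp only
      have := (hr0 i).ne'
      field_simp
    rw [hq, hq]
    rintro ⟨h1, h2⟩
    have hl := left_mem_arc (p := v i) (q := v j) (hS.mem_sphere _)
    have hr := right_mem_arc (p := v i) (q := v j) (hS.mem_sphere _)
    refine hc _ _ hij ⟨⟨_, hr, ?_⟩, ⟨_, hl, ?_⟩⟩
    · exact (div_pos_iff_of_pos_right (hr0 _)).1 h2
    · by_contra hcon
      have := div_nonneg (not_lt.1 hcon) (hr0 i).le
      linarith)
  obtain ⟨K, hK⟩ := (Set.finite_range (fun v => z v / (- Z v))).bddAbove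
  set K' := max K 0 + 1 with hK'
  have hK0 : 0 < K' := by positivity
  have hend : ∀ i, z i + K' * Z i < 0 := by
    intro i
    have m1 : z i / (- Z i) ≤ K := hK ⟨i, rfl⟩
    have m2 : z i / (- Z i) < K' := by
      have := le_max_left K 0
      linarith
    rw [div_lt_iff₀ (by linarith [hneg i])] at m2
    linarith
  have hgt : ∀ t ∈ Icc (0:ℝ) 1, Emb G u (z + (t * K') • Z) := fun t ht' =>
    (hZ.sc hE (mul_nonneg ht'.1 hK0.le)).emb hE
  refine ⟨fun t i => pt (u i) (z i + t * K' * Z i), ⟨?_, ?_, ?_⟩, ?_, ?_⟩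
  · intro i
    apply Continuous.continuousOn
    unfold pt
    apply continuous_pi
    intro k
    have hcn : Continuous (fun t : ℝ => Real.sqrt (1 + (z i + t * K' * Z i) ^ 2)) := by
      fun_prop
    have hne : ∀ t : ℝ, Real.sqrt (1 + (z i + t * K' * Z i) ^ 2) ≠ 0 := fun t =>
      (sq1_pos _).ne'
    fin_cases k
    · exact continuous_const.div hcn hne
    · exact continuous_const.div hcn hne
    · exact Continuous.div (by fun_prop) hcn hne
  · intro t ht'
    exact (hgt t ht').isSPT3 hn hS.maximal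
  · intro t ht' i
    refine ⟨pt_mem _ (hunit i) _, ?_⟩
    have s1 := sq1_pos (z i + t * K' * Z i)
    have s2 := sq1_pos (z i + 0 * K' * Z i)
    refine ⟨Real.sqrt (1 + (z i + 0 * K' * Z i) ^ 2) /
      Real.sqrt (1 + (z i + t * K' * Z i) ^ 2), div_pos s2 s1, ?_, ?_⟩
    · simp only [pt, Matrix.cons_val_zero]
      field_simp
    · simp only [pt, Matrix.cons_val_one, Matrix.cons_val_zero]
      field_simp
  · funext i
    simp only [zero_mul, add_zero]
    rw [hv0]
  · intro i
    simp only [one_mul, pt, Matrix.cons_val]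
    exact div_neg_of_neg_of_pos (hend i) (sq1_pos _)

end Pool.Agent.R157.Sph
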