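import Pool.Agent.R157.Sph.Order

namespace Pool.Agent.R157.Sph

open Classical

variable {n : ℕ} {u : Fin n → ℝ × ℝ} {z : Fin n → ℝ} {E : Finset (Fin n × Fin n)}

/-- Determinant. -/
def Dt (u : Fin n → ℝ × ℝ) (h : Fin n → ℝ) (a b c : Fin n) : ℝ :=
  h a * cr (u b) (u c) + h b * cr (u c) (u a) + h c * cr (u a) (u b)

lemma sl_diff (h : Fin n → ℝ) {a b c : Fin n} (ha : ip (u a) (u a) = 1)
    (hab : cr (u a) (u b) ≠ 0) (hac : cr (u a) (u c) ≠ 0) :
    sl u h a c - sl u h a b = Dt u h a b c / (cr (u a) (u b) * cr (u a) (u c)) := by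
  unfold sl Dt
  have key : cr (u b) (u c) = ip (u a) (u b) * cr (u a) (u c) - ip (u a) (u c) * cr (u a) (u b) := by
    have : cr (u b) (u c) = cr (u b) (u c) * ip (u a) (u a) := by rw [ha]; ring
    rw [this]; unfold cr ip; ring
  have k2 : cr (u c) (u a) = - cr (u a) (u c) := cr_comm _ _
  rw [k2]
  field_simp
  rw [key]
  ring

/-- The face identity. -/
lemma face_id (hu : ∀ i, ip (u i) (u i) = 1) (h y : Fin n → ℝ) {v j k : Fin n}
    (hjv : 0 < cr (u j) (u v)) (hvk : 0 < cr (u v) (u k)) (hjk : 0 < cr (u j) (u k)) :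
    (y v * sl u h v k - y v * sl u h v j) + (y j * sl u h j v - y j * sl u h j k)
      + (y k * sl u h k j - y k * sl u h k v) =
    - (cr (u j) (u k) / (cr (u j) (u v) * cr (u v) (u k))) * (g u h (j, k) v) * (g u y (j, k) v) := by
  have hvj : cr (u v) (u j) ≠ 0 := by rw [cr_comm]; exact (neg_neg_of_pos hjv).ne
  have hkv : cr (u k) (u v) ≠ 0 := by rw [cr_comm]; exact (neg_neg_of_pos hvk).ne
  have hkj : cr (u k) (u j) ≠ 0 := by rw [cr_comm]; exact (neg_neg_of_pos hjk).ne
  have e1 := sl_diff h (hu v) hvj hvk.ne'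
  have e2 := sl_diff h (hu j) hjk.ne' hjv.ne'
  have e3 := sl_diff h (hu k) hkv hkj
  have f1 : y v * sl u h v k - y v * sl u h v j = y v * (sl u h v k - sl u h v j) := by ring
  have f2 : y j * sl u h j v - y j * sl u h j k = y j * (sl u h j v - sl u h j k) := by ring
  have f3 : y k * sl u h k j - y k * sl u h k v = y k * (sl u h k j - sl u h k v) := by ring
  rw [f1, f2, f3, e1, e2, e3]
  unfold Dt g H
  simp only
  have c1 : cr (u v) (u j) = - cr (u j) (u v) := cr_comm _ _
  have c2 : cr (u k) (u v) = - cr (u v) (u k) := cr_comm _ _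
  have c3 : cr (u k) (u j) = - cr (u j) (u k) := cr_comm _ _
  rw [c1, c2, c3]
  field_simp
  ring

/-- Sum over top edges. -/
lemma Good.sum_TP (G : Good u z E) {t : Fin n → Fin n} (ht : ∀ x, (x, t x) ∈ TP u z E)
    (f : Fin n × Fin n → ℝ) : ∑ e ∈ TP u z E, f e = ∑ x, f (x, t x) := by
  symm
  refine Finset.sum_nbij (fun x => (x, t x)) (fun x _ => ht x) ?_ ?_ ?_
  · intro x _ y _ h
    simp only [Prod.mk.injEq] at h
    exact h.1
  · rintro ⟨x, k⟩ h
    refine ⟨x, by simp, ?_⟩
    simp only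
    rw [G.te_unique (Finset.mem_coe.1 h) (ht x)]
  · intro x _; rfl

/-- The formula obtained by looking from west to east. -/
lemma Str.eastf (S : Str u z E) {te be : Fin n → Fin n} (hte : ∀ x, (x, te x) ∈ TP u z E)
    (hbe : ∀ x, (x, be x) ∈ TP u (-z) E) (f : Fin n × Fin n → ℝ) :
    ∑ x, f (x, te x) - ∑ x, f (x, be x) =
      ∑ v ∈ hasUp u z E, (f (upe u z E v) - f ((upe u z E v).1, v)) +
      ∑ v ∈ hasUp u (-z) E, (f ((upe u (-z) E v).1, v) - f (upe u (-z) E v)) := by
  have h1 := S.e1.sumf f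
  have h2 := S.e2.sumf f
  rw [neg_neg] at h2
  have h3 := NT_TP_sum (u := u) (z := z) (E := E) f
  have h4 := NT_TP_sum (u := u) (z := -z) (E := E) f
  rw [S.G.sum_TP hte] at h3
  rw [S.G.neg.sum_TP hbe] at h4
  rw [Finset.sum_sub_distrib, Finset.sum_sub_distrib]
  linarith

/-- The M-matrix argument. -/
lemma mmat {N : Finset (Fin n)} {Y : Fin n → ℝ} (hY : ∀ v, 0 < Y v) (U : Fin n → Fin n × Fin n)
    (hU : ∀ v ∈ N, Ov u (U v) (u v)) (hpos : ∀ v ∈ N, 0 < cr (u (U v).1) (u (U v).2))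
    (hneg : ∀ v ∈ N, g u Y (U v) v < 0) (α : Fin n → ℝ)
    (hα : ∀ x ∈ N, ∑ v ∈ N, α v * g u (Pi.single x 1) (U v) v ≤ 0) : ∀ v ∈ N, 0 ≤ α v := by
  by_contra hc
  push Not at hc
  obtain ⟨v0, hv0, hneg0⟩ := hc
  -- test vector
  set T : Fin n → ℝ := fun x => if x ∈ N ∧ α x < 0 then Y x else 0 with hT
  have hT0 : ∀ x, 0 ≤ T x := by
    intro x; simp only [hT]; split_ifs
    · exact (hY x).le
    · exact le_rfl
  have hTY : ∀ x, T x ≤ Y x := by
    intro x; simp only [hT]; split_ifs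
    · exact le_rfl
    · exact (hY x).le
  -- linearity
  have hlin : ∀ (e : Fin n × Fin n) (v : Fin n),
      g u T e v = ∑ x, T x * g u (Pi.single x 1) e v := by
    intro e v
    unfold g H
    have hs : ∀ w : Fin n, T w = ∑ x, T x * (Pi.single x (1:ℝ) : Fin n → ℝ) w := by
      intro w
      rw [Finset.sum_eq_single w]
      · simp
      · intro b _ hb
        rw [Pi.single_eq_of_ne (Ne.symm hb)]; ring
      · intro h; exact absurd (Finset.mem_univ w) h
    conv_lhs => rw [hs e.1, hs e.2, hs v]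
    rw [Finset.sum_mul, Finset.sum_mul, ← Finset.sum_add_distrib, Finset.sum_div,
      ← Finset.sum_sub_distrib]
    refine Finset.sum_congr rfl fun x _ => ?_
    ring
  have hsum : ∑ v ∈ N, α v * g u T (U v) v ≤ 0 := by
    have : ∑ v ∈ N, α v * g u T (U v) v =
        ∑ x, T x * ∑ v ∈ N, α v * g u (Pi.single x 1) (U v) v := by
      simp_rw [hlin, Finset.mul_sum]
      rw [Finset.sum_comm]
      refine Finset.sum_congr rfl fun x _ => Finset.sum_congr rfl fun v _ => ?_
      ring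
    rw [this]
    apply Finset.sum_nonpos
    intro x _
    by_cases hx : x ∈ N
    · exact mul_nonpos_of_nonneg_of_nonpos (hT0 x) (hα x hx)
    · have : T x = 0 := by simp only [hT]; rw [if_neg]; tauto
      rw [this]; simp
  have hterm : ∀ v ∈ N, 0 ≤ α v * g u T (U v) v ∧ (α v < 0 → 0 < α v * g u T (U v) v) := by
    intro v hv
    have o := hU v hv
    have pp := hpos v hv
    by_cases hneg1 : α v < 0
    · have hTv : T v = Y v := by simp only [hT]; rw [if_pos ⟨hv, hneg1⟩]
      have h1 : g u T (U v) v < 0 := by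
        have h2 := hneg v hv
        unfold g at h2 ⊢
        have h3 : H u T (U v) (u v) ≤ H u Y (U v) (u v) := by
          unfold H
          apply div_le_div_of_nonneg_right _ pp.le
          have := mul_le_mul_of_nonneg_right (hTY (U v).1) o.2.le
          have := mul_le_mul_of_nonneg_right (hTY (U v).2) o.1.le
          linarith
        rw [hTv]; linarith
      have := mul_pos_of_neg_of_neg hneg1 h1
      exact ⟨this.le, fun _ => this⟩
    · refine ⟨mul_nonneg (not_lt.1 hneg1) ?_, fun h => absurd h hneg1⟩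
      have hTv : T v = 0 := by simp only [hT]; rw [if_neg]; tauto
      unfold g
      rw [hTv, sub_zero]
      unfold H
      exact div_nonneg (add_nonneg (mul_nonneg (hT0 _) o.2.le) (mul_nonneg (hT0 _) o.1.le)) pp.le
  have : 0 < ∑ v ∈ N, α v * g u T (U v) v :=
    Finset.sum_pos' (fun v hv => (hterm v hv).1) ⟨v0, hv0, (hterm v0 hv0).2 hneg0⟩
  linarith

end Pool.Agent.R157.Sph
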