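import Pool.Agent.R157.Sph.Main

namespace Pool.Agent.R157.Sph

open Classical

variable {n : ℕ} {u : Fin n → ℝ × ℝ} {z : Fin n → ℝ} {E : Finset (Fin n × Fin n)}

/-- The weight of a face. -/
noncomputable def wt (u : Fin n → ℝ × ℝ) (e : Fin n × Fin n) (v : Fin n) : ℝ :=
  cr (u e.1) (u e.2) / (cr (u e.1) (u v) * cr (u v) (u e.2))

lemma Str.te_eq (S : Str u z E) {te : Fin n → Fin n} (hte : ∀ x, (x, te x) ∈ TP u z E)
    {v : Fin n} (hv : v ∈ hasUp u z E) : te v = (upe u z E v).2 :=
  S.G.te_unique (hte v) (S.te (upe_spec hv))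

lemma Str.tw_eq (S : Str u z E) {tw : Fin n → Fin n}
    (htw : ∀ x, (x, tw x) ∈ TP (ru u) z (rE E)) {v : Fin n} (hv : v ∈ hasUp u z E) :
    tw v = (upe u z E v).1 := by
  have h1 := S.refl.te (UpE_rf.2 (upe_spec hv))
  have h2 := S.refl.G.te_unique (htw v) h1
  simpa using h2

lemma Str.ident (S : Str u z E) {te be tw bw : Fin n → Fin n}
    (hte : ∀ x, (x, te x) ∈ TP u z E) (hbe : ∀ x, (x, be x) ∈ TP u (-z) E)
    (htw : ∀ x, (x, tw x) ∈ TP (ru u) z (rE E)) (hbw : ∀ x, (x, bw x) ∈ TP (ru u) (-z) (rE E))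
    (h y : Fin n → ℝ) :
    ∑ v ∈ hasUp u z E, wt u (upe u z E v) v * g u h (upe u z E v) v * g u y (upe u z E v) v =
      ∑ v ∈ hasUp u (-z) E,
        wt u (upe u (-z) E v) v * g u h (upe u (-z) E v) v * g u y (upe u (-z) E v) v
      + ∑ x ∈ (hasUp u z E)ᶜ, (y x * sl u h x (te x) - y x * sl u h x (tw x))
      - ∑ x ∈ (hasUp u (-z) E)ᶜ, (y x * sl u h x (be x) - y x * sl u h x (bw x)) := by
  set f : Fin n × Fin n → ℝ := fun e => y e.1 * sl u h e.1 e.2 with hf
  have h1 := S.eastf hte hbe f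
  have h2 := S.refl.eastf htw hbw f
  rw [hasUp_rf, hasUp_rf] at h2
  have h3 : ∑ v ∈ hasUp u z E, (f (upe (ru u) z (rE E) v) - f ((upe (ru u) z (rE E) v).1, v)) =
      ∑ v ∈ hasUp u z E, (f ((upe u z E v).2, (upe u z E v).1) - f ((upe u z E v).2, v)) := by
    refine Finset.sum_congr rfl fun v hv => ?_
    rw [S.G.upe_rf hv]; rfl
  have h4 : ∑ v ∈ hasUp u (-z) E,
      (f ((upe (ru u) (-z) (rE E) v).1, v) - f (upe (ru u) (-z) (rE E) v)) =
      ∑ v ∈ hasUp u (-z) E,
        (f ((upe u (-z) E v).2, v) - f ((upe u (-z) E v).2, (upe u (-z) E v).1)) := by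
    refine Finset.sum_congr rfl fun v hv => ?_
    rw [S.G.neg.upe_rf hv]; rfl
  rw [h3, h4] at h2
  have split1 : ∀ (t : Fin n → Fin n) (A : Finset (Fin n)), ∑ x, f (x, t x) =
      ∑ x ∈ A, f (x, t x) + ∑ x ∈ Aᶜ, f (x, t x) := fun t A =>
    (Finset.sum_add_sum_compl A _).symm
  rw [split1 te (hasUp u z E), split1 be (hasUp u (-z) E)] at h1
  rw [split1 tw (hasUp u z E), split1 bw (hasUp u (-z) E)] at h2
  have h5 : ∑ x ∈ hasUp u z E, f (x, te x) = ∑ v ∈ hasUp u z E, f (v, (upe u z E v).2) :=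
    Finset.sum_congr rfl fun v hv => by rw [S.te_eq hte hv]
  have h6 : ∑ x ∈ hasUp u (-z) E, f (x, be x) =
      ∑ v ∈ hasUp u (-z) E, f (v, (upe u (-z) E v).2) :=
    Finset.sum_congr rfl fun v hv => by rw [S.neg.te_eq hbe hv]
  have h7 : ∑ x ∈ hasUp u z E, f (x, tw x) = ∑ v ∈ hasUp u z E, f (v, (upe u z E v).1) :=
    Finset.sum_congr rfl fun v hv => by rw [S.tw_eq htw hv]
  have h8 : ∑ x ∈ hasUp u (-z) E, f (x, bw x) =
      ∑ v ∈ hasUp u (-z) E, f (v, (upe u (-z) E v).1) :=
    Finset.sum_congr rfl fun v hv => by rw [S.neg.tw_eq hbw hv]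
  rw [h5, h6] at h1
  rw [h7, h8] at h2
  have hface : ∀ (z : Fin n → ℝ), Good u z E → ∀ v ∈ hasUp u z E,
      wt u (upe u z E v) v * g u h (upe u z E v) v * g u y (upe u z E v) v =
      - ((f (v, (upe u z E v).2) - f (v, (upe u z E v).1))
        + (f ((upe u z E v).1, v) - f (upe u z E v))
        + (f ((upe u z E v).2, (upe u z E v).1) - f ((upe u z E v).2, v))) := by
    intro z G v hv
    have hs := upe_spec hv
    have hp := G.pos _ hs.1
    have := face_id G.unit h y (v := v) (j := (upe u z E v).1) (k := (upe u z E v).2)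
      hs.2.1.1 hs.2.1.2 hp
    simp only [hf]
    rw [this]
    unfold wt
    ring
  have h9 := Finset.sum_congr (rfl : hasUp u z E = hasUp u z E) (hface z S.G)
  have h10 := Finset.sum_congr (rfl : hasUp u (-z) E = hasUp u (-z) E) (hface (-z) S.G.neg)
  rw [h9, h10]
  simp only [Finset.sum_neg_distrib, Finset.sum_add_distrib, Finset.sum_sub_distrib] at h1 h2 ⊢
  have h11 : ∀ (t : Fin n → Fin n) (A : Finset (Fin n)),
      ∑ x ∈ A, y x * sl u h x (t x) = ∑ x ∈ A, f (x, t x) := fun t A => rfl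
  rw [h11 te, h11 tw, h11 be, h11 bw]
  linarith

lemma g_add (a b : Fin n → ℝ) (e : Fin n × Fin n) (v : Fin n) :
    g u (a + b) e v = g u a e v + g u b e v := by
  unfold g H; simp only [Pi.add_apply]; ring

lemma g_smul (c : ℝ) (a : Fin n → ℝ) (e : Fin n × Fin n) (v : Fin n) :
    g u (c • a) e v = c * g u a e v := by
  unfold g H; simp only [Pi.smul_apply, smul_eq_mul]; ring

/-- The linear map giving the gaps to the first edges below and the heights of the bottom vertices. -/
noncomputable def Phi (u : Fin n → ℝ × ℝ) (z : Fin n → ℝ) (E : Finset (Fin n × Fin n)) :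
    (Fin n → ℝ) →ₗ[ℝ] (Fin n → ℝ) where
  toFun y v := if v ∈ hasUp u (-z) E then g u y (upe u (-z) E v) v else y v
  map_add' a b := by
    funext v; simp only [Pi.add_apply]; split_ifs
    · exact g_add _ _ _ _
    · rfl
  map_smul' c a := by
    funext v; simp only [Pi.smul_apply, smul_eq_mul, RingHom.id_apply]; split_ifs
    · exact g_smul _ _ _ _
    · rfl

lemma Phi_up {y : Fin n → ℝ} {v : Fin n} (hv : v ∈ hasUp u (-z) E) :
    Phi u z E y v = g u y (upe u (-z) E v) v := by
  show (if v ∈ hasUp u (-z) E then g u y (upe u (-z) E v) v else y v) = _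
  rw [if_pos hv]

lemma Phi_no {y : Fin n → ℝ} {v : Fin n} (hv : v ∉ hasUp u (-z) E) :
    Phi u z E y v = y v := by
  show (if v ∈ hasUp u (-z) E then g u y (upe u (-z) E v) v else y v) = _
  rw [if_neg hv]

theorem Str.main (S : Str u z E) {zm : Fin n → ℝ} (Cm : Comp u z E zm) (hzm : ∀ v, zm v < 0) :
    ∃ zp : Fin n → ℝ, Comp u z E zp ∧ ∀ v, 0 < zp v := by
  choose te hte using S.e1.top_ex
  choose be hbe using S.e2.top_ex
  choose tw htw using S.e3.top_ex
  choose bw hbw using S.e4.top_ex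
  have hid := S.ident hte hbe htw hbw
  -- neighbours of bottom vertices
  have hbeN : ∀ x, x ∉ hasUp u (-z) E → be x ∉ hasUp u (-z) E := by
    intro x hx
    rw [mem_hasUp, ← noUp_iff] at hx ⊢
    exact (S.neg.G.env S.neg.west hx (hbe x)).1
  have hbwN : ∀ x, x ∉ hasUp u (-z) E → bw x ∉ hasUp u (-z) E := by
    intro x hx
    rw [← hasUp_rf] at hx ⊢
    rw [mem_hasUp, ← noUp_iff] at hx ⊢
    exact (S.neg.refl.G.env S.neg.refl.west hx (hbw x)).1
  have hbe0 : ∀ x, 0 < cr (u x) (u (be x)) := fun x => S.G.pos _ (Finset.mem_filter.1 (hbe x)).1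
  have hbw0 : ∀ x, 0 < cr (u (bw x)) (u x) := fun x => by
    have h := (Finset.mem_filter.1 (hbw x)).1
    rw [mem_rE] at h
    exact S.G.pos _ h
  have hwt : ∀ v ∈ hasUp u z E, 0 < wt u (upe u z E v) v := fun v hv => by
    have hs := upe_spec hv
    exact div_pos (S.G.pos _ hs.1) (mul_pos hs.2.1.1 hs.2.1.2)
  -- the M-matrix property
  have hM := mmat (u := u) (N := hasUp u z E) (Y := -zm)
    (fun v => by simp only [Pi.neg_apply]; linarith [hzm v]) (upe u z E)
    (fun v hv => (upe_spec hv).2.1) (fun v hv => S.G.pos _ (upe_spec hv).1)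
    (fun v hv => by
      have hs := upe_spec hv
      have h1 := Cm _ hs.1 v hs.2.1
      have h2 : 0 < g u z (upe u z E v) v := by unfold g; linarith [hs.2.2.1]
      have h3 : 0 < g u zm (upe u z E v) v := (pos_iff_pos_of_mul_pos h1).1 h2
      rw [g_neg]; linarith)
  -- evaluation of the identity at a test vector
  have hev : ∀ (h : Fin n → ℝ), (∀ v ∈ hasUp u (-z) E, g u h (upe u (-z) E v) v = 0) →
      ∀ x ∈ hasUp u z E, ∑ v ∈ hasUp u z E, (wt u (upe u z E v) v * g u h (upe u z E v) v) *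
        g u (Pi.single x 1) (upe u z E v) v =
        - ∑ w ∈ (hasUp u (-z) E)ᶜ, ((Pi.single x (1:ℝ) : Fin n → ℝ) w) *
          (sl u h w (be w) - sl u h w (bw w)) := by
    intro h hh x hx
    rw [hid h (Pi.single x 1)]
    have z1 : ∑ v ∈ hasUp u (-z) E, wt u (upe u (-z) E v) v * g u h (upe u (-z) E v) v *
        g u (Pi.single x 1) (upe u (-z) E v) v = 0 := by
      apply Finset.sum_eq_zero
      intro v hv
      rw [hh v hv]; ring
    have z2 : ∑ w ∈ (hasUp u z E)ᶜ, ((Pi.single x (1:ℝ) : Fin n → ℝ) w * sl u h w (te w) -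
        (Pi.single x (1:ℝ) : Fin n → ℝ) w * sl u h w (tw w)) = 0 := by
      apply Finset.sum_eq_zero
      intro w hw
      rw [Finset.mem_compl] at hw
      have : w ≠ x := by rintro rfl; exact hw hx
      rw [Pi.single_eq_of_ne this]; ring
    rw [z1, z2, zero_add, zero_sub]
    congr 1
    refine Finset.sum_congr rfl fun w _ => ?_
    ring
  -- injectivity
  have hinj : Function.Injective (Phi u z E) := by
    rw [injective_iff_map_eq_zero]
    intro y hy
    have y1 : ∀ v ∈ hasUp u (-z) E, g u y (upe u (-z) E v) v = 0 := fun v hv => by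
      rw [← Phi_up hv, hy]; rfl
    have y2 : ∀ v, v ∉ hasUp u (-z) E → y v = 0 := fun v hv => by
      rw [← Phi_no hv (z := z) (y := y), hy]; rfl
    have hz : ∀ x ∈ hasUp u z E, ∑ v ∈ hasUp u z E,
        (wt u (upe u z E v) v * g u y (upe u z E v) v) *
        g u (Pi.single x 1) (upe u z E v) v = 0 := by
      intro x hx
      rw [hev y y1 x hx, neg_eq_zero]
      apply Finset.sum_eq_zero
      intro w hw
      rw [Finset.mem_compl] at hw
      unfold sl
      rw [y2 w hw, y2 _ (hbeN w hw), y2 _ (hbwN w hw)]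
      simp
    have a1 := hM (fun v => wt u (upe u z E v) v * g u y (upe u z E v) v)
      (fun x hx => (hz x hx).le)
    have a2 := hM (fun v => - (wt u (upe u z E v) v * g u y (upe u z E v) v))
      (fun x hx => by
        have := hz x hx
        simp only [neg_mul, Finset.sum_neg_distrib] at this ⊢
        rw [this]; simp)
    have a3 : ∀ v ∈ hasUp u z E, g u y (upe u z E v) v = 0 := by
      intro v hv
      have b1 := a1 v hv
      have b2 := a2 v hv
      have b3 : wt u (upe u z E v) v * g u y (upe u z E v) v = 0 := by linarith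
      rcases mul_eq_zero.1 b3 with h | h
      · exact absurd h (hwt v hv).ne'
      · exact h
    have w1 : WComp u z E y := S.G.nearest
      (fun v e he => by rw [← S.G.upe_eq he]; exact (a3 v (mem_hasUp.2 ⟨e, he⟩)).ge)
      (fun v e he => by rw [← S.G.neg.upe_eq he]; exact (y1 v (mem_hasUp.2 ⟨e, he⟩)).le)
    have w2 : WComp u z E (-y) := S.G.nearest
      (fun v e he => by
        rw [g_neg, ← S.G.upe_eq he, a3 v (mem_hasUp.2 ⟨e, he⟩)]; simp)
      (fun v e he => by
        rw [g_neg, ← S.G.neg.upe_eq he, y1 v (mem_hasUp.2 ⟨e, he⟩)]; simp)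
    funext v
    have n1 := S.nonneg w1 (fun v hv => (y2 v hv).ge) v
    have n2 := S.nonneg w2 (fun v hv => by
      simp only [Pi.neg_apply]; rw [y2 v hv]; simp) v
    simp only [Pi.neg_apply] at n2
    simp only [Pi.zero_apply]
    linarith
  have hsurj : Function.Surjective (Phi u z E) := LinearMap.injective_iff_surjective.1 hinj
  obtain ⟨h, hh⟩ := hsurj (fun v => if v ∈ hasUp u (-z) E then 0 else 1)
  have h1 : ∀ v ∈ hasUp u (-z) E, g u h (upe u (-z) E v) v = 0 := fun v hv => by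
    rw [← Phi_up hv, hh]; simp only; rw [if_pos hv]
  have h2 : ∀ v, v ∉ hasUp u (-z) E → h v = 1 := fun v hv => by
    rw [← Phi_no hv (z := z) (y := h), hh]; simp only; rw [if_neg hv]
  have ip_le : ∀ i j, ip (u i) (u j) ≤ 1 := by
    intro i j
    have e1 := S.G.unit i
    have e2 := S.G.unit j
    unfold ip at *
    nlinarith [sq_nonneg ((u i).1 - (u j).1), sq_nonneg ((u i).2 - (u j).2)]
  have hz : ∀ x ∈ hasUp u z E, ∑ v ∈ hasUp u z E,
      (wt u (upe u z E v) v * g u h (upe u z E v) v) *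
      g u (Pi.single x 1) (upe u z E v) v ≤ 0 := by
    intro x hx
    rw [hev h h1 x hx, neg_nonpos]
    apply Finset.sum_nonneg
    intro w hw
    rw [Finset.mem_compl] at hw
    have s1 : 0 ≤ sl u h w (be w) := by
      unfold sl
      rw [h2 w hw, h2 _ (hbeN w hw), one_mul]
      exact div_nonneg (by linarith [ip_le w (be w)]) (hbe0 w).le
    have s2 : sl u h w (bw w) ≤ 0 := by
      unfold sl
      rw [h2 w hw, h2 _ (hbwN w hw), one_mul, cr_comm, div_neg, neg_nonpos]
      exact div_nonneg (by linarith [ip_le w (bw w)]) (hbw0 w).le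
    have s3 : (0:ℝ) ≤ (Pi.single x (1:ℝ) : Fin n → ℝ) w := by
      by_cases hxw : w = x
      · subst hxw; simp
      · rw [Pi.single_eq_of_ne hxw]
    exact mul_nonneg s3 (by linarith)
  have a1 := hM (fun v => wt u (upe u z E v) v * g u h (upe u z E v) v) hz
  have a3 : ∀ v ∈ hasUp u z E, 0 ≤ g u h (upe u z E v) v := by
    intro v hv
    have b1 := a1 v hv
    exact nonneg_of_mul_nonneg_right b1 (hwt v hv)
  have w1 : WComp u z E h := S.G.nearest
    (fun v e he => by rw [← S.G.upe_eq he]; exact a3 v (mem_hasUp.2 ⟨e, he⟩))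
    (fun v e he => by rw [← S.G.neg.upe_eq he]; exact (h1 v (mem_hasUp.2 ⟨e, he⟩)).le)
  have hpos := S.positive w1 (fun v hv => by rw [h2 v hv]; exact one_pos)
  obtain ⟨M, hM2⟩ := (Set.finite_range (fun v => - z v / h v)).bddAbove
  refine ⟨z + (max M 0 + 1) • h, S.G.comp_add w1 (by positivity), fun v => ?_⟩
  have m1 : - z v / h v ≤ M := hM2 ⟨v, rfl⟩
  have m2 : - z v / h v < max M 0 + 1 := by
    have := le_max_left M 0
    linarith
  rw [div_lt_iff₀ (hpos v)] at m2
  simp only [Pi.add_apply, Pi.smul_apply, smul_eq_mul]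
  linarith

end Pool.Agent.R157.Sph
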