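import Pool.Agent.R157.Sph.Cover
import Pool.Agent.R157.Sph.Defs

namespace Pool.Agent.R157.Sph

open Classical Set

variable {n : ℕ}

/-- Distance to the axis. -/
noncomputable def rr (p : Fin 3 → ℝ) : ℝ := Real.sqrt (p 0 ^ 2 + p 1 ^ 2)

/-- Direction of a point. -/
noncomputable def dir (p : Fin 3 → ℝ) : ℝ × ℝ := (p 0 / rr p, p 1 / rr p)

/-- Height of a point after central projection to the cylinder. -/
noncomputable def ht (p : Fin 3 → ℝ) : ℝ := p 2 / rr p

/-- The point of the sphere with direction `d` and height `h`. -/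
noncomputable def pt (d : ℝ × ℝ) (h : ℝ) : Fin 3 → ℝ :=
  ![d.1 / Real.sqrt (1 + h ^ 2), d.2 / Real.sqrt (1 + h ^ 2), h / Real.sqrt (1 + h ^ 2)]

lemma sq1_pos (h : ℝ) : 0 < Real.sqrt (1 + h ^ 2) := Real.sqrt_pos.2 (by positivity)

lemma pt_mem (d : ℝ × ℝ) (hd : ip d d = 1) (h : ℝ) : pt d h ∈ S2 := by
  unfold S2 pt
  simp only [mem_ofPred_eq, Matrix.cons_val_zero, Matrix.cons_val_one, Matrix.cons_val]
  have h1 := Real.sq_sqrt (show (0:ℝ) ≤ 1 + h ^ 2 by positivity)
  have h2 := sq1_pos h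
  rw [div_pow, div_pow, div_pow, h1]
  unfold ip at hd
  rw [← add_div, ← add_div, div_eq_one_iff_eq (by positivity)]
  nlinarith

lemma rr_pos_of {p : Fin 3 → ℝ} (h : ¬ (p 0 = 0 ∧ p 1 = 0)) : 0 < rr p := by
  unfold rr
  apply Real.sqrt_pos.2
  by_contra hc
  apply h
  constructor <;> nlinarith [sq_nonneg (p 0), sq_nonneg (p 1)]

lemma rr_sq (p : Fin 3 → ℝ) : rr p ^ 2 = p 0 ^ 2 + p 1 ^ 2 := by
  unfold rr; exact Real.sq_sqrt (by positivity)

lemma dir_unit {p : Fin 3 → ℝ} (h : 0 < rr p) : ip (dir p) (dir p) = 1 := by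
  unfold ip dir
  simp only
  have := rr_sq p
  field_simp
  linarith

lemma pt_dir {p : Fin 3 → ℝ} (hp : p ∈ S2) (h : 0 < rr p) : pt (dir p) (ht p) = p := by
  have h1 : Real.sqrt (1 + ht p ^ 2) = 1 / rr p := by
    rw [Real.sqrt_eq_iff_mul_self_eq (by positivity) (by positivity)]
    unfold ht
    have h2 := rr_sq p
    unfold S2 at hp
    simp only [mem_ofPred_eq] at hp
    field_simp
    nlinarith
  unfold pt
  rw [h1]
  unfold dir ht
  ext i
  fin_cases i <;> simp <;> field_simp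

/-- The directed edges of `G`, from west to east. -/
noncomputable def dE (G : SimpleGraph (Fin n)) (u : Fin n → ℝ × ℝ) : Finset (Fin n × Fin n) :=
  Finset.univ.filter (fun e => G.Adj e.1 e.2 ∧ 0 < cr (u e.1) (u e.2))

lemma mem_dE {G : SimpleGraph (Fin n)} {u : Fin n → ℝ × ℝ} {e : Fin n × Fin n} :
    e ∈ dE G u ↔ G.Adj e.1 e.2 ∧ 0 < cr (u e.1) (u e.2) := by
  unfold dE; simp

lemma card_dE (G : SimpleGraph (Fin n)) (u : Fin n → ℝ × ℝ)
    (gen : ∀ i j, i ≠ j → cr (u i) (u j) ≠ 0) : (dE G u).card = Nat.card G.edgeSet := by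
  rw [Nat.card_eq_fintype_card, ← SimpleGraph.edgeFinset_card]
  refine Finset.card_bij (fun e _ => s(e.1, e.2)) ?_ ?_ ?_
  · intro e he
    rw [mem_dE] at he
    rw [SimpleGraph.mem_edgeFinset]
    exact he.1
  · rintro ⟨a, b⟩ ha ⟨c, d⟩ hc h
    rw [mem_dE] at ha hc
    simp only at h ha hc
    rw [Sym2.eq_iff] at h
    rcases h with ⟨h1, h2⟩ | ⟨h1, h2⟩
    · rw [h1, h2]
    · rw [h1, h2] at ha
      exact absurd hc.2 (cr_asymm ha.2)
  · intro e he
    induction e using Sym2.ind with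
    | _ a b =>
      rw [SimpleGraph.mem_edgeFinset] at he
      have hab : G.Adj a b := he
      by_cases h : 0 < cr (u a) (u b)
      · exact ⟨(a, b), mem_dE.2 ⟨hab, h⟩, rfl⟩
      · refine ⟨(b, a), mem_dE.2 ⟨hab.symm, ?_⟩, Sym2.eq_swap⟩
        have := gen a b hab.ne
        show 0 < cr (u b) (u a)
        rw [cr_comm]
        have h3 : cr (u a) (u b) < 0 := lt_of_le_of_ne (not_lt.1 h) this
        linarith

/-- Scaled position. -/
def up3 (d : ℝ × ℝ) (h : ℝ) : Fin 3 → ℝ := ![d.1, d.2, h]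

lemma pt_eq (d : ℝ × ℝ) (h : ℝ) : pt d h = (1 / Real.sqrt (1 + h ^ 2)) • up3 d h := by
  unfold pt up3
  ext i
  fin_cases i <;> simp [div_eq_inv_mul]

/-- A point over an edge. -/
lemma up3_edge {u : Fin n → ℝ × ℝ} {z : Fin n → ℝ} {e : Fin n × Fin n}
    (he : 0 < cr (u e.1) (u e.2)) (p : ℝ × ℝ) :
    up3 p (H u z e p) = (cr p (u e.2) / cr (u e.1) (u e.2)) • up3 (u e.1) (z e.1) +
      (cr (u e.1) p / cr (u e.1) (u e.2)) • up3 (u e.2) (z e.2) := by
  have hx := cr_expand (a := u e.1) (b := u e.2) (p := p) he.ne'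
  have h0 : p.1 = (cr p (u e.2) / cr (u e.1) (u e.2)) * (u e.1).1 +
      (cr (u e.1) p / cr (u e.1) (u e.2)) * (u e.2).1 := by
    have := congrArg Prod.fst hx
    simpa using this
  have h1 : p.2 = (cr p (u e.2) / cr (u e.1) (u e.2)) * (u e.1).2 +
      (cr (u e.1) p / cr (u e.1) (u e.2)) * (u e.2).2 := by
    have := congrArg Prod.snd hx
    simpa using this
  ext i
  fin_cases i
  · simpa [up3] using h0
  · simpa [up3] using h1
  · simp [up3, H]; ring

/-- A point of an open edge lies on the arc. -/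
lemma mem_arc_of {u : Fin n → ℝ × ℝ} {z : Fin n → ℝ} {e : Fin n × Fin n}
    (he : 0 < cr (u e.1) (u e.2)) {p : ℝ × ℝ} (hp : Ov u e p) {x : Fin 3 → ℝ} (hx : x ∈ S2)
    {c : ℝ} (hc : 0 ≤ c) (hxc : x = c • up3 p (H u z e p)) :
    x ∈ arc (pt (u e.1) (z e.1)) (pt (u e.2) (z e.2)) := by
  refine ⟨hx, c * (cr p (u e.2) / cr (u e.1) (u e.2)) * Real.sqrt (1 + z e.1 ^ 2),
    c * (cr (u e.1) p / cr (u e.1) (u e.2)) * Real.sqrt (1 + z e.2 ^ 2), ?_, ?_, ?_⟩
  · exact mul_nonneg (mul_nonneg hc (div_pos hp.2 he).le) (sq1_pos _).le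
  · exact mul_nonneg (mul_nonneg hc (div_pos hp.1 he).le) (sq1_pos _).le
  · rw [hxc, up3_edge he, pt_eq, pt_eq, smul_smul, smul_smul, smul_add, smul_smul, smul_smul]
    have h1 := (sq1_pos (z e.1)).ne'
    have h2 := (sq1_pos (z e.2)).ne'
    congr 2
    · field_simp
    · field_simp

/-- A triangulation gives a good drawing. -/
lemma IsSPT.good {G : SimpleGraph (Fin n)} {u : Fin n → ℝ × ℝ} {z : Fin n → ℝ}
    (hS : IsSPT G (fun i => pt (u i) (z i))) (hu : ∀ i, ip (u i) (u i) = 1)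
    (gen : ∀ i j, i ≠ j → cr (u i) (u j) ≠ 0) : Good u z (dE G u) where
  unit := hu
  gen := gen
  pos := fun e he => (mem_dE.1 he).2
  P1 := by
    intro e he v hv hH
    have he' := mem_dE.1 he
    have h1 : pt (u v) (z v) ∈ arc (pt (u e.1) (z e.1)) (pt (u e.2) (z e.2)) :=
      mem_arc_of he'.2 hv (pt_mem _ (hu v) _) (c := 1 / Real.sqrt (1 + z v ^ 2))
        (by have := sq1_pos (z v); positivity) (by rw [hH, pt_eq])
    rcases hS.vertex_edge e.1 e.2 v he'.1 h1 with h | h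
    · have := hv.1; rw [h, cr_self] at this; exact lt_irrefl _ this
    · have := hv.2; rw [h, cr_self] at this; exact lt_irrefl _ this
  P2 := by
    intro e he f hf hef p hp hq hH
    have he' := mem_dE.1 he
    have hf' := mem_dE.1 hf
    have hp0 : 0 < p.1 ^ 2 + p.2 ^ 2 := by
      by_contra hc
      have h1 : p.1 = 0 := by nlinarith [sq_nonneg p.1, sq_nonneg p.2]
      have h2 : p.2 = 0 := by nlinarith [sq_nonneg p.1, sq_nonneg p.2]
      have := hp.1
      unfold cr at this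
      rw [h1, h2] at this
      simp at this
    set h := H u z e p with hh
    set N := Real.sqrt (p.1 ^ 2 + p.2 ^ 2 + h ^ 2) with hN
    have hN0 : 0 < N := Real.sqrt_pos.2 (by positivity)
    have hN2 : N ^ 2 = p.1 ^ 2 + p.2 ^ 2 + h ^ 2 := Real.sq_sqrt (by positivity)
    set x : Fin 3 → ℝ := (1 / N) • up3 p h with hx
    have hxS : x ∈ S2 := by
      unfold S2
      simp only [mem_ofPred_eq, hx, up3, Pi.smul_apply, smul_eq_mul, Matrix.cons_val_zero,
        Matrix.cons_val_one, Matrix.cons_val]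
      have : (1 / N * p.1) ^ 2 + (1 / N * p.2) ^ 2 + (1 / N * h) ^ 2 =
          (p.1 ^ 2 + p.2 ^ 2 + h ^ 2) / N ^ 2 := by
        field_simp
      rw [this, hN2]
      exact div_self (by rw [← hN2]; positivity)
    have hne : s(e.1, e.2) ≠ s(f.1, f.2) := by
      intro h
      rw [Sym2.eq_iff] at h
      rcases h with ⟨h1, h2⟩ | ⟨h1, h2⟩
      · exact hef (Prod.ext h1 h2)
      · have a1 := he'.2
        rw [h1, h2] at a1
        exact cr_asymm a1 hf'.2
    obtain ⟨m, hm1, hm2, hm3⟩ := hS.edges_meet e.1 e.2 f.1 f.2 he'.1 hf'.1 hne x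
      (mem_arc_of he'.2 hp hxS (c := 1 / N) (by positivity) hx)
      (mem_arc_of hf'.2 hq hxS (c := 1 / N) (by positivity) (by rw [← hH]))
    -- the direction of `x` is `p`, strictly inside the cone
    have hdir : ∀ m : Fin n, x = pt (u m) (z m) → cr (u m) p = 0 := by
      intro m hm
      have e0 : x 0 = p.1 / N := by simp [hx, up3, div_eq_inv_mul]
      have e1 : x 1 = p.2 / N := by simp [hx, up3, div_eq_inv_mul]
      have f0 : x 0 = (u m).1 / Real.sqrt (1 + z m ^ 2) := by rw [hm]; simp [pt]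
      have f1 : x 1 = (u m).2 / Real.sqrt (1 + z m ^ 2) := by rw [hm]; simp [pt]
      have q0 : p.1 = N * x 0 := by rw [e0]; field_simp
      have q1 : p.2 = N * x 1 := by rw [e1]; field_simp
      unfold cr
      rw [q0, q1, f0, f1]; ring
    have h0 := hdir m hm3
    rw [Sym2.mem_iff] at hm1
    rcases hm1 with h | h
    · rw [h] at h0
      have := hp.1; rw [h0] at this; exact lt_irrefl _ this
    · rw [h, cr_comm] at h0
      have := hp.2
      linarith

/-- Coordinates of a nonnegative combination of two vertices. -/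
lemma comb_coords {u : Fin n → ℝ × ℝ} {z : Fin n → ℝ} {j k : Fin n} {a b : ℝ} :
    (a • pt (u j) (z j) + b • pt (u k) (z k)) =
      (a / Real.sqrt (1 + z j ^ 2)) • up3 (u j) (z j) +
      (b / Real.sqrt (1 + z k ^ 2)) • up3 (u k) (z k) := by
  rw [pt_eq, pt_eq, smul_smul, smul_smul]
  congr 2
  · ring
  · ring

/-- If a strictly positive combination of two scaled positions is `x`, then the direction of `x`
lies over the edge and its height is the third coordinate. -/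
lemma over_of_comb {u : Fin n → ℝ × ℝ} {z : Fin n → ℝ} {j k : Fin n}
    (hjk : 0 < cr (u j) (u k)) {a b : ℝ} (ha : 0 < a) (hb : 0 < b) {x : Fin 3 → ℝ}
    (hx : x = a • up3 (u j) (z j) + b • up3 (u k) (z k)) :
    Ov u (j, k) (x 0, x 1) ∧ H u z (j, k) (x 0, x 1) = x 2 := by
  have h0 : x 0 = a * (u j).1 + b * (u k).1 := by rw [hx]; simp [up3]
  have h1 : x 1 = a * (u j).2 + b * (u k).2 := by rw [hx]; simp [up3]
  have h2 : x 2 = a * z j + b * z k := by rw [hx]; simp [up3]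
  have c1 : cr (u j) (x 0, x 1) = b * cr (u j) (u k) := by
    unfold cr; simp only; rw [h0, h1]; ring
  have c2 : cr (x 0, x 1) (u k) = a * cr (u j) (u k) := by
    unfold cr; simp only; rw [h0, h1]; ring
  refine ⟨⟨?_, ?_⟩, ?_⟩
  · show 0 < cr (u j) (x 0, x 1)
    rw [c1]; positivity
  · show 0 < cr (x 0, x 1) (u k)
    rw [c2]; positivity
  · unfold H
    simp only
    rw [c1, c2, h2]
    field_simp

lemma pt_inj {u : Fin n → ℝ × ℝ} {z : Fin n → ℝ} (gen : ∀ i j, i ≠ j → cr (u i) (u j) ≠ 0)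
    {i j : Fin n} {c : ℝ} (h : pt (u i) (z i) = c • pt (u j) (z j)) : i = j := by
  by_contra hij
  apply gen i j hij
  have h1 := sq1_pos (z i)
  have h2 := sq1_pos (z j)
  have e0 := congrFun h 0
  have e1 := congrFun h 1
  simp only [pt, Pi.smul_apply, smul_eq_mul, Matrix.cons_val_zero, Matrix.cons_val_one] at e0 e1
  have f0 : (u i).1 = Real.sqrt (1 + z i ^ 2) * (c * ((u j).1 / Real.sqrt (1 + z j ^ 2))) := by
    rw [← e0]; field_simp
  have f1 : (u i).2 = Real.sqrt (1 + z i ^ 2) * (c * ((u j).2 / Real.sqrt (1 + z j ^ 2))) := by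
    rw [← e1]; field_simp
  unfold cr
  rw [f0, f1]; ring

/-- A unit vector that is a nonnegative multiple of a unit vector is equal to it. -/
lemma eq_of_smul {x y : Fin 3 → ℝ} (hx : x ∈ S2) (hy : y ∈ S2) {c : ℝ} (hc : 0 ≤ c)
    (h : x = c • y) : x = y := by
  unfold S2 at hx hy
  simp only [mem_ofPred_eq] at hx hy
  rw [h] at hx
  simp only [Pi.smul_apply, smul_eq_mul] at hx
  have : c ^ 2 = 1 := by nlinarith
  have hc1 : c = 1 := by nlinarith
  rw [h, hc1, one_smul]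

lemma arc_comm (p q : Fin 3 → ℝ) : arc p q = arc q p := by
  ext x
  unfold arc
  simp only [mem_ofPred_eq]
  constructor
  · rintro ⟨h, a, b, ha, hb, hx⟩; exact ⟨h, b, a, hb, ha, by rw [hx]; abel⟩
  · rintro ⟨h, a, b, ha, hb, hx⟩; exact ⟨h, b, a, hb, ha, by rw [hx]; abel⟩

lemma good_vertex {G : SimpleGraph (Fin n)} {u : Fin n → ℝ × ℝ} {z : Fin n → ℝ}
    (hG : Good u z (dE G u)) (j k m : Fin n) (hjk : G.Adj j k)
    (hm : pt (u m) (z m) ∈ arc (pt (u j) (z j)) (pt (u k) (z k))) : m = j ∨ m = k := by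
  wlog hc : 0 < cr (u j) (u k) generalizing j k
  · have hc' := hG.lt_of_not hjk.ne hc
    rw [arc_comm] at hm
    exact (this k j hjk.symm hm hc').symm
  obtain ⟨hS, a, b, ha, hb, hx⟩ := hm
  rcases ha.eq_or_lt with ha0 | ha0
  · right
    rw [← ha0, zero_smul, zero_add] at hx
    exact pt_inj hG.gen hx
  rcases hb.eq_or_lt with hb0 | hb0
  · left
    rw [← hb0, zero_smul, add_zero] at hx
    exact pt_inj hG.gen hx
  exfalso
  rw [comb_coords] at hx
  have hs := sq1_pos (z m)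
  have hx2 : up3 (u m) (z m) = (Real.sqrt (1 + z m ^ 2) * (a / Real.sqrt (1 + z j ^ 2))) •
      up3 (u j) (z j) + (Real.sqrt (1 + z m ^ 2) * (b / Real.sqrt (1 + z k ^ 2))) •
      up3 (u k) (z k) := by
    rw [← smul_smul, ← smul_smul, ← smul_add, ← hx, pt_eq, smul_smul]
    rw [mul_one_div_cancel hs.ne', one_smul]
  have h1 := sq1_pos (z j)
  have h2 := sq1_pos (z k)
  obtain ⟨o1, o2⟩ := over_of_comb hc (by positivity) (by positivity) hx2
  have e1 : ((up3 (u m) (z m) 0, up3 (u m) (z m) 1) : ℝ × ℝ) = u m := by simp [up3]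
  rw [e1] at o1 o2
  have e2 : up3 (u m) (z m) 2 = z m := by simp [up3]
  rw [e2] at o2
  exact hG.P1 (j, k) (mem_dE.2 ⟨hjk, hc⟩) m o1 o2

lemma good_edges {G : SimpleGraph (Fin n)} {u : Fin n → ℝ × ℝ} {z : Fin n → ℝ}
    (hG : Good u z (dE G u)) (i j k l : Fin n) (hij : G.Adj i j) (hkl : G.Adj k l)
    (hne : s(i, j) ≠ s(k, l)) (x : Fin 3 → ℝ) (h1 : x ∈ arc (pt (u i) (z i)) (pt (u j) (z j)))
    (h2 : x ∈ arc (pt (u k) (z k)) (pt (u l) (z l))) :
    ∃ m, m ∈ s(i, j) ∧ m ∈ s(k, l) ∧ x = pt (u m) (z m) := by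
  wlog hc : 0 < cr (u i) (u j) generalizing i j
  · have hc' := hG.lt_of_not hij.ne hc
    rw [arc_comm] at h1
    have := this j i hij.symm (by rw [Sym2.eq_swap]; exact hne) h1 hc'
    rwa [Sym2.eq_swap] at this
  wlog hd : 0 < cr (u k) (u l) generalizing k l
  · have hd' := hG.lt_of_not hkl.ne hd
    rw [arc_comm] at h2
    obtain ⟨m, a, b, c⟩ := this l k hkl.symm h2 (by rw [Sym2.eq_swap (a := l)]; exact hne) hd'
    exact ⟨m, a, by rw [Sym2.eq_swap]; exact b, c⟩
  have hptS : ∀ i, pt (u i) (z i) ∈ S2 := fun i => pt_mem _ (hG.unit i) _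
  obtain ⟨hS, a, b, ha, hb, hx⟩ := id h1
  obtain ⟨-, c, d, hc0, hd0, hy⟩ := id h2
  have fin1 : ∀ m, m ∈ s(i, j) → x = pt (u m) (z m) →
      ∃ m, m ∈ s(i, j) ∧ m ∈ s(k, l) ∧ x = pt (u m) (z m) := by
    intro m hm hxm
    rw [hxm] at h2
    exact ⟨m, hm, by rw [Sym2.mem_iff]; exact good_vertex hG k l m hkl h2, hxm⟩
  have fin2 : ∀ m, m ∈ s(k, l) → x = pt (u m) (z m) →
      ∃ m, m ∈ s(i, j) ∧ m ∈ s(k, l) ∧ x = pt (u m) (z m) := by
    intro m hm hxm
    rw [hxm] at h1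
    exact ⟨m, by rw [Sym2.mem_iff]; exact good_vertex hG i j m hij h1, hm, hxm⟩
  rcases ha.eq_or_lt with ha' | ha'
  · rw [← ha', zero_smul, zero_add] at hx
    exact fin1 j (by simp) (eq_of_smul hS (hptS j) hb hx)
  rcases hb.eq_or_lt with hb' | hb'
  · rw [← hb', zero_smul, add_zero] at hx
    exact fin1 i (by simp) (eq_of_smul hS (hptS i) ha hx)
  rcases hc0.eq_or_lt with hc' | hc'
  · rw [← hc', zero_smul, zero_add] at hy
    exact fin2 l (by simp) (eq_of_smul hS (hptS l) hd0 hy)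
  rcases hd0.eq_or_lt with hd' | hd'
  · rw [← hd', zero_smul, add_zero] at hy
    exact fin2 k (by simp) (eq_of_smul hS (hptS k) hc0 hy)
  exfalso
  rw [comb_coords] at hx hy
  have s1 := sq1_pos (z i)
  have s2 := sq1_pos (z j)
  have s3 := sq1_pos (z k)
  have s4 := sq1_pos (z l)
  obtain ⟨o1, o2⟩ := over_of_comb hc (by positivity) (by positivity) hx
  obtain ⟨o3, o4⟩ := over_of_comb hd (by positivity) (by positivity) hy
  refine hG.P2 (i, j) (mem_dE.2 ⟨hij, hc⟩) (k, l) (mem_dE.2 ⟨hkl, hd⟩) ?_ _ o1 o3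
    (by rw [o2, o4])
  intro h
  rw [Prod.mk.injEq] at h
  exact hne (by rw [h.1, h.2])

/-- A good drawing gives a triangulation. -/
lemma Good.isSPT {G : SimpleGraph (Fin n)} {u : Fin n → ℝ × ℝ} {z : Fin n → ℝ}
    (hG : Good u z (dE G u)) (hn : 4 ≤ n) (hm : Nat.card G.edgeSet = 3 * n - 6) :
    IsSPT G (fun i => pt (u i) (z i)) where
  four_le := hn
  mem_sphere := fun i => pt_mem _ (hG.unit i) _
  injective := fun i j h => pt_inj hG.gen (c := 1) (by rw [one_smul]; exact h)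
  not_antipodal := fun i j hij h => hij.ne (pt_inj hG.gen (c := -1) (by
    rw [neg_one_smul]; exact h))
  edges_meet := fun i j k l hij hkl hne x h1 h2 => good_edges hG i j k l hij hkl hne x h1 h2
  vertex_edge := fun i j m hij hm => good_vertex hG i j m hij hm
  maximal := hm

end Pool.Agent.R157.Sph
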