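import Pool.Agent.R157.Sph.Circ3
import Pool.Agent.R157.Sph.Sphere

/-!
Drawings in arbitrary position: margins and perturbation to general position.
-/

namespace Pool.Agent.R157.Sph

open Classical

variable {n : ℕ}

/-- Scaled position of a vertex. -/
def PP (u : Fin n → ℝ × ℝ) (z : Fin n → ℝ) (i : Fin n) : Fin 3 → ℝ := up3 (u i) (z i)

/-- A drawing without crossings, in cylindrical coordinates, in arbitrary position. -/
structure Emb (G : SimpleGraph (Fin n)) (u : Fin n → ℝ × ℝ) (z : Fin n → ℝ) : Prop where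
  unit : ∀ i, ip (u i) (u i) = 1
  nopp : ∀ i j, G.Adj i j → -1 < ip (u i) (u j)
  inj : ∀ i j, i ≠ j → u i = u j → z i ≠ z j
  V : ∀ i j m, G.Adj i j → m ≠ i → m ≠ j → ∀ a b : ℝ, 0 ≤ a → 0 ≤ b →
    a • PP u z i + b • PP u z j ≠ PP u z m
  X : ∀ i j k l, G.Adj i j → G.Adj k l → i ≠ k → i ≠ l → j ≠ k → j ≠ l → ∀ a b c d : ℝ,
    0 ≤ a → 0 ≤ b → 0 ≤ c → 0 ≤ d → a • PP u z i + b • PP u z j = c • PP u z k + d • PP u z l →
    a = 0 ∧ b = 0 ∧ c = 0 ∧ d = 0

lemma up3_smul (a : ℝ) (p : ℝ × ℝ) (h : ℝ) : a • up3 p h = up3 (a • p) (a * h) := by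
  unfold up3; ext i; fin_cases i <;> simp

lemma up3_add (p q : ℝ × ℝ) (h k : ℝ) : up3 p h + up3 q k = up3 (p + q) (h + k) := by
  unfold up3; ext i; fin_cases i <;> simp

lemma up3_inj {p q : ℝ × ℝ} {h k : ℝ} : up3 p h = up3 q k ↔ p = q ∧ h = k := by
  constructor
  · intro e
    have e0 := congrFun e 0; have e1 := congrFun e 1; have e2 := congrFun e 2
    simp only [up3, Matrix.cons_val_zero, Matrix.cons_val_one, Matrix.cons_val] at e0 e1 e2
    exact ⟨Prod.ext e0 e1, e2⟩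
  · rintro ⟨rfl, rfl⟩; rfl

lemma up3_zero : up3 (0 : ℝ × ℝ) 0 = 0 := by
  unfold up3; ext i; fin_cases i <;> simp

lemma PP_comb (u : Fin n → ℝ × ℝ) (z : Fin n → ℝ) (a b : ℝ) (i j : Fin n) :
    a • PP u z i + b • PP u z j = up3 (a • u i + b • u j) (a * z i + b * z j) := by
  unfold PP; rw [up3_smul, up3_smul, up3_add]

lemma ip_comb_self {p q : ℝ × ℝ} (hp : ip p p = 1) (hq : ip q q = 1) (a b : ℝ) :
    ip (a • p + b • q) (a • p + b • q) = a ^ 2 + b ^ 2 + 2 * a * b * ip p q := by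
  have : ip (a • p + b • q) (a • p + b • q) = a ^ 2 * ip p p + b ^ 2 * ip q q +
      2 * a * b * ip p q := by
    unfold ip; simp only [Prod.fst_add, Prod.snd_add, Prod.smul_fst, Prod.smul_snd, smul_eq_mul]
    ring
  rw [this, hp, hq]; ring

lemma dir_zero {p q : ℝ × ℝ} (hp : ip p p = 1) (hq : ip q q = 1) (hpq : -1 < ip p q) {a b : ℝ}
    (ha : 0 ≤ a) (hb : 0 ≤ b) (h : a • p + b • q = 0) : a = 0 ∧ b = 0 := by
  have h1 := ip_comb_self hp hq a b
  rw [h] at h1
  have h2 : ip (0 : ℝ × ℝ) 0 = 0 := by simp [ip]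
  rw [h2] at h1
  have h3 : 0 ≤ a * b * (1 + ip p q) := mul_nonneg (mul_nonneg ha hb) (by linarith)
  have h4 : a = b := by nlinarith [sq_nonneg (a - b)]
  subst h4
  have h5 : a * a * (1 + ip p q) = 0 := by nlinarith
  have h6 : a * a = 0 := by
    rcases mul_eq_zero.1 h5 with h | h
    · exact h
    · linarith
  have h7 : a = 0 := by simpa using h6
  exact ⟨h7, h7⟩

lemma Emb.comb_zero {G : SimpleGraph (Fin n)} {u : Fin n → ℝ × ℝ} {z : Fin n → ℝ}
    (hE : Emb G u z) {i j : Fin n} (hij : G.Adj i j) {a b : ℝ} (ha : 0 ≤ a) (hb : 0 ≤ b)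
    (h : a • PP u z i + b • PP u z j = 0) : a = 0 ∧ b = 0 := by
  rw [PP_comb, ← up3_zero, up3_inj] at h
  exact dir_zero (hE.unit i) (hE.unit j) (hE.nopp i j hij) ha hb h.1

/-- Margin of a drawing. -/
def Mar (G : SimpleGraph (Fin n)) (u : Fin n → ℝ × ℝ) (z : Fin n → ℝ) (δ : ℝ) : Prop :=
  ∀ i j k l, G.Adj i j → (G.Adj k l ∨ k = l) → i ≠ k → i ≠ l → j ≠ k → j ≠ l → ∀ a b c d : ℝ,
    0 ≤ a → 0 ≤ b → 0 ≤ c → 0 ≤ d →
    δ * (a + b + c + d) ≤ ‖a • PP u z i + b • PP u z j - (c • PP u z k + d • PP u z l)‖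

lemma fin_pos {ι : Type*} [Finite ι] (f : ι → ℝ) (h : ∀ i, 0 < f i) :
    ∃ δ : ℝ, 0 < δ ∧ ∀ i, δ ≤ f i := by
  rcases isEmpty_or_nonempty ι with hι | hι
  · exact ⟨1, one_pos, fun i => (hι.false i).elim⟩
  · obtain ⟨i, hi⟩ := Finite.exists_min f
    exact ⟨f i, h i, hi⟩

lemma fin_pos' {ι : Type*} [Finite ι] (Q : ι → ℝ → Prop)
    (hmono : ∀ i δ δ', 0 < δ' → δ' ≤ δ → Q i δ → Q i δ') (h : ∀ i, ∃ δ, 0 < δ ∧ Q i δ) :
    ∃ δ : ℝ, 0 < δ ∧ ∀ i, Q i δ := by
  choose f hf hQ using h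
  obtain ⟨δ, hδ, hle⟩ := fin_pos f hf
  exact ⟨δ, hδ, fun i => hmono i (f i) δ hδ (hle i) (hQ i)⟩

lemma Emb.mar {G : SimpleGraph (Fin n)} {u : Fin n → ℝ × ℝ} {z : Fin n → ℝ}
    (hE : Emb G u z) : ∃ δ : ℝ, 0 < δ ∧ Mar G u z δ := by
  have key := fin_pos' (ι := Fin n × Fin n × Fin n × Fin n)
    (fun t δ => G.Adj t.1 t.2.1 → (G.Adj t.2.2.1 t.2.2.2 ∨ t.2.2.1 = t.2.2.2) →
      t.1 ≠ t.2.2.1 → t.1 ≠ t.2.2.2 → t.2.1 ≠ t.2.2.1 → t.2.1 ≠ t.2.2.2 → ∀ a b c d : ℝ,
      0 ≤ a → 0 ≤ b → 0 ≤ c → 0 ≤ d →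
      δ * (a + b + c + d) ≤ ‖a • PP u z t.1 + b • PP u z t.2.1 -
        (c • PP u z t.2.2.1 + d • PP u z t.2.2.2)‖) ?_ ?_
  · obtain ⟨δ, hδ, h⟩ := key
    exact ⟨δ, hδ, fun i j k l => h (i, j, k, l)⟩
  · intro t δ δ' h0 hle hQ h1 h2 h3 h4 h5 h6 a b c d ha hb hc hd
    refine le_trans ?_ (hQ h1 h2 h3 h4 h5 h6 a b c d ha hb hc hd)
    exact mul_le_mul_of_nonneg_right hle (by positivity)
  · rintro ⟨i, j, k, l⟩
    by_cases hadm : G.Adj i j ∧ (G.Adj k l ∨ k = l) ∧ i ≠ k ∧ i ≠ l ∧ j ≠ k ∧ j ≠ l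
    swap
    · refine ⟨1, one_pos, fun h1 h2 h3 h4 h5 h6 => ?_⟩
      exact absurd ⟨h1, h2, h3, h4, h5, h6⟩ hadm
    obtain ⟨h1, h2, h3, h4, h5, h6⟩ := hadm
    set F : (Fin 4 → ℝ) → ℝ := fun x =>
      ‖x 0 • PP u z i + x 1 • PP u z j - (x 2 • PP u z k + x 3 • PP u z l)‖ with hF
    have hcont : Continuous F := by
      rw [hF]; fun_prop
    obtain ⟨x, hx, hmin⟩ := (isCompact_stdSimplex ℝ (Fin 4)).exists_isMinOn
      ⟨Pi.single 0 1, single_mem_stdSimplex ℝ 0⟩ hcont.continuousOn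
    have hx0 := hx.1
    have hx1 : x 0 + x 1 + x 2 + x 3 = 1 := by
      have := hx.2
      rw [Fin.sum_univ_four] at this
      exact this
    have hpos : 0 < F x := by
      by_contra hc
      have h0 : F x = 0 := le_antisymm (not_lt.1 hc) (norm_nonneg _)
      rw [hF] at h0
      simp only [norm_eq_zero] at h0
      have h7 := sub_eq_zero.1 h0
      rcases h2 with h2 | h2
      · obtain ⟨a1, a2, a3, a4⟩ := hE.X i j k l h1 h2 h3 h4 h5 h6 _ _ _ _ (hx0 0) (hx0 1) (hx0 2)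
          (hx0 3) h7
        rw [a1, a2, a3, a4] at hx1
        norm_num at hx1
      · subst h2
        rw [← add_smul] at h7
        by_cases hs : x 2 + x 3 = 0
        · rw [hs, zero_smul] at h7
          obtain ⟨a1, a2⟩ := hE.comb_zero h1 (hx0 0) (hx0 1) h7
          rw [a1, a2] at hx1
          linarith
        · have hs' : 0 < x 2 + x 3 := lt_of_le_of_ne (add_nonneg (hx0 2) (hx0 3)) (Ne.symm hs)
          refine hE.V i j k h1 h3.symm h5.symm (x 0 / (x 2 + x 3)) (x 1 / (x 2 + x 3))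
            (div_nonneg (hx0 0) hs'.le) (div_nonneg (hx0 1) hs'.le) ?_
          have : (x 2 + x 3)⁻¹ • (x 0 • PP u z i + x 1 • PP u z j) = PP u z k := by
            rw [h7, smul_smul, inv_mul_cancel₀ hs, one_smul]
          rw [← this, smul_add, smul_smul, smul_smul, div_eq_inv_mul, div_eq_inv_mul]
    refine ⟨F x, hpos, fun _ _ _ _ _ _ a b c d ha hb hc hd => ?_⟩
    simp only
    rcases (by positivity : 0 ≤ a + b + c + d).eq_or_lt with hs | hs
    · rw [← hs, mul_zero]; exact norm_nonneg _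
    · set s := a + b + c + d with hsdef
      have hy : (![a / s, b / s, c / s, d / s] : Fin 4 → ℝ) ∈ stdSimplex ℝ (Fin 4) := by
        refine ⟨fun m => ?_, ?_⟩
        · fin_cases m
          · exact div_nonneg ha hs.le
          · exact div_nonneg hb hs.le
          · exact div_nonneg hc hs.le
          · exact div_nonneg hd hs.le
        · rw [Fin.sum_univ_four]
          simp only [Matrix.cons_val_zero, Matrix.cons_val_one, Matrix.cons_val]
          rw [← add_div, ← add_div, ← add_div, div_self hs.ne']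
      have h8 := hmin hy
      simp only [Set.mem_ofPred_eq] at h8
      have h9 : F ![a / s, b / s, c / s, d / s] =
          s⁻¹ * ‖a • PP u z i + b • PP u z j - (c • PP u z k + d • PP u z l)‖ := by
        have e1 : ‖s⁻¹ • (a • PP u z i + b • PP u z j - (c • PP u z k + d • PP u z l))‖ =
            s⁻¹ * ‖a • PP u z i + b • PP u z j - (c • PP u z k + d • PP u z l)‖ := by
          rw [norm_smul, Real.norm_of_nonneg (inv_nonneg.2 hs.le)]
        rw [← e1, hF]
        simp only [Matrix.cons_val_zero, Matrix.cons_val_one, Matrix.cons_val]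
        congr 1
        rw [smul_sub, smul_add, smul_add, smul_smul, smul_smul, smul_smul, smul_smul,
          div_eq_inv_mul, div_eq_inv_mul, div_eq_inv_mul, div_eq_inv_mul]
      rw [h9, inv_mul_eq_div, le_div_iff₀ hs] at h8
      exact h8

lemma Mar.perturb {G : SimpleGraph (Fin n)} {u u' : Fin n → ℝ × ℝ} {z : Fin n → ℝ} {δ : ℝ}
    (hM : Mar G u z δ) (h : ∀ i, ‖PP u' z i - PP u z i‖ ≤ δ / 2) : Mar G u' z (δ / 2) := by
  intro i j k l h1 h2 h3 h4 h5 h6 a b c d ha hb hc hd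
  have h0 := hM i j k l h1 h2 h3 h4 h5 h6 a b c d ha hb hc hd
  have hsm : ∀ (a : ℝ) (i : Fin n), 0 ≤ a → ‖a • (PP u' z i - PP u z i)‖ ≤ a * (δ / 2) := by
    intro a i ha
    rw [norm_smul, Real.norm_of_nonneg ha]
    exact mul_le_mul_of_nonneg_left (h i) ha
  have e1 : a • PP u z i + b • PP u z j - (c • PP u z k + d • PP u z l) =
      (a • PP u' z i + b • PP u' z j - (c • PP u' z k + d • PP u' z l)) -
      (a • (PP u' z i - PP u z i) + b • (PP u' z j - PP u z j) -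
        (c • (PP u' z k - PP u z k) + d • (PP u' z l - PP u z l))) := by
    simp only [smul_sub]; abel
  rw [e1] at h0
  have e2 : ‖a • (PP u' z i - PP u z i) + b • (PP u' z j - PP u z j) -
        (c • (PP u' z k - PP u z k) + d • (PP u' z l - PP u z l))‖ ≤
      a * (δ / 2) + b * (δ / 2) + (c * (δ / 2) + d * (δ / 2)) :=
    (norm_sub_le _ _).trans (add_le_add
      ((norm_add_le _ _).trans (add_le_add (hsm a i ha) (hsm b j hb)))
      ((norm_add_le _ _).trans (add_le_add (hsm c k hc) (hsm d l hd))))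
  have e3 := (norm_sub_le (a • PP u' z i + b • PP u' z j - (c • PP u' z k + d • PP u' z l))
      (a • (PP u' z i - PP u z i) + b • (PP u' z j - PP u z j) -
        (c • (PP u' z k - PP u z k) + d • (PP u' z l - PP u z l))))
  linarith

lemma Mar.V {G : SimpleGraph (Fin n)} {u : Fin n → ℝ × ℝ} {z : Fin n → ℝ} {δ : ℝ}
    (hM : Mar G u z δ) (hδ : 0 < δ) {i j m : Fin n} (hij : G.Adj i j) (hi : m ≠ i) (hj : m ≠ j)
    {a b c : ℝ} (ha : 0 ≤ a) (hb : 0 ≤ b) (hc : 0 < c)
    (h : a • PP u z i + b • PP u z j = c • PP u z m) : False := by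
  have := hM i j m m hij (Or.inr rfl) hi.symm hi.symm hj.symm hj.symm a b c 0 ha hb hc.le le_rfl
  rw [zero_smul, add_zero, add_zero, h, sub_self, norm_zero] at this
  have h2 : 0 < δ * (a + b + c) := mul_pos hδ (by linarith)
  linarith

/-- Two edges at a vertex do not overlap. -/
lemma Mar.share {G : SimpleGraph (Fin n)} {u : Fin n → ℝ × ℝ} {z : Fin n → ℝ} {δ : ℝ}
    (hM : Mar G u z δ) (hδ : 0 < δ) {m x y : Fin n} (hx : G.Adj m x) (hy : G.Adj m y)
    (hxy : x ≠ y) {s t s' t' : ℝ} (ht : 0 < t) (ht' : 0 < t')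
    (h : s • PP u z m + t • PP u z x = s' • PP u z m + t' • PP u z y) : False := by
  rcases le_total s' s with hs | hs
  · refine hM.V hδ hx hy.ne.symm hxy.symm (sub_nonneg.2 hs) ht.le ht' (a := s - s') ?_
    rw [sub_smul]
    have : t' • PP u z y = s • PP u z m + t • PP u z x - s' • PP u z m := by rw [h]; abel
    rw [this]; abel
  · refine hM.V hδ hy hx.ne.symm hxy (sub_nonneg.2 hs) ht'.le ht (a := s' - s) ?_
    rw [sub_smul]
    have : t • PP u z x = s' • PP u z m + t' • PP u z y - s • PP u z m := by rw [← h]; abel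
    rw [this]; abel

lemma norm_up3 (p : ℝ × ℝ) (h k : ℝ) : ‖up3 p h - up3 p k‖ = |h - k| := by
  have e : up3 p h - up3 p k = ![0, 0, h - k] := by
    unfold up3; ext i; fin_cases i <;> simp
  rw [e]
  apply le_antisymm
  · rw [pi_norm_le_iff_of_nonneg (abs_nonneg _)]
    intro i; fin_cases i <;> simp
  · have := norm_le_pi_norm (![0, 0, h - k] : Fin 3 → ℝ) 2
    simpa using this

/-- Quantitative separation of a vertex from an edge passing over or under it. -/
lemma Mar.gap {G : SimpleGraph (Fin n)} {u : Fin n → ℝ × ℝ} {z : Fin n → ℝ} {δ : ℝ}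
    (hM : Mar G u z δ) (hδ : 0 < δ) {e : Fin n × Fin n} (he : e ∈ dE G u) {v : Fin n}
    (hv : Ov u e (u v)) : δ ≤ |g u z e v| := by
  have he' := mem_dE.1 he
  have h1 := up3_edge (z := z) he'.2 (u v)
  set s := cr (u v) (u e.2) / cr (u e.1) (u e.2) with hs
  set t := cr (u e.1) (u v) / cr (u e.1) (u e.2) with ht
  have hs0 : 0 < s := div_pos hv.2 he'.2
  have ht0 : 0 < t := div_pos hv.1 he'.2
  have hv1 : e.1 ≠ v := by rintro h; have := hv.1; rw [h, cr_self] at this; exact lt_irrefl _ this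
  have hv2 : e.2 ≠ v := by rintro h; have := hv.2; rw [h, cr_self] at this; exact lt_irrefl _ this
  have h2 := hM e.1 e.2 v v he'.1 (Or.inr rfl) hv1 hv1 hv2 hv2 s t 1 0 hs0.le ht0.le zero_le_one
    le_rfl
  have h3 : s • PP u z e.1 + t • PP u z e.2 - ((1:ℝ) • PP u z v + (0:ℝ) • PP u z v) =
      up3 (u v) (H u z e (u v)) - up3 (u v) (z v) := by
    rw [h1]; unfold PP; rw [one_smul, zero_smul, add_zero]
  rw [h3, norm_up3] at h2
  unfold g
  have : δ * 1 ≤ δ * (s + t + 1 + 0) := mul_le_mul_of_nonneg_left (by linarith) hδ.le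
  linarith

/-- A drawing with a margin and general directions is a good drawing. -/
lemma Mar.good {G : SimpleGraph (Fin n)} {u : Fin n → ℝ × ℝ} {z : Fin n → ℝ} {δ : ℝ}
    (hM : Mar G u z δ) (hδ : 0 < δ) (unit : ∀ i, ip (u i) (u i) = 1)
    (gen : ∀ i j, i ≠ j → cr (u i) (u j) ≠ 0) : Good u z (dE G u) where
  unit := unit
  gen := gen
  pos := fun e he => (mem_dE.1 he).2
  P1 := by
    intro e he v hv hH
    have := hM.gap hδ he hv
    unfold g at this
    rw [hH, sub_self, abs_zero] at this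
    linarith
  P2 := by
    intro e he f hf hef p hp hq hH
    have he' := mem_dE.1 he
    have hf' := mem_dE.1 hf
    have h1 := up3_edge (z := z) he'.2 p
    have h2 := up3_edge (z := z) hf'.2 p
    rw [hH, h2] at h1
    have a1 : 0 < cr p (u e.2) / cr (u e.1) (u e.2) := div_pos hp.2 he'.2
    have a2 : 0 < cr (u e.1) p / cr (u e.1) (u e.2) := div_pos hp.1 he'.2
    have b1 : 0 < cr p (u f.2) / cr (u f.1) (u f.2) := div_pos hq.2 hf'.2
    have b2 : 0 < cr (u f.1) p / cr (u f.1) (u f.2) := div_pos hq.1 hf'.2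
    set s := cr p (u e.2) / cr (u e.1) (u e.2)
    set t := cr (u e.1) p / cr (u e.1) (u e.2)
    set s' := cr p (u f.2) / cr (u f.1) (u f.2)
    set t' := cr (u f.1) p / cr (u f.1) (u f.2)
    have h3 : s • PP u z e.1 + t • PP u z e.2 = s' • PP u z f.1 + t' • PP u z f.2 := h1.symm
    by_cases c11 : e.1 = f.1
    · refine hM.share hδ he'.1 (by rw [c11]; exact hf'.1) ?_ a2 b2 (s := s) (s' := s')
        (by rw [h3, c11])
      intro h; exact hef (Prod.ext c11 h)
    by_cases c12 : e.1 = f.2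
    · refine hM.share hδ he'.1 (y := f.1) (by rw [c12]; exact hf'.1.symm) ?_ a2 b1 (s := s)
        (s' := t') (by rw [h3, c12]; abel)
      intro h
      have := he'.2
      rw [c12, h] at this
      exact cr_asymm this hf'.2
    by_cases c21 : e.2 = f.1
    · refine hM.share hδ he'.1.symm (y := f.2) (by rw [c21]; exact hf'.1) ?_ a1 b2 (s := t)
        (s' := s') (by rw [add_comm, h3, c21])
      exact c12
    by_cases c22 : e.2 = f.2
    · refine hM.share hδ he'.1.symm (y := f.1) (by rw [c22]; exact hf'.1.symm) c11 a1 b1 (s := t)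
        (s' := t') (by rw [add_comm, h3, c22]; abel)
    have := hM e.1 e.2 f.1 f.2 he'.1 (Or.inl hf'.1) c11 c12 c21 c22 s t s' t' a1.le a2.le b1.le
      b2.le
    rw [h3, sub_self, norm_zero] at this
    have h4 : 0 < δ * (s + t + s' + t') := mul_pos hδ (by linarith)
    linarith

end Pool.Agent.R157.Sph
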