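import Pool.Agent.R157.Sph.Ng1

/-!
Perturbation of a drawing to general position by rotating the directions of the vertices.
-/

namespace Pool.Agent.R157.Sph

open Classical Filter Topology

variable {n : ℕ}

/-- Rotation by the angle `a`. -/
noncomputable def rot (a : ℝ) (p : ℝ × ℝ) : ℝ × ℝ :=
  (p.1 * Real.cos a - p.2 * Real.sin a, p.1 * Real.sin a + p.2 * Real.cos a)

lemma ip_rot_self (a : ℝ) (p : ℝ × ℝ) : ip (rot a p) (rot a p) = ip p p := by
  unfold ip rot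
  have := Real.sin_sq_add_cos_sq a
  simp only
  linear_combination (p.1 ^ 2 + p.2 ^ 2) * this

lemma cr_rot (a b : ℝ) (p q : ℝ × ℝ) : cr (rot a p) (rot b q) =
    Real.cos (b - a) * cr p q + Real.sin (b - a) * ip p q := by
  rw [Real.cos_sub, Real.sin_sub]; unfold cr rot ip; simp only; ring

/-- Perturbed directions. -/
noncomputable def ue (u : Fin n → ℝ × ℝ) (θ : Fin n → ℝ) (ε : ℝ) : Fin n → ℝ × ℝ :=
  fun i => rot (ε * θ i) (u i)

lemma ue_zero (u : Fin n → ℝ × ℝ) (θ : Fin n → ℝ) : ue u θ 0 = u := by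
  funext i; unfold ue rot; simp

lemma ue_cont (u : Fin n → ℝ × ℝ) (θ : Fin n → ℝ) (i : Fin n) :
    Continuous (fun ε => ue u θ ε i) := by
  unfold ue rot; fun_prop

lemma ue_unit {u : Fin n → ℝ × ℝ} (hu : ∀ i, ip (u i) (u i) = 1) (θ : Fin n → ℝ) (ε : ℝ)
    (i : Fin n) : ip (ue u θ ε i) (ue u θ ε i) = 1 := by
  unfold ue; rw [ip_rot_self]; exact hu i

lemma cr_ue (u : Fin n → ℝ × ℝ) (θ : Fin n → ℝ) (ε : ℝ) (i j : Fin n) :
    cr (ue u θ ε i) (ue u θ ε j) = Real.cos (ε * (θ j - θ i)) * cr (u i) (u j) +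
      Real.sin (ε * (θ j - θ i)) * ip (u i) (u j) := by
  unfold ue; rw [cr_rot]; congr 2 <;> ring_nf

lemma cr_cont {f g : ℝ → ℝ × ℝ} (hf : Continuous f) (hg : Continuous g) :
    Continuous (fun x => cr (f x) (g x)) := by unfold cr; fun_prop

lemma ip_cont {f g : ℝ → ℝ × ℝ} (hf : Continuous f) (hg : Continuous g) :
    Continuous (fun x => ip (f x) (g x)) := by unfold ip; fun_prop

lemma ip_sq_add {p q : ℝ × ℝ} (hp : ip p p = 1) (hq : ip q q = 1) :
    ip p q ^ 2 + cr p q ^ 2 = 1 := by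
  have : ip p q ^ 2 + cr p q ^ 2 = ip p p * ip q q := by unfold ip cr; ring
  rw [this, hp, hq]; ring

lemma eq_of_ip {p q : ℝ × ℝ} (hp : ip p p = 1) (hq : ip q q = 1) (h : ip p q = 1) : p = q := by
  have h1 : (p.1 - q.1) ^ 2 + (p.2 - q.2) ^ 2 = 0 := by
    unfold ip at *; nlinarith
  ext
  · nlinarith [sq_nonneg (p.1 - q.1), sq_nonneg (p.2 - q.2)]
  · nlinarith [sq_nonneg (p.1 - q.1), sq_nonneg (p.2 - q.2)]

lemma eq_of_cr {p q : ℝ × ℝ} (hp : ip p p = 1) (hq : ip q q = 1) (h : cr p q = 0)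
    (h2 : -1 < ip p q) : p = q := by
  apply eq_of_ip hp hq
  have := ip_sq_add hp hq
  rw [h] at this
  nlinarith

/-- Not contained in a closed half plane. -/
def NC (u : Fin n → ℝ × ℝ) : Prop := ∀ w : ℝ × ℝ, w ≠ 0 → ∃ i, ip w (u i) < 0

lemma ev_pos {f : ℝ → ℝ} (hf : Continuous f) (h : 0 < f 0) : ∀ᶠ ε in 𝓝[>] (0:ℝ), 0 < f ε :=
  (hf.tendsto 0).mono_left nhdsWithin_le_nhds |>.eventually (lt_mem_nhds h)

lemma ev_small (K : ℝ) (hK : 0 < K) : ∀ᶠ ε in 𝓝[>] (0:ℝ), 0 < ε ∧ ε < K := by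
  filter_upwards [Ioo_mem_nhdsGT hK] with ε hε using ⟨hε.1, hε.2⟩

lemma ev_sin {t : ℝ} (ht : 0 < t) : ∀ᶠ ε in 𝓝[>] (0:ℝ), 0 < Real.sin (ε * t) := by
  filter_upwards [ev_small (Real.pi / t) (div_pos Real.pi_pos ht)] with ε hε
  apply Real.sin_pos_of_pos_of_lt_pi (mul_pos hε.1 ht)
  rw [← lt_div_iff₀ ht]; exact hε.2

/-- Properties of the perturbed drawing. -/
structure Pert (G : SimpleGraph (Fin n)) (u : Fin n → ℝ × ℝ) (z : Fin n → ℝ) (δ η : ℝ)
    (θ : Fin n → ℝ) (ε : ℝ) : Prop where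
  pos : 0 < ε
  mar : Mar G (ue u θ ε) z δ
  gen : ∀ i j, i ≠ j → cr (ue u θ ε i) (ue u θ ε j) ≠ 0
  posc : ∀ i j, 0 < cr (u i) (u j) → 0 < cr (ue u θ ε i) (ue u θ ε j)
  tie : ∀ i j, u i = u j → θ i < θ j → 0 < cr (ue u θ ε i) (ue u θ ε j)
  ipb : ∀ i j, G.Adj i j → -1 + η ≤ ip (ue u θ ε i) (ue u θ ε j)

lemma Emb.pert {G : SimpleGraph (Fin n)} {u : Fin n → ℝ × ℝ} {z : Fin n → ℝ}
    (hE : Emb G u z) : ∃ δ η : ℝ, 0 < δ ∧ 0 < η ∧ ∀ θ : Fin n → ℝ, Function.Injective θ →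
      ∀ᶠ ε in 𝓝[>] (0:ℝ), Pert G u z δ η θ ε := by
  obtain ⟨δ, hδ, hM⟩ := hE.mar
  obtain ⟨η, hη, hip⟩ := fin_pos' (ι := Fin n × Fin n)
    (fun t η => G.Adj t.1 t.2 → -1 + 2 * η ≤ ip (u t.1) (u t.2))
    (fun t a b h1 h2 h3 h4 => by linarith [h3 h4])
    (fun t => by
      by_cases ha : G.Adj t.1 t.2
      · have := hE.nopp _ _ ha
        exact ⟨(1 + ip (u t.1) (u t.2)) / 2, by linarith, fun _ => by linarith⟩
      · exact ⟨1, one_pos, fun h => absurd h ha⟩)
  refine ⟨δ / 2, η, by linarith, hη, fun θ hθ => ?_⟩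
  have E1 : ∀ᶠ ε in 𝓝[>] (0:ℝ), ∀ i, ‖PP (ue u θ ε) z i - PP u z i‖ ≤ δ / 2 := by
    rw [eventually_all]
    intro i
    have hc0 : Continuous (fun ε => PP (ue u θ ε) z i) := by
      unfold PP up3
      have h1 := ue_cont u θ i
      apply continuous_pi
      intro k
      fin_cases k
      · exact continuous_fst.comp h1
      · exact continuous_snd.comp h1
      · exact continuous_const
    have hc : Continuous (fun ε => δ / 2 - ‖PP (ue u θ ε) z i - PP u z i‖) :=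
      continuous_const.sub (hc0.sub continuous_const).norm
    have := ev_pos hc (by rw [ue_zero]; simp; linarith)
    filter_upwards [this] with ε hε
    linarith
  have E2 : ∀ᶠ ε in 𝓝[>] (0:ℝ), ∀ i j, i ≠ j → cr (ue u θ ε i) (ue u θ ε j) ≠ 0 := by
    rw [eventually_all]; intro i
    rw [eventually_all]; intro j
    by_cases hij : i = j
    · exact Eventually.of_forall fun ε h => absurd hij h
    have hc : Continuous (fun ε => cr (ue u θ ε i) (ue u θ ε j)) :=
      cr_cont (ue_cont u θ i) (ue_cont u θ j)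
    rcases lt_trichotomy (cr (u i) (u j)) 0 with h | h | h
    · have := ev_pos hc.neg (by simp only [Pi.neg_apply]; rw [ue_zero]; linarith)
      filter_upwards [this] with ε hε _
      simp only [Pi.neg_apply] at hε
      linarith
    · have hsq := ip_sq_add (hE.unit i) (hE.unit j)
      rw [h] at hsq
      have hip0 : ip (u i) (u j) ≠ 0 := by rintro h0; rw [h0] at hsq; norm_num at hsq
      rcases lt_or_gt_of_ne (hθ.ne hij) with ht | ht
      · filter_upwards [ev_sin (sub_pos.2 ht)] with ε hε _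
        rw [cr_ue, h, mul_zero, zero_add]
        exact mul_ne_zero hε.ne' hip0
      · filter_upwards [ev_sin (sub_pos.2 ht)] with ε hε _
        rw [cr_ue, h, mul_zero, zero_add]
        refine mul_ne_zero ?_ hip0
        have : ε * (θ j - θ i) = -(ε * (θ i - θ j)) := by ring
        rw [this, Real.sin_neg]
        linarith
    · have := ev_pos hc (by rw [ue_zero]; exact h)
      filter_upwards [this] with ε hε _
      exact hε.ne'
  have E3 : ∀ᶠ ε in 𝓝[>] (0:ℝ), ∀ i j, 0 < cr (u i) (u j) →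
      0 < cr (ue u θ ε i) (ue u θ ε j) := by
    rw [eventually_all]; intro i
    rw [eventually_all]; intro j
    by_cases h : 0 < cr (u i) (u j)
    · have := ev_pos (cr_cont (ue_cont u θ i) (ue_cont u θ j)) (by rw [ue_zero]; exact h)
      filter_upwards [this] with ε hε _ using hε
    · exact Eventually.of_forall fun ε h' => absurd h' h
  have E4 : ∀ᶠ ε in 𝓝[>] (0:ℝ), ∀ i j, u i = u j → θ i < θ j →
      0 < cr (ue u θ ε i) (ue u θ ε j) := by
    rw [eventually_all]; intro i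
    rw [eventually_all]; intro j
    by_cases h : u i = u j ∧ θ i < θ j
    · filter_upwards [ev_sin (sub_pos.2 h.2)] with ε hε _ _
      rw [cr_ue, h.1, cr_self, hE.unit]
      simpa using hε
    · exact Eventually.of_forall fun ε h1 h2 => absurd ⟨h1, h2⟩ h
  have E5 : ∀ᶠ ε in 𝓝[>] (0:ℝ), ∀ i j, G.Adj i j → -1 + η ≤ ip (ue u θ ε i) (ue u θ ε j) := by
    rw [eventually_all]; intro i
    rw [eventually_all]; intro j
    by_cases h : G.Adj i j
    · have hc : Continuous (fun ε => ip (ue u θ ε i) (ue u θ ε j) - (-1 + η)) :=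
        (ip_cont (ue_cont u θ i) (ue_cont u θ j)).sub continuous_const
      have := ev_pos hc (by rw [ue_zero]; have := hip (i, j) h; simp only at this; linarith)
      filter_upwards [this] with ε hε _
      linarith
    · exact Eventually.of_forall fun ε h' => absurd h' h
  filter_upwards [E1, E2, E3, E4, E5, ev_small 1 one_pos] with ε h1 h2 h3 h4 h5 h6
  exact ⟨h6.1, hM.perturb h1, h2, h3, h4, h5⟩

lemma NC.stable {u : Fin n → ℝ × ℝ} (h : NC u) (θ : Fin n → ℝ) :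
    ∀ᶠ ε in 𝓝[>] (0:ℝ), ¬ ∃ w : ℝ × ℝ, ∀ i, 0 < ip w (ue u θ ε i) := by
  have hne : (Finset.univ : Finset (Fin n)).Nonempty := by
    obtain ⟨i, -⟩ := h (1, 0) (by simp)
    exact ⟨i, Finset.mem_univ _⟩
  set K : Set (ℝ × ℝ) := {w | ip w w = 1} with hK
  have hKc : IsCompact K := by
    apply Metric.isCompact_of_isClosed_isBounded
    · have : Continuous (fun w : ℝ × ℝ => ip w w) := by unfold ip; fun_prop
      exact isClosed_singleton.preimage this
    · refine (Metric.isBounded_iff_subset_closedBall 0).2 ⟨1, fun w hw => ?_⟩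
      rw [mem_closedBall_zero_iff]
      have hw' : w.1 * w.1 + w.2 * w.2 = 1 := hw
      rw [Prod.norm_def, max_le_iff, Real.norm_eq_abs, Real.norm_eq_abs, abs_le, abs_le]
      refine ⟨⟨?_, ?_⟩, ⟨?_, ?_⟩⟩ <;> nlinarith [sq_nonneg w.1, sq_nonneg w.2]
  set F : ℝ × ℝ → ℝ := fun w => Finset.univ.inf' hne (fun i => ip w (u i)) with hF
  have hFc : Continuous F := by
    rw [hF]
    apply Continuous.finset_inf'_apply
    intro i _
    unfold ip; fun_prop
  obtain ⟨w0, hw0, hmax⟩ := hKc.exists_isMaxOn ⟨((1:ℝ), (0:ℝ)), by simp [hK, ip]⟩ hFc.continuousOn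
  have hneg : F w0 < 0 := by
    obtain ⟨i, hi⟩ := h w0 (by
      rintro rfl
      have : ip (0 : ℝ × ℝ) 0 = 1 := hw0
      simp [ip] at this)
    exact lt_of_le_of_lt (Finset.inf'_le _ (Finset.mem_univ i)) hi
  set σ : ℝ := - F w0 with hσ
  have hσ0 : 0 < σ := by linarith
  have hclose : ∀ᶠ ε in 𝓝[>] (0:ℝ), ∀ i, |(ue u θ ε i).1 - (u i).1| < σ / 2 ∧
      |(ue u θ ε i).2 - (u i).2| < σ / 2 := by
    rw [eventually_all]; intro i
    have c1 : Continuous (fun ε => σ / 2 - |(ue u θ ε i).1 - (u i).1|) :=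
      continuous_const.sub ((continuous_fst.comp (ue_cont u θ i)).sub continuous_const).abs
    have c2 : Continuous (fun ε => σ / 2 - |(ue u θ ε i).2 - (u i).2|) :=
      continuous_const.sub ((continuous_snd.comp (ue_cont u θ i)).sub continuous_const).abs
    have e1 := ev_pos c1 (by rw [ue_zero]; simp; linarith)
    have e2 := ev_pos c2 (by rw [ue_zero]; simp; linarith)
    filter_upwards [e1, e2] with ε a b
    exact ⟨by linarith, by linarith⟩
  filter_upwards [hclose] with ε hε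
  rintro ⟨w, hw⟩
  have hi0 := hne
  obtain ⟨i0, -⟩ := hi0
  have hwne : 0 < w.1 ^ 2 + w.2 ^ 2 := by
    by_contra hc
    have h1 : w.1 = 0 := by nlinarith [sq_nonneg w.1, sq_nonneg w.2]
    have h2 : w.2 = 0 := by nlinarith [sq_nonneg w.1, sq_nonneg w.2]
    have := hw i0
    unfold ip at this
    rw [h1, h2] at this
    simp at this
  set L := Real.sqrt (w.1 ^ 2 + w.2 ^ 2) with hL
  have hL0 : 0 < L := Real.sqrt_pos.2 hwne
  have hL2 : L ^ 2 = w.1 ^ 2 + w.2 ^ 2 := Real.sq_sqrt hwne.le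
  set w1 : ℝ × ℝ := (w.1 / L, w.2 / L) with hw1
  have hw1K : w1 ∈ K := by
    show ip w1 w1 = 1
    unfold ip; rw [hw1]; simp only
    field_simp
    linarith
  have h1 := hmax hw1K
  simp only [Set.mem_ofPred_eq] at h1
  obtain ⟨i, -, hi⟩ := Finset.exists_mem_eq_inf' hne (fun i => ip w1 (u i))
  have h2 : ip w1 (u i) ≤ -σ := by
    have : F w1 = ip w1 (u i) := hi
    rw [← this]; linarith
  have h3 : ip w1 (ue u θ ε i) = ip w (ue u θ ε i) / L := by
    unfold ip; rw [hw1]; simp only; field_simp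
  have h4 : 0 < ip w1 (ue u θ ε i) := by rw [h3]; exact div_pos (hw i) hL0
  have h5 : ip w1 (ue u θ ε i) = ip w1 (u i) + (w1.1 * ((ue u θ ε i).1 - (u i).1) +
      w1.2 * ((ue u θ ε i).2 - (u i).2)) := by unfold ip; ring
  have hb : |w1.1| ≤ 1 ∧ |w1.2| ≤ 1 := by
    have : w1.1 * w1.1 + w1.2 * w1.2 = 1 := hw1K
    constructor <;> rw [abs_le] <;> constructor <;>
      nlinarith [sq_nonneg w1.1, sq_nonneg w1.2]
  have h6 : w1.1 * ((ue u θ ε i).1 - (u i).1) < σ / 2 := by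
    calc w1.1 * ((ue u θ ε i).1 - (u i).1) ≤ |w1.1 * ((ue u θ ε i).1 - (u i).1)| := le_abs_self _
      _ = |w1.1| * |(ue u θ ε i).1 - (u i).1| := abs_mul _ _
      _ ≤ 1 * |(ue u θ ε i).1 - (u i).1| := mul_le_mul_of_nonneg_right hb.1 (abs_nonneg _)
      _ < σ / 2 := by rw [one_mul]; exact (hε i).1
  have h7 : w1.2 * ((ue u θ ε i).2 - (u i).2) < σ / 2 := by
    calc w1.2 * ((ue u θ ε i).2 - (u i).2) ≤ |w1.2 * ((ue u θ ε i).2 - (u i).2)| := le_abs_self _
      _ = |w1.2| * |(ue u θ ε i).2 - (u i).2| := abs_mul _ _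
      _ ≤ 1 * |(ue u θ ε i).2 - (u i).2| := mul_le_mul_of_nonneg_right hb.2 (abs_nonneg _)
      _ < σ / 2 := by rw [one_mul]; exact (hε i).2
  linarith

lemma Pert.good {G : SimpleGraph (Fin n)} {u : Fin n → ℝ × ℝ} {z : Fin n → ℝ} {δ η : ℝ}
    {θ : Fin n → ℝ} {ε : ℝ} (hP : Pert G u z δ η θ ε) (hδ : 0 < δ)
    (hu : ∀ i, ip (u i) (u i) = 1) : Good (ue u θ ε) z (dE G (ue u θ ε)) :=
  hP.mar.good hδ (ue_unit hu θ ε) hP.gen

lemma Pert.str {G : SimpleGraph (Fin n)} {u : Fin n → ℝ × ℝ} {z : Fin n → ℝ} {δ η : ℝ}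
    {θ : Fin n → ℝ} {ε : ℝ} (hP : Pert G u z δ η θ ε) (hδ : 0 < δ)
    (hu : ∀ i, ip (u i) (u i) = 1) (hn : 3 ≤ n) (hm : Nat.card G.edgeSet = 3 * n - 6)
    (hh : ¬ ∃ w : ℝ × ℝ, ∀ i, 0 < ip w (ue u θ ε i)) : Str (ue u θ ε) z (dE G (ue u θ ε)) := by
  refine (hP.good hδ hu).str (by omega) ?_ hh
  rw [card_dE G _ hP.gen, hm]
  omega

/-- `k` is strictly east of `w`, if it is so after a perturbation moving `w` to the east in its
class. -/
lemma Pert.strict {G : SimpleGraph (Fin n)} {u : Fin n → ℝ × ℝ} {z : Fin n → ℝ} {δ η : ℝ}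
    {θ : Fin n → ℝ} {ε : ℝ} (hP : Pert G u z δ η θ ε) (hE : Emb G u z) {w k : Fin n}
    (hwk : G.Adj w k) (hc : 0 < cr (ue u θ ε w) (ue u θ ε k)) (hθ : u w = u k → θ k < θ w) :
    0 < cr (u w) (u k) := by
  rcases lt_trichotomy (cr (u w) (u k)) 0 with h | h | h
  · have := hP.posc k w (by rw [cr_comm]; linarith)
    exact absurd hc (cr_asymm this)
  · have he := eq_of_cr (hE.unit w) (hE.unit k) h (hE.nopp w k hwk)
    exact absurd hc (cr_asymm (hP.tie k w he.symm (hθ he)))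
  · exact h

lemma Emb.east_nb {G : SimpleGraph (Fin n)} {u : Fin n → ℝ × ℝ} {z : Fin n → ℝ}
    (hE : Emb G u z) (hNC : NC u) (hn : 3 ≤ n) (hm : Nat.card G.edgeSet = 3 * n - 6)
    (w : Fin n) : ∃ k, G.Adj w k ∧ 0 < cr (u w) (u k) := by
  obtain ⟨δ, η, hδ, hη, hpert⟩ := hE.pert
  set θ : Fin n → ℝ := fun i => if i = w then (n:ℝ) else (i.val : ℝ) with hθ
  have hlt : ∀ i, i ≠ w → θ i < θ w := by
    intro i hi
    simp only [hθ, if_neg hi, if_true]
    exact_mod_cast i.isLt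
  have hinj : Function.Injective θ := by
    intro i j hij
    by_cases hi : i = w
    · by_cases hj : j = w
      · rw [hi, hj]
      · have := hlt j hj; rw [← hij, hi] at this; exact absurd this (lt_irrefl _)
    · by_cases hj : j = w
      · have := hlt i hi; rw [hij, hj] at this; exact absurd this (lt_irrefl _)
      · simp only [hθ, if_neg hi, if_neg hj, Nat.cast_inj] at hij
        exact Fin.ext hij
  obtain ⟨ε, hP, hh⟩ := ((hpert θ hinj).and (hNC.stable θ)).exists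
  have S := hP.str hδ hE.unit hn hm hh
  obtain ⟨k, hk⟩ := S.e1.top_ex w
  have hk' := mem_dE.1 (Finset.mem_filter.1 hk).1
  refine ⟨k, hk'.1, hP.strict hE hk'.1 hk'.2 (fun _ => hlt k hk'.1.ne.symm)⟩

lemma Emb.west_nb {G : SimpleGraph (Fin n)} {u : Fin n → ℝ × ℝ} {z : Fin n → ℝ}
    (hE : Emb G u z) (hNC : NC u) (hn : 3 ≤ n) (hm : Nat.card G.edgeSet = 3 * n - 6)
    (w : Fin n) : ∃ k, G.Adj k w ∧ 0 < cr (u k) (u w) := by
  obtain ⟨δ, η, hδ, hη, hpert⟩ := hE.pert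
  set θ : Fin n → ℝ := fun i => if i = w then (-1:ℝ) else (i.val : ℝ) with hθ
  have hlt : ∀ i, i ≠ w → θ w < θ i := by
    intro i hi
    simp only [hθ, if_neg hi, if_true]
    have : (0:ℝ) ≤ (i.val : ℝ) := by positivity
    linarith
  have hinj : Function.Injective θ := by
    intro i j hij
    by_cases hi : i = w
    · by_cases hj : j = w
      · rw [hi, hj]
      · have := hlt j hj; rw [← hij, hi] at this; exact absurd this (lt_irrefl _)
    · by_cases hj : j = w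
      · have := hlt i hi; rw [hij, hj] at this; exact absurd this (lt_irrefl _)
      · simp only [hθ, if_neg hi, if_neg hj, Nat.cast_inj] at hij
        exact Fin.ext hij
  obtain ⟨ε, hP, hh⟩ := ((hpert θ hinj).and (hNC.stable θ)).exists
  have S := hP.str hδ hE.unit hn hm hh
  obtain ⟨k, hk⟩ := S.west w
  have hk' := mem_dE.1 hk
  refine ⟨k, hk'.1, hP.strict hE hk'.1 hk'.2 (fun _ => hlt k hk'.1.ne)⟩

end Pool.Agent.R157.Sph
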