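import Pool.Agent.R157.Sph.Ng2

/-!
Bounded solutions for drawings with an uncrossed circle.
-/

namespace Pool.Agent.R157.Sph

open Classical

variable {n : ℕ} {u : Fin n → ℝ × ℝ} {z : Fin n → ℝ} {E : Finset (Fin n × Fin n)}
  {c : ℝ} {q : Fin n → ℝ}

/-- The circle data: `q = c z + linear`, `c > 0`, not crossed. -/
structure CD0 (u : Fin n → ℝ × ℝ) (z : Fin n → ℝ) (E : Finset (Fin n × Fin n)) (c : ℝ)
    (q : Fin n → ℝ) : Prop where
  S : Str u z E
  c0 : 0 < c
  uncr : Uncr E q
  hg : ∀ e ∈ E, ∀ v, g u q e v = c * g u z e v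

lemma CD0.nb_nonpos (D : CD0 u z E c q) {v : Fin n} {e : Fin n × Fin n}
    (h1 : (e.1, v) ∈ E) (h2 : (v, e.2) ∈ E) (hv : q v < 0) : q e.1 ≤ 0 ∧ q e.2 ≤ 0 := by
  constructor
  · by_contra hc
    exact (D.uncr _ h1).2 ⟨not_le.1 hc, hv⟩
  · by_contra hc
    exact (D.uncr _ h2).1 ⟨hv, not_le.1 hc⟩

lemma CD0.nb_nonneg (D : CD0 u z E c q) {v : Fin n} {e : Fin n × Fin n}
    (h1 : (e.1, v) ∈ E) (h2 : (v, e.2) ∈ E) (hv : 0 < q v) : 0 ≤ q e.1 ∧ 0 ≤ q e.2 := by
  constructor
  · by_contra hc
    exact (D.uncr _ h1).1 ⟨not_le.1 hc, hv⟩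
  · by_contra hc
    exact (D.uncr _ h2).2 ⟨hv, not_le.1 hc⟩

lemma CD0.up_nonneg (D : CD0 u z E c q) {v : Fin n} {e : Fin n × Fin n} (h : UpE u z E v e)
    (hv : 0 ≤ q v) : 0 ≤ q e.1 ∧ 0 ≤ q e.2 := by
  have hg := D.hg e h.1 v
  have hz : 0 < g u z e v := by unfold g; linarith [h.2.2.1]
  have hq : 0 < g u q e v := by rw [hg]; exact mul_pos D.c0 hz
  have hH : 0 < H u q e (u v) := by unfold g at hq; linarith
  have pe := D.S.G.pos _ h.1
  have hnum : 0 < q e.1 * cr (u v) (u e.2) + q e.2 * cr (u e.1) (u v) := by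
    unfold H at hH
    exact (div_pos_iff_of_pos_right pe).1 hH
  have hor : 0 < q e.1 ∨ 0 < q e.2 := by
    by_contra hc
    push Not at hc
    have a1 := mul_nonpos_of_nonpos_of_nonneg hc.1 h.2.1.2.le
    have a2 := mul_nonpos_of_nonpos_of_nonneg hc.2 h.2.1.1.le
    linarith
  rcases hor with h1 | h1
  · refine ⟨h1.le, ?_⟩
    by_contra hc
    exact (D.uncr _ h.1).2 ⟨h1, not_le.1 hc⟩
  · refine ⟨?_, h1.le⟩
    by_contra hc
    exact (D.uncr _ h.1).1 ⟨not_le.1 hc, h1⟩

lemma CD0.dn_nonpos (D : CD0 u z E c q) {v : Fin n} {e : Fin n × Fin n} (h : UpE u (-z) E v e)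
    (hv : q v ≤ 0) : q e.1 ≤ 0 ∧ q e.2 ≤ 0 := by
  have hg := D.hg e h.1 v
  have hz : g u z e v < 0 := by
    have := h.2.2.1
    rw [H_neg, Pi.neg_apply] at this
    unfold g; linarith
  have hq : g u q e v < 0 := by rw [hg]; exact mul_neg_of_pos_of_neg D.c0 hz
  have hH : H u q e (u v) < 0 := by unfold g at hq; linarith
  have pe := D.S.G.pos _ h.1
  have hnum : q e.1 * cr (u v) (u e.2) + q e.2 * cr (u e.1) (u v) < 0 := by
    unfold H at hH
    by_contra hc
    have := div_nonneg (not_lt.1 hc) pe.le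
    linarith
  have hor : q e.1 < 0 ∨ q e.2 < 0 := by
    by_contra hc
    push Not at hc
    have a1 := mul_nonneg hc.1 h.2.1.2.le
    have a2 := mul_nonneg hc.2 h.2.1.1.le
    linarith
  rcases hor with h1 | h1
  · refine ⟨h1.le, ?_⟩
    by_contra hc
    exact (D.uncr _ h.1).1 ⟨h1, not_le.1 hc⟩
  · refine ⟨?_, h1.le⟩
    by_contra hc
    exact (D.uncr _ h.1).2 ⟨not_le.1 hc, h1⟩

lemma CD0.mq_up_pos (D : CD0 u z E c q) {v : Fin n} {e : Fin n × Fin n} (h : UpE u z E v e)
    (hv : q v < 0) : 0 < g u (mq q) e v := by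
  have hn := D.S.nb h
  have h2 := D.nb_nonpos hn.1 hn.2 hv
  rw [g_eq_of (mq_of_nonpos h2.1) (mq_of_nonpos h2.2) (mq_of_nonpos hv.le), D.hg e h.1 v]
  exact mul_pos D.c0 (by unfold g; linarith [h.2.2.1])

lemma CD0.mq_up_zero (D : CD0 u z E c q) {v : Fin n} {e : Fin n × Fin n} (h : UpE u z E v e)
    (hv : 0 ≤ q v) : g u (mq q) e v = 0 := by
  have h2 := D.up_nonneg h hv
  exact g_zero_of (mq_of_nonneg h2.1) (mq_of_nonneg h2.2) (mq_of_nonneg hv)

lemma CD0.mq_dn_neg (D : CD0 u z E c q) {v : Fin n} {e : Fin n × Fin n} (h : UpE u (-z) E v e)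
    (hv : q v ≤ 0) : g u (mq q) e v < 0 := by
  have h2 := D.dn_nonpos h hv
  rw [g_eq_of (mq_of_nonpos h2.1) (mq_of_nonpos h2.2) (mq_of_nonpos hv), D.hg e h.1 v]
  apply mul_neg_of_pos_of_neg D.c0
  have := h.2.2.1
  rw [H_neg, Pi.neg_apply] at this
  unfold g; linarith

lemma CD0.mq_dn_zero (D : CD0 u z E c q) {v : Fin n} {e : Fin n × Fin n} (h : UpE u (-z) E v e)
    (hv : 0 < q v) : g u (mq q) e v = 0 := by
  have hn := D.S.neg.nb h
  have h2 := D.nb_nonneg hn.1 hn.2 hv
  exact g_zero_of (mq_of_nonneg h2.1) (mq_of_nonneg h2.2) (mq_of_nonneg hv.le)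

/-- Adding a large multiple of `mq`. -/
lemma CD0.large (D : CD0 u z E c q) {y : Fin n → ℝ}
    (h1 : ∀ v ∈ hasUp u z E, 0 ≤ q v → 0 ≤ g u y (upe u z E v) v)
    (h2 : ∀ v ∈ hasUp u (-z) E, 0 < q v → g u y (upe u (-z) E v) v ≤ 0) :
    ∃ M : ℝ, 0 ≤ M ∧ WComp u z E (y + M • mq q) := by
  obtain ⟨M1, hM1⟩ := (Set.finite_range
    (fun v => - g u y (upe u z E v) v / g u (mq q) (upe u z E v) v)).bddAbove
  obtain ⟨M2, hM2⟩ := (Set.finite_range
    (fun v => - g u y (upe u (-z) E v) v / g u (mq q) (upe u (-z) E v) v)).bddAbove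
  refine ⟨max (max M1 M2) 0, le_max_right _ _, D.S.G.nearest ?_ ?_⟩
  · intro v e he
    have hv : v ∈ hasUp u z E := mem_hasUp.2 ⟨e, he⟩
    have hee := D.S.G.upe_eq he
    rw [g_addsmul]
    rcases lt_or_ge (q v) 0 with hq | hq
    · have p := D.mq_up_pos he hq
      have b : - g u y e v / g u (mq q) e v ≤ M1 := by
        have := hM1 ⟨v, rfl⟩
        simp only [hee] at this
        exact this
      have b2 : - g u y e v / g u (mq q) e v ≤ max (max M1 M2) 0 :=
        b.trans ((le_max_left _ _).trans (le_max_left _ _))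
      rw [div_le_iff₀ p] at b2
      linarith
    · rw [D.mq_up_zero he hq, ← hee]
      have := h1 v hv hq
      linarith
  · intro v e he
    have hv : v ∈ hasUp u (-z) E := mem_hasUp.2 ⟨e, he⟩
    have hee := D.S.G.neg.upe_eq he
    rw [g_addsmul]
    rcases lt_or_ge 0 (q v) with hq | hq
    · rw [D.mq_dn_zero he hq, ← hee]
      have := h2 v hv hq
      linarith
    · have p := D.mq_dn_neg he hq
      have b : - g u y e v / g u (mq q) e v ≤ M2 := by
        have := hM2 ⟨v, rfl⟩
        simp only [hee] at this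
        exact this
      have b2 : - g u y e v / g u (mq q) e v ≤ max (max M1 M2) 0 :=
        b.trans ((le_max_right _ _).trans (le_max_left _ _))
      rw [div_le_iff_of_neg p] at b2
      linarith

/-- The key computation. -/
theorem CD0.exists_h (D : CD0 u z E c q) {S0 η Qm : ℝ} (hS0 : 0 ≤ S0) (hη : S0 ^ 2 * η = 2)
    (ipb : ∀ e ∈ E, -1 + η ≤ ip (u e.1) (u e.2)) (hQ : ∀ v, |q v| ≤ Qm) : ∃ h : Fin n → ℝ,
    (∀ v ∈ hasUp u z E, 0 ≤ q v → g u h (upe u z E v) v = 0) ∧
    (∀ v, v ∉ hasUp u z E → h v = -1) ∧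
    (∀ v, v ∈ hasUp u z E → q v < 0 → h v = 0) ∧
    (∀ v ∈ hasUp u (-z) E, 0 < q v → g u h (upe u (-z) E v) v ≤ 0) ∧
    (∀ v ∈ hasUp u (-z) E, 0 < q v → wt u (upe u (-z) E v) v * g u h (upe u (-z) E v) v *
      g u q (upe u (-z) E v) v ≤ n * (Qm * (2 * S0))) := by
  have S := D.S
  choose te hte using S.e1.top_ex
  choose be hbe using S.e2.top_ex
  choose tw htw using S.e3.top_ex
  choose bw hbw using S.e4.top_ex
  have hid := S.ident hte hbe htw hbw
  -- neighbours of top vertices
  have hteN : ∀ x, x ∉ hasUp u z E → te x ∉ hasUp u z E := by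
    intro x hx
    rw [mem_hasUp, ← noUp_iff] at hx ⊢
    exact (S.G.env S.west hx (hte x)).1
  have htwN : ∀ x, x ∉ hasUp u z E → tw x ∉ hasUp u z E := by
    intro x hx
    rw [← hasUp_rf] at hx ⊢
    rw [mem_hasUp, ← noUp_iff] at hx ⊢
    exact (S.refl.G.env S.refl.west hx (htw x)).1
  have hte0 : ∀ x, 0 < cr (u x) (u (te x)) := fun x => S.G.pos _ (Finset.mem_filter.1 (hte x)).1
  have htw0 : ∀ x, 0 < cr (u (tw x)) (u x) := fun x => by
    have h := (Finset.mem_filter.1 (htw x)).1
    rw [mem_rE] at h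
    exact S.G.pos _ h
  have hwt : ∀ v ∈ hasUp u (-z) E, 0 < wt u (upe u (-z) E v) v := fun v hv => by
    have hs := upe_spec hv
    exact div_pos (S.G.pos _ hs.1) (mul_pos hs.2.1.1 hs.2.1.2)
  -- the set of vertices above the circle
  set A : Finset (Fin n) := (hasUp u (-z) E).filter (fun v => 0 < q v) with hA
  have memA : ∀ v, v ∈ A ↔ v ∈ hasUp u (-z) E ∧ 0 < q v := fun v => by rw [hA]; simp
  have hAdn : ∀ v ∈ A, v ∈ hasUp u (-z) E := fun v hv => ((memA v).1 hv).1
  -- M-matrix property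
  have hM := mmat' (u := u) (N := A) (Y := fun v => max 0 (q v)) (fun v => le_max_left _ _)
    (upe u (-z) E) (fun v hv => (upe_spec (hAdn v hv)).2.1)
    (fun v hv => S.G.pos _ (upe_spec (hAdn v hv)).1)
    (fun v hv => by
      have hs := upe_spec (hAdn v hv)
      have hq := ((memA v).1 hv).2
      have hn := S.neg.nb hs
      have h2 := D.nb_nonneg hn.1 hn.2 hq
      have e1 : g u (fun v => max 0 (q v)) (upe u (-z) E v) v = g u q (upe u (-z) E v) v :=
        g_eq_of (max_eq_right h2.1) (max_eq_right h2.2) (max_eq_right hq.le)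
      rw [e1, D.hg _ hs.1 v]
      apply mul_neg_of_pos_of_neg D.c0
      have := hs.2.2.1
      rw [H_neg, Pi.neg_apply] at this
      unfold g; linarith)
  -- evaluation of the identity
  have hev : ∀ (h : Fin n → ℝ), (∀ v ∈ hasUp u z E, 0 ≤ q v → g u h (upe u z E v) v = 0) →
      ∀ x ∈ A, ∑ v ∈ A, (wt u (upe u (-z) E v) v * g u h (upe u (-z) E v) v) *
        g u (Pi.single x 1) (upe u (-z) E v) v =
        - ∑ w ∈ (hasUp u z E)ᶜ, ((Pi.single x (1:ℝ) : Fin n → ℝ) w) *
          (sl u h w (te w) - sl u h w (tw w)) := by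
    intro h hh x hx
    have hqx := ((memA x).1 hx).2
    have h0 := hid h (Pi.single x 1)
    have z1 : ∑ v ∈ hasUp u z E, wt u (upe u z E v) v * g u h (upe u z E v) v *
        g u (Pi.single x 1) (upe u z E v) v = 0 := by
      apply Finset.sum_eq_zero
      intro v hv
      rcases lt_or_ge (q v) 0 with hq | hq
      · have hn := S.nb (upe_spec hv)
        have h2 := D.nb_nonpos hn.1 hn.2 hq
        rw [g_single_zero (by rintro h; rw [h] at h2; linarith [h2.1])
          (by rintro h; rw [h] at h2; linarith [h2.2]) (by rintro h; rw [h] at hq; linarith)]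
        ring
      · rw [hh v hv hq]; ring
    have z2 : ∑ w ∈ (hasUp u (-z) E)ᶜ, ((Pi.single x (1:ℝ) : Fin n → ℝ) w * sl u h w (be w) -
        (Pi.single x (1:ℝ) : Fin n → ℝ) w * sl u h w (bw w)) = 0 := by
      apply Finset.sum_eq_zero
      intro w hw
      rw [Finset.mem_compl] at hw
      have : w ≠ x := by rintro rfl; exact hw (hAdn _ hx)
      rw [Pi.single_eq_of_ne this]; ring
    have z3 : ∑ v ∈ hasUp u (-z) E, wt u (upe u (-z) E v) v * g u h (upe u (-z) E v) v *
        g u (Pi.single x 1) (upe u (-z) E v) v =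
        ∑ v ∈ A, (wt u (upe u (-z) E v) v * g u h (upe u (-z) E v) v) *
        g u (Pi.single x 1) (upe u (-z) E v) v := by
      symm
      apply Finset.sum_subset hAdn
      intro v hv hvA
      rw [memA, not_and, not_lt] at hvA
      replace hvA := hvA hv
      have h2 := D.dn_nonpos (upe_spec hv) hvA
      rw [g_single_zero (by rintro h; rw [h] at h2; linarith [h2.1])
        (by rintro h; rw [h] at h2; linarith [h2.2]) (by rintro h; rw [h] at hvA; linarith)]
      ring
    rw [z1, z2, z3] at h0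
    have z4 : ∑ w ∈ (hasUp u z E)ᶜ, ((Pi.single x (1:ℝ) : Fin n → ℝ) w) *
          (sl u h w (te w) - sl u h w (tw w)) = ∑ w ∈ (hasUp u z E)ᶜ,
          ((Pi.single x (1:ℝ) : Fin n → ℝ) w * sl u h w (te w) -
          (Pi.single x (1:ℝ) : Fin n → ℝ) w * sl u h w (tw w)) :=
      Finset.sum_congr rfl fun w _ => by ring
    rw [z4]
    linarith
  -- injectivity
  have hinj : Function.Injective (Psi u z E q) := by
    rw [injective_iff_map_eq_zero]
    intro y hy
    have y1 : ∀ v ∈ hasUp u z E, 0 ≤ q v → g u y (upe u z E v) v = 0 := fun v hv hq => by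
      rw [← Psi_up (q := q) ⟨hv, hq⟩, hy]; rfl
    have y2 : ∀ v, ¬ (v ∈ hasUp u z E ∧ 0 ≤ q v) → y v = 0 := fun v hv => by
      rw [← Psi_no (q := q) hv (y := y), hy]; rfl
    have y3 : ∀ v, v ∉ hasUp u z E → y v = 0 := fun v hv => y2 v (fun h => hv h.1)
    have hz : ∀ x ∈ A, ∑ v ∈ A,
        (wt u (upe u (-z) E v) v * g u y (upe u (-z) E v) v) *
        g u (Pi.single x 1) (upe u (-z) E v) v = 0 := by
      intro x hx
      rw [hev y y1 x hx, neg_eq_zero]
      apply Finset.sum_eq_zero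
      intro w hw
      rw [Finset.mem_compl] at hw
      unfold sl
      rw [y3 w hw, y3 _ (hteN w hw), y3 _ (htwN w hw)]
      simp
    have a1 := hM (fun v => wt u (upe u (-z) E v) v * g u y (upe u (-z) E v) v)
      (fun x hx => (hz x hx).le)
    have a2 := hM (fun v => - (wt u (upe u (-z) E v) v * g u y (upe u (-z) E v) v))
      (fun x hx => by
        have := hz x hx
        simp only [neg_mul, Finset.sum_neg_distrib] at this ⊢
        rw [this]; simp)
    have a3 : ∀ v ∈ A, g u y (upe u (-z) E v) v = 0 := by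
      intro v hv
      have b1 := a1 v hv
      have b2 := a2 v hv
      have b3 : wt u (upe u (-z) E v) v * g u y (upe u (-z) E v) v = 0 := by linarith
      rcases mul_eq_zero.1 b3 with h | h
      · exact absurd h (hwt v (hAdn v hv)).ne'
      · exact h
    obtain ⟨M1, hM1, w1⟩ := D.large (y := y) (fun v hv hq => (y1 v hv hq).ge)
      (fun v hv hq => (a3 v ((memA v).2 ⟨hv, hq⟩)).le)
    obtain ⟨M2, hM2, w2⟩ := D.large (y := -y) (fun v hv hq => by rw [g_neg, y1 v hv hq]; simp)
      (fun v hv hq => by rw [g_neg, a3 v ((memA v).2 ⟨hv, hq⟩)]; simp)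
    have n1 := S.nonpos w1 (fun v hv => by
      simp only [Pi.add_apply, Pi.smul_apply, smul_eq_mul]
      rw [y3 v hv, zero_add]
      exact mul_nonpos_of_nonneg_of_nonpos hM1 (min_le_left _ _))
    have n2 := S.nonpos w2 (fun v hv => by
      simp only [Pi.add_apply, Pi.smul_apply, smul_eq_mul, Pi.neg_apply]
      rw [y3 v hv, neg_zero, zero_add]
      exact mul_nonpos_of_nonneg_of_nonpos hM2 (min_le_left _ _))
    funext v
    simp only [Pi.zero_apply]
    rcases lt_or_ge (q v) 0 with hq | hq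
    · exact y2 v (fun h => absurd h.2 (not_le.2 hq))
    · have m1 := n1 v
      have m2 := n2 v
      simp only [Pi.add_apply, Pi.smul_apply, smul_eq_mul, Pi.neg_apply, mq_of_nonneg hq,
        mul_zero, add_zero] at m1 m2
      linarith
  have hsurj : Function.Surjective (Psi u z E q) := LinearMap.injective_iff_surjective.1 hinj
  obtain ⟨h, hh⟩ := hsurj (fun v => if v ∈ hasUp u z E then 0 else -1)
  have h1 : ∀ v ∈ hasUp u z E, 0 ≤ q v → g u h (upe u z E v) v = 0 := fun v hv hq => by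
    rw [← Psi_up (q := q) ⟨hv, hq⟩, hh]; simp only; rw [if_pos hv]
  have h2 : ∀ v, v ∉ hasUp u z E → h v = -1 := fun v hv => by
    rw [← Psi_no (q := q) (z := z) (E := E) (u := u) (y := h) (fun h => hv h.1), hh]
    simp only; rw [if_neg hv]
  have h3 : ∀ v, v ∈ hasUp u z E → q v < 0 → h v = 0 := fun v hv hq => by
    rw [← Psi_no (q := q) (z := z) (E := E) (u := u) (y := h)
      (fun h => absurd h.2 (not_le.2 hq)), hh]
    simp only; rw [if_pos hv]
  have ip_le : ∀ i j, ip (u i) (u j) ≤ 1 := by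
    intro i j
    have e1 := S.G.unit i
    have e2 := S.G.unit j
    unfold ip at *
    nlinarith [sq_nonneg ((u i).1 - (u j).1), sq_nonneg ((u i).2 - (u j).2)]
  have hz : ∀ x ∈ A, ∑ v ∈ A,
      (- (wt u (upe u (-z) E v) v * g u h (upe u (-z) E v) v)) *
      g u (Pi.single x 1) (upe u (-z) E v) v ≤ 0 := by
    intro x hx
    simp only [neg_mul, Finset.sum_neg_distrib]
    have := hev h h1 x hx
    rw [this, neg_neg]
    apply Finset.sum_nonpos
    intro w hw
    rw [Finset.mem_compl] at hw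
    have s1 : sl u h w (te w) ≤ 0 := by
      unfold sl
      rw [h2 w hw, h2 _ (hteN w hw)]
      apply div_nonpos_of_nonpos_of_nonneg _ (hte0 w).le
      linarith [ip_le w (te w)]
    have s2 : 0 ≤ sl u h w (tw w) := by
      unfold sl
      rw [h2 w hw, h2 _ (htwN w hw), cr_comm, div_neg, ← neg_div]
      apply div_nonneg _ (htw0 w).le
      linarith [ip_le w (tw w)]
    have s3 : (0:ℝ) ≤ (Pi.single x (1:ℝ) : Fin n → ℝ) w := by
      by_cases hxw : w = x
      · subst hxw; simp
      · rw [Pi.single_eq_of_ne hxw]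
    exact mul_nonpos_of_nonneg_of_nonpos s3 (by linarith)
  have a1 := hM (fun v => - (wt u (upe u (-z) E v) v * g u h (upe u (-z) E v) v)) hz
  have h4 : ∀ v ∈ hasUp u (-z) E, 0 < q v → g u h (upe u (-z) E v) v ≤ 0 := by
    intro v hv hq
    have b1 := a1 v ((memA v).2 ⟨hv, hq⟩)
    by_contra hc
    rw [not_le] at hc
    have := mul_pos (hwt v hv) hc
    linarith
  have slte : ∀ x, x ∉ hasUp u z E → sl u h x (te x) ≤ 0 := by
    intro w hw
    unfold sl
    rw [h2 w hw, h2 _ (hteN w hw)]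
    apply div_nonpos_of_nonpos_of_nonneg _ (hte0 w).le
    linarith [ip_le w (te w)]
  have sltw : ∀ x, x ∉ hasUp u z E → 0 ≤ sl u h x (tw x) := by
    intro w hw
    unfold sl
    rw [h2 w hw, h2 _ (htwN w hw), cr_comm, div_neg, ← neg_div]
    apply div_nonneg _ (htw0 w).le
    linarith [ip_le w (tw w)]
  -- kinks at the bottom vertices
  have kink : ∀ x, x ∉ hasUp u (-z) E → 0 < q x → sl u h x (be x) - sl u h x (bw x) ≤ 0 := by
    intro x hx hqx
    have h0 := hid h (Pi.single x 1)
    have z1 : ∑ v ∈ hasUp u z E, wt u (upe u z E v) v * g u h (upe u z E v) v *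
        g u (Pi.single x 1) (upe u z E v) v = 0 := by
      apply Finset.sum_eq_zero
      intro v hv
      rcases lt_or_ge (q v) 0 with hq | hq
      · have hn := S.nb (upe_spec hv)
        have h2 := D.nb_nonpos hn.1 hn.2 hq
        rw [g_single_zero (by rintro h; rw [h] at h2; linarith [h2.1])
          (by rintro h; rw [h] at h2; linarith [h2.2]) (by rintro h; rw [h] at hq; linarith)]
        ring
      · rw [h1 v hv hq]; ring
    have z2 : ∑ w ∈ (hasUp u (-z) E)ᶜ, ((Pi.single x (1:ℝ) : Fin n → ℝ) w * sl u h w (be w) -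
        (Pi.single x (1:ℝ) : Fin n → ℝ) w * sl u h w (bw w)) =
        sl u h x (be x) - sl u h x (bw x) := by
      rw [Finset.sum_eq_single x]
      · simp
      · intro b _ hb
        rw [Pi.single_eq_of_ne hb]; ring
      · intro h'; exact absurd (Finset.mem_compl.2 hx) h'
    have z3 : ∑ v ∈ hasUp u (-z) E, wt u (upe u (-z) E v) v * g u h (upe u (-z) E v) v *
        g u (Pi.single x 1) (upe u (-z) E v) v ≤ 0 := by
      apply Finset.sum_nonpos
      intro v hv
      have hvx : v ≠ x := by rintro rfl; exact hx hv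
      have hs := upe_spec hv
      rcases lt_or_ge 0 (q v) with hq | hq
      · have p1 : 0 ≤ g u (Pi.single x 1) (upe u (-z) E v) v := by
          unfold g
          rw [Pi.single_eq_of_ne hvx, sub_zero]
          unfold H
          have nn : ∀ w : Fin n, (0:ℝ) ≤ (Pi.single x (1:ℝ) : Fin n → ℝ) w := by
            intro w
            by_cases hxw : w = x
            · subst hxw; simp
            · rw [Pi.single_eq_of_ne hxw]
          exact div_nonneg (add_nonneg (mul_nonneg (nn _) hs.2.1.2.le)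
            (mul_nonneg (nn _) hs.2.1.1.le)) (S.G.pos _ hs.1).le
        exact mul_nonpos_of_nonpos_of_nonneg
          (mul_nonpos_of_nonneg_of_nonpos (hwt v hv).le (h4 v hv hq)) p1
      · have h2 := D.dn_nonpos hs hq
        rw [g_single_zero (by rintro h; rw [h] at h2; linarith [h2.1])
          (by rintro h; rw [h] at h2; linarith [h2.2]) hvx]
        simp
    have z4 : ∑ w ∈ (hasUp u z E)ᶜ, ((Pi.single x (1:ℝ) : Fin n → ℝ) w * sl u h w (te w) -
        (Pi.single x (1:ℝ) : Fin n → ℝ) w * sl u h w (tw w)) ≤ 0 := by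
      apply Finset.sum_nonpos
      intro w hw
      rw [Finset.mem_compl] at hw
      by_cases hxw : w = x
      · subst hxw
        rw [Pi.single_eq_same]
        linarith [slte w hw, sltw w hw]
      · rw [Pi.single_eq_of_ne hxw]; simp
    rw [z1, z2] at h0
    linarith
  -- pairing with the positive part of `q`
  set y : Fin n → ℝ := fun v => max 0 (q v) with hy
  have hyA : ∀ v ∈ A, g u y (upe u (-z) E v) v = g u q (upe u (-z) E v) v ∧
      g u q (upe u (-z) E v) v < 0 := by
    intro v hv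
    have hs := upe_spec (hAdn v hv)
    have hq := ((memA v).1 hv).2
    have hn := S.neg.nb hs
    have h2 := D.nb_nonneg hn.1 hn.2 hq
    refine ⟨g_eq_of (max_eq_right h2.1) (max_eq_right h2.2) (max_eq_right hq.le), ?_⟩
    rw [D.hg _ hs.1 v]
    apply mul_neg_of_pos_of_neg D.c0
    have := hs.2.2.1
    rw [H_neg, Pi.neg_apply] at this
    unfold g; linarith
  have hpair : ∑ v ∈ A, wt u (upe u (-z) E v) v * g u h (upe u (-z) E v) v *
      g u y (upe u (-z) E v) v ≤
      ∑ x ∈ (hasUp u z E)ᶜ, y x * (sl u h x (tw x) - sl u h x (te x)) := by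
    have h0 := hid h y
    have z1 : ∑ v ∈ hasUp u z E, wt u (upe u z E v) v * g u h (upe u z E v) v *
        g u y (upe u z E v) v = 0 := by
      apply Finset.sum_eq_zero
      intro v hv
      rcases lt_or_ge (q v) 0 with hq | hq
      · have hn := S.nb (upe_spec hv)
        have h2 := D.nb_nonpos hn.1 hn.2 hq
        rw [g_zero_of (y := y) (max_eq_left h2.1) (max_eq_left h2.2) (max_eq_left hq.le)]
        ring
      · rw [h1 v hv hq]; ring
    have z3 : ∑ v ∈ hasUp u (-z) E, wt u (upe u (-z) E v) v * g u h (upe u (-z) E v) v *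
        g u y (upe u (-z) E v) v =
        ∑ v ∈ A, wt u (upe u (-z) E v) v * g u h (upe u (-z) E v) v *
        g u y (upe u (-z) E v) v := by
      symm
      apply Finset.sum_subset hAdn
      intro v hv hvA
      rw [memA, not_and, not_lt] at hvA
      replace hvA := hvA hv
      have h2 := D.dn_nonpos (upe_spec hv) hvA
      rw [g_zero_of (y := y) (max_eq_left h2.1) (max_eq_left h2.2) (max_eq_left hvA)]
      ring
    have z2 : ∑ w ∈ (hasUp u (-z) E)ᶜ, (y w * sl u h w (be w) - y w * sl u h w (bw w)) ≤ 0 := by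
      apply Finset.sum_nonpos
      intro w hw
      rw [Finset.mem_compl] at hw
      rcases lt_or_ge 0 (q w) with hq | hq
      · have := mul_nonpos_of_nonneg_of_nonpos (le_max_left 0 (q w)) (kink w hw hq)
        have e : y w * sl u h w (be w) - y w * sl u h w (bw w) =
            max 0 (q w) * (sl u h w (be w) - sl u h w (bw w)) := by rw [hy]; ring
        rw [e]; exact this
      · have : y w = 0 := max_eq_left hq
        rw [this]; simp
    have z4 : ∑ x ∈ (hasUp u z E)ᶜ, y x * (sl u h x (tw x) - sl u h x (te x)) =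
        - ∑ x ∈ (hasUp u z E)ᶜ, (y x * sl u h x (te x) - y x * sl u h x (tw x)) := by
      rw [← Finset.sum_neg_distrib]
      refine Finset.sum_congr rfl fun x _ => ?_
      ring
    rw [z1, z3] at h0
    rw [z4]
    linarith
  have tanb : ∀ a b, 0 < cr (u a) (u b) → (a, b) ∈ E →
      (1 - ip (u a) (u b)) / cr (u a) (u b) ≤ S0 := by
    intro a b hab hE
    have i1 := ipb _ hE
    simp only at i1
    have i2 := ip_sq_add (S.G.unit a) (S.G.unit b)
    have i3 := ip_le a b
    apply le_of_sq_le_sq _ hS0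
    rw [div_pow, div_le_iff₀ (by positivity), ← sub_nonneg]
    have e : S0 ^ 2 * cr (u a) (u b) ^ 2 - (1 - ip (u a) (u b)) ^ 2 =
        (1 - ip (u a) (u b)) * (S0 ^ 2 * (1 + ip (u a) (u b)) - (1 - ip (u a) (u b))) := by
      have : cr (u a) (u b) ^ 2 = (1 - ip (u a) (u b)) * (1 + ip (u a) (u b)) := by linarith
      rw [this]; ring
    rw [e]
    apply mul_nonneg (by linarith)
    have : 2 ≤ S0 ^ 2 * (1 + ip (u a) (u b)) := by
      have h5 : S0 ^ 2 * η ≤ S0 ^ 2 * (1 + ip (u a) (u b)) :=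
        mul_le_mul_of_nonneg_left (by linarith) (sq_nonneg _)
      linarith
    linarith [ip_ge S.G.unit a b]
  have htop : ∑ x ∈ (hasUp u z E)ᶜ, y x * (sl u h x (tw x) - sl u h x (te x)) ≤
      n * (Qm * (2 * S0)) := by
    have h5 : ∑ x ∈ (hasUp u z E)ᶜ, y x * (sl u h x (tw x) - sl u h x (te x)) ≤
        ∑ x ∈ (hasUp u z E)ᶜ, Qm * (2 * S0) := by
      apply Finset.sum_le_sum
      intro x hx
      rw [Finset.mem_compl] at hx
      have t1 : sl u h x (tw x) ≤ S0 := by
        have hw := htw0 x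
        have hm := (Finset.mem_filter.1 (htw x)).1
        rw [mem_rE] at hm
        have := tanb (tw x) x hw hm
        unfold sl
        rw [h2 x hx, h2 _ (htwN x hx), cr_comm, div_neg, ← neg_div]
        have e : -(-1 - -1 * ip (u x) (u (tw x))) = 1 - ip (u (tw x)) (u x) := by
          unfold ip; ring
        rw [e]; exact this
      have t2 : - sl u h x (te x) ≤ S0 := by
        have hw := hte0 x
        have hm := (Finset.mem_filter.1 (hte x)).1
        have := tanb x (te x) hw hm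
        unfold sl
        rw [h2 x hx, h2 _ (hteN x hx), ← neg_div]
        have e : -(-1 - -1 * ip (u x) (u (te x))) = 1 - ip (u x) (u (te x)) := by ring
        rw [e]; exact this
      have t3 : y x ≤ Qm := max_le ((abs_nonneg _).trans (hQ x)) ((le_abs_self _).trans (hQ x))
      have t4 : 0 ≤ y x := le_max_left _ _
      have t5 : 0 ≤ sl u h x (tw x) - sl u h x (te x) := by linarith [slte x hx, sltw x hx]
      calc y x * (sl u h x (tw x) - sl u h x (te x)) ≤ Qm * (sl u h x (tw x) - sl u h x (te x)) :=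
            mul_le_mul_of_nonneg_right t3 t5
        _ ≤ Qm * (2 * S0) := mul_le_mul_of_nonneg_left (by linarith) (t4.trans t3)
    refine h5.trans ?_
    rw [Finset.sum_const, nsmul_eq_mul]
    have h6 : (((hasUp u z E)ᶜ.card : ℕ) : ℝ) ≤ n := by
      have := Finset.card_le_univ ((hasUp u z E)ᶜ)
      rw [Fintype.card_fin] at this
      exact_mod_cast this
    apply mul_le_mul_of_nonneg_right h6
    by_cases hne : Nonempty (Fin n)
    · obtain ⟨x⟩ := hne
      have := (abs_nonneg _).trans (hQ x)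
      positivity
    · exfalso
      have h7 : (hasUp u z E)ᶜ = ∅ := Finset.eq_empty_of_forall_notMem fun x _ => hne ⟨x⟩
      have := S.e1.cardN
      rw [h7] at this
      simp at this
  refine ⟨h, h1, h2, h3, h4, fun v hv hq => ?_⟩
  have hvA : v ∈ A := (memA v).2 ⟨hv, hq⟩
  have hterm : ∀ v ∈ A, 0 ≤ wt u (upe u (-z) E v) v * g u h (upe u (-z) E v) v *
      g u y (upe u (-z) E v) v := by
    intro v hv
    have m := (memA v).1 hv
    rw [(hyA v hv).1]
    exact mul_nonneg_of_nonpos_of_nonpos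
      (mul_nonpos_of_nonneg_of_nonpos (hwt v m.1).le (h4 v m.1 m.2)) (hyA v hv).2.le
  have h5 := Finset.single_le_sum hterm hvA
  rw [(hyA v hvA).1] at h5
  linarith


end Pool.Agent.R157.Sph
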