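import Pool.Agent.R157.Sph.Ng3

/-!
Bounded solutions for drawings with an uncrossed circle, continued.
-/

namespace Pool.Agent.R157.Sph

open Classical

variable {n : ℕ} {u : Fin n → ℝ × ℝ} {z : Fin n → ℝ} {E : Finset (Fin n × Fin n)}
  {c : ℝ} {q : Fin n → ℝ}

lemma cr_le_one {p q : ℝ × ℝ} (hp : ip p p = 1) (hq : ip q q = 1) : cr p q ≤ 1 := by
  have := ip_sq_add hp hq
  nlinarith [sq_nonneg (ip p q), sq_nonneg (cr p q - 1)]

/-- Weights of the ends of an edge over a vertex. -/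
lemma Good.wts (G : Good u z E) {S0 η : ℝ} (hS0 : 0 ≤ S0) (hη : S0 ^ 2 * η = 2)
    (ipb : ∀ e ∈ E, -1 + η ≤ ip (u e.1) (u e.2)) {e : Fin n × Fin n} (he : e ∈ E) {v : Fin n}
    (hv : Ov u e (u v)) : ∃ s t : ℝ, 0 < s ∧ 0 < t ∧ 1 ≤ s + t ∧ s + t ≤ S0 ∧
      (∀ y : Fin n → ℝ, H u y e (u v) = s * y e.1 + t * y e.2) ∧ 1 / wt u e v ≤ S0 := by
  have p0 := G.pos e he
  have hx := cr_expand (a := u e.1) (b := u e.2) (p := u v) p0.ne'
  set s := cr (u v) (u e.2) / cr (u e.1) (u e.2) with hs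
  set t := cr (u e.1) (u v) / cr (u e.1) (u e.2) with ht
  have hs0 : 0 < s := div_pos hv.2 p0
  have ht0 : 0 < t := div_pos hv.1 p0
  have h1 := ip_comb_self (G.unit e.1) (G.unit e.2) s t
  rw [← hx, G.unit] at h1
  have i1 := ipb e he
  have i3 : ip (u e.1) (u e.2) ≤ 1 := by
    have e1 := G.unit e.1
    have e2 := G.unit e.2
    unfold ip at *
    nlinarith [sq_nonneg ((u e.1).1 - (u e.2).1), sq_nonneg ((u e.1).2 - (u e.2).2)]
  have hst : 0 < s * t := mul_pos hs0 ht0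
  have h2 : 1 ≤ (s + t) ^ 2 := by nlinarith
  have h3 : (s + t) ^ 2 * η ≤ 2 := by
    have h5 : s * t * (-1 + η) ≤ s * t * ip (u e.1) (u e.2) :=
      mul_le_mul_of_nonneg_left i1 hst.le
    have hη0 : 0 < η := by
      by_contra hc
      have := mul_nonpos_of_nonneg_of_nonpos (sq_nonneg S0) (not_lt.1 hc)
      linarith
    have h7 : η ≤ 2 := by linarith
    have h6 : 0 ≤ (s - t) ^ 2 := sq_nonneg _
    nlinarith
  have h4 : s + t ≤ S0 := by
    have hη0 : 0 < η := by
      by_contra hc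
      have := mul_nonpos_of_nonneg_of_nonpos (sq_nonneg S0) (not_lt.1 hc)
      linarith
    have h5 : (s + t) ^ 2 ≤ S0 ^ 2 := by
      by_contra hc
      rw [not_le] at hc
      have := mul_lt_mul_of_pos_right hc hη0
      linarith
    exact le_of_sq_le_sq h5 hS0
  refine ⟨s, t, hs0, ht0, ?_, h4, ?_, ?_⟩
  · nlinarith
  · intro y
    unfold H
    rw [hs, ht]
    field_simp
  · have h5 : 1 / wt u e v = s * cr (u e.1) (u v) := by
      unfold wt
      rw [hs]
      have := p0.ne'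
      have := hv.1.ne'
      have := hv.2.ne'
      field_simp
    rw [h5]
    have h6 := cr_le_one (G.unit e.1) (G.unit v)
    have h7 : s * cr (u e.1) (u v) ≤ s * 1 := mul_le_mul_of_nonneg_left h6 hs0.le
    linarith

lemma CD0.mq_up_eq (D : CD0 u z E c q) {v : Fin n} {e : Fin n × Fin n} (h : UpE u z E v e)
    (hv : q v < 0) : g u (mq q) e v = g u q e v := by
  have hn := D.S.nb h
  have h2 := D.nb_nonpos hn.1 hn.2 hv
  exact g_eq_of (mq_of_nonpos h2.1) (mq_of_nonpos h2.2) (mq_of_nonpos hv.le)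

lemma CD0.mq_dn_eq (D : CD0 u z E c q) {v : Fin n} {e : Fin n × Fin n} (h : UpE u (-z) E v e)
    (hv : q v ≤ 0) : g u (mq q) e v = g u q e v := by
  have h2 := D.dn_nonpos h hv
  exact g_eq_of (mq_of_nonpos h2.1) (mq_of_nonpos h2.2) (mq_of_nonpos hv)

lemma CD0.gq_up (D : CD0 u z E c q) {v : Fin n} {e : Fin n × Fin n} (h : UpE u z E v e) :
    0 < g u q e v := by
  rw [D.hg e h.1 v]
  exact mul_pos D.c0 (by unfold g; linarith [h.2.2.1])

lemma CD0.gq_dn (D : CD0 u z E c q) {v : Fin n} {e : Fin n × Fin n} (h : UpE u (-z) E v e) :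
    g u q e v < 0 := by
  rw [D.hg e h.1 v]
  apply mul_neg_of_pos_of_neg D.c0
  have := h.2.2.1
  rw [H_neg, Pi.neg_apply] at this
  unfold g; linarith

/-- Upper bound from the top vertices. -/
lemma Str.roof_le (S : Str u z E) {S0 η : ℝ} (hS0 : 0 ≤ S0) (hη : S0 ^ 2 * η = 2)
    (ipb : ∀ e ∈ E, -1 + η ≤ ip (u e.1) (u e.2)) {y : Fin n → ℝ} (W : WComp u z E y)
    {v : Fin n} (hv : v ∈ hasUp u z E) {τ : ℝ} (hτ : ∀ x, x ∉ hasUp u z E → y x ≤ τ) :
    ∃ s : ℝ, 1 ≤ s ∧ s ≤ S0 ∧ y v ≤ s * τ := by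
  obtain ⟨p, r, hpr, hp, hr, ho, hlt⟩ := S.roof hv
  obtain ⟨s, t, hs, ht, h1, h2, hH, -⟩ := S.G.wts hS0 hη ipb hpr ho
  refine ⟨s + t, h1, h2, ?_⟩
  have hg : 0 < g u z (p, r) v := by unfold g; linarith
  have h3 := W _ hpr v ho
  have h4 : 0 ≤ g u y (p, r) v := nonneg_of_mul_nonneg_right h3 hg
  have h5 : y v ≤ H u y (p, r) (u v) := by unfold g at h4; linarith
  rw [hH y] at h5
  have h6 := mul_le_mul_of_nonneg_left (hτ p hp) hs.le
  have h7 := mul_le_mul_of_nonneg_left (hτ r hr) ht.le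
  simp only at h5
  linarith

/-- The bound. -/
noncomputable def BB (n : ℕ) (δ S0 Qm : ℝ) : ℝ :=
  (1 + S0 * (1 + (n * (Qm * (2 * S0)) * S0 / δ ^ 2) * Qm)) +
    (S0 + 1) * (1 + S0 * (1 + (n * (Qm * (2 * S0)) * S0 / δ ^ 2) * Qm)) / δ * Qm

theorem CD0.bounded (D : CD0 u z E c q) {S0 η Qm δ : ℝ} (hS0 : 0 ≤ S0) (hη : S0 ^ 2 * η = 2)
    (ipb : ∀ e ∈ E, -1 + η ≤ ip (u e.1) (u e.2)) (hQ : ∀ v, |q v| ≤ Qm) (hQm : 0 ≤ Qm)
    (hδ : 0 < δ) (gap : ∀ e ∈ E, ∀ v, Ov u e (u v) → δ ≤ |g u q e v|) :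
    ∃ Z : Fin n → ℝ, WComp u z E Z ∧ (∀ v, Z v ≤ -1) ∧ ∀ v, - BB n δ S0 Qm ≤ Z v := by
  have S := D.S
  obtain ⟨h, h1, h2, h3, h4, h5⟩ := D.exists_h hS0 hη ipb hQ
  set CT : ℝ := n * (Qm * (2 * S0)) with hCT
  have hCT0 : 0 ≤ CT := by positivity
  set ηp : ℝ := CT * S0 / δ ^ 2 with hηp
  have hηp0 : 0 ≤ ηp := by positivity
  set τ : ℝ := 1 + ηp * Qm with hτ
  have hτ0 : 0 ≤ τ := by positivity
  set Φ : ℝ := 1 + S0 * τ with hΦ
  have hΦ0 : 0 ≤ Φ := by positivity
  set M : ℝ := (S0 + 1) * Φ / δ with hM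
  have hM0 : 0 ≤ M := by positivity
  have hMδ : M * δ = (S0 + 1) * Φ := by rw [hM]; field_simp
  -- gaps of h on the upper part
  have hgap : ∀ v ∈ hasUp u (-z) E, 0 < q v →
      - g u h (upe u (-z) E v) v ≤ ηp * (- g u q (upe u (-z) E v) v) := by
    intro v hv hq
    have hs := upe_spec hv
    have b1 := h5 v hv hq
    have b2 := h4 v hv hq
    have b3 := D.gq_dn hs
    have b4 := gap _ hs.1 v hs.2.1
    rw [abs_of_neg b3] at b4
    obtain ⟨-, -, -, -, -, -, -, hw⟩ := S.G.wts hS0 hη ipb hs.1 hs.2.1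
    have hwt : 0 < wt u (upe u (-z) E v) v :=
      div_pos (S.G.pos _ hs.1) (mul_pos hs.2.1.1 hs.2.1.2)
    set X := - g u h (upe u (-z) E v) v with hX
    set Y := - g u q (upe u (-z) E v) v with hY
    have hX0 : 0 ≤ X := by rw [hX]; linarith
    have c1 : wt u (upe u (-z) E v) v * (X * Y) ≤ CT := by
      have : wt u (upe u (-z) E v) v * (X * Y) = wt u (upe u (-z) E v) v *
        g u h (upe u (-z) E v) v * g u q (upe u (-z) E v) v := by rw [hX, hY]; ring
      rw [this]; exact b1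
    have c2 : X * Y ≤ CT * S0 := by
      have c3 : X * Y ≤ CT * (1 / wt u (upe u (-z) E v) v) := by
        rw [mul_one_div, le_div_iff₀ hwt]; linarith
      exact c3.trans (mul_le_mul_of_nonneg_left hw hCT0)
    rw [hηp, div_mul_eq_mul_div, le_div_iff₀ (by positivity)]
    have c4 : δ ^ 2 ≤ Y ^ 2 := by nlinarith
    have c5 : X * δ ^ 2 ≤ X * Y ^ 2 := mul_le_mul_of_nonneg_left c4 hX0
    have c6 : X * Y * Y ≤ CT * S0 * Y := mul_le_mul_of_nonneg_right c2 (by linarith)
    nlinarith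
  -- lower bound of h
  obtain ⟨M1, hM1, W1⟩ := D.large (y := -h + ηp • q)
    (fun v hv hq => by
      rw [g_addsmul, g_neg, h1 v hv hq]
      have := D.gq_up (upe_spec hv)
      have := mul_nonneg hηp0 this.le
      linarith)
    (fun v hv hq => by
      rw [g_addsmul, g_neg]
      have := hgap v hv hq
      linarith)
  obtain ⟨M2, hM2, W2⟩ := D.large (y := h) (fun v hv hq => (h1 v hv hq).ge) h4
  have mqle : ∀ v, mq q v ≤ 0 := fun v => min_le_left _ _
  have mqge : ∀ v, - Qm ≤ mq q v := fun v =>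
    le_min (by linarith) (by have := (abs_le.1 (hQ v)).1; linarith)
  have hup : ∀ v, h v ≤ 0 := by
    intro v
    by_cases hv : v ∈ hasUp u z E
    · rcases lt_or_ge (q v) 0 with hq | hq
      · exact (h3 v hv hq).le
      · have := S.nonpos W2 (fun v hv => by
          simp only [Pi.add_apply, Pi.smul_apply, smul_eq_mul]
          rw [h2 v hv]
          have := mul_nonpos_of_nonneg_of_nonpos hM2 (mqle v)
          linarith) v
        simp only [Pi.add_apply, Pi.smul_apply, smul_eq_mul, mq_of_nonneg hq, mul_zero,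
          add_zero] at this
        exact this
    · rw [h2 v hv]; norm_num
  have hlo : ∀ v, -Φ ≤ h v := by
    intro v
    have hst : 0 ≤ S0 * τ := mul_nonneg hS0 hτ0
    by_cases hv : v ∈ hasUp u z E
    · rcases lt_or_ge (q v) 0 with hq | hq
      · rw [h3 v hv hq]; linarith
      · obtain ⟨s, hs1, hs2, hs3⟩ := S.roof_le hS0 hη ipb W1 hv (τ := τ) (fun x hx => by
          simp only [Pi.add_apply, Pi.smul_apply, smul_eq_mul, Pi.neg_apply]
          rw [h2 x hx]
          have a1 := mul_nonpos_of_nonneg_of_nonpos hM1 (mqle x)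
          have a2 := mul_le_mul_of_nonneg_left (abs_le.1 (hQ x)).2 hηp0
          rw [hτ]; linarith)
        simp only [Pi.add_apply, Pi.smul_apply, smul_eq_mul, Pi.neg_apply, mq_of_nonneg hq,
          mul_zero, add_zero] at hs3
        have a1 := mul_le_mul_of_nonneg_right hs2 hτ0
        have a2 := mul_nonneg hηp0 hq
        rw [hΦ]; linarith
    · rw [h2 v hv, hΦ]; linarith
  have hgb : ∀ e ∈ E, ∀ v, Ov u e (u v) → |g u h e v| ≤ (S0 + 1) * Φ := by
    intro e he v hv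
    obtain ⟨s, t, hs, ht, -, hst, hH, -⟩ := S.G.wts hS0 hη ipb he hv
    unfold g
    rw [hH h, abs_le]
    have a1 := mul_le_mul_of_nonneg_left (hlo e.1) hs.le
    have a2 := mul_le_mul_of_nonneg_left (hlo e.2) ht.le
    have a3 := mul_nonpos_of_nonneg_of_nonpos hs.le (hup e.1)
    have a4 := mul_nonpos_of_nonneg_of_nonpos ht.le (hup e.2)
    have a5 := hlo v
    have a6 := hup v
    have a7 := mul_le_mul_of_nonneg_right hst hΦ0
    have a8 := mul_nonneg hS0 hΦ0
    constructor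
    · linarith
    · linarith
  have W : WComp u z E (h + M • mq q) := by
    refine S.G.nearest ?_ ?_
    · intro v e he
      have hv : v ∈ hasUp u z E := mem_hasUp.2 ⟨e, he⟩
      have hee := S.G.upe_eq he
      rw [g_addsmul]
      rcases lt_or_ge (q v) 0 with hq | hq
      · rw [D.mq_up_eq he hq]
        have b1 := gap e he.1 v he.2.1
        rw [abs_of_pos (D.gq_up he)] at b1
        have b2 := (abs_le.1 (hgb e he.1 v he.2.1)).1
        have b3 := mul_le_mul_of_nonneg_left b1 hM0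
        linarith
      · rw [D.mq_up_zero he hq, ← hee, h1 v hv hq]; simp
    · intro v e he
      have hv : v ∈ hasUp u (-z) E := mem_hasUp.2 ⟨e, he⟩
      have hee := S.G.neg.upe_eq he
      rw [g_addsmul]
      rcases lt_or_ge 0 (q v) with hq | hq
      · rw [D.mq_dn_zero he hq, ← hee]
        have := h4 v hv hq
        linarith
      · rw [D.mq_dn_eq he hq]
        have b1 := gap e he.1 v he.2.1
        rw [abs_of_neg (D.gq_dn he)] at b1
        have b2 := (abs_le.1 (hgb e he.1 v he.2.1)).2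
        have b3 := mul_le_mul_of_nonneg_left b1 hM0
        linarith
  refine ⟨h + M • mq q, W, fun v => ?_, fun v => ?_⟩
  · have htop : ∀ x, x ∉ hasUp u z E → (h + M • mq q) x ≤ -1 := by
      intro x hx
      simp only [Pi.add_apply, Pi.smul_apply, smul_eq_mul]
      rw [h2 x hx]
      have := mul_nonpos_of_nonneg_of_nonpos hM0 (mqle x)
      linarith
    by_cases hv : v ∈ hasUp u z E
    · obtain ⟨s, hs1, hs2, hs3⟩ := S.roof_le hS0 hη ipb W hv htop
      linarith
    · exact htop v hv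
  · simp only [Pi.add_apply, Pi.smul_apply, smul_eq_mul]
    have b1 := mul_le_mul_of_nonneg_left (mqge v) hM0
    have b2 := hlo v
    have b3 : BB n δ S0 Qm = Φ + M * Qm := rfl
    rw [b3]; linarith

end Pool.Agent.R157.Sph
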