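import Pool.Agent.R157.Sph.Ng4

/-!
Passing to the limit: a drawing in arbitrary position with an uncrossed circle.
-/

namespace Pool.Agent.R157.Sph

open Classical Filter Topology

variable {n : ℕ}

/-- Weak compatibility, arbitrary position. -/
def WC0 (G : SimpleGraph (Fin n)) (u : Fin n → ℝ × ℝ) (z Z : Fin n → ℝ) : Prop :=
  (∀ i j v, G.Adj i j → 0 < cr (u i) (u j) → Ov u (i, j) (u v) →
    0 ≤ g u z (i, j) v * g u Z (i, j) v) ∧
  (∀ v w, u v = u w → z w < z v → Z w ≤ Z v)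

lemma cr_tendsto {f g : ℕ → ℝ × ℝ} {a b : ℝ × ℝ} (hf : Tendsto f atTop (𝓝 a))
    (hg : Tendsto g atTop (𝓝 b)) : Tendsto (fun k => cr (f k) (g k)) atTop (𝓝 (cr a b)) := by
  have hc : Continuous (fun p : (ℝ × ℝ) × (ℝ × ℝ) => cr p.1 p.2) := by unfold cr; fun_prop
  exact (hc.tendsto (a, b)).comp (hf.prodMk_nhds hg)

lemma g_tendsto {u : Fin n → ℝ × ℝ} {Z : Fin n → ℝ} {uk : ℕ → Fin n → ℝ × ℝ}
    {Zk : ℕ → Fin n → ℝ} (hu : ∀ i, Tendsto (fun k => uk k i) atTop (𝓝 (u i)))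
    (hZ : ∀ i, Tendsto (fun k => Zk k i) atTop (𝓝 (Z i))) {i j : Fin n}
    (hc : cr (u i) (u j) ≠ 0) (v : Fin n) :
    Tendsto (fun k => g (uk k) (Zk k) (i, j) v) atTop (𝓝 (g u Z (i, j) v)) := by
  unfold g H
  simp only
  refine Tendsto.sub (Tendsto.div (Tendsto.add ?_ ?_) (cr_tendsto (hu i) (hu j)) hc) (hZ v)
  · exact (hZ i).mul (cr_tendsto (hu v) (hu j))
  · exact (hZ j).mul (cr_tendsto (hu i) (hu v))

theorem Emb.exists_sink {G : SimpleGraph (Fin n)} {u : Fin n → ℝ × ℝ} {q : Fin n → ℝ}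
    (hE : Emb G u q) (hNC : NC u) (hn : 3 ≤ n) (hm : Nat.card G.edgeSet = 3 * n - 6)
    (uncr : ∀ i j, G.Adj i j → ¬ (q i < 0 ∧ 0 < q j)) :
    ∃ Z : Fin n → ℝ, WC0 G u q Z ∧ ∀ v, Z v ≤ -1 := by
  obtain ⟨δ, η, hδ, hη, hpert⟩ := hE.pert
  set S0 : ℝ := Real.sqrt (2 / η) with hS0
  have hS00 : 0 ≤ S0 := Real.sqrt_nonneg _
  have hS0η : S0 ^ 2 * η = 2 := by
    rw [hS0, Real.sq_sqrt (by positivity)]; field_simp
  obtain ⟨Qm, hQm0, hQm⟩ : ∃ Qm : ℝ, 0 ≤ Qm ∧ ∀ v, |q v| ≤ Qm := by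
    obtain ⟨K, hK⟩ := (Set.finite_range (fun v => |q v|)).bddAbove
    exact ⟨max K 0, le_max_right _ _, fun v => (hK ⟨v, rfl⟩).trans (le_max_left _ _)⟩
  set θ : Fin n → ℝ := fun i => (i.val : ℝ) with hθ
  have hinj : Function.Injective θ := fun i j h => Fin.ext (by
    have h' : (i.val : ℝ) = (j.val : ℝ) := h
    exact_mod_cast h')
  have hev := (hpert θ hinj).and (hNC.stable θ)
  have hseq : ∀ k : ℕ, ∃ ε : ℝ, (Pert G u q δ η θ ε ∧
      ¬ ∃ w : ℝ × ℝ, ∀ i, 0 < ip w (ue u θ ε i)) ∧ (0 < ε ∧ ε < 1 / ((k:ℝ) + 1)) := fun k =>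
    (hev.and (ev_small (1 / ((k:ℝ) + 1)) (by positivity))).exists
  choose ε hε using hseq
  have hε0 : Tendsto ε atTop (𝓝 0) := by
    refine squeeze_zero (fun k => (hε k).2.1.le) (fun k => (hε k).2.2.le) ?_
    exact tendsto_one_div_add_atTop_nhds_zero_nat
  have hsol : ∀ k : ℕ, ∃ Z : Fin n → ℝ, WComp (ue u θ (ε k)) q (dE G (ue u θ (ε k))) Z ∧
      (∀ v, Z v ≤ -1) ∧ ∀ v, - BB n δ S0 Qm ≤ Z v := by
    intro k
    have hP := (hε k).1.1
    have S := hP.str hδ hE.unit hn hm (hε k).1.2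
    have D : CD0 (ue u θ (ε k)) q (dE G (ue u θ (ε k))) 1 q := by
      refine ⟨S, one_pos, fun e he => ?_, fun e _ v => by rw [one_mul]⟩
      have := mem_dE.1 he
      exact ⟨uncr _ _ this.1, fun h => uncr _ _ this.1.symm ⟨h.2, h.1⟩⟩
    exact D.bounded hS00 hS0η (fun e he => hP.ipb _ _ (mem_dE.1 he).1) hQm hQm0 hδ
      (fun e he v hv => hP.mar.gap hδ he hv)
  choose Zk hW hZ1 hZB using hsol
  set K : Set (Fin n → ℝ) := Set.univ.pi (fun _ => Set.Icc (- BB n δ S0 Qm) (-1)) with hK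
  have hKc : IsCompact K := isCompact_univ_pi (fun _ => isCompact_Icc)
  obtain ⟨Z, hZK, φ, hφ, hlim⟩ := hKc.tendsto_subseq (x := Zk)
    (fun k => Set.mem_univ_pi.2 fun v => ⟨hZB k v, hZ1 k v⟩)
  have hZl : ∀ i, Tendsto (fun k => Zk (φ k) i) atTop (𝓝 (Z i)) := fun i =>
    (tendsto_pi_nhds.1 hlim) i
  have hul : ∀ i, Tendsto (fun k => ue u θ (ε (φ k)) i) atTop (𝓝 (u i)) := by
    intro i
    have h1 : Tendsto (fun k => ε (φ k)) atTop (𝓝 0) := hε0.comp hφ.tendsto_atTop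
    have h2 := ((ue_cont u θ i).tendsto 0).comp h1
    rw [show ue u θ 0 i = u i by rw [ue_zero]] at h2
    exact h2
  have hcq : ∀ i, Tendsto (fun _ : ℕ => q i) atTop (𝓝 (q i)) := fun i => tendsto_const_nhds
  -- the limit inequality for an edge passing over `v` after the perturbation
  have key : ∀ i j v, 0 < cr (u i) (u j) → (∀ k, (i, j) ∈ dE G (ue u θ (ε k)) ∧
      Ov (ue u θ (ε k)) (i, j) (ue u θ (ε k) v)) →
      0 ≤ g u q (i, j) v * g u Z (i, j) v := by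
    intro i j v hc hk
    have t1 := g_tendsto (Zk := fun _ => q) hul hcq hc.ne' v
    have t2 := g_tendsto hul hZl hc.ne' v
    refine ge_of_tendsto' (t1.mul t2) (fun k => ?_)
    exact hW (φ k) (i, j) (hk (φ k)).1 v (hk (φ k)).2
  refine ⟨Z, ⟨?_, ?_⟩, fun v => (Set.mem_univ_pi.1 hZK v).2⟩
  · intro i j v hij hc ho
    refine key i j v hc (fun k => ?_)
    have hP := (hε k).1.1
    exact ⟨mem_dE.2 ⟨hij, hP.posc _ _ hc⟩, hP.posc _ _ ho.1, hP.posc _ _ ho.2⟩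
  · intro v w huv hq
    have hne : v ≠ w := by rintro rfl; exact lt_irrefl _ hq
    rcases lt_or_gt_of_ne (hinj.ne hne) with hlt | hlt
    · -- `v` is west of `w` after the perturbation
      obtain ⟨k, hk, hc⟩ := hE.west_nb hNC hn hm w
      have h1 := key k w v hc (fun m => by
        have hP := (hε m).1.1
        exact ⟨mem_dE.2 ⟨hk, hP.posc _ _ hc⟩, hP.posc _ _ (by rw [huv]; exact hc),
          hP.tie _ _ huv hlt⟩)
      have e1 : g u q (k, w) v = q w - q v := by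
        unfold g; rw [huv]; rw [show H u q (k, w) (u w) = q w from H_snd u q (k, w) hc.ne']
      have e2 : g u Z (k, w) v = Z w - Z v := by
        unfold g; rw [huv]; rw [show H u Z (k, w) (u w) = Z w from H_snd u Z (k, w) hc.ne']
      rw [e1, e2] at h1
      by_contra hcon
      rw [not_le] at hcon
      have := mul_neg_of_neg_of_pos (sub_neg.2 hq) (sub_pos.2 hcon)
      linarith
    · obtain ⟨k, hk, hc⟩ := hE.east_nb hNC hn hm w
      have h1 := key w k v hc (fun m => by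
        have hP := (hε m).1.1
        exact ⟨mem_dE.2 ⟨hk, hP.posc _ _ hc⟩, hP.tie _ _ huv.symm hlt,
          hP.posc _ _ (by rw [huv]; exact hc)⟩)
      have e1 : g u q (w, k) v = q w - q v := by
        unfold g; rw [huv]; rw [show H u q (w, k) (u w) = q w from H_fst u q (w, k) hc.ne']
      have e2 : g u Z (w, k) v = Z w - Z v := by
        unfold g; rw [huv]; rw [show H u Z (w, k) (u w) = Z w from H_fst u Z (w, k) hc.ne']
      rw [e1, e2] at h1
      by_contra hcon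
      rw [not_le] at hcon
      have := mul_neg_of_neg_of_pos (sub_neg.2 hq) (sub_pos.2 hcon)
      linarith

end Pool.Agent.R157.Sph
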