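import Pool.Agent.R157.Sph.Ng5

/-!
Compatible heights give drawings without crossings, arbitrary position.
-/

namespace Pool.Agent.R157.Sph

open Classical

variable {n : ℕ} {G : SimpleGraph (Fin n)} {u : Fin n → ℝ × ℝ} {z z' : Fin n → ℝ}

/-- Strict compatibility, arbitrary position. -/
structure SC0 (G : SimpleGraph (Fin n)) (u : Fin n → ℝ × ℝ) (z z' : Fin n → ℝ) : Prop where
  A : ∀ i j v, G.Adj i j → 0 < cr (u i) (u j) → Ov u (i, j) (u v) →
    0 < g u z (i, j) v * g u z' (i, j) v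
  B : ∀ v w, u v = u w → z w < z v → z' w < z' v

lemma opp_of_ip {p q : ℝ × ℝ} (hp : ip p p = 1) (hq : ip q q = 1) (h : ip p q = -1) :
    q = -p := by
  have h1 : (p.1 + q.1) ^ 2 + (p.2 + q.2) ^ 2 = 0 := by
    unfold ip at *; nlinarith
  ext
  · simp only [Prod.fst_neg]; nlinarith [sq_nonneg (p.1 + q.1), sq_nonneg (p.2 + q.2)]
  · simp only [Prod.snd_neg]; nlinarith [sq_nonneg (p.1 + q.1), sq_nonneg (p.2 + q.2)]

lemma eq_or_opp {p q : ℝ × ℝ} (hp : ip p p = 1) (hq : ip q q = 1) (h : cr p q = 0) :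
    p = q ∨ q = -p := by
  have h1 := ip_sq_add hp hq
  rw [h] at h1
  have h2 : (ip p q - 1) * (ip p q + 1) = 0 := by linarith
  rcases mul_eq_zero.1 h2 with h3 | h3
  · left; exact eq_of_ip hp hq (by linarith)
  · right; exact opp_of_ip hp hq (by linarith)

lemma cr_neg_left (p q : ℝ × ℝ) : cr (-p) q = - cr p q := by
  unfold cr; simp only [Prod.fst_neg, Prod.snd_neg]; ring

lemma cr_neg_right (p q : ℝ × ℝ) : cr p (-q) = - cr p q := by
  unfold cr; simp only [Prod.fst_neg, Prod.snd_neg]; ring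

lemma eq_common_east {p q r : ℝ × ℝ} (hp : ip p p = 1) (hq : ip q q = 1) (h : cr p q = 0)
    (h1 : 0 < cr p r) (h2 : 0 < cr q r) : p = q := by
  rcases eq_or_opp hp hq h with h3 | h3
  · exact h3
  · rw [h3, cr_neg_left] at h2; linarith

lemma eq_common_west {p q r : ℝ × ℝ} (hp : ip p p = 1) (hq : ip q q = 1) (h : cr p q = 0)
    (h1 : 0 < cr r p) (h2 : 0 < cr r q) : p = q := by
  rcases eq_or_opp hp hq h with h3 | h3
  · exact h3
  · rw [h3, cr_neg_right] at h2; linarith

lemma ov_comb {i j : Fin n} (hij : 0 < cr (u i) (u j)) {a b : ℝ} (ha : 0 < a) (hb : 0 < b) :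
    Ov u (i, j) (a • u i + b • u j) := by
  constructor
  · show 0 < cr (u i) (a • u i + b • u j)
    have : cr (u i) (a • u i + b • u j) = b * cr (u i) (u j) := by
      unfold cr; simp only [Prod.fst_add, Prod.snd_add, Prod.smul_fst, Prod.smul_snd, smul_eq_mul]
      ring
    rw [this]; positivity
  · show 0 < cr (a • u i + b • u j) (u j)
    have : cr (a • u i + b • u j) (u j) = a * cr (u i) (u j) := by
      unfold cr; simp only [Prod.fst_add, Prod.snd_add, Prod.smul_fst, Prod.smul_snd, smul_eq_mul]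
      ring
    rw [this]; positivity

lemma H_comb {i j : Fin n} (hij : cr (u i) (u j) ≠ 0) (a b : ℝ) :
    H u z (i, j) (a • u i + b • u j) = a * z i + b * z j := by
  rw [H_lin]
  rw [show H u z (i, j) (u i) = z i from H_fst u z (i, j) hij,
    show H u z (i, j) (u j) = z j from H_snd u z (i, j) hij]

lemma Emb.g_ne (hE : Emb G u z) {i j v : Fin n} (hij : G.Adj i j) (hc : 0 < cr (u i) (u j))
    (ho : Ov u (i, j) (u v)) : g u z (i, j) v ≠ 0 := by
  intro h0
  have h1 := up3_edge (u := u) (z := z) (e := (i, j)) hc (u v)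
  have hH : H u z (i, j) (u v) = z v := by unfold g at h0; linarith
  rw [hH] at h1
  refine hE.V i j v hij ?_ ?_ _ _ (div_pos ho.2 hc).le (div_pos ho.1 hc).le h1.symm
  · rintro rfl; have := ho.1; simp only at this; rw [cr_self] at this; exact lt_irrefl _ this
  · rintro rfl; have := ho.2; simp only at this; rw [cr_self] at this; exact lt_irrefl _ this

lemma WC0.sc (hE : Emb G u z) {Z : Fin n → ℝ} (hW : WC0 G u z Z) {t : ℝ} (ht : 0 ≤ t) :
    SC0 G u z (z + t • Z) := by
  constructor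
  · intro i j v hij hc ho
    rw [g_addsmul]
    have h1 := hE.g_ne hij hc ho
    have h2 := hW.1 i j v hij hc ho
    have h3 : 0 < g u z (i, j) v * g u z (i, j) v := mul_self_pos.2 h1
    have h4 := mul_nonneg ht h2
    nlinarith
  · intro v w huv hz
    have := hW.2 v w huv hz
    simp only [Pi.add_apply, Pi.smul_apply, smul_eq_mul]
    have := mul_le_mul_of_nonneg_left this ht
    linarith

/-- A vertex on the line of a meridional edge is above both ends or below both ends. -/
lemma Emb.seg (hE : Emb G u z) {i j m : Fin n} (hij : G.Adj i j) (hu : u i = u j) (hm : u m = u i)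
    (hi : m ≠ i) (hj : m ≠ j) : (z i < z m ∧ z j < z m) ∨ (z m < z i ∧ z m < z j) := by
  have n1 := hE.inj m i hi hm
  have n2 := hE.inj m j hj (hm.trans hu)
  have key : ∀ i j, G.Adj i j → u i = u j → u m = u i → m ≠ i → m ≠ j →
      ¬ (z i < z m ∧ z m < z j) := by
    rintro i j hij hu hm hi hj ⟨h1, h2⟩
    have hd : 0 < z j - z i := by linarith
    refine hE.V i j m hij hi hj ((z j - z m) / (z j - z i)) ((z m - z i) / (z j - z i))
      (div_nonneg (by linarith) hd.le) (div_nonneg (by linarith) hd.le) ?_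
    rw [PP_comb]
    unfold PP
    rw [up3_inj]
    constructor
    · rw [← hu, hm, ← add_smul, ← add_div]
      rw [show z j - z m + (z m - z i) = z j - z i by ring, div_self hd.ne', one_smul]
    · field_simp; ring
  rcases lt_or_gt_of_ne n1 with h1 | h1 <;> rcases lt_or_gt_of_ne n2 with h2 | h2
  · right; exact ⟨h1, h2⟩
  · exact absurd ⟨h2, h1⟩ (key j i hij.symm hu.symm (hm.trans hu) hj hi)
  · exact absurd ⟨h1, h2⟩ (key i j hij hu hm hi hj)
  · left; exact ⟨h1, h2⟩

lemma unit_smul {p q : ℝ × ℝ} (hp : ip p p = 1) (hq : ip q q = 1) {a b : ℝ} (ha : 0 ≤ a)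
    (hb : 0 ≤ b) (h : a • p = b • q) : a = b := by
  have h1 : ip (a • p) (a • p) = a ^ 2 := by
    have : ip (a • p) (a • p) = a ^ 2 * ip p p := by
      unfold ip; simp only [Prod.smul_fst, Prod.smul_snd, smul_eq_mul]; ring
    rw [this, hp, mul_one]
  have h2 : ip (b • q) (b • q) = b ^ 2 := by
    have : ip (b • q) (b • q) = b ^ 2 * ip q q := by
      unfold ip; simp only [Prod.smul_fst, Prod.smul_snd, smul_eq_mul]; ring
    rw [this, hq, mul_one]
  rw [h, h2] at h1
  exact ((pow_left_inj₀ hb ha two_ne_zero).1 h1).symm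

lemma unit_smul' {p q : ℝ × ℝ} (hp : ip p p = 1) (hq : ip q q = 1) {a b : ℝ} (ha : 0 < a)
    (hb : 0 ≤ b) (h : a • p = b • q) : p = q := by
  have h1 := unit_smul hp hq ha.le hb h
  rw [← h1] at h
  have h2 : a⁻¹ • (a • p) = a⁻¹ • (a • q) := by rw [h]
  rwa [smul_smul, smul_smul, inv_mul_cancel₀ ha.ne', one_smul, one_smul] at h2

/-- Order of two disjoint edges over a common direction. -/
lemma Emb.ord0 (hE : Emb G u z) (hS : SC0 G u z z') {e f : Fin n × Fin n} (he : G.Adj e.1 e.2)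
    (hf : G.Adj f.1 f.2) (pe : 0 < cr (u e.1) (u e.2)) (pf : 0 < cr (u f.1) (u f.2))
    (d11 : e.1 ≠ f.1) (d12 : e.1 ≠ f.2) (d21 : e.2 ≠ f.1) (d22 : e.2 ≠ f.2) {p : ℝ × ℝ}
    (ep : Ov u e p) (fp : Ov u f p) :
    0 < (H u z f p - H u z e p) * (H u z' f p - H u z' e p) := by
  have hB : ∀ v w, v ≠ w → u v = u w → 0 < (z v - z w) * (z' v - z' w) := by
    intro v w hvw huv
    rcases lt_or_gt_of_ne (hE.inj v w hvw huv) with h | h
    · exact mul_pos_of_neg_of_neg (by linarith) (by linarith [hS.B w v huv.symm h])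
    · exact mul_pos (by linarith) (by linarith [hS.B v w huv h])
  have hwest : ∃ a : Fin n, 0 < cr (u a) p ∧ CC u e (u a) ∧ CC u f (u a) ∧
      0 < (H u z f (u a) - H u z e (u a)) * (H u z' f (u a) - H u z' e (u a)) := by
    rcases lt_trichotomy (cr (u e.1) (u f.1)) 0 with h | h | h
    · have h3 : 0 < cr (u f.1) (u e.1) := by rw [cr_comm]; linarith
      have o : Ov u f (u e.1) := ⟨h3, T4 h3 ep.1 fp.1 fp.2 pf⟩
      refine ⟨e.1, ep.1, ⟨by simp [cr_self], pe.le⟩, o.cc, ?_⟩
      have := hS.A f.1 f.2 e.1 hf pf o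
      rw [H_fst u z e pe.ne', H_fst u z' e pe.ne']
      exact this
    · have huu := eq_common_east (hE.unit e.1) (hE.unit f.1) h ep.1 fp.1
      refine ⟨e.1, ep.1, ⟨by simp [cr_self], pe.le⟩, ?_, ?_⟩
      · rw [huu]; exact ⟨by simp [cr_self], pf.le⟩
      · rw [H_fst u z e pe.ne', H_fst u z' e pe.ne', huu, H_fst u z f pf.ne',
          H_fst u z' f pf.ne']
        exact hB _ _ d11.symm huu.symm
    · have o : Ov u e (u f.1) := ⟨h, T4 h fp.1 ep.1 ep.2 pe⟩
      refine ⟨f.1, fp.1, o.cc, ⟨by simp [cr_self], pf.le⟩, ?_⟩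
      have := hS.A e.1 e.2 f.1 he pe o
      rw [H_fst u z f pf.ne', H_fst u z' f pf.ne']
      unfold g at this
      have e2 : (e.1, e.2) = e := rfl
      rw [e2] at this
      nlinarith [this]
  have heast : ∃ b : Fin n, 0 < cr p (u b) ∧ CC u e (u b) ∧ CC u f (u b) ∧
      0 < (H u z f (u b) - H u z e (u b)) * (H u z' f (u b) - H u z' e (u b)) := by
    rcases lt_trichotomy (cr (u f.2) (u e.2)) 0 with h | h | h
    · have h3 : 0 < cr (u e.2) (u f.2) := by rw [cr_comm]; linarith
      have o : Ov u f (u e.2) := ⟨T4' fp.1 ep.2 fp.2 h3 pf, h3⟩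
      refine ⟨e.2, ep.2, ⟨pe.le, by simp [cr_self]⟩, o.cc, ?_⟩
      have := hS.A f.1 f.2 e.2 hf pf o
      rw [H_snd u z e pe.ne', H_snd u z' e pe.ne']
      exact this
    · have huu := eq_common_west (hE.unit f.2) (hE.unit e.2) h fp.2 ep.2
      refine ⟨e.2, ep.2, ⟨pe.le, by simp [cr_self]⟩, ?_, ?_⟩
      · rw [← huu]; exact ⟨pf.le, by simp [cr_self]⟩
      · rw [H_snd u z e pe.ne', H_snd u z' e pe.ne', ← huu, H_snd u z f pf.ne',
          H_snd u z' f pf.ne']
        exact hB _ _ d22.symm huu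
    · have o : Ov u e (u f.2) := ⟨T4' ep.1 fp.2 ep.2 h pe, h⟩
      refine ⟨f.2, fp.2, o.cc, ⟨pf.le, by simp [cr_self]⟩, ?_⟩
      have := hS.A e.1 e.2 f.2 he pe o
      rw [H_snd u z f pf.ne', H_snd u z' f pf.ne']
      unfold g at this
      have e2 : (e.1, e.2) = e := rfl
      rw [e2] at this
      nlinarith [this]
  obtain ⟨a, hap, eca, fca, ha⟩ := hwest
  obtain ⟨b, hpb, ecb, fcb, hb⟩ := heast
  have hab : 0 < cr (u a) (u b) := by
    by_contra hnot
    have e1 := plucker (u e.1) (u a) p (u b)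
    have hnot' : cr (u a) (u b) ≤ 0 := not_lt.1 hnot
    have m1 : 0 ≤ cr (u e.1) (u a) * cr p (u b) := mul_nonneg eca.1 hpb.le
    have m2 : 0 ≤ cr (u e.1) (u b) * cr (u a) p := mul_nonneg ecb.1 hap.le
    have m3 : 0 ≤ cr (u e.1) p * (-cr (u a) (u b)) := mul_nonneg ep.1.le (by linarith)
    have z1 : cr (u e.1) (u a) * cr p (u b) = 0 := by nlinarith
    have z2 : cr (u e.1) (u b) * cr (u a) p = 0 := by nlinarith
    have w1 : cr (u e.1) (u a) = 0 := (mul_eq_zero.1 z1).resolve_right hpb.ne'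
    have w2 : cr (u e.1) (u b) = 0 := (mul_eq_zero.1 z2).resolve_right hap.ne'
    have w3 : u e.1 = u a := by
      rcases eq_or_opp (hE.unit _) (hE.unit _) w1 with h | h
      · exact h
      · have := eca.2; rw [h, cr_neg_left] at this; linarith
    have w4 : u e.1 = u b := by
      rcases eq_or_opp (hE.unit _) (hE.unit _) w2 with h | h
      · exact h
      · have := ecb.2; rw [h, cr_neg_left] at this; linarith
    rw [← w3] at hap
    rw [← w4] at hpb
    exact cr_asymm hap hpb
  have hexp := cr_expand (a := u a) (b := u b) (p := p) hab.ne'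
  set α := cr p (u b) / cr (u a) (u b) with hα
  set β := cr (u a) p / cr (u a) (u b) with hβ
  have hα0 : 0 < α := div_pos hpb hab
  have hβ0 : 0 < β := div_pos hap hab
  have hH : ∀ (y : Fin n → ℝ), H u y f p - H u y e p =
      α * (H u y f (u a) - H u y e (u a)) + β * (H u y f (u b) - H u y e (u b)) := by
    intro y
    conv_lhs => rw [hexp]
    rw [H_lin, H_lin]; ring
  rw [hH z, hH z']
  -- no crossing in the original drawing
  have nocross : ∀ x y : ℝ, 0 < x → 0 < y →
      x * (H u z f (u a) - H u z e (u a)) + y * (H u z f (u b) - H u z e (u b)) ≠ 0 := by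
    intro x y hx hy h0
    set r : ℝ × ℝ := x • u a + y • u b with hr
    have hrH : H u z f r = H u z e r := by
      rw [hr, H_lin, H_lin]; linarith
    have k1 := up3_edge (u := u) (z := z) (e := e) pe r
    have k2 := up3_edge (u := u) (z := z) (e := f) pf r
    rw [hrH, k1] at k2
    have crl : ∀ s : ℝ × ℝ, cr s r = x * cr s (u a) + y * cr s (u b) := by
      intro s; rw [hr]; unfold cr
      simp only [Prod.fst_add, Prod.snd_add, Prod.smul_fst, Prod.smul_snd, smul_eq_mul]; ring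
    have crr : ∀ s : ℝ × ℝ, cr r s = x * cr (u a) s + y * cr (u b) s := by
      intro s; rw [hr]; unfold cr
      simp only [Prod.fst_add, Prod.snd_add, Prod.smul_fst, Prod.smul_snd, smul_eq_mul]; ring
    have nn1 : 0 ≤ cr r (u e.2) := by
      rw [crr]; exact add_nonneg (mul_nonneg hx.le eca.2) (mul_nonneg hy.le ecb.2)
    have nn2 : 0 ≤ cr (u e.1) r := by
      rw [crl]; exact add_nonneg (mul_nonneg hx.le eca.1) (mul_nonneg hy.le ecb.1)
    have nn3 : 0 ≤ cr r (u f.2) := by
      rw [crr]; exact add_nonneg (mul_nonneg hx.le fca.2) (mul_nonneg hy.le fcb.2)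
    have nn4 : 0 ≤ cr (u f.1) r := by
      rw [crl]; exact add_nonneg (mul_nonneg hx.le fca.1) (mul_nonneg hy.le fcb.1)
    obtain ⟨q1, q2, -, -⟩ := hE.X e.1 e.2 f.1 f.2 he hf d11 d12 d21 d22 _ _ _ _
      (div_nonneg nn1 pe.le) (div_nonneg nn2 pe.le) (div_nonneg nn3 pf.le) (div_nonneg nn4 pf.le)
      k2
    have hr0 : r = 0 := by
      have := cr_expand (a := u e.1) (b := u e.2) (p := r) pe.ne'
      rw [q1, q2, zero_smul, zero_smul, add_zero] at this
      exact this
    have : cr (u a) r = y * cr (u a) (u b) := by rw [crl, cr_self]; ring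
    rw [hr0] at this
    have h9 : cr (u a) (0 : ℝ × ℝ) = 0 := by unfold cr; simp
    rw [h9] at this
    have := mul_pos hy hab
    linarith
  set A := H u z f (u a) - H u z e (u a) with hA
  set A' := H u z' f (u a) - H u z' e (u a) with hA'
  set B := H u z f (u b) - H u z e (u b) with hBd
  set B' := H u z' f (u b) - H u z' e (u b) with hB'
  rcases pos_and_pos_or_neg_and_neg_of_mul_pos ha with ⟨a1, a2⟩ | ⟨a1, a2⟩
  · rcases pos_and_pos_or_neg_and_neg_of_mul_pos hb with ⟨b1, b2⟩ | ⟨b1, b2⟩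
    · apply mul_pos
      · have := mul_pos hα0 a1; have := mul_pos hβ0 b1; linarith
      · have := mul_pos hα0 a2; have := mul_pos hβ0 b2; linarith
    · exact absurd (by ring : -B * A + A * B = 0) (nocross (-B) A (by linarith) a1)
  · rcases pos_and_pos_or_neg_and_neg_of_mul_pos hb with ⟨b1, b2⟩ | ⟨b1, b2⟩
    · exact absurd (by ring : B * A + -A * B = 0) (nocross B (-A) b1 (by linarith))
    · apply mul_pos_of_neg_of_neg
      · have := mul_neg_of_pos_of_neg hα0 a1; have := mul_neg_of_pos_of_neg hβ0 b1; linarith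
      · have := mul_neg_of_pos_of_neg hα0 a2; have := mul_neg_of_pos_of_neg hβ0 b2; linarith

end Pool.Agent.R157.Sph
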