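import Pool.Agent.R157.Sph.Ng6

/-!
Compatible heights give drawings without crossings, arbitrary position, continued.
-/

namespace Pool.Agent.R157.Sph

open Classical

variable {n : ℕ} {G : SimpleGraph (Fin n)} {u : Fin n → ℝ × ℝ} {z z' : Fin n → ℝ}

lemma SC0.inj' (hE : Emb G u z) (hS : SC0 G u z z') {i j : Fin n} (hij : i ≠ j)
    (hu : u i = u j) : z' i ≠ z' j := by
  rcases lt_or_gt_of_ne (hE.inj i j hij hu) with h | h
  · exact (hS.B j i hu.symm h).ne
  · exact (hS.B i j hu h).ne'

lemma SC0.V' (hE : Emb G u z) (hS : SC0 G u z z') {i j m : Fin n} (hij : G.Adj i j)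
    (hi : m ≠ i) (hj : m ≠ j) {a b : ℝ} (ha : 0 ≤ a) (hb : 0 ≤ b)
    (h : a • PP u z' i + b • PP u z' j = PP u z' m) : False := by
  have hd : a • u i + b • u j = u m ∧ a * z' i + b * z' j = z' m := by
    rw [PP_comb] at h
    unfold PP at h
    rwa [up3_inj] at h
  obtain ⟨hd1, hd2⟩ := hd
  by_cases hc0 : cr (u i) (u j) = 0
  · have huu := eq_of_cr (hE.unit i) (hE.unit j) hc0 (hE.nopp i j hij)
    rw [← huu, ← add_smul] at hd1
    have hab : a + b = 1 := unit_smul (hE.unit i) (hE.unit m) (add_nonneg ha hb) zero_le_one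
      (by rw [hd1, one_smul])
    rw [hab, one_smul] at hd1
    rcases hE.seg hij huu hd1.symm hi hj with ⟨h1, h2⟩ | ⟨h1, h2⟩
    · have g1 := hS.B m i hd1.symm h1
      have g2 := hS.B m j (hd1.symm.trans huu) h2
      have k1 := mul_le_mul_of_nonneg_left g1.le ha
      have k2 := mul_le_mul_of_nonneg_left g2.le hb
      rcases ha.eq_or_lt with h3 | h3
      · have hb1 : b = 1 := by linarith
        rw [← h3, hb1] at hd2; linarith
      · have := mul_lt_mul_of_pos_left g1 h3
        have e : z' m = a * z' m + b * z' m := by rw [← add_mul, hab, one_mul]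
        linarith
    · have g1 := hS.B i m hd1 h1
      have g2 := hS.B j m (huu.symm.trans hd1) h2
      have k1 := mul_le_mul_of_nonneg_left g1.le ha
      have k2 := mul_le_mul_of_nonneg_left g2.le hb
      rcases ha.eq_or_lt with h3 | h3
      · have hb1 : b = 1 := by linarith
        rw [← h3, hb1] at hd2; linarith
      · have := mul_lt_mul_of_pos_left g1 h3
        have e : z' m = a * z' m + b * z' m := by rw [← add_mul, hab, one_mul]
        linarith
  · wlog hc : 0 < cr (u i) (u j) generalizing i j a b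
    · have hc' : 0 < cr (u j) (u i) := by
        rw [cr_comm]
        have := lt_of_le_of_ne (not_lt.1 hc) hc0
        linarith
      exact this hij.symm hj hi hb ha (by rw [add_comm]; exact h) (by rw [add_comm]; exact hd1)
        (by rw [add_comm]; exact hd2) hc'.ne' hc'
    rcases ha.eq_or_lt with h3 | h3
    · rw [← h3, zero_smul, zero_add] at hd1
      rw [← h3, zero_mul, zero_add] at hd2
      have hb1 : b = 1 := unit_smul (hE.unit j) (hE.unit m) hb zero_le_one
        (by rw [hd1, one_smul])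
      rw [hb1, one_smul] at hd1
      rw [hb1, one_mul] at hd2
      exact hS.inj' hE hj hd1.symm hd2.symm
    rcases hb.eq_or_lt with h4 | h4
    · rw [← h4, zero_smul, add_zero] at hd1
      rw [← h4, zero_mul, add_zero] at hd2
      have ha1 : a = 1 := unit_smul (hE.unit i) (hE.unit m) ha zero_le_one
        (by rw [hd1, one_smul])
      rw [ha1, one_smul] at hd1
      rw [ha1, one_mul] at hd2
      exact hS.inj' hE hi hd1.symm hd2.symm
    have o := ov_comb (u := u) hc h3 h4
    have hH := H_comb (u := u) (z := z') hc.ne' a b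
    rw [hd1] at o hH
    have := hS.A i j m hij hc o
    unfold g at this
    rw [hH, hd2] at this
    simp at this

lemma dir_pos {p : ℝ × ℝ} {a : ℝ} (q : ℝ × ℝ) (h : 0 < a * cr q p) (ha : 0 < a) : 0 < cr q p :=
  (pos_iff_pos_of_mul_pos h).1 ha

lemma cr_smul_right (a : ℝ) (p q : ℝ × ℝ) : cr p (a • q) = a * cr p q := by
  unfold cr; simp only [Prod.smul_fst, Prod.smul_snd, smul_eq_mul]; ring

lemma cr_smul_left (a : ℝ) (p q : ℝ × ℝ) : cr (a • p) q = a * cr p q := by
  unfold cr; simp only [Prod.smul_fst, Prod.smul_snd, smul_eq_mul]; ring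

/-- A meridional edge and an edge passing over its direction. -/
lemma SC0.X2 (hE : Emb G u z) (hS : SC0 G u z z') {i j k l : Fin n} (hij : G.Adj i j)
    (hkl : G.Adj k l) (d1 : i ≠ k) (d2 : i ≠ l) (d3 : j ≠ k) (d4 : j ≠ l) (huu : u i = u j)
    (hc : 0 < cr (u k) (u l)) {a b c d : ℝ} (ha : 0 < a) (hb : 0 < b) (hc0 : 0 < c) (hd0 : 0 < d)
    (h1 : a • u i + b • u j = c • u k + d • u l)
    (h2 : a * z' i + b * z' j = c * z' k + d * z' l) : False := by
  have o := ov_comb (u := u) hc hc0 hd0
  have hH := H_comb (u := u) (z := z') hc.ne' c d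
  rw [← h1, ← huu, ← add_smul] at o hH
  have hab : 0 < a + b := by linarith
  have oi : Ov u (k, l) (u i) := by
    constructor
    · have := o.1
      simp only [cr_smul_right] at this
      exact (pos_iff_pos_of_mul_pos this).1 hab
    · have := o.2
      simp only [cr_smul_left] at this
      exact (pos_iff_pos_of_mul_pos this).1 hab
  have oj : Ov u (k, l) (u j) := by rw [← huu]; exact oi
  have Ai := hS.A k l i hkl hc oi
  have Aj := hS.A k l j hkl hc oj
  have hHl : H u z' (k, l) ((a + b) • u i) = (a + b) * H u z' (k, l) (u i) := by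
    have := H_lin u z' (k, l) (a + b) 0 (u i) (u i)
    simp only [zero_smul, add_zero, zero_mul] at this
    exact this
  rw [hHl] at hH
  -- original signs agree
  have nocross : ∀ x y : ℝ, 0 < x → 0 < y →
      x * g u z (k, l) i + y * g u z (k, l) j ≠ 0 := by
    intro x y hx hy h0
    have e1 := up3_edge (u := u) (z := z) (e := (k, l)) hc (u i)
    set s := cr (u i) (u l) / cr (u k) (u l) with hs
    set t := cr (u k) (u i) / cr (u k) (u l) with ht
    have hs0 : 0 < s := div_pos oi.2 hc
    have ht0 : 0 < t := div_pos oi.1 hc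
    have e2 : x • PP u z i + y • PP u z j = ((x + y) * s) • PP u z k + ((x + y) * t) • PP u z l := by
      have e3 : x • PP u z i + y • PP u z j = (x + y) • up3 (u i) (H u z (k, l) (u i)) := by
        rw [PP_comb, up3_smul, up3_inj]
        constructor
        · rw [← huu, add_smul]
        · unfold g at h0
          rw [← huu] at h0
          linarith
      have e4 : up3 (u i) (H u z (k, l) (u i)) = s • PP u z k + t • PP u z l := e1
      rw [e3, e4, smul_add, smul_smul, smul_smul]
    have hxy : 0 < x + y := by linarith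
    obtain ⟨q1, -, -, -⟩ := hE.X i j k l hij hkl d1 d2 d3 d4 _ _ _ _ hx.le hy.le
      (mul_pos hxy hs0).le (mul_pos hxy ht0).le e2
    linarith
  have key : a * g u z' (k, l) i + b * g u z' (k, l) j = 0 := by
    unfold g
    rw [← huu]
    linarith
  rcases pos_and_pos_or_neg_and_neg_of_mul_pos Ai with ⟨a1, a2⟩ | ⟨a1, a2⟩
  · rcases pos_and_pos_or_neg_and_neg_of_mul_pos Aj with ⟨b1, b2⟩ | ⟨b1, b2⟩
    · have := mul_pos ha a2; have := mul_pos hb b2; linarith
    · exact nocross (- g u z (k, l) j) (g u z (k, l) i) (by linarith) a1 (by ring)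
  · rcases pos_and_pos_or_neg_and_neg_of_mul_pos Aj with ⟨b1, b2⟩ | ⟨b1, b2⟩
    · exact nocross (g u z (k, l) j) (- g u z (k, l) i) b1 (by linarith) (by ring)
    · have := mul_neg_of_pos_of_neg ha a2; have := mul_neg_of_pos_of_neg hb b2; linarith

/-- Two meridional edges. -/
lemma SC0.X3 (hE : Emb G u z) (hS : SC0 G u z z') {i j k l : Fin n} (hij : G.Adj i j)
    (hkl : G.Adj k l) (d1 : i ≠ k) (d2 : i ≠ l) (d3 : j ≠ k) (d4 : j ≠ l) (huu : u i = u j)
    (hvv : u k = u l) {a b c d : ℝ} (ha : 0 < a) (hb : 0 < b) (hc0 : 0 < c) (hd0 : 0 < d)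
    (h1 : a • u i + b • u j = c • u k + d • u l)
    (h2 : a * z' i + b * z' j = c * z' k + d * z' l) : False := by
  rw [← huu, ← hvv, ← add_smul, ← add_smul] at h1
  have hab : 0 < a + b := by linarith
  have hcd : 0 < c + d := by linarith
  have hs := unit_smul (hE.unit i) (hE.unit k) hab.le hcd.le h1
  have hik := unit_smul' (hE.unit i) (hE.unit k) hab hcd.le h1
  have sk := hE.seg hij huu hik.symm d1.symm d3.symm
  have sl := hE.seg hij huu (hvv.symm.trans hik.symm) d2.symm d4.symm
  have si := hE.seg hkl hvv hik d1 d2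
  have e1 : u k = u j := hik.symm.trans huu
  have e2 : u l = u i := hvv.symm.trans hik.symm
  have e3 : u l = u j := e2.trans huu
  have comb : ∀ x : ℝ, a * x + b * x = c * x + d * x := fun x => by
    rw [← add_mul, ← add_mul, hs]
  rcases sk with ⟨k1, k2⟩ | ⟨k1, k2⟩
  · rcases sl with ⟨l1, l2⟩ | ⟨l1, l2⟩
    · -- `k, l` above `i, j`
      have g1 := hS.B k i hik.symm k1
      have g2 := hS.B k j e1 k2
      have g3 := hS.B l i e2 l1
      have g4 := hS.B l j e3 l2
      rcases le_total (z' k) (z' l) with hh | hh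
      · have := comb (z' k)
        have m1 := mul_lt_mul_of_pos_left g1 ha
        have m2 := mul_lt_mul_of_pos_left g2 hb
        have m3 := mul_le_mul_of_nonneg_left hh hd0.le
        linarith
      · have := comb (z' l)
        have m1 := mul_lt_mul_of_pos_left g3 ha
        have m2 := mul_lt_mul_of_pos_left g4 hb
        have m3 := mul_le_mul_of_nonneg_left hh hc0.le
        linarith
    · rcases si with ⟨s1, s2⟩ | ⟨s1, s2⟩
      · linarith
      · linarith
  · rcases sl with ⟨l1, l2⟩ | ⟨l1, l2⟩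
    · rcases si with ⟨s1, s2⟩ | ⟨s1, s2⟩
      · linarith
      · linarith
    · have g1 := hS.B i k hik k1
      have g2 := hS.B j k e1.symm k2
      have g3 := hS.B i l e2.symm l1
      have g4 := hS.B j l e3.symm l2
      rcases le_total (z' k) (z' l) with hh | hh
      · have := comb (z' l)
        have m1 := mul_lt_mul_of_pos_left g3 ha
        have m2 := mul_lt_mul_of_pos_left g4 hb
        have m3 := mul_le_mul_of_nonneg_left hh hc0.le
        linarith
      · have := comb (z' k)
        have m1 := mul_lt_mul_of_pos_left g1 ha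
        have m2 := mul_lt_mul_of_pos_left g2 hb
        have m3 := mul_le_mul_of_nonneg_left hh hd0.le
        linarith

lemma SC0.X1 (hE : Emb G u z) (hS : SC0 G u z z') {i j k l : Fin n} (hij : G.Adj i j)
    (hkl : G.Adj k l) (d1 : i ≠ k) (d2 : i ≠ l) (d3 : j ≠ k) (d4 : j ≠ l) {a b c d : ℝ}
    (ha : 0 < a) (hb : 0 < b) (hc0 : 0 < c) (hd0 : 0 < d)
    (h1 : a • u i + b • u j = c • u k + d • u l)
    (h2 : a * z' i + b * z' j = c * z' k + d * z' l) : False := by
  by_cases c1 : cr (u i) (u j) = 0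
  · have huu := eq_of_cr (hE.unit i) (hE.unit j) c1 (hE.nopp i j hij)
    by_cases c2 : cr (u k) (u l) = 0
    · exact hS.X3 hE hij hkl d1 d2 d3 d4 huu
        (eq_of_cr (hE.unit k) (hE.unit l) c2 (hE.nopp k l hkl)) ha hb hc0 hd0 h1 h2
    · rcases lt_or_gt_of_ne c2 with h | h
      · exact hS.X2 hE hij hkl.symm d2 d1 d4 d3 huu (by rw [cr_comm]; linarith) ha hb hd0 hc0
          (by rw [h1]; abel) (by rw [h2]; ring)
      · exact hS.X2 hE hij hkl d1 d2 d3 d4 huu h ha hb hc0 hd0 h1 h2
  by_cases c2 : cr (u k) (u l) = 0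
  · have hvv := eq_of_cr (hE.unit k) (hE.unit l) c2 (hE.nopp k l hkl)
    rcases lt_or_gt_of_ne c1 with h | h
    · exact hS.X2 hE hkl hij.symm d3.symm d1.symm d4.symm d2.symm hvv (by rw [cr_comm]; linarith)
        hc0 hd0 hb ha (by rw [← h1]; abel) (by rw [← h2]; ring)
    · exact hS.X2 hE hkl hij d1.symm d3.symm d2.symm d4.symm hvv h hc0 hd0 ha hb h1.symm h2.symm
  wlog hc : 0 < cr (u i) (u j) generalizing i j a b
  · have hc' : 0 < cr (u j) (u i) := by
      rw [cr_comm]
      have := lt_of_le_of_ne (not_lt.1 hc) c1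
      linarith
    exact this hij.symm d3 d4 d1 d2 hb ha (by rw [← h1]; abel) (by rw [← h2]; ring) hc'.ne' hc'
  wlog hd : 0 < cr (u k) (u l) generalizing k l c d
  · have hd' : 0 < cr (u l) (u k) := by
      rw [cr_comm]
      have := lt_of_le_of_ne (not_lt.1 hd) c2
      linarith
    exact this hkl.symm hd0 hc0 hd'.ne' d2 d1 d4 d3 (by rw [h1]; abel) (by rw [h2]; ring) hd'
  have o1 := ov_comb (u := u) hc ha hb
  have o2 := ov_comb (u := u) hd hc0 hd0
  have H1 := H_comb (u := u) (z := z') hc.ne' a b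
  have H2 := H_comb (u := u) (z := z') hd.ne' c d
  rw [← h1] at o2 H2
  have := hE.ord0 hS (e := (i, j)) (f := (k, l)) hij hkl hc hd d1 d2 d3 d4 o1 o2
  rw [H1, H2, h2, sub_self, mul_zero] at this
  exact lt_irrefl _ this

theorem SC0.emb (hE : Emb G u z) (hS : SC0 G u z z') : Emb G u z' where
  unit := hE.unit
  nopp := hE.nopp
  inj := fun i j hij hu => hS.inj' hE hij hu
  V := fun i j m hij hi hj a b ha hb h => hS.V' hE hij hi hj ha hb h
  X := by
    intro i j k l hij hkl d1 d2 d3 d4 a b c d ha hb hc hd h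
    have zero1 : ∀ {k l : Fin n} {c d : ℝ}, G.Adj k l → 0 ≤ c → 0 ≤ d →
        c • PP u z' k + d • PP u z' l = 0 → c = 0 ∧ d = 0 := by
      intro k l c d hkl hc hd h0
      rw [PP_comb, ← up3_zero, up3_inj] at h0
      exact dir_zero (hE.unit k) (hE.unit l) (hE.nopp k l hkl) hc hd h0.1
    have vert : ∀ {m x y : Fin n} {s p r : ℝ}, G.Adj x y → m ≠ x → m ≠ y → 0 < s → 0 ≤ p →
        0 ≤ r → s • PP u z' m = p • PP u z' x + r • PP u z' y → False := by
      intro m x y s p r hxy hx hy hs hp hr h0
      refine hS.V' hE hxy hx hy (div_nonneg hp hs.le) (div_nonneg hr hs.le) (a := p / s)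
        (b := r / s) ?_
      have : s⁻¹ • (s • PP u z' m) = s⁻¹ • (p • PP u z' x + r • PP u z' y) := by rw [h0]
      rw [smul_smul, inv_mul_cancel₀ hs.ne', one_smul, smul_add, smul_smul, smul_smul] at this
      rw [this, div_eq_inv_mul, div_eq_inv_mul]
    rcases ha.eq_or_lt with ha' | ha'
    · rcases hb.eq_or_lt with hb' | hb'
      · rw [← ha', ← hb', zero_smul, zero_smul, add_zero] at h
        obtain ⟨q1, q2⟩ := zero1 hkl hc hd h.symm
        exact ⟨ha'.symm, hb'.symm, q1, q2⟩
      · rw [← ha', zero_smul, zero_add] at h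
        exact (vert hkl d3 d4 hb' hc hd h).elim
    rcases hb.eq_or_lt with hb' | hb'
    · rw [← hb', zero_smul, add_zero] at h
      exact (vert hkl d1 d2 ha' hc hd h).elim
    rcases hc.eq_or_lt with hc' | hc'
    · rcases hd.eq_or_lt with hd' | hd'
      · rw [← hc', ← hd', zero_smul, zero_smul, add_zero] at h
        obtain ⟨q1, q2⟩ := zero1 hij ha hb h
        exact ⟨q1, q2, hc'.symm, hd'.symm⟩
      · rw [← hc', zero_smul, zero_add] at h
        exact (vert hij d2.symm d4.symm hd' ha hb h.symm).elim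
    rcases hd.eq_or_lt with hd' | hd'
    · rw [← hd', zero_smul, add_zero] at h
      exact (vert hij d1.symm d3.symm hc' ha hb h.symm).elim
    rw [PP_comb, PP_comb, up3_inj] at h
    exact (hS.X1 hE hij hkl d1 d2 d3 d4 ha' hb' hc' hd' h.1 h.2).elim

end Pool.Agent.R157.Sph
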