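import Pool.Agent.R157.Sph.Ng7

/-!
Half planes, circles through the poles, and the abstract theorem in arbitrary position.
-/

namespace Pool.Agent.R157.Sph

open Classical Filter Topology

variable {n : ℕ} {G : SimpleGraph (Fin n)} {u : Fin n → ℝ × ℝ} {z : Fin n → ℝ}

/-- Three directions around the origin are not in an open half plane. -/
lemma nhp_of_three {p r s : ℝ × ℝ} (h1 : 0 < cr p r) (h2 : 0 < cr r s) (h3 : 0 < cr s p)
    (w : ℝ × ℝ) (a : 0 < ip w p) (b : 0 < ip w r) (c : 0 < ip w s) : False := by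
  have key : ip w p * cr r s + ip w r * cr s p + ip w s * cr p r = 0 := by unfold ip cr; ring
  have m1 := mul_pos a h2
  have m2 := mul_pos b h3
  have m3 := mul_pos c h1
  linarith

/-- A drawing with the maximal number of edges which is not in an open half plane is not in a
closed half plane. -/
lemma Emb.nc (hE : Emb G u z) (hn : 3 ≤ n) (hm : Nat.card G.edgeSet = 3 * n - 6)
    (hh : ¬ ∃ w : ℝ × ℝ, ∀ i, 0 < ip w (u i)) : NC u := by
  by_contra hNC
  unfold NC at hNC
  push Not at hNC
  obtain ⟨w0, hw0, hall0⟩ := hNC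
  -- normalise
  have hpos0 : 0 < w0.1 ^ 2 + w0.2 ^ 2 := by
    by_contra hc
    apply hw0
    ext
    · simp only [Prod.fst_zero]; nlinarith [sq_nonneg w0.1, sq_nonneg w0.2]
    · simp only [Prod.snd_zero]; nlinarith [sq_nonneg w0.1, sq_nonneg w0.2]
  set L := Real.sqrt (w0.1 ^ 2 + w0.2 ^ 2) with hL
  have hL0 : 0 < L := Real.sqrt_pos.2 hpos0
  have hL2 : L ^ 2 = w0.1 ^ 2 + w0.2 ^ 2 := Real.sq_sqrt hpos0.le
  set d : ℝ × ℝ := (w0.2 / L, -w0.1 / L) with hd
  have hdu : ip d d = 1 := by
    unfold ip; rw [hd]; simp only; field_simp; linarith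
  have hall : ∀ i, 0 ≤ cr d (u i) := by
    intro i
    have : cr d (u i) = ip w0 (u i) / L := by
      unfold cr ip; rw [hd]; simp only; field_simp; ring
    rw [this]; exact div_nonneg (hall0 i) hL0.le
  -- both extreme directions are occupied
  have tilt : ∀ d' : ℝ × ℝ, ip d' d' = 1 → (d' = d ∨ d' = -d) → (∀ i, u i ≠ -d') → False := by
    intro d' hd' hdd hno
    obtain ⟨τ, hτ, hQ⟩ := fin_pos' (ι := Fin n) (fun i τ => 0 < cr d (u i) + τ * ip d' (u i))
      (fun i τ τ' h0 hle hQ => by
        have h1 : 0 ≤ (τ - τ') * cr d (u i) := mul_nonneg (by linarith) (hall i)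
        have h2 : 0 < τ' * (cr d (u i) + τ * ip d' (u i)) := mul_pos h0 hQ
        have hτ0 : 0 < τ := by linarith
        have h3 : 0 < τ * (cr d (u i) + τ' * ip d' (u i)) := by nlinarith
        exact (pos_iff_pos_of_mul_pos h3).1 hτ0)
      (fun i => by
        rcases (hall i).eq_or_lt with h0 | h0
        · have h1 : u i = d' := by
            rcases hdd with h | h
            · subst h
              rcases eq_or_opp hdu (hE.unit i) h0.symm with h2 | h2
              · exact h2.symm
              · exact absurd h2 (hno i)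
            · rcases eq_or_opp hdu (hE.unit i) h0.symm with h2 | h2
              · exact absurd (by rw [h, neg_neg]; exact h2.symm) (hno i)
              · rw [h]; exact h2
          refine ⟨1, one_pos, ?_⟩
          rw [← h0, h1, hd']; norm_num
        · refine ⟨cr d (u i) / 2, by linarith, ?_⟩
          have h2 := ip_sq_add hd' (hE.unit i)
          have h3 : -1 ≤ ip d' (u i) := by nlinarith [sq_nonneg (cr d' (u i))]
          nlinarith)
    refine hh ⟨((-d.2) + τ * d'.1, d.1 + τ * d'.2), fun i => ?_⟩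
    have := hQ i
    have e : ip ((-d.2) + τ * d'.1, d.1 + τ * d'.2) (u i) = cr d (u i) + τ * ip d' (u i) := by
      unfold ip cr; ring
    rw [e]; exact this
  have hy : ∃ y, u y = -d := by
    by_contra hc
    push Not at hc
    exact tilt d hdu (Or.inl rfl) hc
  have hx : ∃ x, u x = d := by
    by_contra hc
    push Not at hc
    refine tilt (-d) ?_ (Or.inr rfl) (fun i => by rw [neg_neg]; exact hc i)
    unfold ip at *; simp only [Prod.fst_neg, Prod.snd_neg]; linarith
  obtain ⟨y, hy⟩ := hy
  obtain ⟨x, hx⟩ := hx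
  have hdne : d ≠ -d := by
    intro h
    have h1 := congrArg Prod.fst h
    have h2 := congrArg Prod.snd h
    simp only [Prod.fst_neg, Prod.snd_neg] at h1 h2
    unfold ip at hdu
    have h3 : d.1 = 0 := by linarith
    have h4 : d.2 = 0 := by linarith
    rw [h3, h4] at hdu
    norm_num at hdu
  have hxy : x ≠ y := by rintro rfl; exact hdne (hx.symm.trans hy)
  obtain ⟨t, htx, hty⟩ : ∃ t : Fin n, t ≠ x ∧ t ≠ y := by
    by_contra hc
    push Not at hc
    have : (Finset.univ : Finset (Fin n)) ⊆ {x, y} := by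
      intro i _
      by_cases h : i = x
      · simp [h]
      · simp [hc i h]
    have := Finset.card_le_card this
    rw [Finset.card_univ, Fintype.card_fin] at this
    have h2 := Finset.card_le_two (a := x) (b := y)
    omega
  obtain ⟨δ, η, hδ, hη, hpert⟩ := hE.pert
  set θ : Fin n → ℝ := fun i => if i = y then 1 else if i = x then -1 else
    if u i = -d then -(3 + (i.val : ℝ)) else 3 + (i.val : ℝ) with hθ
  have θy : θ y = 1 := by simp [hθ]
  have θx : θ x = -1 := by simp [hθ, hxy]
  have θe : ∀ i, i ≠ x → i ≠ y → u i = -d → θ i = -(3 + (i.val : ℝ)) := by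
    intro i h1 h2 h3; simp only [hθ]; rw [if_neg h2, if_neg h1, if_pos h3]
  have θo : ∀ i, i ≠ x → i ≠ y → u i ≠ -d → θ i = 3 + (i.val : ℝ) := by
    intro i h1 h2 h3; simp only [hθ]; rw [if_neg h2, if_neg h1, if_neg h3]
  have hval : ∀ i : Fin n, (0:ℝ) ≤ (i.val : ℝ) := fun i => by positivity
  have hinj : Function.Injective θ := by
    intro i j hij
    have hi0 := hval i
    have hj0 := hval j
    by_cases iy : i = y
    · by_cases jy : j = y
      · rw [iy, jy]
      · exfalso
        rw [iy, θy] at hij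
        by_cases jx : j = x
        · rw [jx, θx] at hij; linarith
        · by_cases ju : u j = -d
          · rw [θe j jx jy ju] at hij; linarith
          · rw [θo j jx jy ju] at hij; linarith
    · by_cases ix : i = x
      · by_cases jx : j = x
        · rw [ix, jx]
        · exfalso
          rw [ix, θx] at hij
          by_cases jy : j = y
          · rw [jy, θy] at hij; linarith
          · by_cases ju : u j = -d
            · rw [θe j jx jy ju] at hij; linarith
            · rw [θo j jx jy ju] at hij; linarith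
      · by_cases iu : u i = -d
        · rw [θe i ix iy iu] at hij
          by_cases jy : j = y
          · rw [jy, θy] at hij; linarith
          by_cases jx : j = x
          · rw [jx, θx] at hij; linarith
          by_cases ju : u j = -d
          · rw [θe j jx jy ju] at hij
            have : (i.val : ℝ) = j.val := by linarith
            exact Fin.ext (by exact_mod_cast this)
          · rw [θo j jx jy ju] at hij; linarith
        · rw [θo i ix iy iu] at hij
          by_cases jy : j = y
          · rw [jy, θy] at hij; linarith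
          by_cases jx : j = x
          · rw [jx, θx] at hij; linarith
          by_cases ju : u j = -d
          · rw [θe j jx jy ju] at hij; linarith
          · rw [θo j jx jy ju] at hij
            have : (i.val : ℝ) = j.val := by linarith
            exact Fin.ext (by exact_mod_cast this)
  have sin_neg' : ∀ a : ℝ, a < 0 → ∀ᶠ ε in 𝓝[>] (0:ℝ), Real.sin (ε * a) < 0 := by
    intro a ha
    filter_upwards [ev_sin (neg_pos.2 ha)] with ε hε
    have : ε * a = -(ε * -a) := by ring
    rw [this, Real.sin_neg]; linarith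
  have hipdd : ip d (-d) = -1 := by
    have : ip d (-d) = - ip d d := by unfold ip; simp only [Prod.fst_neg, Prod.snd_neg]; ring
    rw [this, hdu]
  have hipdd' : ip (-d) d = -1 := by
    have : ip (-d) d = - ip d d := by unfold ip; simp only [Prod.fst_neg, Prod.snd_neg]; ring
    rw [this, hdu]
  have hipnn : ip (-d) (-d) = 1 := by
    have : ip (-d) (-d) = ip d d := by unfold ip; simp only [Prod.fst_neg, Prod.snd_neg]; ring
    rw [this, hdu]
  have crdd : cr d (-d) = 0 := by rw [cr_neg_right, cr_self, neg_zero]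
  have crdd' : cr (-d) d = 0 := by rw [cr_neg_left, cr_self, neg_zero]
  have E1 : ∀ᶠ ε in 𝓝[>] (0:ℝ), 0 < cr (ue u θ ε y) (ue u θ ε x) := by
    filter_upwards [sin_neg' (θ x - θ y) (by rw [θx, θy]; norm_num)] with ε hε
    rw [cr_ue, hx, hy, crdd', hipdd', mul_zero, zero_add]
    linarith
  have ht : u t = d ∨ u t = -d ∨ 0 < cr d (u t) := by
    rcases (hall t).eq_or_lt with h0 | h0
    · rcases eq_or_opp hdu (hE.unit t) h0.symm with h | h
      · exact Or.inl h.symm
      · exact Or.inr (Or.inl h)
    · exact Or.inr (Or.inr h0)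
  have E2 : ∀ᶠ ε in 𝓝[>] (0:ℝ), 0 < cr (ue u θ ε x) (ue u θ ε t) := by
    rcases ht with h | h | h
    · have hθt := θo t htx hty (by rw [h]; exact hdne)
      filter_upwards [ev_sin (t := θ t - θ x) (by rw [θx, hθt]; linarith [hval t])] with ε hε
      rw [cr_ue, hx, h, cr_self, hdu, mul_zero, zero_add, mul_one]
      exact hε
    · have hθt := θe t htx hty h
      filter_upwards [sin_neg' (θ t - θ x) (by rw [θx, hθt]; linarith [hval t])] with ε hε
      rw [cr_ue, hx, h, crdd, hipdd, mul_zero, zero_add]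
      linarith
    · exact ev_pos (cr_cont (ue_cont u θ x) (ue_cont u θ t)) (by rw [ue_zero, hx]; exact h)
  have E3 : ∀ᶠ ε in 𝓝[>] (0:ℝ), 0 < cr (ue u θ ε t) (ue u θ ε y) := by
    rcases ht with h | h | h
    · have hθt := θo t htx hty (by rw [h]; exact hdne)
      filter_upwards [sin_neg' (θ y - θ t) (by rw [θy, hθt]; linarith [hval t])] with ε hε
      rw [cr_ue, hy, h, crdd, hipdd, mul_zero, zero_add]
      linarith
    · have hθt := θe t htx hty h
      filter_upwards [ev_sin (t := θ y - θ t) (by rw [θy, hθt]; linarith [hval t])] with ε hε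
      rw [cr_ue, hy, h, cr_self, hipnn, mul_zero, zero_add, mul_one]
      exact hε
    · refine ev_pos (cr_cont (ue_cont u θ t) (ue_cont u θ y)) ?_
      rw [ue_zero, hy, cr_neg_right, ← cr_comm]
      exact h
  obtain ⟨ε, hP, h1, h2, h3⟩ := ((hpert θ hinj).and (E1.and (E2.and E3))).exists
  have hnh : ¬ ∃ w : ℝ × ℝ, ∀ i, 0 < ip w (ue u θ ε i) := by
    rintro ⟨w, hw⟩
    exact nhp_of_three h2 h3 h1 w (hw x) (hw t) (hw y)
  have S := hP.str hδ hE.unit hn hm hnh
  obtain ⟨k, hk⟩ := S.e1.top_ex y
  have hk' := mem_dE.1 (Finset.mem_filter.1 hk).1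
  have h4 := hP.strict hE hk'.1 hk'.2 (fun huk => by
    have hky : k ≠ y := hk'.1.ne.symm
    have hku : u k = -d := by rw [← huk]; exact hy
    have hkx : k ≠ x := by rintro rfl; rw [hx] at hku; exact hdne hku
    rw [θe k hkx hky hku, θy]
    linarith [hval k])
  simp only at h4
  rw [hy, cr_neg_left] at h4
  linarith [hall k]

/-- No circle through the poles is uncrossed. -/
lemma Emb.no_meridian (hE : Emb G u z) (hNC : NC u) (hn : 3 ≤ n)
    (hm : Nat.card G.edgeSet = 3 * n - 6) {w : ℝ × ℝ} (hw : w ≠ 0)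
    (hu : ∀ i j, G.Adj i j → ¬ (ip w (u i) < 0 ∧ 0 < ip w (u j))) : False := by
  obtain ⟨δ, η, hδ, hη, hpert⟩ := hE.pert
  set θ : Fin n → ℝ := fun i => (i.val : ℝ) with hθ
  have hinj : Function.Injective θ := fun i j h => Fin.ext (by
    have h' : (i.val : ℝ) = (j.val : ℝ) := h
    exact_mod_cast h')
  obtain ⟨ε, hP, hh⟩ := ((hpert θ hinj).and (hNC.stable θ)).exists
  have S := hP.str hδ hE.unit hn hm hh
  obtain ⟨a, b, c, hab, hbc, hca, -⟩ := S.tri
  have hab' := mem_dE.1 hab
  have hbc' := mem_dE.1 hbc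
  have hca' := mem_dE.1 hca
  simp only at hab' hbc' hca'
  have nonneg : ∀ i j, 0 < cr (ue u θ ε i) (ue u θ ε j) → 0 ≤ cr (u i) (u j) := by
    intro i j h
    by_contra hc
    have := hP.posc j i (by rw [cr_comm]; linarith [not_le.1 hc])
    exact cr_asymm h this
  have n1 := nonneg _ _ hab'.2
  have n2 := nonneg _ _ hbc'.2
  have n3 := nonneg _ _ hca'.2
  have lt_of : ∀ i j, i ≠ j → u i = u j → 0 < cr (ue u θ ε i) (ue u θ ε j) → θ i < θ j := by
    intro i j hij hij' h
    rcases lt_or_gt_of_ne (hinj.ne hij) with h1 | h1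
    · exact h1
    · exact absurd h (cr_asymm (hP.tie j i hij'.symm h1))
  have pos3 : ∀ a b c, G.Adj a b → G.Adj b c → G.Adj c a →
      0 < cr (ue u θ ε a) (ue u θ ε b) → 0 < cr (ue u θ ε b) (ue u θ ε c) →
      0 < cr (ue u θ ε c) (ue u θ ε a) → 0 ≤ cr (u a) (u b) → 0 ≤ cr (u b) (u c) →
      0 ≤ cr (u c) (u a) → 0 < cr (u a) (u b) := by
    intro a b c gab gbc gca e1 e2 e3 n1 n2 n3
    rcases n1.eq_or_lt with h | h
    · exfalso
      have huu := eq_of_cr (hE.unit a) (hE.unit b) h.symm (hE.nopp a b gab)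
      have h0 : cr (u b) (u c) = 0 := by
        rw [huu, cr_comm] at n3
        linarith
      have hvv := eq_of_cr (hE.unit b) (hE.unit c) h0 (hE.nopp b c gbc)
      have t1 := lt_of a b gab.ne huu e1
      have t2 := lt_of b c gbc.ne hvv e2
      have t3 := lt_of c a gca.ne (by rw [huu, hvv]) e3
      linarith
    · exact h
  have pab := pos3 a b c hab'.1 hbc'.1 hca'.1 hab'.2 hbc'.2 hca'.2 n1 n2 n3
  have pbc := pos3 b c a hbc'.1 hca'.1 hab'.1 hbc'.2 hca'.2 hab'.2 n2 n3 n1
  have pca := pos3 c a b hca'.1 hab'.1 hbc'.1 hca'.2 hab'.2 hbc'.2 n3 n1 n2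
  have key : ip w (u a) * cr (u b) (u c) + ip w (u b) * cr (u c) (u a) +
      ip w (u c) * cr (u a) (u b) = 0 := by unfold ip cr; ring
  have imp : ∀ i j, G.Adj i j → (0 < ip w (u i) → 0 ≤ ip w (u j)) ∧
      (ip w (u i) < 0 → ip w (u j) ≤ 0) := by
    intro i j hij
    constructor
    · intro h
      by_contra hc
      exact hu j i hij.symm ⟨not_le.1 hc, h⟩
    · intro h
      by_contra hc
      exact hu i j hij ⟨h, not_le.1 hc⟩
  have zero : ∀ a b c, G.Adj a b → G.Adj a c → 0 < cr (u b) (u c) → 0 < cr (u c) (u a) →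
      0 < cr (u a) (u b) → ip w (u a) * cr (u b) (u c) + ip w (u b) * cr (u c) (u a) +
      ip w (u c) * cr (u a) (u b) = 0 → ip w (u a) = 0 := by
    intro a b c gab gac p1 p2 p3 key
    rcases lt_trichotomy (ip w (u a)) 0 with h | h | h
    · exfalso
      have m1 := mul_neg_of_neg_of_pos h p1
      have m2 := mul_nonpos_of_nonpos_of_nonneg ((imp a b gab).2 h) p2.le
      have m3 := mul_nonpos_of_nonpos_of_nonneg ((imp a c gac).2 h) p3.le
      linarith
    · exact h
    · exfalso
      have m1 := mul_pos h p1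
      have m2 := mul_nonneg ((imp a b gab).1 h) p2.le
      have m3 := mul_nonneg ((imp a c gac).1 h) p3.le
      linarith
  have za := zero a b c hab'.1 hca'.1.symm pbc pca pab key
  have zb := zero b c a hbc'.1 hab'.1.symm pca pab pbc (by linarith)
  apply hw
  have e1 : w.1 * cr (u a) (u b) = ip w (u a) * (u b).2 - ip w (u b) * (u a).2 := by
    unfold ip cr; ring
  have e2 : w.2 * cr (u a) (u b) = ip w (u b) * (u a).1 - ip w (u a) * (u b).1 := by
    unfold ip cr; ring
  rw [za, zb] at e1 e2
  simp only [zero_mul, sub_zero, mul_eq_zero] at e1 e2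
  ext
  · exact e1.resolve_right pab.ne'
  · exact e2.resolve_right pab.ne'

/-- Changing the heights by a linear map. -/
lemma Emb.lin (hE : Emb G u z) (w : ℝ × ℝ) {c : ℝ} (hc : c ≠ 0) :
    Emb G u (fun i => ip w (u i) + c * z i) := by
  have lin : ∀ (a b : ℝ) (i j : Fin n), ip w (a • u i + b • u j) =
      a * ip w (u i) + b * ip w (u j) := by
    intro a b i j; unfold ip
    simp only [Prod.fst_add, Prod.snd_add, Prod.smul_fst, Prod.smul_snd, smul_eq_mul]; ring
  refine ⟨hE.unit, hE.nopp, ?_, ?_, ?_⟩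
  · intro i j hij hu h
    have h' : ip w (u i) + c * z i = ip w (u j) + c * z j := h
    rw [hu] at h'
    exact hE.inj i j hij hu (mul_left_cancel₀ hc (by linarith))
  · intro i j m hij hi hj a b ha hb h
    rw [PP_comb] at h
    unfold PP at h
    rw [up3_inj] at h
    refine hE.V i j m hij hi hj a b ha hb ?_
    rw [PP_comb]
    unfold PP
    rw [up3_inj]
    refine ⟨h.1, mul_left_cancel₀ hc ?_⟩
    have h2 : a * (ip w (u i) + c * z i) + b * (ip w (u j) + c * z j) =
        ip w (u m) + c * z m := h.2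
    rw [← h.1, lin] at h2
    linarith
  · intro i j k l hij hkl d1 d2 d3 d4 a b e f ha hb he hf h
    rw [PP_comb, PP_comb, up3_inj] at h
    refine hE.X i j k l hij hkl d1 d2 d3 d4 a b e f ha hb he hf ?_
    rw [PP_comb, PP_comb, up3_inj]
    refine ⟨h.1, mul_left_cancel₀ hc ?_⟩
    have h2 := h.2
    have h3 := congrArg (ip w) h.1
    rw [lin, lin] at h3
    linarith

/-- The abstract theorem in arbitrary position. -/
theorem Emb.circle (hE : Emb G u z) (hn : 3 ≤ n) (hm : Nat.card G.edgeSet = 3 * n - 6)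
    (w : ℝ × ℝ) (c : ℝ) (hw : ¬ (w = 0 ∧ c = 0))
    (hu : ∀ i j, G.Adj i j → ¬ (ip w (u i) + c * z i < 0 ∧ 0 < ip w (u j) + c * z j)) :
    ∃ Z : Fin n → ℝ, WC0 G u z Z ∧ ∀ v, Z v < 0 := by
  by_cases hh : ∃ w : ℝ × ℝ, ∀ i, 0 < ip w (u i)
  · obtain ⟨w, hw⟩ := hh
    refine ⟨fun i => ip (-w) (u i), ⟨?_, ?_⟩, fun v => ?_⟩
    · intro i j v hij hc ho
      rw [g_ip (-w) (e := (i, j)) hc.ne' v]; simp
    · intro v v' huv _
      simp only
      rw [huv]
    · have : ip (-w) (u v) = - ip w (u v) := by
        unfold ip; simp only [Prod.fst_neg, Prod.snd_neg]; ring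
      simp only
      rw [this]
      linarith [hw v]
  have hNC := hE.nc hn hm hh
  wlog hc : 0 ≤ c generalizing w c
  · refine this (-w) (-c) (by
      rintro ⟨a, b⟩; exact hw ⟨by simpa using a, by linarith⟩) ?_ (by linarith [not_le.1 hc])
    intro i j hij h
    refine hu j i hij.symm ?_
    have e : ∀ p : ℝ × ℝ, ip (-w) p = - ip w p := by
      intro p; unfold ip; simp only [Prod.fst_neg, Prod.snd_neg]; ring
    rw [e, e] at h
    exact ⟨by linarith [h.2], by linarith [h.1]⟩
  rcases hc.eq_or_lt with hc | hc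
  · exfalso
    refine hE.no_meridian hNC hn hm (w := w) (fun h => hw ⟨h, hc.symm⟩) (fun i j hij h => ?_)
    refine hu i j hij ?_
    rw [← hc, zero_mul, zero_mul, add_zero, add_zero]
    exact h
  · obtain ⟨Z, hZ, hneg⟩ := (hE.lin w hc.ne').exists_sink hNC hn hm hu
    refine ⟨Z, ⟨?_, ?_⟩, fun v => by linarith [hneg v]⟩
    · intro i j v hij hcr ho
      have h1 := hZ.1 i j v hij hcr ho
      rw [g_q (w := w) (c := c) (z := z) (e := (i, j)) hcr.ne' v] at h1
      have h2 : 0 ≤ c * (g u z (i, j) v * g u Z (i, j) v) := by linarith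
      exact nonneg_of_mul_nonneg_right h2 hc
    · intro v v' huv hz
      refine hZ.2 v v' huv ?_
      simp only
      rw [huv]
      have := mul_lt_mul_of_pos_left hz hc
      linarith

end Pool.Agent.R157.Sph
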