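import Pool.Agent.R157.Sph.Refl

namespace Pool.Agent.R157.Sph

open Classical

variable {n : ℕ} {u : Fin n → ℝ × ℝ} {z z' : Fin n → ℝ} {E : Finset (Fin n × Fin n)}

/-- Height of the edge `e` above the vertex `v`. -/
noncomputable def g (u : Fin n → ℝ × ℝ) (z : Fin n → ℝ) (e : Fin n × Fin n) (v : Fin n) : ℝ :=
  H u z e (u v) - z v

/-- The heights `z'` have the same above/below relations as `z`. -/
def Comp (u : Fin n → ℝ × ℝ) (z : Fin n → ℝ) (E : Finset (Fin n × Fin n)) (z' : Fin n → ℝ) :
    Prop := ∀ e ∈ E, ∀ v, Ov u e (u v) → 0 < g u z e v * g u z' e v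

/-- Weak version. -/
def WComp (u : Fin n → ℝ × ℝ) (z : Fin n → ℝ) (E : Finset (Fin n × Fin n)) (z' : Fin n → ℝ) :
    Prop := ∀ e ∈ E, ∀ v, Ov u e (u v) → 0 ≤ g u z e v * g u z' e v

lemma g_addsmul (t : ℝ) (e : Fin n × Fin n) (v : Fin n) :
    g u (z + t • z') e v = g u z e v + t * g u z' e v := by
  unfold g; rw [H_addsmul]; simp only [Pi.add_apply, Pi.smul_apply, smul_eq_mul]; ring

lemma g_neg (e : Fin n × Fin n) (v : Fin n) : g u (-z) e v = - g u z e v := by
  unfold g; rw [H_neg]; simp only [Pi.neg_apply]; ring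

lemma Good.g_ne (G : Good u z E) {e : Fin n × Fin n} (he : e ∈ E) {v : Fin n}
    (ho : Ov u e (u v)) : g u z e v ≠ 0 := by
  unfold g; exact sub_ne_zero.2 (G.P1 e he v ho)

/-- A linear function on the plane is determined by two independent directions. -/
lemma cr_expand {a b p : ℝ × ℝ} (hab : cr a b ≠ 0) :
    p = (cr p b / cr a b) • a + (cr a p / cr a b) • b := by
  ext
  · simp only [Prod.fst_add, Prod.smul_fst, smul_eq_mul]
    field_simp
    unfold cr; ring
  · simp only [Prod.snd_add, Prod.smul_snd, smul_eq_mul]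
    field_simp
    unfold cr; ring

/-- Order of two edges is preserved. -/
lemma Good.ord (G : Good u z E) (C : Comp u z E z') {e f : Fin n × Fin n} (he : e ∈ E)
    (hf : f ∈ E) (hef : e ≠ f) {p : ℝ × ℝ} (ep : Ov u e p) (fp : Ov u f p) :
    0 < (H u z f p - H u z e p) * (H u z' f p - H u z' e p) := by
  have pe : 0 < cr (u e.1) (u e.2) := G.pos _ he
  have pf : 0 < cr (u f.1) (u f.2) := G.pos _ hf
  -- west end `a` of the overlap
  have hwest : ∃ a : Fin n, 0 < cr (u a) p ∧ CC u e (u a) ∧ CC u f (u a) ∧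
      ((e.1 = f.1 ∧ a = e.1) ∨ 0 < (H u z f (u a) - H u z e (u a)) *
        (H u z' f (u a) - H u z' e (u a))) := by
    by_cases h1 : e.1 = f.1
    · refine ⟨e.1, ep.1, ⟨by simp [cr_self], pe.le⟩, ?_, Or.inl ⟨h1, rfl⟩⟩
      rw [h1]; exact ⟨by simp [cr_self], pf.le⟩
    by_cases h2 : 0 < cr (u e.1) (u f.1)
    · -- `f.1` is inside `e`
      have o : Ov u e (u f.1) := ⟨h2, T4 h2 fp.1 ep.1 ep.2 pe⟩
      refine ⟨f.1, fp.1, o.cc, ⟨by simp [cr_self], pf.le⟩, Or.inr ?_⟩
      have := C e he f.1 o
      rw [H_fst u z f pf.ne', H_fst u z' f pf.ne']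
      unfold g at this
      nlinarith [this]
    · have h3 := G.lt_of_not h1 h2
      have o : Ov u f (u e.1) := ⟨h3, T4 h3 ep.1 fp.1 fp.2 pf⟩
      refine ⟨e.1, ep.1, ⟨by simp [cr_self], pe.le⟩, o.cc, Or.inr ?_⟩
      have := C f hf e.1 o
      rw [H_fst u z e pe.ne', H_fst u z' e pe.ne']
      exact this
  have heast : ∃ b : Fin n, 0 < cr p (u b) ∧ CC u e (u b) ∧ CC u f (u b) ∧
      ((e.2 = f.2 ∧ b = e.2) ∨ 0 < (H u z f (u b) - H u z e (u b)) *
        (H u z' f (u b) - H u z' e (u b))) := by
    by_cases h1 : e.2 = f.2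
    · refine ⟨e.2, ep.2, ⟨pe.le, by simp [cr_self]⟩, ?_, Or.inl ⟨h1, rfl⟩⟩
      rw [h1]; exact ⟨pf.le, by simp [cr_self]⟩
    by_cases h2 : 0 < cr (u f.2) (u e.2)
    · -- `f.2` is inside `e`
      have o : Ov u e (u f.2) := ⟨T4' ep.1 fp.2 ep.2 h2 pe, h2⟩
      refine ⟨f.2, fp.2, o.cc, ⟨pf.le, by simp [cr_self]⟩, Or.inr ?_⟩
      have := C e he f.2 o
      rw [H_snd u z f pf.ne', H_snd u z' f pf.ne']
      unfold g at this
      nlinarith [this]
    · have h3 := G.lt_of_not (Ne.symm h1) h2
      have o : Ov u f (u e.2) := ⟨T4' fp.1 ep.2 fp.2 h3 pf, h3⟩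
      refine ⟨e.2, ep.2, ⟨pe.le, by simp [cr_self]⟩, o.cc, Or.inr ?_⟩
      have := C f hf e.2 o
      rw [H_snd u z e pe.ne', H_snd u z' e pe.ne']
      exact this
  obtain ⟨a, hap, eca, fca, ha⟩ := hwest
  obtain ⟨b, hpb, ecb, fcb, hb⟩ := heast
  -- `a` strictly west of `b`
  have hab : 0 < cr (u a) (u b) := by
    by_contra hnot
    -- p is strictly between u a and u b while both in a cone of angle < π
    have e1 := plucker (u e.1) (u a) p (u b)
    have e2 := plucker (u a) p (u b) (u e.2)
    have hnot' : cr (u a) (u b) ≤ 0 := not_lt.1 hnot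
    -- cr e1 a * cr p b - cr e1 p * cr a b + cr e1 b * cr a p = 0
    have m1 : 0 ≤ cr (u e.1) (u a) * cr p (u b) := mul_nonneg eca.1 hpb.le
    have m2 : 0 ≤ cr (u e.1) (u b) * cr (u a) p := mul_nonneg ecb.1 hap.le
    have m3 : 0 ≤ cr (u e.1) p * (-cr (u a) (u b)) := mul_nonneg ep.1.le (by linarith)
    have z1 : cr (u e.1) (u a) * cr p (u b) = 0 := by nlinarith
    have z2 : cr (u e.1) (u b) * cr (u a) p = 0 := by nlinarith
    have z3 : cr (u e.1) p * cr (u a) (u b) = 0 := by nlinarith
    have w1 : cr (u e.1) (u a) = 0 := by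
      rcases mul_eq_zero.1 z1 with h | h
      · exact h
      · exact absurd h hpb.ne'
    have w2 : cr (u e.1) (u b) = 0 := by
      rcases mul_eq_zero.1 z2 with h | h
      · exact h
      · exact absurd h hap.ne'
    have w3 : a = e.1 := by
      by_contra h
      exact G.gen _ _ (Ne.symm h) w1
    have w4 : b = e.1 := by
      by_contra h
      exact G.gen _ _ (Ne.symm h) w2
    rw [w3] at hap
    rw [w4] at hpb
    exact cr_asymm hap hpb
  -- p as positive combination
  have hexp := cr_expand (a := u a) (b := u b) (p := p) hab.ne'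
  set α := cr p (u b) / cr (u a) (u b) with hα
  set β := cr (u a) p / cr (u a) (u b) with hβ
  have hα0 : 0 < α := div_pos hpb hab
  have hβ0 : 0 < β := div_pos hap hab
  have hH : ∀ (y : Fin n → ℝ), H u y f p - H u y e p =
      α * (H u y f (u a) - H u y e (u a)) + β * (H u y f (u b) - H u y e (u b)) := by
    intro y
    conv_lhs => rw [hexp]
    rw [H_lin, H_lin]; ring
  rw [hH z, hH z']
  have zeroa : e.1 = f.1 ∧ a = e.1 → ∀ y : Fin n → ℝ, H u y f (u a) - H u y e (u a) = 0 := by
    rintro ⟨h1, h2⟩ y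
    have h3 : u a = u f.1 := by rw [h2, h1]
    have h4 : u a = u e.1 := by rw [h2]
    have h5 : H u y f (u a) = y f.1 := by rw [h3]; exact H_fst u y f pf.ne'
    have h6 : H u y e (u a) = y e.1 := by rw [h4]; exact H_fst u y e pe.ne'
    rw [h5, h6, h1]; ring
  have zerob : e.2 = f.2 ∧ b = e.2 → ∀ y : Fin n → ℝ, H u y f (u b) - H u y e (u b) = 0 := by
    rintro ⟨h1, h2⟩ y
    have h3 : u b = u f.2 := by rw [h2, h1]
    have h4 : u b = u e.2 := by rw [h2]
    have h5 : H u y f (u b) = y f.2 := by rw [h3]; exact H_snd u y f pf.ne'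
    have h6 : H u y e (u b) = y e.2 := by rw [h4]; exact H_snd u y e pe.ne'
    rw [h5, h6, h1]; ring
  rcases ha with ha | ha
  · rcases hb with hb | hb
    · exfalso; exact hef (Prod.ext ha.1 hb.1)
    · rw [zeroa ha z, zeroa ha z']
      have := mul_pos (mul_pos hβ0 hβ0) hb
      nlinarith [this]
  · rcases hb with hb | hb
    · rw [zerob hb z, zerob hb z']
      have := mul_pos (mul_pos hα0 hα0) ha
      nlinarith [this]
    · -- signs at both ends must agree by non-crossing
      set A := H u z f (u a) - H u z e (u a) with hA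
      set A' := H u z' f (u a) - H u z' e (u a) with hA'
      set B := H u z f (u b) - H u z e (u b) with hB
      set B' := H u z' f (u b) - H u z' e (u b) with hB'
      rcases pos_and_pos_or_neg_and_neg_of_mul_pos ha with ⟨a1, a2⟩ | ⟨a1, a2⟩
      · rcases pos_and_pos_or_neg_and_neg_of_mul_pos hb with ⟨b1, b2⟩ | ⟨b1, b2⟩
        · apply mul_pos
          · have := mul_pos hα0 a1; have := mul_pos hβ0 b1; linarith
          · have := mul_pos hα0 a2; have := mul_pos hβ0 b2; linarith
        · exact (G.CL he hf hef hab eca ecb fca fcb (by linarith) (by linarith)).elim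
      · rcases pos_and_pos_or_neg_and_neg_of_mul_pos hb with ⟨b1, b2⟩ | ⟨b1, b2⟩
        · exact (G.CL hf he hef.symm hab fca fcb eca ecb (by linarith) (by linarith)).elim
        · apply mul_pos_of_neg_of_neg
          · have := mul_neg_of_pos_of_neg hα0 a1; have := mul_neg_of_pos_of_neg hβ0 b1; linarith
          · have := mul_neg_of_pos_of_neg hα0 a2; have := mul_neg_of_pos_of_neg hβ0 b2; linarith

lemma Good.of_comp (G : Good u z E) (C : Comp u z E z') : Good u z' E where
  unit := G.unit
  gen := G.gen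
  pos := G.pos
  P1 := fun e he v hv h => by
    have := C e he v hv
    unfold g at this
    rw [h] at this
    simp at this
  P2 := fun e he f hf hef p hp hq h => by
    have := G.ord C he hf hef hp hq
    rw [h] at this
    simp at this

lemma Good.comp_add (G : Good u z E) (W : WComp u z E z') {t : ℝ} (ht : 0 ≤ t) :
    Comp u z E (z + t • z') := by
  intro e he v hv
  rw [g_addsmul]
  have h1 := W e he v hv
  have h2 := G.g_ne he hv
  have h3 : 0 < g u z e v * g u z e v := mul_self_pos.2 h2
  have h4 := mul_nonneg ht h1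
  nlinarith

lemma Good.comp_smul (G : Good u z E) (W : WComp u z E z') {t : ℝ} (ht : 0 < t) :
    Comp u z E (z' + t • z) := by
  intro e he v hv
  rw [g_addsmul]
  have h1 := W e he v hv
  have h2 := G.g_ne he hv
  have h3 : 0 < g u z e v * g u z e v := mul_self_pos.2 h2
  have h4 := mul_pos ht h3
  nlinarith

/-- Weak order preservation. -/
lemma Good.word (G : Good u z E) (W : WComp u z E z') {e f : Fin n × Fin n} (he : e ∈ E)
    (hf : f ∈ E) (hef : e ≠ f) {p : ℝ × ℝ} (ep : Ov u e p) (fp : Ov u f p) :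
    0 ≤ (H u z f p - H u z e p) * (H u z' f p - H u z' e p) := by
  by_contra hneg
  rw [not_le] at hneg
  set D := H u z f p - H u z e p with hD
  set D' := H u z' f p - H u z' e p with hD'
  have hD0 : D ≠ 0 := by rintro h; rw [h] at hneg; simp at hneg
  have hD2 : 0 < D * D := mul_self_pos.2 hD0
  set t := -(D * D') / (2 * (D * D)) with ht
  have ht0 : 0 < t := div_pos (by linarith) (by linarith)
  have h1 := G.ord (G.comp_smul W ht0) he hf hef ep fp
  rw [H_addsmul, H_addsmul] at h1
  have h2 : (H u z' f p + t * H u z f p - (H u z' e p + t * H u z e p)) = D' + t * D := by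
    rw [hD, hD']; ring
  rw [h2] at h1
  have h3 : t * (D * D) = -(D * D') / 2 := by rw [ht]; field_simp
  have h4 : D * (D' + t * D) = D * D' + t * (D * D) := by ring
  rw [← hD, h4, h3] at h1
  linarith

/-- The constraints from the nearest edges imply all the constraints. -/
lemma Good.nearest (G : Good u z E) (hU : ∀ v e, UpE u z E v e → 0 ≤ g u z' e v)
    (hD : ∀ v e, UpE u (-z) E v e → g u z' e v ≤ 0) : WComp u z E z' := by
  by_contra hW
  unfold WComp at hW
  push Not at hW
  obtain ⟨e1, he1, v1, ho1, hb1⟩ := hW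
  -- bad pairs
  obtain ⟨⟨e, v⟩, hev, hmin⟩ := Finset.exists_min_image
    (Finset.univ.filter (fun q : (Fin n × Fin n) × Fin n =>
      q.1 ∈ E ∧ Ov u q.1 (u q.2) ∧ g u z q.1 q.2 * g u z' q.1 q.2 < 0))
    (fun q => - g u z q.1 q.2 / g u z' q.1 q.2) ⟨(e1, v1), by simp [he1, ho1, hb1]⟩
  simp only [Finset.mem_filter, Finset.mem_univ, true_and] at hev hmin
  obtain ⟨he, ho, hb⟩ := hev
  set t := - g u z e v / g u z' e v with ht
  have hg' : ∀ {x y : ℝ}, x * y < 0 → y ≠ 0 := by
    rintro x y h rfl; simp at h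
  have hpos : ∀ {x y : ℝ}, x * y < 0 → 0 < -x / y := by
    intro x y h
    have hy := hg' h
    rcases lt_or_gt_of_ne hy with hy | hy
    · have hx : 0 < x := by
        by_contra hx
        have := mul_nonneg_of_nonpos_of_nonpos (not_lt.1 hx) hy.le
        linarith
      exact div_pos_of_neg_of_neg (by linarith) hy
    · have hx : x < 0 := by
        by_contra hx
        have := mul_nonneg (not_lt.1 hx) hy.le
        linarith
      exact div_pos (by linarith) hy
  have ht0 : 0 < t := hpos hb
  have hWt : WComp u z E (z + t • z') := by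
    intro f hf w hw
    rw [g_addsmul]
    by_cases hfw : g u z f w * g u z' f w < 0
    · have h1 := hmin (f, w) ⟨hf, hw, hfw⟩
      simp only at h1
      have hy := hg' hfw
      -- x * (x + t y) with t ≤ -x / y
      set x := g u z f w
      set y := g u z' f w
      have h2 : x * (x + t * y) = x * y * (t - (-x / y)) := by
        field_simp; ring
      rw [h2]
      exact mul_nonneg_of_nonpos_of_nonpos hfw.le (by linarith)
    · have h1 := not_lt.1 hfw
      have h2 := mul_nonneg ht0.le h1
      have h3 := mul_self_nonneg (g u z f w)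
      nlinarith
  have hzero : g u (z + t • z') e v = 0 := by
    rw [g_addsmul, ht]
    have := hg' hb
    field_simp
    ring
  have hgne := G.g_ne he ho
  rcases lt_or_gt_of_ne hgne with hlt | hgt
  · -- v above e
    obtain ⟨f, hf⟩ := exists_UpE (u := u) (z := -z) (E := E) (v := v) he ho (by
      rw [H_neg, Pi.neg_apply]; unfold g at hlt; linarith)
    have h1 := hD v f hf
    have h2 : g u z f v < 0 := by
      have := hf.2.2.1
      rw [H_neg, Pi.neg_apply] at this
      unfold g; linarith
    by_cases hfe : f = e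
    · rw [g_addsmul] at hzero
      rw [hfe] at h1
      have := mul_nonneg ht0.le (neg_nonneg.2 h1)
      linarith
    · have h3 := G.word hWt he hf.1 (Ne.symm hfe) ho hf.2.1
      have h4 := hf.2.2.2 e he ho (by rw [H_neg, Pi.neg_apply]; unfold g at hlt; linarith)
      rw [H_neg, H_neg] at h4
      have h5 : H u z e (u v) ≠ H u z f (u v) := G.P2 e he f hf.1 (Ne.symm hfe) _ ho hf.2.1
      have h6 : 0 < H u z f (u v) - H u z e (u v) := by
        have : H u z e (u v) < H u z f (u v) := lt_of_le_of_ne (by linarith) h5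
        linarith
      have h7 : 0 ≤ H u (z + t • z') f (u v) - H u (z + t • z') e (u v) :=
        nonneg_of_mul_nonneg_right h3 h6
      have h8 : g u (z + t • z') f v < 0 := by
        rw [g_addsmul]
        have := mul_nonneg ht0.le (neg_nonneg.2 h1)
        linarith
      unfold g at h8 hzero
      linarith
  · -- v below e
    obtain ⟨f, hf⟩ := exists_UpE (u := u) (z := z) (E := E) (v := v) he ho (by
      unfold g at hgt; linarith)
    have h1 := hU v f hf
    have h2 : 0 < g u z f v := by
      have := hf.2.2.1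
      unfold g; linarith
    by_cases hfe : f = e
    · rw [g_addsmul] at hzero
      rw [hfe] at h1
      have := mul_nonneg ht0.le h1
      linarith
    · have h3 := G.word hWt he hf.1 (Ne.symm hfe) ho hf.2.1
      have h4 := hf.2.2.2 e he ho (by unfold g at hgt; linarith)
      have h5 : H u z e (u v) ≠ H u z f (u v) := G.P2 e he f hf.1 (Ne.symm hfe) _ ho hf.2.1
      have h6 : H u z f (u v) - H u z e (u v) < 0 := by
        have : H u z f (u v) < H u z e (u v) := lt_of_le_of_ne (by linarith) h5.symm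
        linarith
      have h7 : H u (z + t • z') f (u v) - H u (z + t • z') e (u v) ≤ 0 := by
        by_contra hc
        rw [not_le] at hc
        have := mul_neg_of_neg_of_pos h6 hc
        linarith
      have h8 : 0 < g u (z + t • z') f v := by
        rw [g_addsmul]
        have := mul_nonneg ht0.le h1
        linarith
      unfold g at h8 hzero
      linarith

/-- Heights weakly compatible with the drawing and nonnegative at the three bottom vertices are
nonnegative. -/
lemma Str.nonneg (S : Str u z E) (W : WComp u z E z') (h0 : ∀ v, v ∉ hasUp u (-z) E → 0 ≤ z' v)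
    (v : Fin n) : 0 ≤ z' v := by
  by_cases hv : v ∈ hasUp u (-z) E
  · obtain ⟨p, q, hpq, hp, hq, ho, hlt⟩ := S.neg.roof hv
    rw [H_neg, Pi.neg_apply] at hlt
    have hg : g u z (p, q) v < 0 := by unfold g; linarith
    have h1 := W _ hpq v ho
    have h2 : g u z' (p, q) v ≤ 0 := by
      by_contra hc
      rw [not_le] at hc
      have := mul_neg_of_neg_of_pos hg hc
      linarith
    have pp : 0 < cr (u p) (u q) := S.G.pos _ hpq
    have h3 : 0 ≤ H u z' (p, q) (u v) := by
      unfold H
      exact div_nonneg (add_nonneg (mul_nonneg (h0 _ hp) ho.2.le) (mul_nonneg (h0 _ hq) ho.1.le))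
        pp.le
    unfold g at h2
    linarith
  · exact h0 v hv

/-- Strict version. -/
lemma Str.positive (S : Str u z E) (W : WComp u z E z')
    (h0 : ∀ v, v ∉ hasUp u (-z) E → 0 < z' v) (v : Fin n) : 0 < z' v := by
  by_cases hv : v ∈ hasUp u (-z) E
  · obtain ⟨p, q, hpq, hp, hq, ho, hlt⟩ := S.neg.roof hv
    rw [H_neg, Pi.neg_apply] at hlt
    have hg : g u z (p, q) v < 0 := by unfold g; linarith
    have h1 := W _ hpq v ho
    have h2 : g u z' (p, q) v ≤ 0 := by
      by_contra hc
      rw [not_le] at hc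
      have := mul_neg_of_neg_of_pos hg hc
      linarith
    have pp : 0 < cr (u p) (u q) := S.G.pos _ hpq
    have h3 : 0 < H u z' (p, q) (u v) := by
      unfold H
      exact div_pos (add_pos (mul_pos (h0 _ hp) ho.2) (mul_pos (h0 _ hq) ho.1)) pp
    unfold g at h2
    linarith
  · exact h0 v hv

end Pool.Agent.R157.Sph
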