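import Pool.Agent.R157.Sph.Count

namespace Pool.Agent.R157.Sph

open Classical

variable {n : ℕ} {u : Fin n → ℝ × ℝ} {z : Fin n → ℝ} {E : Finset (Fin n × Fin n)}

/-- Reflection of directions. -/
def rf (p : ℝ × ℝ) : ℝ × ℝ := (p.1, -p.2)

/-- Reflected directions of the vertices. -/
def ru (u : Fin n → ℝ × ℝ) : Fin n → ℝ × ℝ := fun i => rf (u i)

/-- Edges with west and east exchanged. -/
noncomputable def rE (E : Finset (Fin n × Fin n)) : Finset (Fin n × Fin n) := E.image Prod.swap

lemma mem_rE {e : Fin n × Fin n} : e ∈ rE E ↔ e.swap ∈ E := by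
  unfold rE
  rw [Finset.mem_image]
  constructor
  · rintro ⟨f, hf, rfl⟩; simpa using hf
  · intro h; exact ⟨e.swap, h, by simp⟩

lemma rf_rf (p : ℝ × ℝ) : rf (rf p) = p := by unfold rf; simp

lemma ru_ru (u : Fin n → ℝ × ℝ) : ru (ru u) = u := by
  funext i; exact rf_rf _

lemma rE_rE (E : Finset (Fin n × Fin n)) : rE (rE E) = E := by
  ext e; rw [mem_rE, mem_rE]; simp

lemma cr_rf (p q : ℝ × ℝ) : cr (rf p) (rf q) = - cr p q := by unfold cr rf; ring

lemma ip_rf (p q : ℝ × ℝ) : ip (rf p) (rf q) = ip p q := by unfold ip rf; ring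

lemma H_rf (u : Fin n → ℝ × ℝ) (z : Fin n → ℝ) (e : Fin n × Fin n) (p : ℝ × ℝ) :
    H (ru u) z e.swap (rf p) = H u z e p := by
  unfold H ru
  simp only [Prod.fst_swap, Prod.snd_swap, cr_rf]
  rw [cr_comm p (u e.1), cr_comm (u e.2) p, cr_comm (u e.2) (u e.1)]
  congr 1 <;> ring

lemma H_rf' (u : Fin n → ℝ × ℝ) (z : Fin n → ℝ) (e : Fin n × Fin n) (v : Fin n) :
    H (ru u) z e.swap (ru u v) = H u z e (u v) := H_rf u z e (u v)

lemma Ov_rf (u : Fin n → ℝ × ℝ) (e : Fin n × Fin n) (p : ℝ × ℝ) :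
    Ov (ru u) e.swap (rf p) ↔ Ov u e p := by
  unfold Ov ru
  simp only [Prod.fst_swap, Prod.snd_swap, cr_rf]
  rw [cr_comm (u e.2) p, cr_comm p (u e.1), neg_neg, neg_neg]
  tauto

lemma Ov_rf' (u : Fin n → ℝ × ℝ) (e : Fin n × Fin n) (v : Fin n) :
    Ov (ru u) e.swap (ru u v) ↔ Ov u e (u v) := Ov_rf u e (u v)

lemma sl_ru (x k : Fin n) : sl (ru u) z x k = - sl u z x k := by
  unfold sl ru
  rw [cr_rf, ip_rf, div_neg]

lemma Good.refl (G : Good u z E) : Good (ru u) z (rE E) where
  unit := fun i => by unfold ru; rw [ip_rf]; exact G.unit i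
  gen := fun i j hij => by
    unfold ru; rw [cr_rf, neg_ne_zero]; exact G.gen i j hij
  pos := fun e he => by
    rw [mem_rE] at he
    have := G.pos _ he
    simp only [Prod.fst_swap, Prod.snd_swap] at this
    unfold ru; rw [cr_rf, ← cr_comm]; exact this
  P1 := fun e he v hv => by
    rw [mem_rE] at he
    have h1 : e = e.swap.swap := by simp
    rw [h1, H_rf']
    rw [h1, Ov_rf'] at hv
    exact G.P1 _ he v hv
  P2 := fun e he f hf hef p hp hq => by
    rw [mem_rE] at he hf
    have h1 : e = e.swap.swap := by simp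
    have h2 : f = f.swap.swap := by simp
    have h3 : p = rf (rf p) := by rw [rf_rf]
    rw [h1, h2, h3, H_rf, H_rf]
    rw [h1, h3, Ov_rf] at hp
    rw [h2, h3, Ov_rf] at hq
    refine G.P2 _ he _ hf ?_ _ hp hq
    intro h; exact hef (Prod.swap_injective h)

lemma UpE_rf {v : Fin n} {e : Fin n × Fin n} :
    UpE (ru u) z (rE E) v e.swap ↔ UpE u z E v e := by
  unfold UpE
  rw [mem_rE, Prod.swap_swap, Ov_rf', H_rf']
  refine and_congr_right fun _ => and_congr_right fun _ => and_congr_right fun _ => ?_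
  constructor
  · intro h f hf h1 h2
    have := h f.swap (by rw [mem_rE]; simpa using hf) (by rw [Ov_rf']; exact h1)
      (by rw [H_rf']; exact h2)
    rwa [H_rf'] at this
  · intro h f hf h1 h2
    rw [mem_rE] at hf
    have h0 : f = f.swap.swap := by simp
    rw [h0, Ov_rf'] at h1
    rw [h0, H_rf'] at h2 ⊢
    exact h _ hf h1 h2

lemma UpE_rf2 {v : Fin n} {e : Fin n × Fin n} :
    UpE (ru u) z (rE E) v e ↔ UpE u z E v e.swap := by
  have := UpE_rf (u := u) (z := z) (E := E) (v := v) (e := e.swap)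
  rwa [Prod.swap_swap] at this

lemma hasUp_rf : hasUp (ru u) z (rE E) = hasUp u z E := by
  ext v
  rw [mem_hasUp, mem_hasUp]
  constructor
  · rintro ⟨e, he⟩; exact ⟨e.swap, UpE_rf2.1 he⟩
  · rintro ⟨e, he⟩; exact ⟨e.swap, UpE_rf.2 he⟩

lemma Good.upe_rf (G : Good u z E) {v : Fin n} (hv : v ∈ hasUp u z E) :
    upe (ru u) z (rE E) v = (upe u z E v).swap :=
  G.refl.upe_eq (UpE_rf.2 (upe_spec hv))

/-- The four structure statements. -/
structure Str (u : Fin n → ℝ × ℝ) (z : Fin n → ℝ) (E : Finset (Fin n × Fin n)) : Prop where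
  G : Good u z E
  e1 : East u z E
  e2 : East u (-z) E
  e3 : East (ru u) z (rE E)
  e4 : East (ru u) (-z) (rE E)

lemma Str.neg (S : Str u z E) : Str u (-z) E :=
  ⟨S.G.neg, S.e2, by rw [neg_neg]; exact S.e1, S.e4, by rw [neg_neg]; exact S.e3⟩

lemma Str.refl (S : Str u z E) : Str (ru u) z (rE E) :=
  ⟨S.G.refl, S.e3, S.e4, by rw [ru_ru, rE_rE]; exact S.e1, by rw [ru_ru, rE_rE]; exact S.e2⟩

lemma Str.west (S : Str u z E) (w : Fin n) : ∃ r, (r, w) ∈ E := by
  obtain ⟨k, hk⟩ := S.e3.top_ex w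
  have := (Finset.mem_filter.1 hk).1
  rw [mem_rE] at this
  exact ⟨k, this⟩

/-- The east end of the first edge above `v` is the top east neighbour of `v`. -/
lemma Str.te (S : Str u z E) {v : Fin n} {e : Fin n × Fin n} (h : UpE u z E v e) :
    (v, e.2) ∈ TP u z E := by
  have hE : (v, e.2) ∈ E := by
    have := S.e3.up_fst v e.swap (UpE_rf.2 h)
    rw [mem_rE] at this
    simpa using this
  by_contra hT
  have hNT : (v, e.2) ∈ NT u z E := by
    unfold NT TP at *
    simp only [Finset.mem_filter, hE, true_and] at hT ⊢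
    push Not at hT
    exact hT
  rcases S.e1.nt _ hNT with ⟨w, hw⟩ | ⟨k', hk'⟩
  · refine S.e3.nodown v e.swap (UpE_rf.2 h) w ?_
    rw [UpE_rf2]
    simpa using hw
  · simp only at hk'
    obtain ⟨j, k⟩ := e
    simp only at hk' hE
    have hjv := h.2.1.1
    have hvk := h.2.1.2
    simp only at hjv hvk
    have hne : (v, k') ≠ (j, k) := by
      intro h'
      simp only [Prod.mk.injEq] at h'
      rw [h'.1, cr_self] at hjv
      exact lt_irrefl _ hjv
    have pk' : 0 < cr (u v) (u k') := S.G.pos _ hk'.1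
    have pjk : 0 < cr (u j) (u k) := S.G.pos _ h.1
    refine S.G.CL hk'.1 h.1 hne hvk ⟨by simp [cr_self], pk'.le⟩ hk'.2.1.cc h.2.1.cc
      ⟨pjk.le, by simp [cr_self]⟩ ?_ ?_
    · rw [show H u z (v, k') (u v) = z v from H_fst u z (v, k') pk'.ne']
      exact h.2.2.1
    · rw [show H u z (j, k) (u k) = z k from H_snd u z (j, k) pjk.ne']
      exact hk'.2.2.1

lemma Good.te_unique (G : Good u z E) {x k k' : Fin n} (h : (x, k) ∈ TP u z E)
    (h' : (x, k') ∈ TP u z E) : k = k' := by
  have h2 : ((x, k) : Fin n × Fin n) = (x, k') :=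
    G.TP_inj (Finset.mem_coe.2 h) (Finset.mem_coe.2 h') rfl
  simpa using h2

/-- The envelope: the top east edge of a vertex with nothing above it has nothing above it, and
ends at a vertex with nothing above it. -/
lemma Good.env (G : Good u z E) (hwest : ∀ w, ∃ r, (r, w) ∈ E) {x k : Fin n}
    (hx : NoUp u z E x) (hk : (x, k) ∈ TP u z E) :
    NoUp u z E k ∧ ∀ v, Ov u (x, k) (u v) → z v < H u z (x, k) (u v) := by
  have hkE : (x, k) ∈ E := (Finset.mem_filter.1 hk).1
  have hkT : ∀ q, (x, q) ∈ E → sl u z x q ≤ sl u z x k := (Finset.mem_filter.1 hk).2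
  have p0 : 0 < cr (u x) (u k) := G.pos _ hkE
  obtain ⟨w, hw, hfirst⟩ := exists_first G.unit G.gen x (TA u z x (x, k))
    ⟨k, p0, Or.inl rfl⟩ (fun v hv => hv.1)
  have cx : CC u (x, k) (u x) := ⟨by simp [cr_self], p0.le⟩
  have ck : CC u (x, k) (u k) := ⟨p0.le, by simp [cr_self]⟩
  have hHx : H u z (x, k) (u x) = z x := H_fst u z (x, k) p0.ne'
  have hHk : H u z (x, k) (u k) = z k := H_snd u z (x, k) p0.ne'
  -- a vertex between x and w on an edge passing above the end is impossible
  have hwk : w = k := by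
    by_contra hne
    obtain ⟨hxw, hw2⟩ := hw
    have hw3 : Ov u (x, k) (u w) ∧ H u z (x, k) (u w) < z w := by
      rcases hw2 with h | h
      · exact absurd h hne
      · exact h
    obtain ⟨r, hr⟩ := hwest w
    have prw : 0 < cr (u r) (u w) := G.pos _ hr
    have hHr : H u z (r, w) (u r) = z r := H_fst u z (r, w) prw.ne'
    have hHw : H u z (r, w) (u w) = z w := H_snd u z (r, w) prw.ne'
    have hne2 : (r, w) ≠ (x, k) := by
      intro h; simp only [Prod.mk.injEq] at h; exact hne h.2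
    have ccr : CC u (r, w) (u r) := ⟨by simp [cr_self], prw.le⟩
    have ccw : CC u (r, w) (u w) := ⟨prw.le, by simp [cr_self]⟩
    by_cases hrx : r = x
    · subst hrx
      have e1 := H_sl u z r k (G.unit r) p0.ne' (u w)
      have e2 := H_sl u z r w (G.unit r) prw.ne' (u w)
      have := mul_le_mul_of_nonneg_right (hkT w hr) prw.le
      linarith [hw3.2]
    by_cases hxr : 0 < cr (u x) (u r)
    · have hrk : 0 < cr (u r) (u k) := T4 hxr prw hxw hw3.1.2 p0
      have o1 : Ov u (x, k) (u r) := ⟨hxr, hrk⟩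
      rcases lt_trichotomy (z r) (H u z (x, k) (u r)) with h | h | h
      · exact G.CL hr hkE hne2 prw ccr ccw o1.cc hw3.1.cc (by rw [hHr]; exact h)
          (by rw [hHw]; exact hw3.2)
      · exact G.P1 _ hkE r o1 h.symm
      · exact cr_asymm prw (hfirst r ⟨hxr, Or.inr ⟨o1, h⟩⟩ (ne_of_cr prw))
    · have hrx' : 0 < cr (u r) (u x) := G.lt_of_not (Ne.symm hrx) hxr
      have o1 : Ov u (r, w) (u x) := ⟨hrx', hxw⟩
      have h1 := hx _ hr o1
      have h2 : H u z (r, w) (u x) < z x := lt_of_le_of_ne h1 (G.P1 _ hr x o1)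
      exact G.CL hr hkE hne2 hxw o1.cc ccw cx hw3.1.cc (by rw [hHx]; exact h2)
        (by rw [hHw]; exact hw3.2)
  subst hwk
  refine ⟨?_, ?_⟩
  · intro f hf hfw
    by_contra hlt
    rw [not_le] at hlt
    obtain ⟨p, q⟩ := f
    have hpw : 0 < cr (u p) (u w) := hfw.1
    have hwq : 0 < cr (u w) (u q) := hfw.2
    have hpq : 0 < cr (u p) (u q) := G.pos _ hf
    have hne2 : (p, q) ≠ (x, w) := by
      intro h
      rw [h] at hlt
      linarith
    have ccp : CC u (p, q) (u p) := ⟨by simp [cr_self], hpq.le⟩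
    have hHp : H u z (p, q) (u p) = z p := H_fst u z (p, q) hpq.ne'
    by_cases hpx : p = x
    · subst hpx
      have e1 := H_sl u z p w (G.unit p) p0.ne' (u w)
      have e2 := H_sl u z p q (G.unit p) hpq.ne' (u w)
      have := mul_le_mul_of_nonneg_right (hkT q hf) p0.le
      linarith
    by_cases hxp : 0 < cr (u x) (u p)
    · have o1 : Ov u (x, w) (u p) := ⟨hxp, hpw⟩
      rcases lt_trichotomy (z p) (H u z (x, w) (u p)) with h | h | h
      · exact G.CL hf hkE hne2 hpw ccp hfw.cc o1.cc ck (by rw [hHp]; exact h)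
          (by rw [hHk]; exact hlt)
      · exact G.P1 _ hkE p o1 h.symm
      · exact cr_asymm hpw (hfirst p ⟨hxp, Or.inr ⟨o1, h⟩⟩ (ne_of_cr hpw))
    · have hpx' : 0 < cr (u p) (u x) := G.lt_of_not (Ne.symm hpx) hxp
      have o1 : Ov u (p, q) (u x) := ⟨hpx', T4 hpx' p0 hpw hwq hpq⟩
      have h1 := hx _ hf o1
      have h2 : H u z (p, q) (u x) < z x := lt_of_le_of_ne h1 (G.P1 _ hf x o1)
      exact G.CL hf hkE hne2 p0 o1.cc hfw.cc cx ck (by rw [hHx]; exact h2)
        (by rw [hHk]; exact hlt)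
  · intro v hv
    rcases lt_trichotomy (z v) (H u z (x, w) (u v)) with h | h | h
    · exact h
    · exact absurd h.symm (G.P1 _ hkE v hv)
    · exfalso
      exact cr_asymm hv.2 (hfirst v ⟨hv.1, Or.inr ⟨hv, h⟩⟩ (ne_of_cr hv.2))

/-- Every vertex other than the three top vertices lies below an edge joining two of them. -/
lemma Str.roof (S : Str u z E) {v : Fin n} (hv : v ∈ hasUp u z E) :
    ∃ p q, (p, q) ∈ E ∧ p ∉ hasUp u z E ∧ q ∉ hasUp u z E ∧ Ov u (p, q) (u v) ∧
      z v < H u z (p, q) (u v) := by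
  choose t ht using S.e1.top_ex
  have hE : ∀ x, (x, t x) ∈ E := fun x => (Finset.mem_filter.1 (ht x)).1
  have hc : ∀ x, 0 < cr (u x) (u (t x)) := fun x => S.G.pos _ (hE x)
  have henv : ∀ x, x ∉ hasUp u z E → t x ∉ hasUp u z E ∧
      ∀ v, Ov u (x, t x) (u v) → z v < H u z (x, t x) (u v) := by
    intro x hx
    rw [mem_hasUp, ← noUp_iff] at hx
    have := S.G.env S.west hx (ht x)
    refine ⟨?_, this.2⟩
    rw [mem_hasUp, ← noUp_iff]
    exact this.1
  have hcard := S.e1.cardN
  have hne : ((hasUp u z E)ᶜ).Nonempty := by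
    rw [← Finset.card_pos, hcard]; norm_num
  obtain ⟨a, ha⟩ := hne
  rw [Finset.mem_compl] at ha
  have hb := (henv a ha).1
  have hcc := (henv _ hb).1
  have hd := (henv _ hcc).1
  set b := t a with hbdef
  set c := t b with hcdef
  have hab : 0 < cr (u a) (u b) := hc a
  have hbc : 0 < cr (u b) (u c) := hc b
  have hcd : 0 < cr (u c) (u (t c)) := hc c
  have h1 : a ≠ b := ne_of_cr hab
  have h2 : b ≠ c := ne_of_cr hbc
  have h3 : a ≠ c := by
    intro h
    rw [← h] at hbc
    exact cr_asymm hab hbc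
  have hset : ({a, b, c} : Finset (Fin n)) = (hasUp u z E)ᶜ := by
    apply Finset.eq_of_subset_of_card_le
    · intro w hw
      simp only [Finset.mem_insert, Finset.mem_singleton] at hw
      rw [Finset.mem_compl]
      rcases hw with rfl | rfl | rfl
      · exact ha
      · exact hb
      · exact hcc
    · rw [hcard, Finset.card_insert_of_notMem, Finset.card_insert_of_notMem,
        Finset.card_singleton]
      · simpa using h2
      · simp [h1, h3]
  have hda : t c = a := by
    have : t c ∈ ({a, b, c} : Finset (Fin n)) := by rw [hset, Finset.mem_compl]; exact hd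
    simp only [Finset.mem_insert, Finset.mem_singleton] at this
    rcases this with h | h | h
    · exact h
    · rw [h] at hcd; exact absurd hbc (cr_asymm hcd)
    · rw [h, cr_self] at hcd; exact absurd hcd (lt_irrefl _)
  rw [hda] at hcd
  have hva : v ≠ a := by rintro rfl; exact ha hv
  have hvb : v ≠ b := by rintro rfl; exact hb hv
  have hvc : v ≠ c := by rintro rfl; exact hcc hv
  have key : ∀ x, x ∉ hasUp u z E → 0 < cr (u x) (u v) → 0 < cr (u v) (u (t x)) →
      ∃ p q, (p, q) ∈ E ∧ p ∉ hasUp u z E ∧ q ∉ hasUp u z E ∧ Ov u (p, q) (u v) ∧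
        z v < H u z (p, q) (u v) := by
    intro x hx h4 h5
    exact ⟨x, t x, hE x, hx, (henv x hx).1, ⟨h4, h5⟩, (henv x hx).2 v ⟨h4, h5⟩⟩
  have pl := plucker (u a) (u b) (u c) (u v)
  by_cases hA : 0 < cr (u a) (u v)
  · by_cases hB : 0 < cr (u b) (u v)
    · by_cases hC : 0 < cr (u c) (u v)
      · exfalso
        have hac : cr (u a) (u c) = - cr (u c) (u a) := cr_comm _ _
        have m1 := mul_pos hab hC
        have m2 := mul_pos hcd hB
        have m3 := mul_pos hA hbc
        rw [hac] at pl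
        linarith
      · exact key b hb hB (S.G.lt_of_not hvc.symm hC)
    · exact key a ha hA (S.G.lt_of_not hvb.symm hB)
  · have hA' := S.G.lt_of_not hva.symm hA
    by_cases hC : 0 < cr (u c) (u v)
    · exact key c hcc hC (by rw [hda]; exact hA')
    · have hC' := S.G.lt_of_not hvc.symm hC
      by_cases hB : 0 < cr (u b) (u v)
      · exact key b hb hB hC'
      · exfalso
        have hB' := S.G.lt_of_not hvb.symm hB
        rw [cr_comm (u a) (u c), cr_comm (u c) (u v), cr_comm (u b) (u v),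
          cr_comm (u a) (u v)] at pl
        have m1 := mul_pos hab hC'
        have m2 := mul_pos hcd hB'
        have m3 := mul_pos hA' hbc
        linarith

end Pool.Agent.R157.Sph
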