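import Pool.Agent.R157.Sph.Basic

namespace Pool.Agent.R157.Sph

variable {n : ℕ} {u : Fin n → ℝ × ℝ} {z : Fin n → ℝ} {E : Finset (Fin n × Fin n)}

/-- In a nonempty set of vertices east of `x` there is a first one. -/
lemma exists_first (unit : ∀ i, ip (u i) (u i) = 1) (gen : ∀ i j, i ≠ j → cr (u i) (u j) ≠ 0)
    (x : Fin n) (A : Set (Fin n)) (hA : ∃ v, v ∈ A)
    (hx : ∀ v ∈ A, 0 < cr (u x) (u v)) :
    ∃ v ∈ A, ∀ w ∈ A, w ≠ v → 0 < cr (u v) (u w) := by
  classical
  obtain ⟨v, hv, hm⟩ := Finset.exists_max_image (Finset.univ.filter (fun v => v ∈ A))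
    (fun v => ip (u x) (u v) / cr (u x) (u v))
    (by obtain ⟨v, hv⟩ := hA; exact ⟨v, by simp [hv]⟩)
  simp only [Finset.mem_filter, Finset.mem_univ, true_and] at hv hm
  refine ⟨v, hv, fun w hw hwv => ?_⟩
  have h := hm w hw
  have hxv := hx v hv
  have hxw := hx w hw
  rw [div_le_div_iff₀ hxw hxv] at h
  have e1 : cr (u v) (u w) = ip (u x) (u v) * cr (u x) (u w) - ip (u x) (u w) * cr (u x) (u v) := by
    have : cr (u v) (u w) = cr (u v) (u w) * ip (u x) (u x) := by rw [unit]; ring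
    rw [this]; unfold cr ip; ring
  have h2 : 0 ≤ cr (u v) (u w) := by rw [e1]; linarith
  exact lt_of_le_of_ne h2 (Ne.symm (gen v w (Ne.symm hwv)))

/-- The set of vertices in the closed wedge at `x` between the edge to `k` (below) and the edge to
`k'` (above). -/
def WA (u : Fin n → ℝ × ℝ) (z : Fin n → ℝ) (x k k' : Fin n) : Set (Fin n) :=
  {v | 0 < cr (u x) (u v) ∧ (v = k ∨ (Ov u (x, k) (u v) ∧ H u z (x, k) (u v) < z v)) ∧
    (v = k' ∨ (Ov u (x, k') (u v) ∧ z v < H u z (x, k') (u v)))}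

lemma WA_neg (x k k' : Fin n) : WA u (-z) x k' k = WA u z x k k' := by
  ext v
  unfold WA
  simp only [Set.mem_ofPred_eq, H_neg, Pi.neg_apply, neg_lt_neg_iff]
  tauto

lemma sl_neg (x k : Fin n) : sl u (-z) x k = - sl u z x k := by
  unfold sl; simp only [Pi.neg_apply]; ring

lemma Good.WA_nonempty (G : Good u z E) {x k k' : Fin n} (hk : (x, k) ∈ E) (hk' : (x, k') ∈ E)
    (hs : sl u z x k < sl u z x k') : ∃ v, v ∈ WA u z x k k' := by
  have p1 : 0 < cr (u x) (u k) := G.pos _ hk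
  have p2 : 0 < cr (u x) (u k') := G.pos _ hk'
  have hne : k ≠ k' := by rintro rfl; exact lt_irrefl _ hs
  rcases lt_or_gt_of_ne (G.gen k k' hne) with h3 | h3
  · -- k' is closer
    have h4 : 0 < cr (u k') (u k) := by rw [cr_comm]; linarith
    refine ⟨k', p2, Or.inr ⟨⟨p2, h4⟩, ?_⟩, Or.inl rfl⟩
    have e2 := H_sl u z x k' (G.unit x) p2.ne' (u k')
    have e3 : H u z (x, k') (u k') = z k' := H_snd u z (x, k') p2.ne'
    have e1 := H_sl u z x k (G.unit x) p1.ne' (u k')
    have := mul_lt_mul_of_pos_right hs p2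
    linarith
  · refine ⟨k, p1, Or.inl rfl, Or.inr ⟨⟨p1, h3⟩, ?_⟩⟩
    have e2 := H_sl u z x k (G.unit x) p1.ne' (u k)
    have e3 : H u z (x, k) (u k) = z k := H_snd u z (x, k) p1.ne'
    have e1 := H_sl u z x k' (G.unit x) p2.ne' (u k)
    have := mul_lt_mul_of_pos_right hs p1
    linarith

lemma Good.WA_up (G : Good u z E) {x k k' v : Fin n} (hk : (x, k) ∈ E) (hk' : (x, k') ∈ E)
    (hcons : ∀ q, (x, q) ∈ E → sl u z x k < sl u z x q → sl u z x k' ≤ sl u z x q)
    (hv : v ∈ WA u z x k k') (hfirst : ∀ w ∈ WA u z x k k', w ≠ v → 0 < cr (u v) (u w))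
    (hvk' : v ≠ k') : UpE u z E v (x, k') := by
  have p1 : 0 < cr (u x) (u k) := G.pos _ hk
  have p2 : 0 < cr (u x) (u k') := G.pos _ hk'
  obtain ⟨hxv, hlow, hhigh⟩ := hv
  have hhigh' : Ov u (x, k') (u v) ∧ z v < H u z (x, k') (u v) := by
    rcases hhigh with h | h
    · exact absurd h hvk'
    · exact h
  have hlow' : CC u (x, k) (u v) ∧ H u z (x, k) (u v) ≤ z v := by
    rcases hlow with h | h
    · subst h
      refine ⟨⟨hxv.le, ?_⟩, ?_⟩
      · simp [cr_self]
      · exact (H_snd u z (x, v) p1.ne').le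
    · exact ⟨h.1.cc, h.2.le⟩
  refine ⟨hk', hhigh'.1, hhigh'.2, ?_⟩
  intro f hf hfv hzf
  by_contra hlt
  rw [not_le] at hlt
  obtain ⟨p, q⟩ := f
  have hfk' : (p, q) ≠ (x, k') := by rintro h; rw [h] at hlt; exact lt_irrefl _ hlt
  have hfk : (p, q) ≠ (x, k) := by
    intro h
    rw [h] at hzf hfv
    rcases hlow with h1 | h1
    · subst h1
      have := hfv.2
      simp [cr_self] at this
    · linarith [h1.2]
  have hpv : 0 < cr (u p) (u v) := hfv.1
  have hvq : 0 < cr (u v) (u q) := hfv.2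
  have hpq : 0 < cr (u p) (u q) := G.pos _ hf
  by_cases hpx : p = x
  · -- an edge at x between
    subst hpx
    have e1 := H_sl u z p k (G.unit p) p1.ne' (u v)
    have e2 := H_sl u z p k' (G.unit p) p2.ne' (u v)
    have e3 := H_sl u z p q (G.unit p) hpq.ne' (u v)
    have hlt' : sl u z p q * cr (u p) (u v) < sl u z p k' * cr (u p) (u v) := by linarith
    have hgt' : sl u z p k * cr (u p) (u v) < sl u z p q * cr (u p) (u v) := by linarith [hlow'.2]
    have s1 := lt_of_mul_lt_mul_right hlt' hxv.le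
    have s2 := lt_of_mul_lt_mul_right hgt' hxv.le
    exact absurd (hcons q hf s2) (not_le.2 s1)
  by_cases hxp : 0 < cr (u x) (u p)
  · -- p between x and v
    have hpk' : 0 < cr (u p) (u k') := T4 hxp hpv hxv hhigh'.1.2 p2
    have hpk : 0 < cr (u p) (u k) := by
      rcases hlow with h | h
      · subst h; exact hpv
      · exact T4 hxp hpv hxv h.1.2 p1
    have o1 : Ov u (x, k') (u p) := ⟨hxp, hpk'⟩
    have o2 : Ov u (x, k) (u p) := ⟨hxp, hpk⟩
    have ccf : CC u (p, q) (u p) := ⟨by simp [cr_self], hpq.le⟩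
    have hHp : H u z (p, q) (u p) = z p := H_fst u z (p, q) hpq.ne'
    have a1 : z p < H u z (x, k') (u p) := by
      rcases lt_trichotomy (z p) (H u z (x, k') (u p)) with h | h | h
      · exact h
      · exact absurd h.symm (G.P1 _ hk' p o1)
      · exact absurd hlt (fun hlt => G.CL hk' hf hfk'.symm hpv o1.cc hhigh'.1.cc ccf hfv.cc
          (by rw [hHp]; exact h) hlt)
    have a2 : H u z (x, k) (u p) < z p := by
      rcases lt_trichotomy (z p) (H u z (x, k) (u p)) with h | h | h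
      · exfalso
        refine G.CL hf hk hfk hpv ccf hfv.cc o2.cc hlow'.1 (by rw [hHp]; exact h) ?_
        linarith [hlow'.2]
      · exact absurd h.symm (G.P1 _ hk p o2)
      · exact h
    have hpA : p ∈ WA u z x k k' := ⟨hxp, Or.inr ⟨o2, a2⟩, Or.inr ⟨o1, a1⟩⟩
    exact cr_asymm hpv (hfirst p hpA (ne_of_cr hpv))
  · have hpx' : 0 < cr (u p) (u x) := G.lt_of_not (Ne.symm hpx) hxp
    have hxq : 0 < cr (u x) (u q) := T4 hpx' hxv hpv hvq hpq
    have o1 : Ov u (p, q) (u x) := ⟨hpx', hxq⟩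
    have c1 : CC u (x, k') (u x) := ⟨by simp [cr_self], p2.le⟩
    have c2 : CC u (x, k) (u x) := ⟨by simp [cr_self], p1.le⟩
    have h1 : H u z (x, k') (u x) = z x := H_fst u z (x, k') p2.ne'
    have h2 : H u z (x, k) (u x) = z x := H_fst u z (x, k) p1.ne'
    rcases lt_trichotomy (z x) (H u z (p, q) (u x)) with h | h | h
    · exact G.CL hk' hf hfk'.symm hxv c1 hhigh'.1.cc o1.cc hfv.cc (by rw [h1]; exact h) hlt
    · exact G.P1 _ hf x o1 h.symm
    · refine G.CL hf hk hfk hxv o1.cc hfv.cc c2 hlow'.1 (by rw [h2]; exact h) ?_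
      linarith [hlow'.2]

/-- The wedge lemma. -/
lemma Good.wedge (G : Good u z E) {x k k' : Fin n} (hk : (x, k) ∈ E) (hk' : (x, k') ∈ E)
    (hs : sl u z x k < sl u z x k')
    (hcons : ∀ q, (x, q) ∈ E → sl u z x k < sl u z x q → sl u z x k' ≤ sl u z x q) :
    ∃ v, (v ≠ k' → UpE u z E v (x, k')) ∧ (v ≠ k → UpE u (-z) E v (x, k)) := by
  obtain ⟨v, hv, hfirst⟩ := exists_first G.unit G.gen x (WA u z x k k') (G.WA_nonempty hk hk' hs)
    (fun v hv => hv.1)
  refine ⟨v, fun h => G.WA_up hk hk' hcons hv hfirst h, fun h => ?_⟩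
  refine G.neg.WA_up (k := k') (k' := k) hk' hk ?_ (by rw [WA_neg]; exact hv)
    (by rw [WA_neg]; exact hfirst) h
  intro q hq hlt
  rw [sl_neg, sl_neg, neg_lt_neg_iff] at hlt
  rw [sl_neg, sl_neg, neg_le_neg_iff]
  by_contra hnot
  rw [not_le] at hnot
  exact absurd (hcons q hq hnot) (not_le.2 hlt)

/-- The vertices above an edge `e`, east of `x`, together with the east end of `e`. -/
def TA (u : Fin n → ℝ × ℝ) (z : Fin n → ℝ) (x : Fin n) (e : Fin n × Fin n) : Set (Fin n) :=
  {v | 0 < cr (u x) (u v) ∧ (v = e.2 ∨ (Ov u e (u v) ∧ H u z e (u v) < z v))}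

/-- Expansion of the height of an edge at an arbitrary vertex. -/
lemma H_exp (e : Fin n × Fin n) (x : Fin n) (hx : ip (u x) (u x) = 1) (p : ℝ × ℝ) :
    H u z e p = H u z e (u x) * ip (u x) p + H u z e (-(u x).2, (u x).1) * cr (u x) p := by
  have : p = ip (u x) p • u x + cr (u x) p • ((-(u x).2, (u x).1) : ℝ × ℝ) := by
    unfold ip at hx
    ext
    · simp only [ip, cr, Prod.fst_add, Prod.smul_fst, smul_eq_mul]
      linear_combination -hx * p.1
    · simp only [ip, cr, Prod.snd_add, Prod.smul_snd, smul_eq_mul]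
      linear_combination -hx * p.2
  conv_lhs => rw [this]
  rw [H_lin]; ring

/-- If some edge covers the directions just east of `x`, then there is a vertex within `π` east of
`x` with nothing above it. -/
lemma Good.exists_noUp (G : Good u z E) (x : Fin n) (hcov : ∃ e ∈ E, e.1 = x ∨ Ov u e (u x)) :
    ∃ v, NoUp u z E v ∧ 0 < cr (u x) (u v) := by
  classical
  obtain ⟨e, he, hmax⟩ := Finset.exists_max_image (E.filter (fun e => e.1 = x ∨ Ov u e (u x)))
    (fun e => toLex (H u z e (u x), H u z e (-(u x).2, (u x).1)))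
    (by obtain ⟨e, he, h⟩ := hcov; exact ⟨e, by simp only [Finset.mem_filter]; exact ⟨he, h⟩⟩)
  simp only [Finset.mem_filter] at he hmax
  obtain ⟨heE, hex⟩ := he
  have p0 : 0 < cr (u e.1) (u e.2) := G.pos _ heE
  have hxe2 : 0 < cr (u x) (u e.2) := by
    rcases hex with h | h
    · rw [← h]; exact p0
    · exact h.2
  obtain ⟨v, hv, hfirst⟩ := exists_first G.unit G.gen x (TA u z x e)
    ⟨e.2, hxe2, Or.inl rfl⟩ (fun v hv => hv.1)
  obtain ⟨hxv, hv2⟩ := hv
  refine ⟨v, ?_, hxv⟩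
  have ccx : CC u e (u x) := by
    rcases hex with h | h
    · exact ⟨by rw [h]; simp [cr_self], hxe2.le⟩
    · exact h.cc
  have hev : 0 < cr (u e.1) (u v) := by
    rcases hv2 with h | h
    · rw [h]; exact p0
    · exact h.1.1
  have ccv : CC u e (u v) ∧ H u z e (u v) ≤ z v := by
    rcases hv2 with h | h
    · rw [h]; exact ⟨⟨p0.le, by simp [cr_self]⟩, (H_snd u z e p0.ne').le⟩
    · exact ⟨h.1.cc, h.2.le⟩
  intro f hf hfv
  by_contra hlt
  rw [not_le] at hlt
  obtain ⟨p, q⟩ := f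
  have hpv : 0 < cr (u p) (u v) := hfv.1
  have hvq : 0 < cr (u v) (u q) := hfv.2
  have hpq : 0 < cr (u p) (u q) := G.pos _ hf
  have hfe : (p, q) ≠ e := by
    intro h
    rw [h] at hlt
    linarith [ccv.2]
  by_cases hxp : 0 < cr (u x) (u p)
  · -- p between x and v
    have hep : 0 < cr (u e.1) (u p) := by
      rcases hex with h | h
      · rw [h]; exact hxp
      · exact T4' h.1 hxp hxv hpv hev
    have hpe : 0 < cr (u p) (u e.2) := by
      rcases hv2 with h | h
      · rw [← h]; exact hpv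
      · exact T4 hxp hpv hxv h.1.2 hxe2
    have o1 : Ov u e (u p) := ⟨hep, hpe⟩
    have ccf : CC u (p, q) (u p) := ⟨by simp [cr_self], hpq.le⟩
    have hHp : H u z (p, q) (u p) = z p := H_fst u z (p, q) hpq.ne'
    have a2 : H u z e (u p) < z p := by
      rcases lt_trichotomy (z p) (H u z e (u p)) with h | h | h
      · exfalso
        refine G.CL hf heE hfe hpv ccf hfv.cc o1.cc ccv.1 (by rw [hHp]; exact h) ?_
        linarith [ccv.2]
      · exact absurd h.symm (G.P1 _ heE p o1)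
      · exact h
    exact cr_asymm hpv (hfirst p ⟨hxp, Or.inr ⟨o1, a2⟩⟩ (ne_of_cr hpv))
  · -- p at x or west of x
    have hcovf : p = x ∨ Ov u (p, q) (u x) := by
      by_cases hpx : p = x
      · exact Or.inl hpx
      · right
        have hpx' : 0 < cr (u p) (u x) := G.lt_of_not (Ne.symm hpx) hxp
        exact ⟨hpx', T4 hpx' hxv hpv hvq hpq⟩
    have hm := hmax (p, q) ⟨hf, hcovf⟩
    have ccfx : CC u (p, q) (u x) := by
      rcases hcovf with h | h
      · subst h; exact ⟨by simp [cr_self], hpq.le⟩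
      · exact h.cc
    rw [Prod.Lex.toLex_le_toLex] at hm
    rcases hm with h | ⟨h, h'⟩
    · exact G.CL hf heE hfe hxv ccfx hfv.cc ccx ccv.1 h (by linarith [ccv.2])
    · simp only at h h'
      have e1 := H_exp (z := z) (p, q) x (G.unit x) (u v)
      have e2 := H_exp (z := z) e x (G.unit x) (u v)
      rw [h] at e1
      have := mul_le_mul_of_nonneg_right h' hxv.le
      linarith [ccv.2]

/-- If all directions are covered, at least three vertices have nothing above them. -/
lemma Good.three_le (G : Good u z E) (hn : 0 < n)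
    (hcov : ∀ x, ∃ e ∈ E, e.1 = x ∨ Ov u e (u x)) (N : Finset (Fin n))
    (hN : ∀ v, NoUp u z E v → v ∈ N) : 3 ≤ N.card := by
  classical
  obtain ⟨a, ha, -⟩ := G.exists_noUp ⟨0, hn⟩ (hcov _)
  obtain ⟨b, hb, hab⟩ := G.exists_noUp a (hcov _)
  obtain ⟨c, hc, hbc⟩ := G.exists_noUp b (hcov _)
  have h1 : a ≠ b := ne_of_cr hab
  have h2 : b ≠ c := ne_of_cr hbc
  have h3 : a ≠ c := by
    rintro rfl
    exact cr_asymm hab hbc
  have : ({a, b, c} : Finset (Fin n)) ⊆ N := by
    intro w hw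
    simp only [Finset.mem_insert, Finset.mem_singleton] at hw
    rcases hw with rfl | rfl | rfl
    · exact hN _ ha
    · exact hN _ hb
    · exact hN _ hc
  calc 3 = ({a, b, c} : Finset (Fin n)).card := by
        rw [Finset.card_insert_of_notMem, Finset.card_insert_of_notMem, Finset.card_singleton]
        · simpa using h2
        · simp [h1, h3]
    _ ≤ N.card := Finset.card_le_card this

end Pool.Agent.R157.Sph
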